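import Pool.Agent.H521_col.Main3

/-!
Three colours: the upper bound for all graphs.
-/

set_option linter.unusedSectionVars false

namespace Pool.Agent.H521_col

open Finset
open scoped Classical

variable {V : Type*} [Fintype V] [DecidableEq V]

theorem e2_le {G : SimpleGraph V} {S : Finset V} : e2 G S ≤ S.card * (S.card - 1) := by
  rw [← smul_eq_mul]
  apply sum_le_card_nsmul
  intro v hv
  have := dg_le_card (G := G) hv
  omega

theorem amgm (b c : ℕ) : 2 * 2 ^ ((b + c + b) / 2) ≤ 2 ^ (b + c) + 2 ^ b := by
  have h1 : (b + c + b) / 2 = b + c / 2 := by omega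
  rw [h1, pow_add, pow_add]
  have h2 : 2 ^ (2 * (c / 2)) ≤ 2 ^ c := Nat.pow_le_pow_right (by norm_num) (by omega)
  have h3 : 2 ^ (2 * (c / 2)) = 2 ^ (c / 2) * 2 ^ (c / 2) := by ring
  rw [h3] at h2
  have h4 := one_le_two_pow' (c / 2)
  generalize 2 ^ (c / 2) = y at *
  generalize 2 ^ c = C at *
  generalize 2 ^ b = B at *
  have h5 : 2 * y ≤ C + 1 := by nlinarith
  calc 2 * (B * y) = B * (2 * y) := by ring
    _ ≤ B * (C + 1) := Nat.mul_le_mul_left _ h5
    _ = B * C + B := by ring

/-- the parameters of the extremal graphs -/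
def Par (n m a b k : ℕ) : Prop :=
  1 ≤ b ∧ b ≤ a ∧ a + b ≤ n ∧ a * b = m + k ∧ k + b ≤ a ∧ (b = 1 → k = 0)

theorem upper_all (N : ℕ) : ∀ (G : SimpleGraph V) (S : Finset V), S.card = N → ∀ m : ℕ, 1 ≤ m →
    4 * m ≤ N * N → 2 * m ≤ e2 G S →
    ∃ a b k, Par N m a b k ∧ P G S + 12 * 3 ^ (N - a - b) ≤ 3 ^ (N - a - b) * val a b k := by
  induction N with
  | zero =>
    intro G S _ m h1 h2
    omega
  | succ N ih =>
    intro G S hS m h1 h2 h3
    obtain ⟨a, b, k, hb, hn, hk, he⟩ := canonical h1 h2
    by_cases hc : Conn G S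
    · rcases Nat.eq_or_lt_of_le hb with hb1 | hb2
      · refine ⟨m, 1, 0, ⟨le_refl _, h1, ?_, ?_, ?_, fun _ => rfl⟩, ?_⟩
        · rw [← hb1] at he hn
          omega
        · omega
        · omega
        · have h4 := conn_tree hc
          rw [← hb1] at he hn
          have e1 : S.card - 1 = k + m := by omega
          have e2' : N + 1 - m - 1 = k := by omega
          rw [e1] at h4
          rw [e2']
          have h5 : 2 ^ k ≤ 3 ^ k := Nat.pow_le_pow_left (by norm_num) k
          have h6 : 3 * 2 ^ (k + m) ≤ 3 ^ k * (3 * 2 ^ m) := by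
            calc 3 * 2 ^ (k + m) = 2 ^ k * (3 * 2 ^ m) := by ring
              _ ≤ _ := Nat.mul_le_mul_right _ h5
          unfold val
          calc P G S + 12 * 3 ^ k ≤ 3 ^ k * (3 * 2 ^ m) + 12 * 3 ^ k := by omega
            _ = 3 ^ k * (3 * 2 ^ m + 3 * 2 ^ 1 + 6 * 2 ^ 0) := by ring
      · refine ⟨a, b, k, ⟨hb, by omega, by omega, by omega, hk, by omega⟩, ?_⟩
        have h4 := connected_main (V := V) (N + 2) G S (by omega) hc a b k hb (by omega) hk (by
          omega)
        have e1 : N + 1 - a - b = 0 := by omega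
        rw [e1]
        omega
    · obtain ⟨G', S', hcard, he', hP⟩ := disc_reduce (by rw [← card_pos]; omega) hc
      by_cases h4 : 4 * m ≤ N * N
      · obtain ⟨a', b', k', ⟨q1, q2, q3, q4, q5, q6⟩, hle⟩ := ih G' S' (by omega) m h1 h4 (by omega)
        refine ⟨a', b', k', ⟨q1, q2, by omega, q4, q5, q6⟩, ?_⟩
        have e1 : N + 1 - a' - b' = (N - a' - b') + 1 := by omega
        rw [e1, pow_succ]
        calc P G S + 12 * (3 ^ (N - a' - b') * 3)
            ≤ 3 * P G' S' + 12 * (3 ^ (N - a' - b') * 3) := Nat.add_le_add_right hP _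
          _ = 3 * (P G' S' + 12 * 3 ^ (N - a' - b')) := by ring
          _ ≤ 3 * (3 ^ (N - a' - b') * val a' b' k') := Nat.mul_le_mul_left _ hle
          _ = _ := by ring
      · push Not at h4
        have hS' : S'.card = N := by omega
        have h5 := e2_le (G := G') (S := S')
        rw [hS'] at h5
        have hN : 3 ≤ N := by
          by_contra hcon
          push Not at hcon
          interval_cases N
          · omega
          · omega
          · omega
        have h6 : 2 * P G' S' ≤ 6 * 2 ^ ((N - 1) / 2) := by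
          apply dense3 (by omega) (by omega)
          rw [hS']
          omega
        have e0 : (N - 1) / 2 + 1 = (N + 1) / 2 := by omega
        have e00 : 2 * 2 ^ ((N - 1) / 2) = 2 ^ ((N + 1) / 2) := by
          rw [← e0]
          ring
        rcases Nat.eq_or_lt_of_le hb with hb1 | hb2
        · -- `N = 3`
          rw [← hb1] at he hn
          have hN4 : N < 4 := by nlinarith
          have hN3 : N = 3 := by omega
          subst hN3
          have hm3 : m = 3 := by omega
          subst hm3
          refine ⟨3, 1, 0, ⟨by norm_num, by norm_num, by norm_num, by norm_num, by norm_num,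
            fun _ => rfl⟩, ?_⟩
          unfold val
          norm_num at h6 ⊢
          omega
        · refine ⟨a, b, k, ⟨hb, by omega, by omega, by omega, hk, by omega⟩, ?_⟩
          have e1 : N + 1 - a - b = 0 := by omega
          rw [e1]
          obtain ⟨c, rfl⟩ : ∃ c, a = b + c := ⟨a - b, by omega⟩
          have h7 := amgm b c
          rw [hn] at h7
          have h8 := four_le_two_pow (n := (N + 1) / 2) (by omega)
          have h9 := one_le_two_pow' k
          unfold val
          omega

end Pool.Agent.H521_col
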