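import Mathlib

/-!
Proper colourings of induced subgraphs, and elementary counting bounds.
All colourings of the subgraph of `G` induced on `S` are normalised to be `0` outside `S`.
-/

set_option linter.unusedSectionVars false

namespace Pool.Agent.H521_col

open Finset
open scoped Classical

section defs

variable {V : Type*} [Fintype V] [DecidableEq V]

/-- proper colourings of the subgraph of `G` induced on `S`, extended by `0` outside `S`. -/
noncomputable def Col (α : Type*) [Fintype α] [Zero α] (G : SimpleGraph V) (S : Finset V) :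
    Finset (V → α) :=
  univ.filter (fun c => (∀ w, w ∉ S → c w = 0) ∧ ∀ u ∈ S, ∀ v ∈ S, G.Adj u v → c u ≠ c v)

/-- neighbours of `v` inside `S` -/
noncomputable def nb (G : SimpleGraph V) (S : Finset V) (v : V) : Finset V :=
  S.filter (fun w => G.Adj v w)

/-- degree of `v` into `S` -/
noncomputable def dg (G : SimpleGraph V) (S : Finset V) (v : V) : ℕ := (nb G S v).card

/-- twice the number of edges inside `S` -/
noncomputable def e2 (G : SimpleGraph V) (S : Finset V) : ℕ := ∑ v ∈ S, dg G S v

/-- restriction to `T`, extended by `0` -/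
def res {α : Type*} [Zero α] (T : Finset V) (c : V → α) : V → α := fun w => if w ∈ T then c w else 0

end defs

section basics

variable {V : Type*} [Fintype V] [DecidableEq V]
variable {α : Type*} [Fintype α] [DecidableEq α] [Zero α]

theorem mem_Col {G : SimpleGraph V} {S : Finset V} {c : V → α} :
    c ∈ Col α G S ↔ (∀ w, w ∉ S → c w = 0) ∧ ∀ u ∈ S, ∀ v ∈ S, G.Adj u v → c u ≠ c v := by
  simp [Col]

theorem mem_nb {G : SimpleGraph V} {S : Finset V} {v w : V} :
    w ∈ nb G S v ↔ w ∈ S ∧ G.Adj v w := by
  simp [nb]

theorem res_apply_of_mem {T : Finset V} {c : V → α} {w : V} (h : w ∈ T) : res T c w = c w := by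
  simp [res, h]

theorem res_apply_of_notMem {T : Finset V} {c : V → α} {w : V} (h : w ∉ T) : res T c w = 0 := by
  simp [res, h]

theorem res_res {T U : Finset V} (h : T ⊆ U) (c : V → α) : res T (res U c) = res T c := by
  funext w
  by_cases hw : w ∈ T
  · simp [res, hw, h hw]
  · simp [res, hw]

theorem res_eq_self {G : SimpleGraph V} {S : Finset V} {c : V → α} (h : c ∈ Col α G S) :
    res S c = c := by
  funext w
  by_cases hw : w ∈ S
  · simp [res, hw]
  · rw [res_apply_of_notMem hw, (mem_Col.1 h).1 w hw]

theorem res_eq_iff {T : Finset V} {c c' : V → α} :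
    res T c = res T c' ↔ ∀ w ∈ T, c w = c' w := by
  constructor
  · intro h w hw
    have := congrFun h w
    rwa [res_apply_of_mem hw, res_apply_of_mem hw] at this
  · intro h
    funext w
    by_cases hw : w ∈ T
    · rw [res_apply_of_mem hw, res_apply_of_mem hw, h w hw]
    · rw [res_apply_of_notMem hw, res_apply_of_notMem hw]

theorem res_mem_Col {G : SimpleGraph V} {S T : Finset V} (h : T ⊆ S) {c : V → α}
    (hc : c ∈ Col α G S) : res T c ∈ Col α G T := by
  rw [mem_Col] at hc ⊢
  refine ⟨fun w hw => res_apply_of_notMem hw, fun u hu v hv huv => ?_⟩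
  rw [res_apply_of_mem hu, res_apply_of_mem hv]
  exact hc.2 u (h hu) v (h hv) huv

/-- extending by one vertex -/
theorem step {X : Finset (V → α)} {T : Finset V} {w : V} (k : ℕ)
    (h : ∀ c ∈ X, ((X.filter (fun c' => res T c' = res T c)).image (fun c' => c' w)).card ≤ k) :
    (X.image (res (insert w T))).card ≤ k * (X.image (res T)).card := by
  apply card_le_mul_card_image_of_maps_to (f := res T)
  · intro b hb
    rw [mem_image] at hb ⊢
    obtain ⟨c, hc, rfl⟩ := hb
    exact ⟨c, hc, (res_res (subset_insert w T) c).symm⟩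
  · intro b hb
    rw [mem_image] at hb
    obtain ⟨c, hc, rfl⟩ := hb
    refine le_trans ?_ (h c hc)
    apply card_le_card_of_injOn (fun c' => c' w)
    · intro d hd
      simp only [coe_filter, mem_image, Set.mem_ofPred_eq] at hd
      obtain ⟨⟨c', hc', rfl⟩, h2⟩ := hd
      rw [res_res (subset_insert w T)] at h2
      simp only [coe_image, Set.mem_image, coe_filter, Set.mem_ofPred_eq]
      exact ⟨c', ⟨hc', h2⟩, by rw [res_apply_of_mem (mem_insert_self w T)]⟩
    · intro d hd d' hd' hdd
      simp only [coe_filter, mem_image, Set.mem_ofPred_eq] at hd hd'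
      obtain ⟨⟨c1, hc1, rfl⟩, h1⟩ := hd
      obtain ⟨⟨c2, hc2, rfl⟩, h2⟩ := hd'
      rw [res_eq_iff]
      simp only at hdd
      rw [res_apply_of_mem (mem_insert_self w T), res_apply_of_mem (mem_insert_self w T)] at hdd
      rw [res_res (subset_insert w T)] at h1 h2
      intro x hx
      rcases mem_insert.1 hx with rfl | hx
      · exact hdd
      · exact (res_eq_iff.1 (h1.trans h2.symm)) x hx

/-- extending by a vertex adjacent to `T` -/
theorem step_adj {G : SimpleGraph V} {S : Finset V} {X : Finset (V → α)} (hX : X ⊆ Col α G S)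
    {T : Finset V} (hT : T ⊆ S) {u w : V} (hu : u ∈ T) (hw : w ∈ S) (huw : G.Adj u w) :
    (X.image (res (insert w T))).card ≤ (Fintype.card α - 1) * (X.image (res T)).card := by
  apply step
  intro c _
  rw [← card_univ, ← card_erase_of_mem (mem_univ (c u))]
  apply card_le_card
  intro a ha
  rw [mem_image] at ha
  obtain ⟨c', hc', rfl⟩ := ha
  rw [mem_filter] at hc'
  rw [mem_erase]
  refine ⟨?_, mem_univ _⟩
  have h1 := (res_eq_iff.1 hc'.2) u hu
  rw [← h1]
  exact ((mem_Col.1 (hX hc'.1)).2 u (hT hu) w hw huw).symm

/-- the spanning tree bound -/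
theorem tree_bound {G : SimpleGraph V} {S : Finset V} {X : Finset (V → α)} (hX : X ⊆ Col α G S) :
    ∀ (k : ℕ) (T : Finset V), (S \ T).card = k → T ⊆ S →
    (∀ T' : Finset V, T ⊆ T' → T' ⊆ S → T' ≠ S → ∃ u ∈ T', ∃ w ∈ S \ T', G.Adj u w) →
    X.card ≤ (Fintype.card α - 1) ^ k * (X.image (res T)).card := by
  intro k
  induction k with
  | zero =>
    intro T hk hT _
    have : T = S := by
      rw [card_eq_zero, sdiff_eq_empty_iff_subset] at hk
      exact Subset.antisymm hT hk
    subst this
    rw [pow_zero, one_mul]
    apply le_of_eq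
    symm
    apply card_image_of_injOn
    intro c hc c' hc' h
    rw [res_eq_self (hX hc), res_eq_self (hX hc')] at h
    exact h
  | succ k ih =>
    intro T hk hT hconn
    have hne : T ≠ S := by
      rintro rfl
      simp at hk
    obtain ⟨u, hu, w, hw, huw⟩ := hconn T (Subset.refl _) hT hne
    rw [mem_sdiff] at hw
    have hT' : insert w T ⊆ S := insert_subset hw.1 hT
    have hk' : (S \ insert w T).card = k := by
      have h1 : S \ T = insert w (S \ insert w T) := by
        ext x
        simp only [mem_sdiff, mem_insert, not_or]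
        constructor
        · rintro ⟨h1, h2⟩
          by_cases hxw : x = w
          · exact Or.inl hxw
          · exact Or.inr ⟨h1, hxw, h2⟩
        · rintro (rfl | ⟨h1, _, h3⟩)
          · exact hw
          · exact ⟨h1, h3⟩
      rw [h1, card_insert_of_notMem (by simp)] at hk
      omega
    have h2 := ih (insert w T) hk' hT' (fun T' h1 h2 h3 =>
      hconn T' ((subset_insert w T).trans h1) h2 h3)
    have h3 := step_adj hX hT hu hw.1 huw
    calc X.card ≤ (Fintype.card α - 1) ^ k * (X.image (res (insert w T))).card := h2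
      _ ≤ (Fintype.card α - 1) ^ k * ((Fintype.card α - 1) * (X.image (res T)).card) :=
          Nat.mul_le_mul_left _ h3
      _ = _ := by ring

/-! ### degrees and edges -/

theorem nb_insert {G : SimpleGraph V} {S : Finset V} {v w : V} :
    nb G (insert w S) v = if G.Adj v w then insert w (nb G S v) else nb G S v := by
  simp [nb, filter_insert]

theorem dg_insert {G : SimpleGraph V} {S : Finset V} {v w : V} (hw : w ∉ S) :
    dg G (insert w S) v = dg G S v + if G.Adj v w then 1 else 0 := by
  rw [dg, nb_insert]
  split_ifs with h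
  · rw [card_insert_of_notMem (fun h' => hw (mem_nb.1 h').1), dg]
  · rw [dg, add_zero]

theorem dg_insert_self {G : SimpleGraph V} {S : Finset V} {v : V} :
    dg G (insert v S) v = dg G S v := by
  rw [dg, nb_insert, if_neg (G.loopless.irrefl v), dg]

theorem dg_eq_sum {G : SimpleGraph V} {S : Finset V} {v : V} :
    dg G S v = ∑ w ∈ S, if G.Adj v w then 1 else 0 := by
  rw [dg, nb, card_filter]

theorem sum_adj_eq_dg {G : SimpleGraph V} {S : Finset V} {v : V} :
    (∑ w ∈ S, if G.Adj w v then 1 else 0) = dg G S v := by
  rw [dg_eq_sum]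
  apply sum_congr rfl
  intro w _
  simp [G.adj_comm]

theorem e2_insert {G : SimpleGraph V} {S : Finset V} {w : V} (hw : w ∉ S) :
    e2 G (insert w S) = e2 G S + 2 * dg G S w := by
  rw [e2, sum_insert hw, dg_insert_self, sum_congr rfl (fun v _ => dg_insert (G := G) hw),
    sum_add_distrib, sum_adj_eq_dg, e2]
  ring

theorem e2_erase {G : SimpleGraph V} {S : Finset V} {w : V} (hw : w ∈ S) :
    e2 G S = e2 G (S.erase w) + 2 * dg G S w := by
  have h := e2_insert (G := G) (S := S.erase w) (w := w) (notMem_erase w S)
  rw [insert_erase hw] at h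
  rw [h]
  congr 2
  conv_rhs => rw [← insert_erase hw]
  rw [dg_insert_self]

theorem dg_erase {G : SimpleGraph V} {S : Finset V} {v w : V} (hw : w ∈ S) :
    dg G S v = dg G (S.erase w) v + if G.Adj v w then 1 else 0 := by
  have h := dg_insert (G := G) (S := S.erase w) (v := v) (w := w) (notMem_erase w S)
  rwa [insert_erase hw] at h

end basics

end Pool.Agent.H521_col
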