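import Pool.Agent.H521_col.Basic

/-!
Connected graphs and three colours: the tree bound and the deletion bound.
-/

set_option linter.unusedSectionVars false

namespace Pool.Agent.H521_col

open Finset
open scoped Classical

variable {V : Type*} [Fintype V] [DecidableEq V]

/-- `G` induces a connected graph on `S` -/
def Conn (G : SimpleGraph V) (S : Finset V) : Prop :=
  S.Nonempty ∧ ∀ T ⊆ S, T.Nonempty → T ≠ S → ∃ u ∈ T, ∃ w ∈ S \ T, G.Adj u w

/-- number of proper three-colourings of the graph induced on `S` -/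
noncomputable def P (G : SimpleGraph V) (S : Finset V) : ℕ := (Col (Fin 3) G S).card

theorem card_image_res_self {G : SimpleGraph V} {S : Finset V} {X : Finset (V → Fin 3)}
    (hX : X ⊆ Col (Fin 3) G S) : (X.image (res S)).card = X.card := by
  apply card_image_of_injOn
  intro c hc c' hc' h
  rw [res_eq_self (hX hc), res_eq_self (hX hc')] at h
  exact h

/-- the functions in the image of `res T` which are constant on `T` number at most three -/
theorem card_image_const {X : Finset (V → Fin 3)} {T : Finset V} (hT : T.Nonempty)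
    (h : ∀ c ∈ X, ∀ u ∈ T, ∀ v ∈ T, c u = c v) : (X.image (res T)).card ≤ 3 := by
  obtain ⟨u, hu⟩ := hT
  have : (X.image (res T)).card ≤ (univ : Finset (Fin 3)).card := by
    apply card_le_card_of_injOn (fun c => c u)
    · intro c _
      simp
    · intro c hc c' hc' hcc
      rw [mem_coe, mem_image] at hc hc'
      obtain ⟨d, hd, rfl⟩ := hc
      obtain ⟨d', hd', rfl⟩ := hc'
      rw [res_eq_iff]
      intro w hw
      simp only at hcc
      rw [res_apply_of_mem hu, res_apply_of_mem hu] at hcc
      rw [h d hd w hw u hu, h d' hd' w hw u hu, hcc]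
  simpa using this

theorem conn_tree {G : SimpleGraph V} {S : Finset V} (h : Conn G S) :
    P G S ≤ 3 * 2 ^ (S.card - 1) := by
  obtain ⟨v, hv⟩ := h.1
  have h1 := tree_bound (α := Fin 3) (Subset.refl (Col (Fin 3) G S)) (S \ {v}).card {v} rfl
    (singleton_subset_iff.2 hv) (fun T' h1 h2 h3 => h.2 T' h2 ⟨v, h1 (mem_singleton_self v)⟩ h3)
  have h2 : (S \ {v}).card = S.card - 1 := by
    rw [sdiff_singleton_eq_erase, card_erase_of_mem hv]
  have h3 : ((Col (Fin 3) G S).image (res {v})).card ≤ 3 := by
    apply card_image_const (singleton_nonempty v)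
    intro c _ u hu w hw
    rw [mem_singleton] at hu hw
    rw [hu, hw]
  rw [h2] at h1
  simp only [Fintype.card_fin] at h1
  calc P G S ≤ 2 ^ (S.card - 1) * ((Col (Fin 3) G S).image (res {v})).card := h1
    _ ≤ 2 ^ (S.card - 1) * 3 := Nat.mul_le_mul_left _ h3
    _ = _ := by ring

theorem fin3_two (a : Fin 3) : (univ.filter (fun x : Fin 3 => a ≠ x)).card ≤ 2 := by
  revert a
  decide

theorem fin3_one (a b : Fin 3) (h : a ≠ b) :
    (univ.filter (fun x : Fin 3 => a ≠ x ∧ b ≠ x)).card ≤ 1 := by
  revert a b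
  decide

/-- adding a vertex adjacent to everything in `N` -/
theorem step_mono {X : Finset (V → Fin 3)} {T N : Finset V} {w : V} (hN : N ⊆ T)
    (hne : N.Nonempty) (h : ∀ c ∈ X, ∀ u ∈ N, c u ≠ c w) :
    (X.image (res (insert w T))).card ≤ (X.image (res T)).card +
      ((X.image (res T)).filter (fun b => ∀ u ∈ N, ∀ v ∈ N, b u = b v)).card := by
  rw [card_filter, card_eq_sum_ones (X.image (res T)), ← sum_add_distrib]
  rw [card_eq_sum_card_fiberwise (f := res T) (t := X.image (res T))]
  · apply sum_le_sum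
    intro b hb
    rw [mem_image] at hb
    obtain ⟨c, hc, rfl⟩ := hb
    have key : ∀ A : Finset (Fin 3), (∀ c' ∈ X, res T c' = res T c → c' w ∈ A) →
        ((X.image (res (insert w T))).filter (fun d => res T d = res T c)).card ≤ A.card := by
      intro A hA
      apply card_le_card_of_injOn (fun d => d w)
      · intro d hd
        simp only [coe_filter, mem_image, Set.mem_ofPred_eq] at hd
        obtain ⟨⟨c', hc', rfl⟩, h2⟩ := hd
        rw [res_res (subset_insert w T)] at h2
        rw [mem_coe]
        show res (insert w T) c' w ∈ A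
        rw [res_apply_of_mem (mem_insert_self w T)]
        exact hA c' hc' h2
      · intro d hd d' hd' hdd
        simp only [coe_filter, mem_image, Set.mem_ofPred_eq] at hd hd'
        obtain ⟨⟨c1, hc1, rfl⟩, h1⟩ := hd
        obtain ⟨⟨c2, hc2, rfl⟩, h2⟩ := hd'
        rw [res_eq_iff]
        simp only at hdd
        rw [res_apply_of_mem (mem_insert_self w T), res_apply_of_mem (mem_insert_self w T)] at hdd
        rw [res_res (subset_insert w T)] at h1 h2
        intro x hx
        rcases mem_insert.1 hx with rfl | hx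
        · exact hdd
        · exact (res_eq_iff.1 (h1.trans h2.symm)) x hx
    by_cases hm : ∀ u ∈ N, ∀ v ∈ N, res T c u = res T c v
    · rw [if_pos hm]
      obtain ⟨u, hu⟩ := hne
      refine (key (univ.filter (fun x : Fin 3 => c u ≠ x)) ?_).trans (fin3_two (c u))
      intro c' hc' hcc
      rw [mem_filter]
      refine ⟨mem_univ _, ?_⟩
      rw [← (res_eq_iff.1 hcc) u (hN hu)]
      exact h c' hc' u hu
    · rw [if_neg hm, add_zero]
      push Not at hm
      obtain ⟨u, hu, v, hv, huv⟩ := hm
      rw [res_apply_of_mem (hN hu), res_apply_of_mem (hN hv)] at huv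
      refine (key (univ.filter (fun x : Fin 3 => c u ≠ x ∧ c v ≠ x)) ?_).trans
        (fin3_one (c u) (c v) huv)
      intro c' hc' hcc
      rw [mem_filter]
      refine ⟨mem_univ _, ?_⟩
      rw [← (res_eq_iff.1 hcc) u (hN hu), ← (res_eq_iff.1 hcc) v (hN hv)]
      exact ⟨h c' hc' u hu, h c' hc' v hv⟩
  · intro d hd
    rw [mem_coe, mem_image] at hd
    obtain ⟨c, hc, rfl⟩ := hd
    rw [res_res (subset_insert w T), mem_coe, mem_image]
    exact ⟨c, hc, rfl⟩

theorem Conn.dg_pos {G : SimpleGraph V} {S : Finset V} (h : Conn G S) {v : V} (hv : v ∈ S)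
    (h2 : 2 ≤ S.card) : (nb G S v).Nonempty := by
  obtain ⟨u, hu, w, hw, huw⟩ := h.2 {v} (singleton_subset_iff.2 hv) (singleton_nonempty v) (by
    rintro rfl
    simp at h2)
  rw [mem_singleton] at hu
  subst hu
  exact ⟨w, mem_nb.2 ⟨(mem_sdiff.1 hw).1, huw⟩⟩

theorem nb_subset_erase {G : SimpleGraph V} {S : Finset V} {v : V} : nb G S v ⊆ S.erase v := by
  intro w hw
  rw [mem_nb] at hw
  rw [mem_erase]
  exact ⟨fun h => G.loopless.irrefl v (h ▸ hw.2), hw.1⟩

/-- outside neighbours after deleting a vertex -/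
theorem Conn.out {G : SimpleGraph V} {S : Finset V} (h : Conn G S) {v : V} (hv : v ∈ S)
    {T' : Finset V} (hT : nb G S v ⊆ T') (hT' : T' ⊆ S.erase v) (hne : T' ≠ S.erase v) :
    ∃ u ∈ T', ∃ w ∈ S.erase v \ T', G.Adj u w := by
  obtain ⟨u, hu, w, hw, huw⟩ := h.2 (insert v T')
    (insert_subset hv (hT'.trans (erase_subset v S))) (insert_nonempty v T') (by
      intro heq
      apply hne
      rw [← heq, erase_insert]
      intro hvT
      exact notMem_erase v S (hT' hvT))
  rw [mem_sdiff, mem_insert, not_or] at hw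
  have hw' : w ∈ S.erase v \ T' := by
    rw [mem_sdiff, mem_erase]
    exact ⟨⟨hw.2.1, hw.1⟩, hw.2.2⟩
  rcases mem_insert.1 hu with rfl | hu
  · exact absurd (hT (mem_nb.2 ⟨hw.1, huw⟩)) hw.2.2
  · exact ⟨u, hu, w, hw', huw⟩

/-- the number of colourings in which the neighbourhood of `v` is monochromatic -/
theorem mono_bound {G : SimpleGraph V} {S : Finset V} (h : Conn G S) {v : V} (hv : v ∈ S)
    (h2 : 2 ≤ S.card) :
    ((Col (Fin 3) G (S.erase v)).filter
      (fun b => ∀ u ∈ nb G S v, ∀ w ∈ nb G S v, b u = b w)).card ≤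
      3 * 2 ^ (S.card - 1 - dg G S v) := by
  set X := (Col (Fin 3) G (S.erase v)).filter
      (fun b => ∀ u ∈ nb G S v, ∀ w ∈ nb G S v, b u = b w) with hX
  have h1 := tree_bound (α := Fin 3) (G := G) (S := S.erase v) (X := X) (filter_subset _ _)
    (S.erase v \ nb G S v).card (nb G S v) rfl nb_subset_erase
    (fun T' h1 h2 h3 => h.out hv h1 h2 h3)
  have h3 : (S.erase v \ nb G S v).card = S.card - 1 - dg G S v := by
    rw [card_sdiff_of_subset nb_subset_erase, card_erase_of_mem hv, dg]
  have h4 : (X.image (res (nb G S v))).card ≤ 3 := by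
    apply card_image_const (h.dg_pos hv h2)
    intro c hc
    exact (mem_filter.1 hc).2
  rw [h3] at h1
  simp only [Fintype.card_fin] at h1
  calc X.card ≤ 2 ^ (S.card - 1 - dg G S v) * (X.image (res (nb G S v))).card := h1
    _ ≤ 2 ^ (S.card - 1 - dg G S v) * 3 := Nat.mul_le_mul_left _ h4
    _ = _ := by ring

/-- deletion of a vertex -/
theorem erase_bound {G : SimpleGraph V} {S : Finset V} (h : Conn G S) {v : V} (hv : v ∈ S)
    (h2 : 2 ≤ S.card) :
    P G S ≤ P G (S.erase v) + 3 * 2 ^ (S.card - 1 - dg G S v) := by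
  have h1 := step_mono (X := Col (Fin 3) G S) (T := S.erase v) (N := nb G S v) (w := v)
    nb_subset_erase (h.dg_pos hv h2) (by
      intro c hc u hu
      rw [mem_nb] at hu
      exact (mem_Col.1 hc).2 u hu.1 v hv hu.2.symm)
  rw [insert_erase hv, card_image_res_self (Subset.refl _)] at h1
  have h3 : (Col (Fin 3) G S).image (res (S.erase v)) ⊆ Col (Fin 3) G (S.erase v) := by
    intro b hb
    rw [mem_image] at hb
    obtain ⟨c, hc, rfl⟩ := hb
    exact res_mem_Col (erase_subset v S) hc
  refine h1.trans (Nat.add_le_add (card_le_card h3) ?_)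
  exact (card_le_card (filter_subset_filter _ h3)).trans (mono_bound h hv h2)

end Pool.Agent.H521_col
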