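import Pool.Agent.H521_col.Opt3

/-!
The union of parts in an optimal solution consists of exactly two parts.
-/

set_option linter.unusedSectionVars false

namespace Pool.Agent.H521_col.Opt

open Finset
open scoped Classical

variable {q : ℕ}

section struct

variable {g : ℕ → ℝ} (hg : StrictMono g) {n M : ℝ} {x : Finset (Fin q) → ℝ}
  (hx : IsMin (fun A : Finset (Fin q) => g A.card) n M x)

include hg hx

/-- a label that is a union of parts is a union of two parts -/
theorem two_parts (hcr : ∀ s l u : ℕ, 1 ≤ s → 1 ≤ l → s + l < u → u ≤ q →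
      g s + g u < g (s + l) + g (u - l))
    {P : Finset (Finset (Fin q))} (hPne : ∀ A ∈ P, A.Nonempty)
    (hPdis : ∀ A ∈ P, ∀ B ∈ P, A ≠ B → Disjoint A B) {B : Finset (Fin q)} (hBP : B ∉ P)
    (hsupp : supp x = insert B P) {Q : Finset (Finset (Fin q))} (hQP : Q ⊆ P)
    (hBQ : B = Q.biUnion id) : Q.card = 2 := by
  have hBs : B ∈ supp x := by
    rw [hsupp]
    exact mem_insert_self B P
  have hBne := supp_nonempty hx hBs
  have hQne : Q.Nonempty := by
    by_contra h
    rw [not_nonempty_iff_eq_empty] at h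
    rw [h, biUnion_empty] at hBQ
    exact hBne.ne_empty hBQ
  have hQ1 : Q.card ≠ 1 := by
    intro h
    obtain ⟨A, hA⟩ := card_eq_one.1 h
    rw [hA, singleton_biUnion] at hBQ
    apply hBP
    rw [hBQ]
    exact hQP (by rw [hA]; exact mem_singleton_self A)
  have hQ0 : 0 < Q.card := card_pos.2 hQne
  by_contra hQ2
  have h3 : 2 < Q.card := by omega
  obtain ⟨A1, hA1, A2, hA2, A3, hA3, h12, h13, h23⟩ := two_lt_card.1 h3
  have d12 := hPdis A1 (hQP hA1) A2 (hQP hA2) h12
  have d13 := hPdis A1 (hQP hA1) A3 (hQP hA3) h13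
  have d23 := hPdis A2 (hQP hA2) A3 (hQP hA3) h23
  obtain ⟨i, hi⟩ := hPne A1 (hQP hA1)
  obtain ⟨k, hk⟩ := hPne A3 (hQP hA3)
  have sB : ∀ A ∈ Q, A ⊆ B := by
    intro A hA
    rw [hBQ]
    exact subset_biUnion_of_mem id hA
  set W1 := A1 ∪ A2 with hW1
  set W2 := B \ A2 with hW2
  have hiW1 : i ∈ W1 := mem_union_left _ hi
  have hiB : i ∈ B := sB A1 hA1 hi
  have hiA2 : i ∉ A2 := fun h => (disjoint_left.1 d12 hi) h
  have hiW2 : i ∈ W2 := mem_sdiff.2 ⟨hiB, hiA2⟩
  have nW1 : W1.Nonempty := ⟨i, hiW1⟩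
  have nW2 : W2.Nonempty := ⟨i, hiW2⟩
  have nA1 : A1.Nonempty := ⟨i, hi⟩
  have hA1s : A1 ∈ supp x := by
    rw [hsupp]
    exact mem_insert_of_mem (hQP hA1)
  have hc1 : W1.card = A1.card + A2.card := card_union_of_disjoint d12
  have hc2 : W2.card = B.card - A2.card := card_sdiff_of_subset (sB A2 hA2)
  have hc3 : A1.card + A2.card < B.card := by
    rw [← hc1]
    apply card_lt_card
    rw [ssubset_iff_of_subset (union_subset (sB A1 hA1) (sB A2 hA2))]
    refine ⟨k, sB A3 hA3 hk, ?_⟩
    rw [mem_union, not_or]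
    exact ⟨fun h => (disjoint_left.1 d13 h) hk, fun h => (disjoint_left.1 d23 h) hk⟩
  have hgain := hcr A1.card A2.card B.card (card_pos.2 nA1)
    (card_pos.2 (hPne A2 (hQP hA2))) hc3 (by
      have := card_le_univ B
      rwa [Fintype.card_fin] at this)
  rw [← hc1, ← hc2] at hgain
  have h1 := no_improve hx.1 (y := comb 1 1 (-1) (-1) W1 W2 A1 B) ?_ ?_ ?_ ?_ ?_
  · rw [sum_comb] at h1
    linarith
  · intro X hX
    have hXA : X ≠ A1 := by
      rintro rfl
      exact (mem_supp.1 hA1s) hX
    have hXB : X ≠ B := by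
      rintro rfl
      exact (mem_supp.1 hBs) hX
    rw [comb_apply, un_ne hXA, un_ne hXB]
    have e1 := un_nonneg W1 X
    have e2 := un_nonneg W2 X
    linarith
  · rw [comb_apply, un_ne nW1.ne_empty.symm, un_ne nW2.ne_empty.symm, un_ne nA1.ne_empty.symm,
      un_ne hBne.ne_empty.symm]
    ring
  · rw [sum_comb_one]
    ring
  · rw [sum_comb]
    have hkey : dd x A1 + dd x B ≤ dd x W1 + dd x W2 := by
      unfold dd
      rw [← sum_add_distrib, ← sum_add_distrib]
      apply sum_le_sum
      intro Z _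
      have hZ0 := hx.1.1.1 Z
      by_cases hZ : Z ∈ supp x
      · rw [hsupp, mem_insert] at hZ
        rcases hZ with rfl | hZP
        · have n1 : ¬ Disjoint A1 Z := not_disjoint_iff.2 ⟨i, hi, hiB⟩
          have n2 : ¬ Disjoint Z Z := by
            rw [disjoint_self]
            exact hBne.ne_empty
          rw [if_neg n1, if_neg n2]
          split_ifs <;> linarith
        · by_cases hZB : Disjoint B Z
          · have e1 : Disjoint A1 Z := hZB.mono_left (sB A1 hA1)
            have e2 : Disjoint W1 Z := hZB.mono_left (union_subset (sB A1 hA1) (sB A2 hA2))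
            have e3 : Disjoint W2 Z := hZB.mono_left sdiff_subset
            rw [if_pos hZB, if_pos e1, if_pos e2, if_pos e3]
          · rw [if_neg hZB]
            by_cases hZ1 : Z = A1
            · subst hZ1
              have n1 : ¬ Disjoint Z Z := by
                rw [disjoint_self]
                exact nA1.ne_empty
              rw [if_neg n1]
              split_ifs <;> linarith
            · have e1 : Disjoint A1 Z := hPdis A1 (hQP hA1) Z hZP (fun h => hZ1 h.symm)
              rw [if_pos e1]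
              by_cases hZ2 : Z = A2
              · subst hZ2
                have e2 : Disjoint W2 Z := disjoint_sdiff_self_left
                rw [if_pos e2]
                split_ifs <;> linarith
              · have e2 : Disjoint A2 Z := hPdis A2 (hQP hA2) Z hZP (fun h => hZ2 h.symm)
                have e3 : Disjoint W1 Z := disjoint_union_left.2 ⟨e1, e2⟩
                rw [if_pos e3]
                split_ifs <;> linarith
      · rw [mem_supp, not_not] at hZ
        rw [hZ]
        simp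
    linarith
  · rw [Bf_comb _ _ _ _ nW1 nW2 nA1 hBne]
    have d1 : ¬ Disjoint W1 W2 := not_disjoint_iff.2 ⟨i, hiW1, hiW2⟩
    have d2 : ¬ Disjoint W1 A1 := not_disjoint_iff.2 ⟨i, hiW1, hi⟩
    have d3 : ¬ Disjoint W1 B := not_disjoint_iff.2 ⟨i, hiW1, hiB⟩
    have d4 : ¬ Disjoint W2 A1 := not_disjoint_iff.2 ⟨i, hiW2, hi⟩
    have d5 : ¬ Disjoint W2 B := not_disjoint_iff.2 ⟨i, hiW2, hiB⟩
    have d6 : ¬ Disjoint A1 B := not_disjoint_iff.2 ⟨i, hi, hiB⟩
    rw [dl_neg d1, dl_neg d2, dl_neg d3, dl_neg d4, dl_neg d5, dl_neg d6]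
    ring_nf
    exact le_refl _

/-- the labels of an optimal solution of minimal support form a partition of the colours, up to
one label that is a union of two parts -/
theorem structure_thm2 (hn : 0 < n) (hun : ∀ c y s b : ℕ, 1 ≤ c → s * b ≤ c * y → s < b → b < y →
      g s + g b < g c + g y)
    (hcr : ∀ s l u : ℕ, 1 ≤ s → 1 ≤ l → s + l < u → u ≤ q →
      g s + g u < g (s + l) + g (u - l)) :
    ∃ P : Finset (Finset (Fin q)), (∀ A ∈ P, A.Nonempty) ∧
      (∀ A ∈ P, ∀ B ∈ P, A ≠ B → Disjoint A B) ∧ P.biUnion id = univ ∧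
      (supp x = P ∨ ∃ B, B ∉ P ∧ supp x = insert B P ∧ ∃ Q ⊆ P, Q.card = 2 ∧
        B = Q.biUnion id) := by
  obtain ⟨P, h1, h2, h3, h4⟩ := structure_thm hg hx hn hun
  refine ⟨P, h1, h2, h3, ?_⟩
  rcases h4 with h | ⟨B, hB, hs, Q, hQ, hBQ⟩
  · exact Or.inl h
  · exact Or.inr ⟨B, hB, hs, Q, hQ, two_parts hg hx hcr h1 h2 hB hs hQ hBQ, hBQ⟩

end struct

end Pool.Agent.H521_col.Opt
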