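import Mathlib

/-!
Rounding real weights so that a linear functional does not decrease.
-/

set_option linter.unusedSectionVars false

namespace Pool.Agent.H521_col.Opt

open Finset
open scoped Classical

theorem rounding {ι : Type*} (S : Finset ι) (x d : ι → ℝ) (hx : ∀ i ∈ S, 0 ≤ x i) (n : ℕ)
    (hn : ∑ i ∈ S, x i = n) :
    ∃ z : ι → ℕ, (∀ i ∈ S, |(z i : ℝ) - x i| ≤ 1) ∧ (∀ i, i ∉ S → z i = 0) ∧
      ∑ i ∈ S, z i = n ∧ ∑ i ∈ S, x i * d i ≤ ∑ i ∈ S, (z i : ℝ) * d i := by
  set fl : ι → ℕ := fun i => ⌊x i⌋₊ with hfl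
  set φ : ι → ℝ := fun i => x i - fl i with hφ
  have h0 : ∀ i ∈ S, 0 ≤ φ i := by
    intro i hi
    simp only [φ, fl]
    have := Nat.floor_le (hx i hi)
    linarith
  have h1 : ∀ i ∈ S, φ i < 1 := by
    intro i hi
    simp only [φ, fl]
    have := Nat.lt_floor_add_one (x i)
    linarith
  have hsumfl : ((∑ i ∈ S, fl i : ℕ) : ℝ) ≤ n := by
    rw [← hn, Nat.cast_sum]
    apply sum_le_sum
    intro i hi
    have := h0 i hi
    simp only [φ] at this
    linarith
  have hsumfl' : ∑ i ∈ S, fl i ≤ n := by exact_mod_cast hsumfl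
  obtain ⟨r, hr⟩ := Nat.exists_eq_add_of_le hsumfl'
  have hφr : ∑ i ∈ S, φ i = r := by
    simp only [φ]
    rw [sum_sub_distrib, hn, ← Nat.cast_sum, hr]
    push_cast
    ring
  have hrS : r ≤ S.card := by
    have : (r : ℝ) ≤ S.card := by
      rw [← hφr]
      calc ∑ i ∈ S, φ i ≤ ∑ _i ∈ S, (1 : ℝ) := sum_le_sum (fun i hi => (h1 i hi).le)
        _ = S.card := by simp
    exact_mod_cast this
  have hne : (S.powersetCard r).Nonempty := powersetCard_nonempty.2 hrS
  obtain ⟨U, hU, hmax⟩ := exists_max_image (S.powersetCard r) (fun U => ∑ i ∈ U, d i) hne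
  rw [mem_powersetCard] at hU
  obtain ⟨hUS, hUc⟩ := hU
  have hexch : ∀ i ∈ U, ∀ j ∈ S \ U, d j ≤ d i := by
    intro i hi j hj
    rw [mem_sdiff] at hj
    by_contra hcon
    push Not at hcon
    have hjU : j ∉ U.erase i := fun h => hj.2 (mem_of_mem_erase h)
    have h2 := hmax (insert j (U.erase i)) (mem_powersetCard.2 ⟨?_, ?_⟩)
    · rw [sum_insert hjU, ← add_sum_erase U d hi] at h2
      linarith
    · intro k hk
      rcases mem_insert.1 hk with rfl | hk
      · exact hj.1
      · exact hUS (mem_of_mem_erase hk)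
    · rw [card_insert_of_notMem hjU, card_erase_of_mem hi, hUc]
      have : 0 < U.card := card_pos.2 ⟨i, hi⟩
      omega
  refine ⟨fun i => if i ∈ S then fl i + (if i ∈ U then 1 else 0) else 0, ?_, ?_, ?_, ?_⟩
  · intro i hi
    have a0 := h0 i hi
    have a1 := h1 i hi
    simp only [φ] at a0 a1
    simp only [if_pos hi]
    rw [abs_le]
    split_ifs <;> push_cast <;> constructor <;> linarith
  · intro i hi
    simp only [if_neg hi]
  · have e1 : ∀ i ∈ S, (if i ∈ S then fl i + (if i ∈ U then 1 else 0) else 0) =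
        fl i + (if i ∈ U then 1 else 0) := fun i hi => if_pos hi
    rw [sum_congr rfl e1, sum_add_distrib, sum_ite_mem, inter_eq_right.2 hUS, sum_const,
      smul_eq_mul, mul_one, hUc, hr]
  · have e1 : ∀ i ∈ S, (((if i ∈ S then fl i + (if i ∈ U then 1 else 0) else 0 : ℕ)) : ℝ) * d i =
        fl i * d i + (if i ∈ U then d i else 0) := by
      intro i hi
      rw [if_pos hi]
      split_ifs <;> push_cast <;> ring
    have e2 : ∀ i ∈ S, x i * d i = fl i * d i + φ i * d i := by
      intro i _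
      simp only [φ]
      ring
    rw [sum_congr rfl e1, sum_congr rfl e2, sum_add_distrib, sum_add_distrib, sum_ite_mem,
      inter_eq_right.2 hUS]
    have key : ∑ i ∈ S, φ i * d i ≤ ∑ i ∈ U, d i := by
      rcases U.eq_empty_or_nonempty with hUe | hUne
      · rw [hUe, card_empty] at hUc
        rw [← hUc, Nat.cast_zero] at hφr
        have h2 := (sum_eq_zero_iff_of_nonneg h0).1 hφr
        rw [hUe, sum_empty]
        apply le_of_eq
        apply sum_eq_zero
        intro i hi
        rw [h2 i hi, zero_mul]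
      · obtain ⟨i0, hi0, hmin⟩ := exists_min_image U d hUne
        have e3 : ∑ i ∈ S, φ i * d i = ∑ i ∈ U, φ i * d i + ∑ i ∈ S \ U, φ i * d i := by
          rw [add_comm, sum_sdiff hUS]
        have e4 : ∑ i ∈ S, φ i = ∑ i ∈ U, φ i + ∑ i ∈ S \ U, φ i := by
          rw [add_comm, sum_sdiff hUS]
        have e5 : ∑ i ∈ S \ U, φ i * d i ≤ ∑ i ∈ S \ U, φ i * d i0 := by
          apply sum_le_sum
          intro j hj
          exact mul_le_mul_of_nonneg_left (hexch i0 hi0 j hj) (h0 j (mem_sdiff.1 hj).1)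
        have e6 : ∑ i ∈ U, (1 - φ i) * d i0 ≤ ∑ i ∈ U, (1 - φ i) * d i := by
          apply sum_le_sum
          intro i hi
          apply mul_le_mul_of_nonneg_left (hmin i hi)
          have := h1 i (hUS hi)
          linarith
        rw [← sum_mul] at e5 e6
        have e7 : ∑ i ∈ U, (1 - φ i) = U.card - ∑ i ∈ U, φ i := by
          rw [sum_sub_distrib]
          simp
        have e8 : ∑ i ∈ U, (1 - φ i) * d i = ∑ i ∈ U, d i - ∑ i ∈ U, φ i * d i := by
          rw [← sum_sub_distrib]
          apply sum_congr rfl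
          intro i _
          ring
        rw [e7, e8, hUc] at e6
        rw [e3]
        have e9 : ∑ i ∈ S \ U, φ i = r - ∑ i ∈ U, φ i := by linarith
        rw [e9] at e5
        linarith
    linarith

end Pool.Agent.H521_col.Opt
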