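import Pool.Agent.H521_col.StrInt2
import Pool.Agent.H521_col.Opt4
import Pool.Agent.H521_col.Round

/-!
From optimal real weights to integer solutions.
-/

set_option linter.unusedSectionVars false

namespace Pool.Agent.H521_col.Opt

open Finset
open scoped Classical

variable {q : ℕ}

/-- indexing the parts of a partition of the colours by colours -/
theorem exists_inv {P : Finset (Finset (Fin q))} (hne : ∀ A ∈ P, A.Nonempty)
    (hdis : ∀ A ∈ P, ∀ B ∈ P, A ≠ B → Disjoint A B) :
    ∃ inv : Fin q → Finset (Fin q),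
      (∀ F : Finset (Fin q) → ℕ, F ∅ = 0 → ∑ i, F (inv i) = ∑ A ∈ P, F A) ∧
      (∀ F : Finset (Fin q) → ℕ, F ∅ = 1 → ∏ i, F (inv i) = ∏ A ∈ P, F A) := by
  rcases Nat.eq_zero_or_pos q with rfl | hq
  · have hP : P = ∅ := by
      rw [eq_empty_iff_forall_notMem]
      intro A hA
      obtain ⟨i, _⟩ := hne A hA
      exact i.elim0
    subst hP
    exact ⟨fun i => i.elim0, fun F _ => by simp, fun F _ => by simp⟩
  have : Nonempty (Fin q) := ⟨⟨0, hq⟩⟩
  have hex : ∀ A ∈ P, ∃ i, i ∈ A := fun A hA => hne A hA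
  choose! ι hι using hex
  have hinj : Set.InjOn ι P := by
    intro A hA B hB h
    by_contra hAB
    have h1 := hdis A hA B hB hAB
    have h2 := hι A hA
    rw [h] at h2
    exact (disjoint_left.1 h1 h2) (hι B hB)
  let inv : Fin q → Finset (Fin q) := fun i => if h : ∃ A ∈ P, ι A = i then h.choose else ∅
  have hinv : ∀ A ∈ P, inv (ι A) = A := by
    intro A hA
    have h : ∃ B ∈ P, ι B = ι A := ⟨A, hA, rfl⟩
    simp only [inv, dif_pos h]
    exact hinj h.choose_spec.1 hA h.choose_spec.2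
  have hinv0 : ∀ i, i ∉ P.image ι → inv i = ∅ := by
    intro i hi
    have h : ¬ ∃ A ∈ P, ι A = i := by
      rintro ⟨A, hA, h⟩
      exact hi (mem_image.2 ⟨A, hA, h⟩)
    simp only [inv, dif_neg h]
  refine ⟨inv, ?_, ?_⟩
  · intro F hF
    rw [← sum_subset (subset_univ (P.image ι)), sum_image hinj]
    · exact sum_congr rfl (fun A hA => by rw [hinv A hA])
    · intro i _ hi
      rw [hinv0 i hi, hF]
  · intro F hF
    rw [← prod_subset (subset_univ (P.image ι)), prod_image hinj]
    · exact prod_congr rfl (fun A hA => by rw [hinv A hA])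
    · intro i _ hi
      rw [hinv0 i hi, hF]

theorem conv {P : Finset (Finset (Fin q))} (hne : ∀ A ∈ P, A.Nonempty)
    (hdis : ∀ A ∈ P, ∀ B ∈ P, A ≠ B → Disjoint A B) (huniv : P.biUnion id = univ)
    (z : Finset (Fin q) → ℕ) {Q : Finset (Finset (Fin q))} (hQ : Q ⊆ P) (b : ℕ) :
    ∃ (s a : Fin q → ℕ) (J : Finset (Fin q)), J.card = Q.card ∧ ∑ i, s i = q ∧
      ∑ i, a i = ∑ A ∈ P, z A ∧
      2 * ed a J b + ∑ A ∈ P, z A ^ 2 =
        (∑ A ∈ P, z A) ^ 2 + 2 * b * ∑ A ∈ P, (if A ∈ Q then 0 else z A) ∧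
      vl s a J b = (∏ A ∈ P, A.card ^ z A) * (Q.biUnion id).card ^ b := by
  obtain ⟨inv, hsum, hprod⟩ := exists_inv hne hdis
  have hPe : ∀ A ∈ P, A ≠ ∅ := fun A hA => (hne A hA).ne_empty
  have hQe : ∅ ∉ Q := fun h => hPe ∅ (hQ h) rfl
  set a : Fin q → ℕ := fun i => if inv i = ∅ then 0 else z (inv i) with ha
  set J : Finset (Fin q) := univ.filter (fun i => inv i ∈ Q) with hJ
  have h1 : ∑ i, (inv i).card = q := by
    rw [hsum card card_empty]
    have h2 : (P.biUnion id).card = ∑ A ∈ P, A.card := card_biUnion (fun A hA B hB h =>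
      hdis A hA B hB h)
    rw [huniv, card_univ, Fintype.card_fin] at h2
    exact h2.symm
  have h2 : ∑ i, a i = ∑ A ∈ P, z A := by
    rw [ha, hsum (fun A => if A = ∅ then 0 else z A) (if_pos rfl)]
    exact sum_congr rfl (fun A hA => if_neg (hPe A hA))
  have h3 : ∑ i, a i ^ 2 = ∑ A ∈ P, z A ^ 2 := by
    have h4 := hsum (fun A => (if A = ∅ then 0 else z A) ^ 2) (by simp)
    rw [ha]
    rw [h4]
    exact sum_congr rfl (fun A hA => by rw [if_neg (hPe A hA)])
  have h4 : ∑ i ∈ Jᶜ, a i = ∑ A ∈ P, (if A ∈ Q then 0 else z A) := by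
    have h5 : ∑ i ∈ Jᶜ, a i = ∑ i, (if inv i ∈ Q then 0 else a i) := by
      rw [hJ, compl_filter, sum_filter]
      apply sum_congr rfl
      intro i _
      by_cases h : inv i ∈ Q <;> simp [h]
    rw [h5]
    have h6 := hsum (fun A => if A ∈ Q then 0 else (if A = ∅ then 0 else z A)) (by simp)
    rw [ha]
    rw [h6]
    exact sum_congr rfl (fun A hA => by rw [if_neg (hPe A hA)])
  have h5 : ∑ i ∈ J, (inv i).card = (Q.biUnion id).card := by
    have h7 : (Q.biUnion id).card = ∑ A ∈ Q, A.card :=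
      card_biUnion (fun A hA B hB h => hdis A (hQ hA) B (hQ hB) h)
    rw [h7, hJ, sum_filter]
    have h6 := hsum (fun A => if A ∈ Q then A.card else 0) (by simp)
    rw [h6, sum_ite_mem, inter_eq_right.2 hQ]
  have hJc : J.card = Q.card := by
    rw [hJ, card_filter]
    have h6 := hsum (fun A => if A ∈ Q then 1 else 0) (by simp [hQe])
    rw [h6, ← card_filter, filter_mem_eq_inter, inter_eq_right.2 hQ]
  refine ⟨fun i => (inv i).card, a, J, hJc, h1, h2, ?_, ?_⟩
  · have h6 := two_ed a J b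
    rw [h2, h3, h4] at h6
    exact h6
  · unfold vl
    rw [h5]
    congr 1
    have h6 := hprod (fun A => A.card ^ (if A = ∅ then 0 else z A)) (by simp)
    rw [ha]
    rw [h6]
    exact prod_congr rfl (fun A hA => by rw [if_neg (hPe A hA)])

/-- value of the form on a partition and one more label -/
theorem Bf_part {P : Finset (Finset (Fin q))} (hne : ∀ A ∈ P, A.Nonempty)
    (hdis : ∀ A ∈ P, ∀ B ∈ P, A ≠ B → Disjoint A B)
    {Q : Finset (Finset (Fin q))} (hQ : Q ⊆ P) (hQne : Q.Nonempty)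
    (z : Finset (Fin q) → ℝ) (b : ℝ) :
    Bf ((fun A => if A ∈ P then z A else 0) + b • un (Q.biUnion id))
      ((fun A => if A ∈ P then z A else 0) + b • un (Q.biUnion id)) =
    (∑ A ∈ P, z A) ^ 2 - ∑ A ∈ P, z A ^ 2 + 2 * b * ∑ A ∈ P, (if A ∈ Q then 0 else z A) := by
  set y : Finset (Fin q) → ℝ := fun A => if A ∈ P then z A else 0 with hy
  set B := Q.biUnion id with hB
  have hBne : B.Nonempty := by
    obtain ⟨A, hA⟩ := hQne
    obtain ⟨i, hi⟩ := hne A (hQ hA)
    exact ⟨i, mem_biUnion.2 ⟨A, hA, hi⟩⟩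
  have hdB : ∀ A ∈ P, (Disjoint B A ↔ A ∉ Q) := by
    intro A hA
    constructor
    · intro h hAQ
      obtain ⟨i, hi⟩ := hne A hA
      exact (disjoint_left.1 h (mem_biUnion.2 ⟨A, hAQ, hi⟩)) hi
    · intro h
      rw [hB, disjoint_biUnion_left]
      intro A' hA'
      apply hdis A' (hQ hA') A hA
      rintro rfl
      exact h hA'
  have e1 : Bf y y = (∑ A ∈ P, z A) ^ 2 - ∑ A ∈ P, z A ^ 2 := by
    have h1 : ∀ A ∈ P, dd y A = ∑ A' ∈ P, z A' - z A := by
      intro A hA
      unfold dd
      have h2 : ∀ A', (if Disjoint A A' then y A' else 0) =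
          (if A' ∈ P then z A' else 0) - (if A' = A then z A else 0) := by
        intro A'
        by_cases h3 : A' = A
        · subst h3
          have : ¬ Disjoint A' A' := by
            rw [disjoint_self]
            exact (hne A' hA).ne_empty
          rw [if_neg this, if_pos hA, if_pos rfl]
          ring
        · by_cases h4 : A' ∈ P
          · have h5 := hdis A hA A' h4 (fun h => h3 h.symm)
            rw [if_pos h5, if_neg h3, hy]
            simp [h4]
          · rw [if_neg h4, if_neg h3, hy]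
            simp [h4]
      rw [sum_congr rfl (fun A' _ => h2 A'), sum_sub_distrib]
      simp
    rw [Bf_eq]
    have h2 : ∑ A, y A * dd y A = ∑ A ∈ P, z A * dd y A := by
      rw [hy, ← sum_filter_add_sum_filter_not univ (fun A => A ∈ P)]
      have h3 : ∑ A ∈ univ.filter (fun A => ¬ A ∈ P), (if A ∈ P then z A else 0) *
          dd (fun A => if A ∈ P then z A else 0) A = 0 := by
        apply sum_eq_zero
        intro A hA
        rw [mem_filter] at hA
        rw [if_neg hA.2, zero_mul]
      rw [h3, add_zero, filter_mem_eq_inter, univ_inter]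
      apply sum_congr rfl
      intro A hA
      simp only [if_pos hA]
    rw [h2, sum_congr rfl (fun A hA => by rw [h1 A hA])]
    have h3 : ∀ A ∈ P, z A * (∑ A' ∈ P, z A' - z A) = z A * (∑ A' ∈ P, z A') - z A ^ 2 := by
      intro A _
      ring
    rw [sum_congr rfl h3, sum_sub_distrib, ← sum_mul]
    ring
  have e2 : Bf (un B) y = ∑ A ∈ P, (if A ∈ Q then 0 else z A) := by
    rw [Bf_eq, sum_un]
    unfold dd
    have h1 : ∀ A, (if Disjoint B A then y A else 0) =
        if A ∈ P then (if A ∈ Q then 0 else z A) else 0 := by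
      intro A
      by_cases h2 : A ∈ P
      · rw [if_pos h2, hy]
        by_cases h3 : A ∈ Q
        · rw [if_pos h3, if_neg (fun h => (hdB A h2).1 h h3)]
        · rw [if_neg h3, if_pos ((hdB A h2).2 h3)]
          simp [h2]
      · rw [if_neg h2, hy]
        simp [h2]
    rw [sum_congr rfl (fun A _ => h1 A)]
    simp
  have e3 : Bf (un B) (un B) = 0 := by
    rw [Bf_un, if_neg]
    rw [disjoint_self]
    exact hBne.ne_empty
  rw [Bf_add_left, Bf_add_right, Bf_add_right, Bf_smul_left, Bf_smul_left, Bf_smul_right,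
    Bf_smul_right, Bf_symm y (un B), e1, e2, e3]
  ring

end Pool.Agent.H521_col.Opt
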