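import Pool.Agent.H521_col.Conn

/-!
Bipartite graphs: the direct bound.
-/

set_option linter.unusedSectionVars false

namespace Pool.Agent.H521_col

open Finset
open scoped Classical

variable {V : Type*} [Fintype V] [DecidableEq V]

/-- repeated extension by vertices that avoid the colour of a vertex in `T` -/
theorem steps_ne {X : Finset (V → Fin 3)} {T : Finset V} (R : Finset V)
    (h : ∀ w ∈ R, ∃ u ∈ T, ∀ c ∈ X, c u ≠ c w) :
    (X.image (res (T ∪ R))).card ≤ 2 ^ R.card * (X.image (res T)).card := by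
  induction R using Finset.induction_on with
  | empty => simp
  | insert w R hw ih =>
    have ih' := ih (fun v hv => h v (mem_insert_of_mem hv))
    obtain ⟨u, hu, huw⟩ := h w (mem_insert_self w R)
    rw [union_insert, card_insert_of_notMem hw, pow_succ]
    have h1 : (X.image (res (insert w (T ∪ R)))).card ≤ 2 * (X.image (res (T ∪ R))).card := by
      apply step
      intro c _
      refine le_trans (card_le_card ?_) (fin3_two (c u))
      intro a ha
      rw [mem_image] at ha
      obtain ⟨c', hc', rfl⟩ := ha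
      rw [mem_filter] at hc' ⊢
      refine ⟨mem_univ _, ?_⟩
      rw [← (res_eq_iff.1 hc'.2) u (mem_union_left R hu)]
      exact huw c' hc'.1
    calc (X.image (res (insert w (T ∪ R)))).card ≤ 2 * (X.image (res (T ∪ R))).card := h1
      _ ≤ 2 * (2 ^ R.card * (X.image (res T)).card) := Nat.mul_le_mul_left _ ih'
      _ = _ := by ring

/-- missing pairs -/
noncomputable def miss (G : SimpleGraph V) (X Y : Finset V) : Finset (V × V) :=
  (X ×ˢ Y).filter (fun p => ¬ G.Adj p.1 p.2)

/-- monochromatic missing pairs -/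
noncomputable def mono (G : SimpleGraph V) (X Y : Finset V) (c : V → Fin 3) : Finset (V × V) :=
  (miss G X Y).filter (fun p => c p.1 = c p.2)

theorem fin3_det (a b x y : Fin 3) (hab : a ≠ b) (h1 : x = a ↔ y = a) (h2 : x = b ↔ y = b) :
    x = y := by
  revert a b x y
  decide

variable {G : SimpleGraph V} {X Y : Finset V}

theorem mono_iff {c : V → Fin 3} (hc : c ∈ Col (Fin 3) G (X ∪ Y)) {u w : V} (hu : u ∈ X)
    (hw : w ∈ Y) : c u = c w ↔ (u, w) ∈ mono G X Y c := by
  rw [mono, mem_filter, miss, mem_filter, mem_product]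
  constructor
  · intro h
    refine ⟨⟨⟨hu, hw⟩, ?_⟩, h⟩
    intro hadj
    exact (mem_Col.1 hc).2 u (mem_union_left Y hu) w (mem_union_right X hw) hadj h
  · exact fun h => h.2

/-- every nonempty set of monochromatic pairs belongs to at most six colourings -/
theorem fiber_le_six (hX : ∀ u ∈ X, ∃ w ∈ Y, G.Adj u w) (hY : ∀ w ∈ Y, ∃ u ∈ X, G.Adj u w)
    {E : Finset (V × V)} (hE : E ⊆ miss G X Y) (hne : E.Nonempty) :
    ((Col (Fin 3) G (X ∪ Y)).filter (fun c => mono G X Y c = E)).card ≤ 6 := by
  obtain ⟨⟨p, w⟩, hpw⟩ := hne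
  have hpw' := hE hpw
  rw [miss, mem_filter, mem_product] at hpw'
  obtain ⟨⟨hp, hw⟩, _⟩ := hpw'
  simp only at hp hw
  obtain ⟨q, hq, hpq⟩ := hX p hp
  obtain ⟨u0, hu0, hu0w⟩ := hY w hw
  have h6 : ((univ : Finset (Fin 3)).offDiag).card = 6 := by decide
  rw [← h6]
  apply card_le_card_of_injOn (fun c => (c p, c q))
  · intro c hc
    simp only [coe_filter, Set.mem_ofPred_eq] at hc
    rw [mem_coe, mem_offDiag]
    exact ⟨mem_univ _, mem_univ _,
      (mem_Col.1 hc.1).2 p (mem_union_left Y hp) q (mem_union_right X hq) hpq⟩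
  · intro c hc c' hc' hcc
    simp only [coe_filter, Set.mem_ofPred_eq] at hc hc'
    simp only [Prod.mk.injEq] at hcc
    obtain ⟨hcp, hcq⟩ := hcc
    have key : ∀ u ∈ X, ∀ v ∈ Y, c u = c v ↔ c' u = c' v := by
      intro u hu v hv
      rw [mono_iff hc.1 hu hv, mono_iff hc'.1 hu hv, hc.2, hc'.2]
    have hw1 : c p = c w := by
      rw [mono_iff hc.1 hp hw, hc.2]
      exact hpw
    have hw2 : c' p = c' w := by
      rw [mono_iff hc'.1 hp hw, hc'.2]
      exact hpw
    have hpq1 : c p ≠ c q :=
      (mem_Col.1 hc.1).2 p (mem_union_left Y hp) q (mem_union_right X hq) hpq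
    have hXeq : ∀ u ∈ X, c u = c' u := by
      intro u hu
      apply fin3_det (c p) (c q) (c u) (c' u) hpq1
      · rw [hw1, key u hu w hw, ← hw2, ← hcp, hw1]
      · rw [key u hu q hq, ← hcq]
    have hu01 : c u0 ≠ c p := by
      rw [hw1]
      exact (mem_Col.1 hc.1).2 u0 (mem_union_left Y hu0) w (mem_union_right X hw) hu0w
    have hYeq : ∀ v ∈ Y, c v = c' v := by
      intro v hv
      apply fin3_det (c u0) (c p) (c v) (c' v) hu01
      · rw [eq_comm, key u0 hu0 v hv, ← hXeq u0 hu0, eq_comm]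
      · rw [eq_comm, key p hp v hv, ← hXeq p hp, eq_comm]
    rw [← res_eq_self hc.1, ← res_eq_self hc'.1, res_eq_iff]
    intro v hv
    rcases mem_union.1 hv with hv | hv
    · exact hXeq v hv
    · exact hYeq v hv

/-- colourings of the complete bipartite graph -/
theorem fiber_empty (hXY : Disjoint X Y) (hXne : X.Nonempty) (hYne : Y.Nonempty)
    (hXi : ∀ u ∈ X, ∀ w ∈ X, ¬ G.Adj u w) (hYi : ∀ u ∈ Y, ∀ w ∈ Y, ¬ G.Adj u w) :
    ((Col (Fin 3) G (X ∪ Y)).filter (fun c => mono G X Y c = ∅)).card + 6 ≤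
      3 * 2 ^ X.card + 3 * 2 ^ Y.card := by
  set A := (Col (Fin 3) G (X ∪ Y)).filter (fun c => mono G X Y c = ∅) with hA
  set A1 := A.filter (fun c => ∀ u ∈ X, ∀ v ∈ X, c u = c v) with hA1
  set A2 := A.filter (fun c => ∀ u ∈ Y, ∀ v ∈ Y, c u = c v) with hA2
  have hne : ∀ c ∈ A, ∀ u ∈ X, ∀ w ∈ Y, c u ≠ c w := by
    intro c hc u hu w hw h
    rw [hA, mem_filter] at hc
    rw [mono_iff hc.1 hu hw, hc.2] at h
    exact notMem_empty _ h
  have hsubA : A ⊆ Col (Fin 3) G (X ∪ Y) := filter_subset _ _
  have hcover : A = A1 ∪ A2 := by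
    ext c
    constructor
    · intro hc
      by_cases h1 : ∀ u ∈ X, ∀ v ∈ X, c u = c v
      · exact mem_union_left _ (mem_filter.2 ⟨hc, h1⟩)
      · apply mem_union_right
        refine mem_filter.2 ⟨hc, ?_⟩
        push Not at h1
        obtain ⟨u, hu, v, hv, huv⟩ := h1
        intro y hy y' hy'
        have a1 := hne c hc u hu y hy
        have a2 := hne c hc v hv y hy
        have a3 := hne c hc u hu y' hy'
        have a4 := hne c hc v hv y' hy'
        generalize c u = cu at *
        generalize c v = cv at *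
        generalize c y = cy at *
        generalize c y' = cy' at *
        revert cu cv cy cy'
        decide
    · intro hc
      rcases mem_union.1 hc with h | h
      · exact (mem_filter.1 h).1
      · exact (mem_filter.1 h).1
  have hc1 : A1.card ≤ 3 * 2 ^ Y.card := by
    obtain ⟨u, hu⟩ := hXne
    have h1 := steps_ne (X := A1) (T := X) Y (fun w hw =>
      ⟨u, hu, fun c hc => hne c (mem_filter.1 hc).1 u hu w hw⟩)
    rw [card_image_res_self ((filter_subset _ _).trans hsubA)] at h1
    have h2 : (A1.image (res X)).card ≤ 3 :=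
      card_image_const ⟨u, hu⟩ (fun c hc => (mem_filter.1 hc).2)
    calc A1.card ≤ 2 ^ Y.card * (A1.image (res X)).card := h1
      _ ≤ 2 ^ Y.card * 3 := Nat.mul_le_mul_left _ h2
      _ = _ := by ring
  have hc2 : A2.card ≤ 3 * 2 ^ X.card := by
    obtain ⟨u, hu⟩ := hYne
    have h1 := steps_ne (X := A2) (T := Y) X (fun w hw =>
      ⟨u, hu, fun c hc => (hne c (mem_filter.1 hc).1 w hw u hu).symm⟩)
    rw [union_comm, card_image_res_self ((filter_subset _ _).trans hsubA)] at h1
    have h2 : (A2.image (res Y)).card ≤ 3 :=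
      card_image_const ⟨u, hu⟩ (fun c hc => (mem_filter.1 hc).2)
    calc A2.card ≤ 2 ^ X.card * (A2.image (res Y)).card := h1
      _ ≤ 2 ^ X.card * 3 := Nat.mul_le_mul_left _ h2
      _ = _ := by ring
  have hc3 : 6 ≤ (A1 ∩ A2).card := by
    have h6 : ((univ : Finset (Fin 3)).offDiag).card = 6 := by decide
    rw [← h6]
    apply card_le_card_of_injOn
      (fun ab => (fun v => if v ∈ X then ab.1 else if v ∈ Y then ab.2 else 0))
    · intro ab hab
      rw [mem_coe, mem_offDiag] at hab
      have hYX : ∀ v ∈ Y, v ∉ X := fun v hv hv' => disjoint_left.1 hXY hv' hv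
      have hcol : (fun v => if v ∈ X then ab.1 else if v ∈ Y then ab.2 else 0) ∈
          Col (Fin 3) G (X ∪ Y) := by
        rw [mem_Col]
        constructor
        · intro w hw
          rw [mem_union, not_or] at hw
          rw [if_neg hw.1, if_neg hw.2]
        · intro u hu v hv huv
          rcases mem_union.1 hu with hu | hu
          · rcases mem_union.1 hv with hv | hv
            · exact absurd huv (hXi u hu v hv)
            · rw [if_pos hu, if_neg (hYX v hv), if_pos hv]
              exact hab.2.2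
          · rcases mem_union.1 hv with hv | hv
            · rw [if_pos hv, if_neg (hYX u hu), if_pos hu]
              exact hab.2.2.symm
            · exact absurd huv (hYi u hu v hv)
      have hmono : mono G X Y (fun v => if v ∈ X then ab.1 else if v ∈ Y then ab.2 else 0) = ∅ := by
        rw [mono, filter_eq_empty_iff]
        rintro ⟨u, w⟩ huw
        rw [miss, mem_filter, mem_product] at huw
        simp only at huw ⊢
        rw [if_pos huw.1.1, if_neg (hYX w huw.1.2), if_pos huw.1.2]
        exact hab.2.2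
      rw [mem_coe, mem_inter]
      refine ⟨mem_filter.2 ⟨mem_filter.2 ⟨hcol, hmono⟩, ?_⟩,
        mem_filter.2 ⟨mem_filter.2 ⟨hcol, hmono⟩, ?_⟩⟩
      · intro u hu v hv
        simp only [if_pos hu, if_pos hv]
      · intro u hu v hv
        simp only [if_neg (hYX u hu), if_neg (hYX v hv), if_pos hu, if_pos hv]
    · intro ab _ ab' _ h
      obtain ⟨x, hx⟩ := hXne
      obtain ⟨y, hy⟩ := hYne
      have hyX : y ∉ X := fun hv' => disjoint_left.1 hXY hv' hy
      have h1 := congrFun h x
      have h2 := congrFun h y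
      simp only [if_pos hx] at h1
      simp only [if_neg hyX, if_pos hy] at h2
      exact Prod.ext h1 h2
  have hui := card_union_add_card_inter A1 A2
  rw [← hcover] at hui
  omega

/-- the direct bound for bipartite graphs -/
theorem direct_bound (hXY : Disjoint X Y) (hXne : X.Nonempty) (hYne : Y.Nonempty)
    (hXi : ∀ u ∈ X, ∀ w ∈ X, ¬ G.Adj u w) (hYi : ∀ u ∈ Y, ∀ w ∈ Y, ¬ G.Adj u w)
    (hX : ∀ u ∈ X, ∃ w ∈ Y, G.Adj u w) (hY : ∀ w ∈ Y, ∃ u ∈ X, G.Adj u w) :
    P G (X ∪ Y) + 12 ≤ 3 * 2 ^ X.card + 3 * 2 ^ Y.card + 6 * 2 ^ (miss G X Y).card := by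
  have h1 : P G (X ∪ Y) = ∑ E ∈ (miss G X Y).powerset,
      ((Col (Fin 3) G (X ∪ Y)).filter (fun c => mono G X Y c = E)).card := by
    apply card_eq_sum_card_fiberwise
    intro c _
    rw [mem_coe, mem_powerset]
    exact filter_subset _ _
  rw [← insert_erase (empty_mem_powerset (miss G X Y)), sum_insert (notMem_erase _ _)] at h1
  have h2 : ∑ E ∈ (miss G X Y).powerset.erase ∅,
      ((Col (Fin 3) G (X ∪ Y)).filter (fun c => mono G X Y c = E)).card ≤
      ((miss G X Y).powerset.erase ∅).card • 6 := by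
    apply sum_le_card_nsmul
    intro E hE
    rw [mem_erase, mem_powerset] at hE
    exact fiber_le_six hX hY hE.2 (nonempty_iff_ne_empty.2 hE.1)
  rw [card_erase_of_mem (empty_mem_powerset _), card_powerset, smul_eq_mul] at h2
  have h3 := fiber_empty hXY hXne hYne hXi hYi
  have h4 : 1 ≤ 2 ^ (miss G X Y).card := Nat.one_le_two_pow
  have h5 : (2 ^ (miss G X Y).card - 1) * 6 + 6 = 6 * 2 ^ (miss G X Y).card := by
    obtain ⟨k, hk⟩ : ∃ k, 2 ^ (miss G X Y).card = k + 1 := ⟨2 ^ (miss G X Y).card - 1, by omega⟩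
    rw [hk]
    simp only [Nat.add_sub_cancel]
    ring
  omega

end Pool.Agent.H521_col
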