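import Mathlib

/-!
Numerical inequalities.
-/

set_option linter.unusedSectionVars false

namespace Pool.Agent.H521_col

/-- the main function -/
def val (a b k : ℕ) : ℕ := 3 * 2 ^ a + 3 * 2 ^ b + 6 * 2 ^ k

theorem val_mono_k {a b k k' : ℕ} (h : k ≤ k') : val a b k ≤ val a b k' := by
  unfold val
  have := Nat.pow_le_pow_right (n := 2) (by norm_num) h
  omega

theorem one_le_two_pow' (n : ℕ) : 1 ≤ 2 ^ n := Nat.one_le_two_pow

theorem two_le_two_pow {n : ℕ} (h : 1 ≤ n) : 2 ≤ 2 ^ n := by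
  have := Nat.pow_le_pow_right (n := 2) (by norm_num) h
  simpa using this

theorem four_le_two_pow {n : ℕ} (h : 2 ≤ n) : 4 ≤ 2 ^ n := by
  have := Nat.pow_le_pow_right (n := 2) (by norm_num) h
  simpa using this

theorem val_step (b c : ℕ) : val (b + 1 + c) (b + 1) c ≤ val (b + 2 + c) b 0 := by
  unfold val
  have h1 := one_le_two_pow' b
  have h2 := one_le_two_pow' c
  have e1 : 2 ^ (b + 1 + c) = 2 * (2 ^ b * 2 ^ c) := by ring
  have e2 : 2 ^ (b + 2 + c) = 4 * (2 ^ b * 2 ^ c) := by ring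
  have e3 : 2 ^ (b + 1) = 2 * 2 ^ b := by ring
  rw [e1, e2, e3]
  obtain ⟨x, hx⟩ := Nat.exists_eq_add_of_le h1
  obtain ⟨y, hy⟩ := Nat.exists_eq_add_of_le h2
  rw [hx, hy]
  nlinarith [Nat.zero_le (x * y)]

theorem val_chain (b d c : ℕ) : val (b + (d + 1) + c) (b + (d + 1)) c ≤
    val (b + 2 * (d + 1) + c) b 0 := by
  induction d generalizing c with
  | zero => exact val_step b c
  | succ d ih =>
    have h1 := val_step (b + (d + 1)) c
    have h2 : val (b + (d + 1) + 2 + c) (b + (d + 1)) 0 ≤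
        val (b + (d + 1) + (c + 2)) (b + (d + 1)) (c + 2) := by
      have : b + (d + 1) + 2 + c = b + (d + 1) + (c + 2) := by ring
      rw [this]
      exact val_mono_k (Nat.zero_le _)
    have h3 := ih (c + 2)
    have e1 : b + (d + 1 + 1) + c = b + (d + 1) + 1 + c := by ring
    have e2 : b + (d + 1 + 1) = b + (d + 1) + 1 := by ring
    have e3 : b + 2 * (d + 1 + 1) + c = b + 2 * (d + 1) + (c + 2) := by ring
    rw [e1, e2, e3]
    exact h1.trans (h2.trans h3)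

theorem val_mono {a b k a' b' k' : ℕ} (hs : a + b = a' + b') (hk : k + b ≤ a)
    (hk' : k' + b' ≤ a') (h : a * b + k' ≤ a' * b' + k) : val a' b' k' ≤ val a b k := by
  rcases Nat.lt_trichotomy b' b with hlt | heq | hgt
  · exfalso
    obtain ⟨d, hd⟩ := Nat.exists_eq_add_of_lt hlt
    have ha : a' = a + (d + 1) := by omega
    subst ha
    subst hd
    nlinarith [Nat.zero_le (d * (a - b')), Nat.zero_le (d * b'), Nat.zero_le (d * d),
      Nat.mul_le_mul_left d hk]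
  · subst heq
    have ha : a' = a := by omega
    subst ha
    exact val_mono_k (by omega)
  · obtain ⟨d, hd⟩ := Nat.exists_eq_add_of_lt hgt
    obtain ⟨c, hc⟩ := Nat.exists_eq_add_of_le hk'
    have h1 : val a' b' k' ≤ val a' b' (k' + c) := val_mono_k (by omega)
    have h2 := val_chain b d (k' + c)
    have e1 : b + (d + 1) = b' := by omega
    have e2 : b + (d + 1) + (k' + c) = a' := by omega
    have e3 : b + 2 * (d + 1) + (k' + c) = a := by omega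
    rw [e2, e3, e1] at h2
    exact h1.trans (h2.trans (val_mono_k (Nat.zero_le _)))

/-- cut vertex, `b - 1 ≤ k` -/
theorem num_cut1 {a b k : ℕ} (hb : 2 ≤ b) (h : b ≤ k + 1) (hk : k + b ≤ a) :
    2 * val (a - 1) b (k + 1 - b) ≤ val a b k + 12 := by
  obtain ⟨β, rfl⟩ : ∃ β, b = β + 1 := ⟨b - 1, by omega⟩
  obtain ⟨j, rfl⟩ : ∃ j, k = β + j := ⟨k - β, by omega⟩
  obtain ⟨A, rfl⟩ : ∃ A, a = A + 1 := ⟨a - 1, by omega⟩
  have e1 : β + j + 1 - (β + 1) = j := by omega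
  rw [e1, Nat.add_sub_cancel]
  unfold val
  have h1 : 2 ≤ 2 ^ β := two_le_two_pow (by omega)
  have h2 := one_le_two_pow' j
  have e1 : 2 ^ (A + 1) = 2 * 2 ^ A := by ring
  have e2 : 2 ^ (β + 1) = 2 * 2 ^ β := by ring
  have e3 : 2 ^ (β + j) = 2 ^ β * 2 ^ j := by ring
  rw [e1, e2, e3]
  obtain ⟨x, hx⟩ := Nat.exists_eq_add_of_le h1
  obtain ⟨y, hy⟩ := Nat.exists_eq_add_of_le h2
  rw [hx, hy]
  nlinarith [Nat.zero_le (x * y)]

/-- cut vertex, `b + 3 ≤ a` -/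
theorem num_cut2 {a b k : ℕ} (h : b + 3 ≤ a) :
    2 * val (a - 2) (b + 1) (a - b - 3) ≤ val a b k + 12 := by
  obtain ⟨c, rfl⟩ := Nat.exists_eq_add_of_le h
  have e1 : b + 3 + c - 2 = b + 1 + c := by omega
  have e2 : b + 3 + c - b - 3 = c := by omega
  rw [e1, e2]
  unfold val
  have h1 := one_le_two_pow' b
  have h2 := one_le_two_pow' c
  have h3 := one_le_two_pow' k
  have e1 : 2 ^ (b + 1 + c) = 2 * (2 ^ b * 2 ^ c) := by ring
  have e2 : 2 ^ (b + 3 + c) = 8 * (2 ^ b * 2 ^ c) := by ring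
  have e3 : 2 ^ (b + 1) = 2 * 2 ^ b := by ring
  rw [e1, e2, e3]
  obtain ⟨x, hx⟩ := Nat.exists_eq_add_of_le h1
  obtain ⟨y, hy⟩ := Nat.exists_eq_add_of_le h2
  rw [hx, hy]
  nlinarith [Nat.zero_le (x * y)]

/-- deletion of a vertex of degree `b + i` -/
theorem num_del {a b k i : ℕ} (h : k + 2 + i ≤ a) :
    val (a - 1) b (k + i) + 3 * 2 ^ (a - 1 - i) ≤ val a b k := by
  obtain ⟨s, rfl⟩ := Nat.exists_eq_add_of_le h
  have e1 : k + 2 + i + s - 1 = k + 1 + i + s := by omega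
  have e2 : k + 2 + i + s - 1 - i = k + 1 + s := by omega
  rw [e2, e1]
  unfold val
  have h1 := one_le_two_pow' i
  have h2 := one_le_two_pow' s
  have e1 : 2 ^ (k + 1 + i + s) = 2 * 2 ^ k * (2 ^ i * 2 ^ s) := by ring
  have e2 : 2 ^ (k + 2 + i + s) = 4 * 2 ^ k * (2 ^ i * 2 ^ s) := by ring
  have e3 : 2 ^ (k + i) = 2 ^ k * 2 ^ i := by ring
  have e4 : 2 ^ (k + 1 + s) = 2 * 2 ^ k * 2 ^ s := by ring
  rw [e1, e2, e3, e4]
  obtain ⟨x, hx⟩ := Nat.exists_eq_add_of_le h1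
  obtain ⟨y, hy⟩ := Nat.exists_eq_add_of_le h2
  rw [hx, hy]
  generalize 2 ^ k = K
  nlinarith [Nat.zero_le (K * (x * y))]

/-- deletion of a vertex of degree `a - z` -/
theorem num_I3 {a b k z : ℕ} (hb : 1 ≤ b) (h : z + b ≤ k + 2) (hz : z ≤ k) :
    val a (b - 1) (k - z) + 3 * 2 ^ (b - 1 + z) ≤ val a b k := by
  obtain ⟨β, rfl⟩ : ∃ β, b = β + 1 := ⟨b - 1, by omega⟩
  obtain ⟨κ, rfl⟩ : ∃ κ, k = κ + z := ⟨k - z, by omega⟩
  rw [Nat.add_sub_cancel, Nat.add_sub_cancel]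
  unfold val
  have h1 := one_le_two_pow' z
  have h2 : 2 ^ β ≤ 2 ^ (κ + 1) := Nat.pow_le_pow_right (by norm_num) (by omega)
  have e1 : 2 ^ (β + z) = 2 ^ β * 2 ^ z := by ring
  have e2 : 2 ^ (κ + z) = 2 ^ κ * 2 ^ z := by ring
  have e3 : 2 ^ (β + 1) = 2 * 2 ^ β := by ring
  have e4 : 2 ^ (κ + 1) = 2 * 2 ^ κ := by ring
  rw [e4] at h2
  rw [e1, e2, e3]
  obtain ⟨x, hx⟩ := Nat.exists_eq_add_of_le h1
  rw [hx]
  generalize 2 ^ β = B at *
  generalize 2 ^ κ = K at *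
  nlinarith [Nat.mul_le_mul_left x h2]

/-- deletion followed by a cut vertex -/
theorem num_I4 {a b k : ℕ} (hb : 2 ≤ b) (h : b + 2 ≤ a) :
    2 * val (a - 2) b (a - b - 2) + 3 * 2 ^ (a - 2) ≤ val a b k + 12 := by
  obtain ⟨c, rfl⟩ := Nat.exists_eq_add_of_le h
  have e1 : b + 2 + c - 2 = b + c := by omega
  have e2 : b + 2 + c - b - 2 = c := by omega
  rw [e1, e2]
  unfold val
  have h1 := four_le_two_pow hb
  have h2 := one_le_two_pow' c
  have h3 := one_le_two_pow' k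
  have e1 : 2 ^ (b + c) = 2 ^ b * 2 ^ c := by ring
  have e2 : 2 ^ (b + 2 + c) = 4 * (2 ^ b * 2 ^ c) := by ring
  rw [e1, e2]
  obtain ⟨x, hx⟩ := Nat.exists_eq_add_of_le h1
  obtain ⟨y, hy⟩ := Nat.exists_eq_add_of_le h2
  rw [hx, hy]
  nlinarith [Nat.zero_le (x * y)]

/-- double deletion -/
theorem num_I5 {a b k : ℕ} (hb : 1 ≤ b) (h : 2 ≤ a) :
    val (a - 1) (b - 1) k + 3 * 2 ^ (a - 2) + 3 * 2 ^ (a - 2) ≤ val a b k := by
  obtain ⟨β, rfl⟩ : ∃ β, b = β + 1 := ⟨b - 1, by omega⟩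
  obtain ⟨A, rfl⟩ : ∃ A, a = A + 2 := ⟨a - 2, by omega⟩
  have e1 : A + 2 - 1 = A + 1 := by omega
  rw [e1, Nat.add_sub_cancel, Nat.add_sub_cancel]
  unfold val
  have e1 : 2 ^ (A + 1) = 2 * 2 ^ A := by ring
  have e2 : 2 ^ (A + 2) = 4 * 2 ^ A := by ring
  have e3 : 2 ^ (β + 1) = 2 * 2 ^ β := by ring
  rw [e1, e2, e3]
  omega

/-- double deletion, non-adjacent vertices -/
theorem num_I6 {a b e : ℕ} (hb : 1 ≤ b) (he : 1 ≤ e) (h : e + b + 1 ≤ a) :
    val (a - 1) (b - 1) (e + 1) + 3 * 2 ^ (a - 1 - e) + 3 * 2 ^ (a - 2) ≤ val a b (a - b) := by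
  obtain ⟨β, rfl⟩ : ∃ β, b = β + 1 := ⟨b - 1, by omega⟩
  obtain ⟨s, rfl⟩ := Nat.exists_eq_add_of_le h
  unfold val
  have h1 : 2 ^ (e + (β + 1) + 1 + s - 1 - e) ≤ 2 ^ (e + β + s) :=
    Nat.pow_le_pow_right (by norm_num) (by omega)
  have h2 : 2 ^ (e + 1) * 2 ≤ 2 ^ (e + (β + 1) + 1 + s - (β + 1)) * 2 := by
    apply Nat.mul_le_mul_right
    apply Nat.pow_le_pow_right (by norm_num)
    omega
  have e0 : 2 ^ (e + (β + 1) + 1 + s - 1) = 2 * 2 ^ (e + β + s) := by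
    have : e + (β + 1) + 1 + s - 1 = e + β + s + 1 := by omega
    rw [this]
    ring
  have e1 : 2 ^ (e + (β + 1) + 1 + s - 2) = 2 ^ (e + β + s) := by
    have : e + (β + 1) + 1 + s - 2 = e + β + s := by omega
    rw [this]
  have e2 : 2 ^ (e + (β + 1) + 1 + s) = 4 * 2 ^ (e + β + s) := by ring
  have e3 : 2 ^ (β + 1) = 2 * 2 ^ β := by ring
  rw [e0, e1, e2, e3, Nat.add_sub_cancel]
  omega

/-- canonical parameters -/
theorem canonical {n e : ℕ} (he : 1 ≤ e) (hn : 4 * e ≤ n * n) :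
    ∃ a b k, 1 ≤ b ∧ a + b = n ∧ k + b ≤ a ∧ e + k = a * b := by
  have hex : ∃ b, 1 ≤ b ∧ 2 * b ≤ n ∧ e ≤ (n - b) * b := by
    refine ⟨n / 2, ?_, by omega, ?_⟩
    · have : 2 ≤ n := by
        by_contra hcon
        have h1 : n ≤ 1 := by omega
        have h2 : n * n ≤ 1 * 1 := Nat.mul_le_mul h1 h1
        omega
      omega
    · rcases Nat.even_or_odd' n with ⟨s, rfl | rfl⟩
      · have h1 : 2 * s / 2 = s := by omega
        have h2 : 2 * s - s = s := by omega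
        rw [h1, h2]
        nlinarith
      · have h1 : (2 * s + 1) / 2 = s := by omega
        have h2 : 2 * s + 1 - s = s + 1 := by omega
        rw [h1, h2]
        have h3 : (2 * s + 1) * (2 * s + 1) = 4 * ((s + 1) * s) + 1 := by ring
        omega
  classical
  obtain ⟨h1, h2, h3⟩ := Nat.find_spec hex
  set b := Nat.find hex with hb
  have hk : e ≤ (n - b) * b := h3
  refine ⟨n - b, b, (n - b) * b - e, h1, by omega, ?_, by omega⟩
  rcases Nat.eq_or_lt_of_le h1 with hb1 | hb1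
  · rw [← hb1]
    omega
  · have hmin := Nat.find_min hex (m := b - 1) (by omega)
    have h4 : ¬ e ≤ (n - (b - 1)) * (b - 1) := fun h => hmin ⟨by omega, by omega, h⟩
    push Not at h4
    obtain ⟨β, hβ⟩ : ∃ β, b = β + 1 := ⟨b - 1, by omega⟩
    obtain ⟨s, hs⟩ : ∃ s, n = 2 * b + s := ⟨n - 2 * b, by omega⟩
    rw [hs, hβ] at h4 ⊢
    have e1 : 2 * (β + 1) + s - (β + 1 - 1) = β + 2 + s := by omega
    have e2 : 2 * (β + 1) + s - (β + 1) = β + 1 + s := by omega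
    rw [e1, Nat.add_sub_cancel] at h4
    rw [e2]
    have h5 : (β + 1 + s) * (β + 1) = (β + 2 + s) * β + (s + 1) := by ring
    omega

end Pool.Agent.H521_col
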