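import Pool.Agent.H521_col.Conn
import Pool.Agent.H521_col.Direct
import Pool.Agent.H521_col.Num

/-!
Counting edges.
-/

set_option linter.unusedSectionVars false

namespace Pool.Agent.H521_col

open Finset
open scoped Classical

variable {V : Type*} [Fintype V] [DecidableEq V]

theorem dg_union {G : SimpleGraph V} {A B : Finset V} (h : Disjoint A B) (v : V) :
    dg G (A ∪ B) v = dg G A v + dg G B v := by
  rw [dg_eq_sum, sum_union h, dg_eq_sum, dg_eq_sum]

theorem double_count (G : SimpleGraph V) (A B : Finset V) :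
    ∑ a ∈ A, dg G B a = ∑ b ∈ B, dg G A b := by
  simp_rw [dg_eq_sum]
  rw [sum_comm]
  apply sum_congr rfl
  intro b _
  apply sum_congr rfl
  intro a _
  simp [G.adj_comm]

theorem e2_union {G : SimpleGraph V} {A B : Finset V} (h : Disjoint A B) :
    e2 G (A ∪ B) = e2 G A + e2 G B + 2 * ∑ a ∈ A, dg G B a := by
  rw [e2, sum_union h, sum_congr rfl (fun v _ => dg_union (G := G) h v),
    sum_congr rfl (fun v _ => dg_union (G := G) h v), sum_add_distrib, sum_add_distrib,
    ← double_count G A B, e2, e2]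
  ring

/-- no edges inside `W` -/
def Ind (G : SimpleGraph V) (W : Finset V) : Prop := ∀ u ∈ W, ∀ w ∈ W, ¬ G.Adj u w

theorem Ind.dg_zero {G : SimpleGraph V} {W : Finset V} (h : Ind G W) {v : V} (hv : v ∈ W) :
    dg G W v = 0 := by
  rw [dg, card_eq_zero]
  ext u
  rw [mem_nb]
  simp only [notMem_empty, iff_false]
  rintro ⟨h1, h2⟩
  exact h v hv u h1 h2

theorem Ind.e2_zero {G : SimpleGraph V} {W : Finset V} (h : Ind G W) : e2 G W = 0 :=
  sum_eq_zero (fun _ hv => h.dg_zero hv)

theorem Ind.dg_sdiff {G : SimpleGraph V} {W S : Finset V} (h : Ind G W) (hW : W ⊆ S) {v : V}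
    (hv : v ∈ W) : dg G (S \ W) v = dg G S v := by
  have h1 := dg_union (G := G) (A := W) (B := S \ W) disjoint_sdiff v
  rw [union_sdiff_of_subset hW, h.dg_zero hv, zero_add] at h1
  exact h1.symm

/-- all edges at an independent set -/
theorem Ind.e2_eq {G : SimpleGraph V} {W S : Finset V} (h : Ind G W) (hW : W ⊆ S) :
    e2 G S = 2 * ∑ w ∈ W, dg G S w + e2 G (S \ W) := by
  have h1 := e2_union (G := G) (A := W) (B := S \ W) disjoint_sdiff
  rw [union_sdiff_of_subset hW, h.e2_zero, zero_add,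
    sum_congr rfl (fun v hv => h.dg_sdiff hW hv)] at h1
  rw [h1]
  ring

/-- the complement of an independent set meets all edges -/
theorem Ind.e2_compl {G : SimpleGraph V} {W S : Finset V} (h : Ind G W) (hW : W ⊆ S) :
    e2 G S + e2 G (S \ W) = 2 * ∑ x ∈ S \ W, dg G S x := by
  have h1 := h.e2_eq hW
  have h2 : ∑ x ∈ S \ W, dg G S x = e2 G (S \ W) + ∑ w ∈ W, dg G S w := by
    have h3 : ∀ x ∈ S \ W, dg G S x = dg G (S \ W) x + dg G W x := by
      intro x _
      have := dg_union (G := G) (A := S \ W) (B := W) sdiff_disjoint x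
      rw [sdiff_union_of_subset hW] at this
      exact this
    rw [sum_congr rfl h3, sum_add_distrib, ← double_count G W (S \ W),
      sum_congr rfl (fun v hv => h.dg_sdiff hW hv), e2]
  rw [h2, h1]
  ring

/-- triangle-free -/
def TF (G : SimpleGraph V) (S : Finset V) : Prop :=
  ∀ u ∈ S, ∀ v ∈ S, ∀ w ∈ S, G.Adj u v → G.Adj v w → G.Adj u w → False

theorem TF.nb_ind {G : SimpleGraph V} {S : Finset V} (h : TF G S) {v : V} (hv : v ∈ S) :
    Ind G (nb G S v) := by
  intro u hu w hw huw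
  rw [mem_nb] at hu hw
  exact h v hv u hu.1 w hw.1 hu.2 huw hw.2

theorem nb_subset {G : SimpleGraph V} {S : Finset V} {v : V} : nb G S v ⊆ S := filter_subset _ _

theorem TF.dg_add {G : SimpleGraph V} {S : Finset V} (h : TF G S) {u v : V} (hu : u ∈ S)
    (hv : v ∈ S) (huv : G.Adj u v) : dg G S u + dg G S v ≤ S.card := by
  rw [dg, dg, ← card_union_of_disjoint]
  · exact card_le_card (union_subset nb_subset nb_subset)
  · rw [disjoint_left]
    intro w hw hw'
    rw [mem_nb] at hw hw'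
    exact h u hu v hv w hw.1 huv hw'.2 hw.2

theorem dg_le_card {G : SimpleGraph V} {S : Finset V} {v : V} (hv : v ∈ S) :
    dg G S v + 1 ≤ S.card := by
  have := card_le_card (nb_subset_erase (G := G) (S := S) (v := v))
  rw [card_erase_of_mem hv] at this
  have h1 := card_pos.2 ⟨v, hv⟩
  rw [dg]
  omega

/-- Mantel -/
theorem TF.mantel {G : SimpleGraph V} {S : Finset V} (h : TF G S) :
    2 * e2 G S ≤ S.card * S.card := by
  rcases S.eq_empty_or_nonempty with rfl | hS
  · simp [e2]
  · obtain ⟨v, hv, hmax⟩ := exists_max_image S (fun v => dg G S v) hS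
    have h1 := (h.nb_ind hv).e2_compl (nb_subset (G := G) (S := S) (v := v))
    have h2 : ∑ x ∈ S \ nb G S v, dg G S x ≤ (S \ nb G S v).card * dg G S v := by
      rw [← smul_eq_mul]
      exact sum_le_card_nsmul _ _ _ (fun x hx => hmax x (mem_sdiff.1 hx).1)
    have h3 : (S \ nb G S v).card + dg G S v = S.card := by
      rw [dg, card_sdiff_add_card_eq_card nb_subset]
    rw [← h3]
    generalize (S \ nb G S v).card = r at *
    generalize dg G S v = d at *
    have h4 : 4 * (r * d) ≤ (r + d) * (r + d) := by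
      rcases le_total r d with h5 | h5
      · obtain ⟨s, rfl⟩ := Nat.exists_eq_add_of_le h5
        nlinarith [Nat.zero_le (s * s)]
      · obtain ⟨s, rfl⟩ := Nat.exists_eq_add_of_le h5
        nlinarith [Nat.zero_le (s * s)]
    omega

theorem Conn.two_le_e2 {G : SimpleGraph V} {S : Finset V} (h : Conn G S) (h2 : 2 ≤ S.card) :
    2 ≤ e2 G S := by
  obtain ⟨v, hv⟩ := h.1
  obtain ⟨w, hw⟩ := h.dg_pos hv h2
  rw [mem_nb] at hw
  have h3 : ({v, w} : Finset V) ⊆ S := by
    intro x hx
    rw [mem_insert, mem_singleton] at hx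
    rcases hx with rfl | rfl
    · exact hv
    · exact hw.1
  have h4 : 1 ≤ dg G S v := card_pos.2 ⟨w, mem_nb.2 hw⟩
  have h5 : 1 ≤ dg G S w := card_pos.2 ⟨v, mem_nb.2 ⟨hv, hw.2.symm⟩⟩
  calc 2 ≤ dg G S v + dg G S w := by omega
    _ = ∑ x ∈ ({v, w} : Finset V), dg G S x := by rw [sum_pair hw.2.ne]
    _ ≤ e2 G S := sum_le_sum_of_subset h3

/-- bipartite graphs -/
theorem direct_bound' {G : SimpleGraph V} {S W : Finset V} (h : Conn G S) (hW : W ⊆ S)
    (hW1 : W.Nonempty) (hW2 : (S \ W).Nonempty) (hi1 : Ind G W) (hi2 : Ind G (S \ W)) {k : ℕ}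
    (hk : 2 * (W.card * (S \ W).card) = e2 G S + 2 * k) :
    P G S + 12 ≤ 3 * 2 ^ W.card + 3 * 2 ^ (S \ W).card + 6 * 2 ^ k := by
  have hcard := card_sdiff_add_card_eq_card hW
  have h2 : 2 ≤ S.card := by
    have := card_pos.2 hW1
    have := card_pos.2 hW2
    omega
  have h1 := direct_bound (G := G) (X := W) (Y := S \ W) disjoint_sdiff hW1 hW2 hi1 hi2
    (by
      intro u hu
      obtain ⟨w, hw⟩ := h.dg_pos (hW hu) h2
      rw [mem_nb] at hw
      refine ⟨w, mem_sdiff.2 ⟨hw.1, fun hwW => hi1 u hu w hwW hw.2⟩, hw.2⟩)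
    (by
      intro w hw
      obtain ⟨u, hu⟩ := h.dg_pos (mem_sdiff.1 hw).1 h2
      rw [mem_nb] at hu
      refine ⟨u, ?_, hu.2.symm⟩
      by_contra huW
      exact hi2 w hw u (mem_sdiff.2 ⟨hu.1, huW⟩) hu.2)
  have h3 : (miss G W (S \ W)).card + ∑ w ∈ W, dg G S w = W.card * (S \ W).card := by
    have h4 : ((W ×ˢ (S \ W)).filter (fun p => G.Adj p.1 p.2)).card = ∑ w ∈ W, dg G S w := by
      rw [card_filter, sum_product]
      apply sum_congr rfl
      intro u hu
      rw [← hi1.dg_sdiff hW hu, dg_eq_sum]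
    rw [← h4, ← card_product, miss, add_comm]
    exact card_filter_add_card_filter_not _
  have h4 := hi1.e2_eq hW
  rw [hi2.e2_zero, add_zero] at h4
  have h5 : (miss G W (S \ W)).card = k := by omega
  rw [union_sdiff_of_subset hW, h5] at h1
  exact h1

end Pool.Agent.H521_col
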