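import Pool.Agent.H521_col.Steps

/-!
Triangle-free graphs without cut vertices.
-/

set_option linter.unusedSectionVars false

namespace Pool.Agent.H521_col

open Finset
open scoped Classical

variable {V : Type*} [Fintype V] [DecidableEq V]

/-- the standing assumptions -/
structure Ctx (G : SimpleGraph V) (S : Finset V) (a b k : ℕ) : Prop where
  ih : IHyp V S.card
  conn : Conn G S
  nocut : ∀ z ∈ S, Conn G (S.erase z)
  tf : TF G S
  hb : 2 ≤ b
  hn : a + b = S.card
  hk : k + b ≤ a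
  he : 2 * (a * b) = e2 G S + 2 * k

variable {G : SimpleGraph V} {S : Finset V} {a b k : ℕ}

theorem Ctx.card2 (C : Ctx G S a b k) : 4 ≤ S.card := by
  have h1 := C.hb
  have h2 := C.hn
  have h3 := C.hk
  omega

theorem Ctx.high (C : Ctx G S a b k) (h : ∃ v ∈ S, a ≤ dg G S v) : P G S + 12 ≤ val a b k := by
  obtain ⟨v0, hv0, hav0⟩ := h
  obtain ⟨v, hv, hmax⟩ := exists_max_image S (fun v => dg G S v) C.conn.1
  have haD : a ≤ dg G S v := hav0.trans (hmax v0 hv0)
  have hNi := C.tf.nb_ind hv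
  have hNs : nb G S v ⊆ S := nb_subset
  have h1 := hNi.e2_compl hNs
  have h3 : (S \ nb G S v).card + dg G S v = S.card := by
    rw [dg, card_sdiff_add_card_eq_card hNs]
  have hvR : v ∈ S \ nb G S v := by
    rw [mem_sdiff, mem_nb]
    exact ⟨hv, fun h => G.loopless.irrefl v h.2⟩
  have hRpos := card_pos.2 ⟨v, hvR⟩
  set R := S \ nb G S v with hR
  set D := dg G S v with hD
  have hk := C.hk
  have hn := C.hn
  have he := C.he
  have hb := C.hb
  obtain ⟨δ, hδ⟩ := Nat.exists_eq_add_of_le haD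
  have hRi : Ind G R := by
    intro x hx y hy hxy
    have hxS := (mem_sdiff.1 hx).1
    have hyS := (mem_sdiff.1 hy).1
    have hxy' : x ≠ y := hxy.ne
    have h4 := C.tf.dg_add hxS hyS hxy
    have hyR : y ∈ R.erase x := mem_erase.2 ⟨hxy'.symm, hy⟩
    have h5 : ∑ z ∈ R, dg G S z = dg G S x + (dg G S y + ∑ z ∈ (R.erase x).erase y, dg G S z) := by
      rw [← add_sum_erase R _ hx, ← add_sum_erase (R.erase x) _ hyR]
    have hc1 : ((R.erase x).erase y).card + 2 = R.card := by
      rw [card_erase_of_mem hyR, card_erase_of_mem hx]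
      have h8 := card_pos.2 ⟨y, hyR⟩
      rw [card_erase_of_mem hx] at h8
      omega
    have h6 : ∑ z ∈ (R.erase x).erase y, dg G S z ≤ ((R.erase x).erase y).card * D := by
      rw [← smul_eq_mul]
      exact sum_le_card_nsmul _ _ _ (fun z hz =>
        hmax z (mem_sdiff.1 (mem_of_mem_erase (mem_of_mem_erase hz))).1)
    have h7 : 2 ≤ e2 G R := by
      have a1 : 1 ≤ dg G R x := card_pos.2 ⟨y, mem_nb.2 ⟨hy, hxy⟩⟩
      have a2 : 1 ≤ dg G R y := card_pos.2 ⟨x, mem_nb.2 ⟨hx, hxy.symm⟩⟩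
      have a3 : ({x, y} : Finset V) ⊆ R := by
        intro z hz
        rw [mem_insert, mem_singleton] at hz
        rcases hz with rfl | rfl <;> assumption
      calc 2 ≤ dg G R x + dg G R y := by omega
        _ = ∑ z ∈ ({x, y} : Finset V), dg G R z := by rw [sum_pair hxy']
        _ ≤ e2 G R := sum_le_sum_of_subset a3
    generalize ((R.erase x).erase y).card = r' at *
    have hb' : b = r' + 2 + δ := by omega
    rw [hδ] at h6
    subst hb'
    have e1 : 2 * (a * (r' + 2 + δ)) = 2 * (a * r') + 4 * a + 2 * (a * δ) := by ring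
    have e2' : r' * (a + δ) = a * r' + r' * δ := by ring
    have h9 : r' * δ ≤ a * δ := Nat.mul_le_mul_right δ (by omega)
    omega
  have h4 : e2 G R = 0 := hRi.e2_zero
  have h5 : ∑ x ∈ R, dg G S x ≤ R.card * D := by
    rw [← smul_eq_mul]
    exact sum_le_card_nsmul _ _ _ (fun x hx => hmax x (mem_sdiff.1 hx).1)
  have hδ0 : δ = 0 := by
    by_contra hne
    obtain ⟨ε, rfl⟩ : ∃ ε, δ = ε + 1 := ⟨δ - 1, by omega⟩
    generalize R.card = r at *
    have hb' : b = r + ε + 1 := by omega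
    rw [hδ] at h5
    subst hb'
    have e1 : 2 * (a * (r + ε + 1)) = 2 * (a * r) + 2 * (a * ε) + 2 * a := by ring
    have e2' : r * (a + (ε + 1)) = a * r + r * ε + r := by ring
    have h9 : r * ε ≤ a * ε := Nat.mul_le_mul_right ε (by omega)
    omega
  subst hδ0
  have hDa : (nb G S v).card = a := by
    rw [← dg]
    omega
  have hRb : R.card = b := by omega
  have h6 := direct_bound' C.conn hNs (by rw [← card_pos, hDa]; omega) ⟨v, hvR⟩ hNi hRi (k := k) (by
    rw [hDa, ← hR, hRb]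
    exact he)
  rw [hDa, ← hR, hRb] at h6
  exact h6

theorem Ctx.del (C : Ctx G S a b k) {v : V} (hv : v ∈ S) (h1 : b ≤ dg G S v)
    (h2 : dg G S v + k + 1 ≤ a) : P G S + 12 ≤ val a b k := by
  have hk := C.hk
  have hn := C.hn
  have he := C.he
  have hb := C.hb
  have hcard : (S.erase v).card = S.card - 1 := card_erase_of_mem hv
  have h3 := erase_bound C.conn hv (by omega)
  have h4 := e2_erase (G := G) hv
  obtain ⟨i, hi⟩ := Nat.exists_eq_add_of_le h1
  have h5 := C.ih G (S.erase v) (by omega) (C.nocut v hv) (a - 1) b (k + i) (by omega) (by omega)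
    (by omega) (by
      obtain ⟨A, rfl⟩ : ∃ A, a = A + 1 := ⟨a - 1, by omega⟩
      rw [Nat.add_sub_cancel]
      have : 2 * ((A + 1) * b) = 2 * (A * b) + 2 * b := by ring
      omega)
  have h6 := num_del (a := a) (b := b) (k := k) (i := i) (by omega)
  have h7 : S.card - 1 - dg G S v = a - 1 - i := by omega
  rw [h7] at h3
  omega

theorem Ctx.i3 (C : Ctx G S a b k) {v : V} (hv : v ∈ S) (h1 : a + b ≤ dg G S v + k + 2)
    (h2 : dg G S v + 1 ≤ a) : P G S + 12 ≤ val a b k := by
  have hk := C.hk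
  have hn := C.hn
  have he := C.he
  have hb := C.hb
  have hcard : (S.erase v).card = S.card - 1 := card_erase_of_mem hv
  have h3 := erase_bound C.conn hv (by omega)
  have h4 := e2_erase (G := G) hv
  obtain ⟨z, hz⟩ := Nat.exists_eq_add_of_le h2
  have h5 := C.ih G (S.erase v) (by omega) (C.nocut v hv) a (b - 1) (k - (z + 1)) (by omega)
    (by omega) (by omega) (by
      obtain ⟨β, rfl⟩ : ∃ β, b = β + 1 := ⟨b - 1, by omega⟩
      rw [Nat.add_sub_cancel]
      have : 2 * (a * (β + 1)) = 2 * (a * β) + 2 * a := by ring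
      omega)
  have h6 := num_I3 (a := a) (b := b) (k := k) (z := z + 1) (by omega) (by omega) (by omega)
  have h7 : S.card - 1 - dg G S v = b - 1 + (z + 1) := by omega
  rw [h7] at h3
  omega

theorem Ctx.first (C : Ctx G S a b k) {v : V} (hv : v ∈ S) (h1 : b + 1 ≤ dg G S v) :
    P G S ≤ P G (S.erase v) + 3 * 2 ^ (a - 2) := by
  have hn := C.hn
  have hb := C.hb
  have hk := C.hk
  have h3 := erase_bound C.conn hv (by omega)
  have h4 : 2 ^ (S.card - 1 - dg G S v) ≤ 2 ^ (a - 2) :=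
    Nat.pow_le_pow_right (by norm_num) (by omega)
  omega

theorem Ctx.i4 (C : Ctx G S a b k) {v : V} (hv : v ∈ S) (h1 : b + 1 ≤ dg G S v)
    (h2 : dg G S v + k + 3 ≤ a + b) (h3 : dg G S v + 1 ≤ a)
    (hcut : ∃ y ∈ S.erase v, ¬ Conn G ((S.erase v).erase y)) : P G S + 12 ≤ val a b k := by
  have hk := C.hk
  have hn := C.hn
  have he := C.he
  have hb := C.hb
  obtain ⟨y, hy, hcut⟩ := hcut
  have hcard : (S.erase v).card = S.card - 1 := card_erase_of_mem hv
  have h4 := e2_erase (G := G) hv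
  have h5 := C.first hv h1
  obtain ⟨G', S', hc', hcard', he', hP⟩ := cut_reduce (C.nocut v hv) hy (by omega) hcut
  have h6 := C.ih G' S' (by omega) hc' (a - 2) b (a - b - 2) (by omega) (by omega) (by omega) (by
    obtain ⟨c, rfl⟩ : ∃ c, a = b + 2 + c := ⟨a - b - 2, by omega⟩
    have e1 : b + 2 + c - 2 = b + c := by omega
    have e2' : b + 2 + c - b - 2 = c := by omega
    rw [e1, e2']
    have e3 : 2 * ((b + 2 + c) * b) = 2 * ((b + c) * b) + 4 * b := by ring
    omega)
  have h7 := num_I4 (a := a) (b := b) (k := k) hb (by omega)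
  omega

theorem dg_erase_adj {u v : V} (hu : u ∈ S) (huv : G.Adj v u) :
    dg G (S.erase u) v + 1 = dg G S v := by
  rw [dg_erase (G := G) (v := v) hu, if_pos huv]

theorem dg_erase_nadj {u v : V} (hu : u ∈ S) (huv : ¬ G.Adj v u) :
    dg G (S.erase u) v = dg G S v := by
  rw [dg_erase (G := G) (v := v) hu, if_neg huv, add_zero]

theorem Ctx.i5 (C : Ctx G S a b k) {u v : V} (hu : u ∈ S) (hv : v ∈ S) (huv : G.Adj u v)
    (h1 : b + 1 ≤ dg G S u) (h2 : b + 1 ≤ dg G S v) (h3 : dg G S u + 1 ≤ a)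
    (hc : Conn G ((S.erase u).erase v)) : P G S + 12 ≤ val a b k := by
  have hk := C.hk
  have hn := C.hn
  have he := C.he
  have hb := C.hb
  have hvu : v ∈ S.erase u := mem_erase.2 ⟨huv.ne.symm, hv⟩
  have hcard : (S.erase u).card = S.card - 1 := card_erase_of_mem hu
  have hcard' : ((S.erase u).erase v).card = (S.erase u).card - 1 := card_erase_of_mem hvu
  have h4 := e2_erase (G := G) hu
  have h5 := e2_erase (G := G) hvu
  have h6 := dg_erase_adj hu huv.symm
  have h7 := C.first hu h1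
  have h8 := erase_bound (C.nocut u hu) hvu (by omega)
  have h9 : 2 ^ ((S.erase u).card - 1 - dg G (S.erase u) v) ≤ 2 ^ (a - 2) :=
    Nat.pow_le_pow_right (by norm_num) (by omega)
  have h10 := C.tf.dg_add hu hv huv
  have h11 := C.ih G ((S.erase u).erase v) (by omega) hc (a - 1) (b - 1) k (by omega) (by omega)
    (by omega) (by
      obtain ⟨A, rfl⟩ : ∃ A, a = A + 1 := ⟨a - 1, by omega⟩
      obtain ⟨β, rfl⟩ : ∃ β, b = β + 1 := ⟨b - 1, by omega⟩
      rw [Nat.add_sub_cancel, Nat.add_sub_cancel]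
      have : 2 * ((A + 1) * (β + 1)) = 2 * (A * β) + 2 * A + 2 * β + 2 := by ring
      omega)
  have h12 := num_I5 (a := a) (b := b) (k := k) (by omega) (by omega)
  omega

/-- an edge with both ends of large degree -/
theorem Ctx.edge (C : Ctx G S a b k) {u v : V} (hu : u ∈ S) (hv : v ∈ S) (huv : G.Adj u v)
    (h1 : b + 1 ≤ dg G S u) (h2 : b + 1 ≤ dg G S v) (h3 : dg G S u + 1 ≤ a) :
    P G S + 12 ≤ val a b k := by
  by_cases h4 : a + b ≤ dg G S u + k + 2
  · exact C.i3 hu h4 h3
  · by_cases h5 : ∃ y ∈ S.erase u, ¬ Conn G ((S.erase u).erase y)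
    · exact C.i4 hu h1 (by omega) h3 h5
    · push Not at h5
      exact C.i5 hu hv huv h1 h2 h3 (h5 v (mem_erase.2 ⟨huv.ne.symm, hv⟩))

/-- two non-adjacent vertices, `k = a - b` -/
theorem Ctx.i6 (C : Ctx G S a b k) (hkab : k + b = a) {w z : V} (hw : w ∈ S) (hz : z ∈ S)
    (hwz : w ≠ z) (hadj : ¬ G.Adj z w) (h1 : b + 1 ≤ dg G S w) (h3 : dg G S w + 1 ≤ a)
    (h2 : dg G S z = b) (h4 : dg G S w + k + 3 ≤ a + b) : P G S + 12 ≤ val a b k := by
  have hk := C.hk
  have hn := C.hn
  have he := C.he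
  have hb := C.hb
  by_cases hcut : ∃ y ∈ S.erase w, ¬ Conn G ((S.erase w).erase y)
  · exact C.i4 hw h1 h4 h3 hcut
  · push Not at hcut
    have hzw : z ∈ S.erase w := mem_erase.2 ⟨hwz.symm, hz⟩
    have hcard : (S.erase w).card = S.card - 1 := card_erase_of_mem hw
    have hcard' : ((S.erase w).erase z).card = (S.erase w).card - 1 := card_erase_of_mem hzw
    have h5 := e2_erase (G := G) hw
    have h6 := e2_erase (G := G) hzw
    have h7 := dg_erase_nadj hw hadj
    have h8 := erase_bound C.conn hw (by omega)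
    have h9 := erase_bound (C.nocut w hw) hzw (by omega)
    obtain ⟨e, he'⟩ : ∃ e, dg G S w = b + e := ⟨dg G S w - b, by omega⟩
    have h10 := C.ih G ((S.erase w).erase z) (by omega) (hcut z hzw) (a - 1) (b - 1) (e + 1)
      (by omega) (by omega) (by omega) (by
        obtain ⟨A, rfl⟩ : ∃ A, a = A + 1 := ⟨a - 1, by omega⟩
        obtain ⟨β, rfl⟩ : ∃ β, b = β + 1 := ⟨b - 1, by omega⟩
        rw [Nat.add_sub_cancel, Nat.add_sub_cancel]
        have : 2 * ((A + 1) * (β + 1)) = 2 * (A * β) + 2 * A + 2 * β + 2 := by ring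
        omega)
    have h11 := num_I6 (a := a) (b := b) (e := e) (by omega) (by omega) (by omega)
    have e1 : S.card - 1 - dg G S w = a - 1 - e := by omega
    have e2' : (S.erase w).card - 1 - dg G (S.erase w) z = a - 2 := by omega
    have e3 : a - b = k := by omega
    rw [e1] at h8
    rw [e2'] at h9
    rw [e3] at h11
    omega

/-- existence of an edge with both ends of degree at least `a - k` -/
theorem Ctx.exists_edge (C : Ctx G S a b k) (hmax : ∀ v ∈ S, dg G S v + 1 ≤ a)
    (hgap : ∀ v ∈ S, b ≤ dg G S v → a ≤ dg G S v + k) :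
    ∃ u ∈ S, ∃ v ∈ S, G.Adj u v ∧ b ≤ dg G S u ∧ b ≤ dg G S v := by
  by_contra hcon
  have hk := C.hk
  have hn := C.hn
  have he := C.he
  have hb := C.hb
  set U := S.filter (fun v => b ≤ dg G S v) with hU
  have hUi : Ind G U := by
    intro u hu v hv huv
    rw [hU, mem_filter] at hu hv
    exact hcon ⟨u, hu.1, v, hv.1, huv, hu.2, hv.2⟩
  have hUS : U ⊆ S := filter_subset _ _
  have h1 := hUi.e2_eq hUS
  have h2 : e2 G S = ∑ w ∈ U, dg G S w + ∑ w ∈ S \ U, dg G S w := by
    rw [e2, add_comm]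
    exact (sum_sdiff hUS).symm
  have h3 : ∑ w ∈ U, dg G S w ≤ U.card * (a - 1) := by
    rw [← smul_eq_mul]
    apply sum_le_card_nsmul
    intro w hw
    have := hmax w (hUS hw)
    omega
  have h4 : ∑ w ∈ S \ U, dg G S w ≤ (S \ U).card * (b - 1) := by
    rw [← smul_eq_mul]
    apply sum_le_card_nsmul
    intro w hw
    rw [mem_sdiff, hU, mem_filter, not_and, not_le] at hw
    have := hw.2 hw.1
    omega
  have h5 := card_sdiff_add_card_eq_card hUS
  generalize ∑ w ∈ U, dg G S w = s at *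
  generalize ∑ w ∈ S \ U, dg G S w = s' at *
  generalize (S \ U).card = r at *
  generalize U.card = u at *
  obtain ⟨β, rfl⟩ : ∃ β, b = β + 1 := ⟨b - 1, by omega⟩
  obtain ⟨A, rfl⟩ : ∃ A, a = A + 1 := ⟨a - 1, by omega⟩
  simp only [Nat.add_sub_cancel] at h3 h4
  have e1 : 2 * ((A + 1) * (β + 1)) = 2 * ((A + 1) * β) + 2 * A + 2 := by ring
  rcases Nat.lt_or_ge u (β + 1) with h6 | h6
  · -- u ≤ β
    obtain ⟨x, hx⟩ := Nat.exists_eq_add_of_le (Nat.lt_succ_iff.1 h6)
    obtain ⟨y, hy⟩ : ∃ y, A = β + y := ⟨A - β, by omega⟩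
    have hr : r = A + x + 2 := by omega
    subst hr
    subst hx
    subst hy
    have e2' : u * (u + x + y) = u * u + u * x + u * y := by ring
    have e3 : (u + x + y + x + 2) * (u + x) =
        u * u + 3 * (u * x) + y * u + y * x + 2 * (x * x) + 2 * u + 2 * x := by ring
    have e4 : 2 * ((u + x + y + 1) * (u + x)) =
        2 * (u * u) + 4 * (u * x) + 2 * (y * u) + 2 * (y * x) + 2 * (x * x) + 2 * u + 2 * x := by
      ring
    nlinarith [Nat.zero_le (y * x), Nat.zero_le (x * x)]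
  · have hr : r ≤ A + 1 := by omega
    have h7 : r * β ≤ (A + 1) * β := Nat.mul_le_mul_right β hr
    omega

end Pool.Agent.H521_col
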