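import Pool.Agent.H521_col.Exact

/-!
The last case: `k = a - b` and the vertices of degree more than `b` are independent.
-/

set_option linter.unusedSectionVars false

namespace Pool.Agent.H521_col

open Finset
open scoped Classical

variable {V : Type*} [Fintype V] [DecidableEq V]

/-- images determined by a smaller set -/
theorem image_det {X : Finset (V → Fin 3)} {T T' : Finset V} (hTT' : T ⊆ T')
    (h : ∀ c ∈ X, ∀ c' ∈ X, (∀ u ∈ T, c u = c' u) → ∀ u ∈ T', c u = c' u) :
    (X.image (res T')).card ≤ (X.image (res T)).card := by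
  apply card_le_card_of_injOn (fun d => res T d)
  · intro d hd
    rw [mem_coe, mem_image] at hd
    obtain ⟨c, hc, rfl⟩ := hd
    rw [mem_coe]
    show res T (res T' c) ∈ X.image (res T)
    rw [res_res hTT']
    exact mem_image_of_mem _ hc
  · intro d hd d' hd' hdd
    rw [mem_coe, mem_image] at hd hd'
    obtain ⟨c, hc, rfl⟩ := hd
    obtain ⟨c', hc', rfl⟩ := hd'
    have h1 : res T (res T' c) = res T (res T' c') := hdd
    rw [res_res hTT', res_res hTT', res_eq_iff] at h1
    rw [res_eq_iff]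
    exact h c hc c' hc' h1

/-- colourings constant on `W` -/
def MonoOn (W : Finset V) (c : V → Fin 3) : Prop := ∀ u ∈ W, ∀ v ∈ W, c u = c v

/-- colourings of `W ∪ B` with `W` monochromatic -/
theorem mono_image {X : Finset (V → Fin 3)} {W B : Finset V} (hW : W.Nonempty)
    (hm : ∀ c ∈ X, MonoOn W c) (hB : ∀ z ∈ B, ∃ w ∈ W, ∀ c ∈ X, c w ≠ c z) :
    (X.image (res (W ∪ B))).card ≤ 3 * 2 ^ B.card := by
  have h1 := steps_ne (X := X) (T := W) B hB
  have h2 := card_image_const (X := X) hW hm
  calc (X.image (res (W ∪ B))).card ≤ 2 ^ B.card * (X.image (res W)).card := h1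
    _ ≤ 2 ^ B.card * 3 := Nat.mul_le_mul_left _ h2
    _ = _ := by ring

/-- colourings of a star with at least two colours on the leaves -/
theorem star_nonmono {G : SimpleGraph V} {W : Finset V} {z : V} (hz : z ∉ W) (hW : W.Nonempty)
    (hadj : ∀ w ∈ W, G.Adj z w) (hi : Ind G W) :
    ((Col (Fin 3) G (insert z W)).filter (fun c => ¬ MonoOn W c)).card + 6 ≤
      3 * 2 ^ W.card := by
  have h1 : (Col (Fin 3) G (insert z W)).card ≤ 3 * 2 ^ W.card := by
    have h2 := steps_ne (X := Col (Fin 3) G (insert z W)) (T := {z}) W (fun w hw =>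
      ⟨z, mem_singleton_self z, fun c hc => (mem_Col.1 hc).2 z (mem_insert_self z W) w
        (mem_insert_of_mem hw) (hadj w hw)⟩)
    have h3 : {z} ∪ W = insert z W := rfl
    rw [h3, card_image_res_self (Subset.refl _)] at h2
    have h4 : ((Col (Fin 3) G (insert z W)).image (res {z})).card ≤ 3 :=
      card_image_const (singleton_nonempty z) (by
        intro c _ u hu v hv
        rw [mem_singleton] at hu hv
        rw [hu, hv])
    calc (Col (Fin 3) G (insert z W)).card
        ≤ 2 ^ W.card * ((Col (Fin 3) G (insert z W)).image (res {z})).card := h2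
      _ ≤ 2 ^ W.card * 3 := Nat.mul_le_mul_left _ h4
      _ = _ := by ring
  have h2 : 6 ≤ ((Col (Fin 3) G (insert z W)).filter (fun c => MonoOn W c)).card := by
    have h6 : ((univ : Finset (Fin 3)).offDiag).card = 6 := by decide
    rw [← h6]
    apply card_le_card_of_injOn
      (fun ab => (fun v => if v ∈ W then ab.1 else if v = z then ab.2 else 0))
    · intro ab hab
      rw [mem_coe, mem_offDiag] at hab
      rw [mem_coe, mem_filter, mem_Col]
      refine ⟨⟨?_, ?_⟩, ?_⟩
      · intro w hw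
        rw [mem_insert, not_or] at hw
        simp only [if_neg hw.1, if_neg hw.2]
      · intro u hu0 v hv0 huv
        rcases mem_insert.1 hu0 with hu | hu
        · rcases mem_insert.1 hv0 with hv | hv
          · rw [hu, hv] at huv
            exact absurd huv (G.loopless.irrefl _)
          · subst hu
            simp only [if_neg hz, if_pos hv]
            exact hab.2.2.symm
        · rcases mem_insert.1 hv0 with hv | hv
          · subst hv
            simp only [if_neg hz, if_pos hu]
            exact hab.2.2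
          · exact absurd huv (hi u hu v hv)
      · intro u hu v hv
        simp only [if_pos hu, if_pos hv]
    · intro ab _ ab' _ h
      obtain ⟨x, hx⟩ := hW
      have h1 := congrFun h x
      have h2 := congrFun h z
      simp only [if_pos hx] at h1
      simp only [if_neg hz] at h2
      exact Prod.ext h1 h2
  have h3 := card_filter_add_card_filter_not (s := Col (Fin 3) G (insert z W))
    (fun c => MonoOn W c)
  omega

variable {G : SimpleGraph V} {S W B L : Finset V}

/-- the tree bound in a connected graph -/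
theorem Conn.tree {S : Finset V} (h : Conn G S) {X : Finset (V → Fin 3)}
    (hX : X ⊆ Col (Fin 3) G S) {T : Finset V} (hT : T ⊆ S) (hne : T.Nonempty) :
    X.card ≤ 2 ^ (S \ T).card * (X.image (res T)).card := by
  have h1 := tree_bound (α := Fin 3) hX (S \ T).card T rfl hT (fun T' h1 h2 h3 =>
    h.2 T' h2 (hne.mono h1) h3)
  simpa using h1

/-- colourings that are not constant on `W` -/
theorem nonmono_bound (hc : Conn G S) (hW : W.Nonempty) (hi : Ind G W) (hWB : W ∪ B ⊆ S)
    {z0 : V} (hz0 : z0 ∈ B) (hz0W : z0 ∉ W) (hadj : ∀ z ∈ B, ∀ w ∈ W, G.Adj z w) :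
    ((Col (Fin 3) G S).filter (fun c => ¬ MonoOn W c)).card + 6 * 2 ^ (S \ (W ∪ B)).card ≤
      3 * 2 ^ (W.card + (S \ (W ∪ B)).card) := by
  set X2 := (Col (Fin 3) G S).filter (fun c => ¬ MonoOn W c) with hX2
  have hX2' : X2 ⊆ Col (Fin 3) G S := filter_subset _ _
  have h1 := hc.tree hX2' hWB (hW.mono subset_union_left)
  have hins : insert z0 W ⊆ W ∪ B := by
    intro x hx
    rcases mem_insert.1 hx with rfl | hx
    · exact mem_union_right _ hz0
    · exact mem_union_left _ hx
  have h2 : (X2.image (res (W ∪ B))).card ≤ (X2.image (res (insert z0 W))).card := by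
    apply image_det hins
    have key : ∀ c ∈ X2, ∀ z ∈ B, c z = c z0 := by
      intro c hcX z hz
      rw [hX2, mem_filter] at hcX
      have hnm := hcX.2
      unfold MonoOn at hnm
      push Not at hnm
      obtain ⟨u, hu, v, hv, huv⟩ := hnm
      have hp := (mem_Col.1 hcX.1).2
      have a1 := hp z (hWB (mem_union_right _ hz)) u (hWB (mem_union_left _ hu)) (hadj z hz u hu)
      have a2 := hp z (hWB (mem_union_right _ hz)) v (hWB (mem_union_left _ hv)) (hadj z hz v hv)
      have a3 := hp z0 (hWB (mem_union_right _ hz0)) u (hWB (mem_union_left _ hu))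
        (hadj z0 hz0 u hu)
      have a4 := hp z0 (hWB (mem_union_right _ hz0)) v (hWB (mem_union_left _ hv))
        (hadj z0 hz0 v hv)
      generalize c u = cu at *
      generalize c v = cv at *
      generalize c z = cz at *
      generalize c z0 = cz0 at *
      revert cu cv cz cz0
      decide
    intro c hcX c' hcX' hcc u hu
    rcases mem_union.1 hu with hu | hu
    · exact hcc u (mem_insert_of_mem hu)
    · rw [key c hcX u hu, key c' hcX' u hu]
      exact hcc z0 (mem_insert_self z0 W)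
  have h3 : X2.image (res (insert z0 W)) ⊆
      (Col (Fin 3) G (insert z0 W)).filter (fun c => ¬ MonoOn W c) := by
    intro d hd
    rw [mem_image] at hd
    obtain ⟨c, hcX, rfl⟩ := hd
    rw [hX2, mem_filter] at hcX
    rw [mem_filter]
    refine ⟨res_mem_Col (hins.trans hWB) hcX.1, ?_⟩
    intro hm
    apply hcX.2
    intro u hu v hv
    have := hm u hu v hv
    rwa [res_apply_of_mem (mem_insert_of_mem hu), res_apply_of_mem (mem_insert_of_mem hv)] at this
  have h4 := star_nonmono hz0W hW (hadj z0 hz0) hi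
  have h5 := card_le_card h3
  have h6 : (X2.image (res (W ∪ B))).card + 6 ≤ 3 * 2 ^ W.card := by omega
  calc X2.card + 6 * 2 ^ (S \ (W ∪ B)).card
      ≤ 2 ^ (S \ (W ∪ B)).card * (X2.image (res (W ∪ B))).card +
          6 * 2 ^ (S \ (W ∪ B)).card := Nat.add_le_add_right h1 _
    _ = 2 ^ (S \ (W ∪ B)).card * ((X2.image (res (W ∪ B))).card + 6) := by ring
    _ ≤ 2 ^ (S \ (W ∪ B)).card * (3 * 2 ^ W.card) := Nat.mul_le_mul_left _ h6
    _ = _ := by ring

/-- colourings constant on `W`, when there is an edge outside both of whose ends are adjacent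
to `W` -/
theorem mono_case1 (hc : Conn G S) (hW : W.Nonempty) (hWB : W ∪ B ⊆ S)
    (hadj : ∀ z ∈ B, ∀ w ∈ W, G.Adj z w) {x y w1 w2 : V} (hx : x ∈ S \ (W ∪ B))
    (hy : y ∈ S \ (W ∪ B)) (hxy : G.Adj x y) (hw1 : w1 ∈ W) (hw2 : w2 ∈ W) (h1 : G.Adj x w1)
    (h2 : G.Adj y w2) :
    2 * ((Col (Fin 3) G S).filter (fun c => MonoOn W c)).card ≤
      3 * 2 ^ (B.card + (S \ (W ∪ B)).card) := by
  set X1 := (Col (Fin 3) G S).filter (fun c => MonoOn W c) with hX1
  have hX1' : X1 ⊆ Col (Fin 3) G S := filter_subset _ _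
  have hxS := (mem_sdiff.1 hx).1
  have hyS := (mem_sdiff.1 hy).1
  have hxT := (mem_sdiff.1 hx).2
  have hyT := (mem_sdiff.1 hy).2
  have hw1S : w1 ∈ S := hWB (mem_union_left _ hw1)
  have hw2S : w2 ∈ S := hWB (mem_union_left _ hw2)
  set T1 := insert y (insert x (W ∪ B)) with hT1
  have hT1S : T1 ⊆ S := insert_subset hyS (insert_subset hxS hWB)
  have h3 := hc.tree hX1' hT1S (insert_nonempty _ _)
  have hyT' : y ∉ insert x (W ∪ B) := by
    rw [mem_insert, not_or]
    exact ⟨hxy.ne.symm, hyT⟩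
  have hcard : (S \ T1).card + 2 = (S \ (W ∪ B)).card := by
    rw [card_sdiff_of_subset hT1S, card_sdiff_of_subset hWB, hT1, card_insert_of_notMem hyT',
      card_insert_of_notMem hxT]
    have := card_le_card hT1S
    rw [hT1, card_insert_of_notMem hyT', card_insert_of_notMem hxT] at this
    omega
  have h4 : (X1.image (res T1)).card ≤ 1 * (X1.image (res (insert x (W ∪ B)))).card := by
    apply step
    intro c hcX
    rw [hX1, mem_filter] at hcX
    have hp := (mem_Col.1 hcX.1).2
    have hne : c x ≠ c w1 := hp x hxS w1 hw1S h1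
    refine le_trans (card_le_card ?_) (fin3_one (c x) (c w1) hne)
    intro a' ha
    rw [mem_image] at ha
    obtain ⟨c', hc', rfl⟩ := ha
    rw [mem_filter, hX1, mem_filter] at hc'
    have hp' := (mem_Col.1 hc'.1.1).2
    rw [mem_filter]
    refine ⟨mem_univ _, ?_, ?_⟩
    · rw [← (res_eq_iff.1 hc'.2) x (mem_insert_self _ _)]
      exact hp' x hxS y hyS hxy
    · rw [← (res_eq_iff.1 hc'.2) w1 (mem_insert_of_mem (mem_union_left _ hw1)),
        hc'.1.2 w1 hw1 w2 hw2]
      exact (hp' y hyS w2 hw2S h2).symm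
  have h5 : (X1.image (res (insert x (W ∪ B)))).card ≤ 2 * (X1.image (res (W ∪ B))).card := by
    have := step_adj (α := Fin 3) hX1' hWB (mem_union_left B hw1) hxS h1.symm
    simpa using this
  have h6 : (X1.image (res (W ∪ B))).card ≤ 3 * 2 ^ B.card := by
    apply mono_image hW
    · intro c hcX
      exact (mem_filter.1 hcX).2
    · intro z hz
      refine ⟨w1, hw1, fun c hcX => ?_⟩
      exact ((mem_Col.1 (hX1' hcX)).2 z (hWB (mem_union_right _ hz)) w1 hw1S (hadj z hz w1 hw1)).symm
  rw [← hcard]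
  calc 2 * X1.card ≤ 2 * (2 ^ (S \ T1).card * (X1.image (res T1)).card) :=
        Nat.mul_le_mul_left _ h3
    _ ≤ 2 * (2 ^ (S \ T1).card * (2 * (3 * 2 ^ B.card))) := by
        apply Nat.mul_le_mul_left
        apply Nat.mul_le_mul_left
        omega
    _ = 3 * 2 ^ (B.card + ((S \ T1).card + 2)) := by ring

/-- colourings constant on `W`, when a vertex outside has all its neighbours outside -/
theorem mono_case2 (hc : Conn G S) (hW : W.Nonempty) (hWB : W ∪ B ⊆ S)
    (hadj : ∀ z ∈ B, ∀ w ∈ W, G.Adj z w) {x y w1 : V} (hx : x ∈ S \ (W ∪ B))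
    (hce : Conn G (S.erase x)) (hy : y ∈ S \ (W ∪ B)) (hxy : G.Adj x y) (hw1 : w1 ∈ W)
    (h1 : G.Adj y w1) (hN : nb G S x ⊆ S \ (W ∪ B)) (hN2 : 2 ≤ (nb G S x).card) :
    4 * ((Col (Fin 3) G S).filter (fun c => MonoOn W c)).card ≤
      9 * 2 ^ (B.card + (S \ (W ∪ B)).card) := by
  set X1 := (Col (Fin 3) G S).filter (fun c => MonoOn W c) with hX1
  have hX1' : X1 ⊆ Col (Fin 3) G S := filter_subset _ _
  have hxS := (mem_sdiff.1 hx).1
  have hyS := (mem_sdiff.1 hy).1
  have hxT := (mem_sdiff.1 hx).2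
  have hyT := (mem_sdiff.1 hy).2
  have hw1S : w1 ∈ S := hWB (mem_union_left _ hw1)
  have hWBx : W ∪ B ⊆ S.erase x := by
    intro v hv
    rw [mem_erase]
    exact ⟨fun h => hxT (h ▸ hv), hWB hv⟩
  have hWBne : (W ∪ B).Nonempty := hW.mono subset_union_left
  have h2 := step_mono (X := X1) (T := S.erase x) (N := nb G S x) (w := x) nb_subset_erase
    (by rw [← card_pos]; omega) (by
      intro c hcX u hu
      rw [mem_nb] at hu
      exact (mem_Col.1 (hX1' hcX)).2 u hu.1 x hxS hu.2.symm)
  rw [insert_erase hxS, card_image_res_self hX1'] at h2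
  set Z := X1.image (res (S.erase x)) with hZ
  have hZcol : Z ⊆ Col (Fin 3) G (S.erase x) := by
    intro d hd
    rw [hZ, mem_image] at hd
    obtain ⟨c, hcX, rfl⟩ := hd
    exact res_mem_Col (erase_subset x S) (hX1' hcX)
  have hZmono : ∀ d ∈ Z, MonoOn W d := by
    intro d hd
    rw [hZ, mem_image] at hd
    obtain ⟨c, hcX, rfl⟩ := hd
    have hm := (mem_filter.1 hcX).2
    intro u hu v hv
    rw [res_apply_of_mem (hWBx (mem_union_left _ hu)), res_apply_of_mem (hWBx (mem_union_left _ hv))]
    exact hm u hu v hv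
  have hBne : ∀ z ∈ B, ∃ w ∈ W, ∀ d ∈ Z, d w ≠ d z := by
    intro z hz
    refine ⟨w1, hw1, fun d hd => ?_⟩
    exact ((mem_Col.1 (hZcol hd)).2 z (hWBx (mem_union_right _ hz)) w1
      (hWBx (mem_union_left _ hw1)) (hadj z hz w1 hw1)).symm
  -- the first part
  have h3 := hce.tree hZcol hWBx hWBne
  have h4 := mono_image hW hZmono hBne
  have hcard1 : (S.erase x \ (W ∪ B)).card + 1 = (S \ (W ∪ B)).card := by
    rw [card_sdiff_of_subset hWBx, card_sdiff_of_subset hWB, card_erase_of_mem hxS]
    have := card_le_card hWBx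
    rw [card_erase_of_mem hxS] at this
    have h5 := card_pos.2 ⟨x, hxS⟩
    omega
  -- the second part
  set Zm := Z.filter (fun b => ∀ u ∈ nb G S x, ∀ v ∈ nb G S x, b u = b v) with hZm
  have hZmZ : Zm ⊆ Z := filter_subset _ _
  set T2 := (W ∪ B) ∪ nb G S x with hT2
  have hT2S : T2 ⊆ S.erase x := union_subset hWBx nb_subset_erase
  have h5 := tree_bound (α := Fin 3) (hZmZ.trans hZcol) (S.erase x \ T2).card T2 rfl hT2S
    (fun T' a1 a2 a3 => hc.out hxS (subset_union_right.trans a1) a2 a3)
  simp only [Fintype.card_fin] at h5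
  have hyN : y ∈ nb G S x := mem_nb.2 ⟨hyS, hxy⟩
  have h6 : (Zm.image (res T2)).card ≤ (Zm.image (res (insert y (W ∪ B)))).card := by
    apply image_det
    · intro v hv
      rcases mem_insert.1 hv with rfl | hv
      · exact mem_union_right _ hyN
      · exact mem_union_left _ hv
    · intro c hcZ c' hcZ' hcc u hu
      rcases mem_union.1 hu with hu | hu
      · exact hcc u (mem_insert_of_mem hu)
      · rw [(mem_filter.1 hcZ).2 u hu y hyN, (mem_filter.1 hcZ').2 u hu y hyN]
        exact hcc y (mem_insert_self _ _)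
  have h7 : (Zm.image (res (insert y (W ∪ B)))).card ≤ 2 * (Zm.image (res (W ∪ B))).card := by
    have := step_adj (α := Fin 3) (hZmZ.trans hZcol) hWBx (mem_union_left B hw1)
      (mem_erase.2 ⟨hxy.ne.symm, hyS⟩) h1.symm
    simpa using this
  have h8 : (Zm.image (res (W ∪ B))).card ≤ 3 * 2 ^ B.card :=
    mono_image hW (fun d hd => hZmono d (hZmZ hd)) (fun z hz => by
      obtain ⟨w, hw, h⟩ := hBne z hz
      exact ⟨w, hw, fun d hd => h d (hZmZ hd)⟩)
  have hcard2 : (S.erase x \ T2).card + 3 ≤ (S \ (W ∪ B)).card := by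
    have e1 : (S.erase x \ T2).card + (nb G S x).card = (S.erase x \ (W ∪ B)).card := by
      have hd : Disjoint (W ∪ B) (nb G S x) := by
        rw [disjoint_left]
        intro v hv hv'
        exact (mem_sdiff.1 (hN hv')).2 hv
      rw [card_sdiff_of_subset hT2S, card_sdiff_of_subset hWBx, hT2, card_union_of_disjoint hd]
      have := card_le_card hT2S
      rw [hT2, card_union_of_disjoint hd] at this
      omega
    omega
  have h9 : 2 ^ (S.erase x \ T2).card * 8 ≤ 2 ^ (S \ (W ∪ B)).card := by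
    calc 2 ^ (S.erase x \ T2).card * 8 = 2 ^ ((S.erase x \ T2).card + 3) := by ring
      _ ≤ _ := Nat.pow_le_pow_right (by norm_num) hcard2
  have h10 : 2 ^ (S \ (W ∪ B)).card = 2 * 2 ^ (S.erase x \ (W ∪ B)).card := by
    rw [← hcard1]
    ring
  have h11 : Zm.card * 8 ≤ 2 ^ (S \ (W ∪ B)).card * (6 * 2 ^ B.card) := by
    calc Zm.card * 8 ≤ (2 ^ (S.erase x \ T2).card * (Zm.image (res T2)).card) * 8 :=
          Nat.mul_le_mul_right _ h5
      _ = (2 ^ (S.erase x \ T2).card * 8) * (Zm.image (res T2)).card := by ring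
      _ ≤ 2 ^ (S \ (W ∪ B)).card * (6 * 2 ^ B.card) := Nat.mul_le_mul h9 (by omega)
  have h12 : Z.card * 2 ≤ 2 ^ (S \ (W ∪ B)).card * (3 * 2 ^ B.card) := by
    calc Z.card * 2 ≤ (2 ^ (S.erase x \ (W ∪ B)).card * (Z.image (res (W ∪ B))).card) * 2 :=
          Nat.mul_le_mul_right _ h3
      _ = (2 * 2 ^ (S.erase x \ (W ∪ B)).card) * (Z.image (res (W ∪ B))).card := by ring
      _ ≤ (2 * 2 ^ (S.erase x \ (W ∪ B)).card) * (3 * 2 ^ B.card) := Nat.mul_le_mul_left _ h4
      _ = _ := by rw [h10]
  have h13 : 2 ^ (B.card + (S \ (W ∪ B)).card) = 2 ^ (S \ (W ∪ B)).card * 2 ^ B.card := by ring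
  rw [h13]
  have e1 : 2 ^ (S \ (W ∪ B)).card * (6 * 2 ^ B.card) =
      6 * (2 ^ (S \ (W ∪ B)).card * 2 ^ B.card) := by ring
  have e2' : 2 ^ (S \ (W ∪ B)).card * (3 * 2 ^ B.card) =
      3 * (2 ^ (S \ (W ∪ B)).card * 2 ^ B.card) := by ring
  rw [e1] at h11
  rw [e2'] at h12
  omega

end Pool.Agent.H521_col
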