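import Mathlib

/-!
Colourings chosen from labels: branching bounds.
-/

set_option linter.unusedSectionVars false

namespace Pool.Agent.H521_col.Lab

open Finset
open scoped Classical

variable {V : Type*} [Fintype V] [DecidableEq V] {q : ℕ}

/-- number of proper colourings of `G` chosen from the labels `L` -/
noncomputable def cnt (G : SimpleGraph V) (L : V → Finset (Fin q)) : ℕ :=
  ((Fintype.piFinset L).filter (fun c => ∀ u v, G.Adj u v → c u ≠ c v)).card

/-- product of the label sizes -/
def wt (L : V → Finset (Fin q)) : ℕ := ∏ v, (L v).card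

/-- ordered pairs of vertices with disjoint labels -/
noncomputable def dis (L : V → Finset (Fin q)) : ℕ :=
  ((univ : Finset (V × V)).filter (fun p => Disjoint (L p.1) (L p.2))).card

/-- ordered pairs of adjacent vertices in `W` with intersecting labels -/
noncomputable def bad (G : SimpleGraph V) (L : V → Finset (Fin q)) (W : Finset V) : ℕ :=
  ((W ×ˢ W).filter (fun p => G.Adj p.1 p.2 ∧ ¬ Disjoint (L p.1) (L p.2))).card

/-- neighbours of `v` that may get the colour `i` -/
noncomputable def ldeg (G : SimpleGraph V) (L : V → Finset (Fin q)) (v : V) (i : Fin q) : ℕ :=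
  (univ.filter (fun u => G.Adj v u ∧ i ∈ L u)).card

theorem cnt_le_wt (G : SimpleGraph V) (L : V → Finset (Fin q)) : cnt G L ≤ wt L := by
  rw [cnt, wt, ← Fintype.card_piFinset]
  exact card_filter_le _ _

theorem wt_pos_iff {L : V → Finset (Fin q)} : 0 < wt L ↔ ∀ v, (L v).Nonempty := by
  rw [wt, Nat.pos_iff_ne_zero, prod_ne_zero_iff]
  constructor
  · intro h v
    rw [nonempty_iff_ne_empty]
    intro hv
    exact h v (mem_univ v) (by rw [hv, card_empty])
  · intro h v _
    exact (card_pos.2 (h v)).ne'

/-- splitting off a vertex: all its colours -/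
theorem cnt_split (G : SimpleGraph V) (L : V → Finset (Fin q)) (v : V) :
    cnt G L ≤ ∑ a ∈ L v, cnt G (Function.update L v {a}) := by
  rw [cnt]
  have h1 : ((Fintype.piFinset L).filter (fun c => ∀ u v, G.Adj u v → c u ≠ c v)) ⊆
      (L v).biUnion (fun a => (Fintype.piFinset (Function.update L v {a})).filter
        (fun c => ∀ u v, G.Adj u v → c u ≠ c v)) := by
    intro c hc
    rw [mem_filter, Fintype.mem_piFinset] at hc
    rw [mem_biUnion]
    refine ⟨c v, hc.1 v, ?_⟩
    rw [mem_filter, Fintype.mem_piFinset]
    refine ⟨?_, hc.2⟩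
    intro u
    by_cases hu : u = v
    · subst hu
      rw [Function.update_self]
      exact mem_singleton_self _
    · rw [Function.update_of_ne hu]
      exact hc.1 u
  exact (card_le_card h1).trans card_biUnion_le

/-- the labels after deciding that `v` does not get `i` -/
def Lm (L : V → Finset (Fin q)) (v : V) (i : Fin q) : V → Finset (Fin q) :=
  Function.update L v ((L v).erase i)

/-- the labels after deciding that `v` gets `i` -/
noncomputable def Lp (G : SimpleGraph V) (L : V → Finset (Fin q)) (v : V) (i : Fin q) :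
    V → Finset (Fin q) :=
  fun u => if u = v then {i} else if G.Adj v u then (L u).erase i else L u

theorem cnt_test (G : SimpleGraph V) (L : V → Finset (Fin q)) (v : V) (i : Fin q) :
    cnt G L ≤ cnt G (Lm L v i) + cnt G (Lp G L v i) := by
  rw [cnt]
  have h1 : ((Fintype.piFinset L).filter (fun c => ∀ u v, G.Adj u v → c u ≠ c v)) ⊆
      ((Fintype.piFinset (Lm L v i)).filter (fun c => ∀ u v, G.Adj u v → c u ≠ c v)) ∪
      ((Fintype.piFinset (Lp G L v i)).filter (fun c => ∀ u v, G.Adj u v → c u ≠ c v)) := by
    intro c hc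
    rw [mem_filter, Fintype.mem_piFinset] at hc
    rw [mem_union, mem_filter, mem_filter, Fintype.mem_piFinset, Fintype.mem_piFinset]
    by_cases hi : c v = i
    · right
      refine ⟨?_, hc.2⟩
      intro u
      unfold Lp
      by_cases hu : u = v
      · rw [if_pos hu, hu, hi]
        exact mem_singleton_self _
      · rw [if_neg hu]
        by_cases hadj : G.Adj v u
        · rw [if_pos hadj, mem_erase]
          refine ⟨?_, hc.1 u⟩
          rw [← hi]
          exact (hc.2 v u hadj).symm
        · rw [if_neg hadj]
          exact hc.1 u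
    · left
      refine ⟨?_, hc.2⟩
      intro u
      unfold Lm
      by_cases hu : u = v
      · subst hu
        rw [Function.update_self, mem_erase]
        exact ⟨hi, hc.1 u⟩
      · rw [Function.update_of_ne hu]
        exact hc.1 u
  exact (card_le_card h1).trans (card_union_le _ _)

theorem card_fin_le (A : Finset (Fin q)) : A.card ≤ q := by
  have := card_le_univ A
  simpa using this

/-- erasing a colour from a label shrinks it by the factor `1 - 1/q` -/
theorem erase_shrink (A : Finset (Fin q)) {i : Fin q} (hi : i ∈ A) :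
    ((A.erase i).card : ℝ) ≤ (1 - 1 / (q : ℝ)) * A.card := by
  have h1 : A.card = (A.erase i).card + 1 := (card_erase_add_one hi).symm
  have h2 : (A.card : ℝ) = (A.erase i).card + 1 := by
    rw [h1]
    push_cast
    ring
  have hq : (0 : ℝ) < q := by
    have := i.pos
    exact_mod_cast this
  have h3 : (A.card : ℝ) ≤ q := by exact_mod_cast card_fin_le A
  have h4 : (A.card : ℝ) / q ≤ 1 := by
    rw [div_le_one hq]
    exact h3
  have h5 : (1 - 1 / (q : ℝ)) * A.card = A.card - A.card / q := by ring
  rw [h5]
  linarith

theorem wt_Lm {L : V → Finset (Fin q)} {v : V} {i : Fin q} (hi : i ∈ L v) :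
    (wt (Lm L v i) : ℝ) ≤ (1 - 1 / (q : ℝ)) * wt L := by
  unfold wt Lm
  push_cast
  rw [← mul_prod_erase univ (fun u => ((L u).card : ℝ)) (mem_univ v),
    ← mul_prod_erase univ (fun u => ((Function.update L v ((L v).erase i) u).card : ℝ))
      (mem_univ v)]
  rw [Function.update_self]
  have h1 : ∏ x ∈ univ.erase v, ((Function.update L v ((L v).erase i) x).card : ℝ) =
      ∏ x ∈ univ.erase v, ((L x).card : ℝ) := by
    apply prod_congr rfl
    intro x hx
    rw [Function.update_of_ne (ne_of_mem_erase hx)]
  rw [h1, ← mul_assoc]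
  apply mul_le_mul_of_nonneg_right (erase_shrink _ hi)
  apply prod_nonneg
  intro x _
  positivity

theorem one_sub_nonneg (i : Fin q) : (0 : ℝ) ≤ 1 - 1 / (q : ℝ) := by
  have hq : (1 : ℝ) ≤ q := by
    have := i.pos
    exact_mod_cast this
  have : 1 / (q : ℝ) ≤ 1 := by
    rw [div_le_one (by linarith)]
    exact hq
  linarith

theorem wt_Lp {G : SimpleGraph V} {L : V → Finset (Fin q)} {v : V} {i : Fin q} (hi : i ∈ L v) :
    (wt (Lp G L v i) : ℝ) ≤ (1 - 1 / (q : ℝ)) ^ (ldeg G L v i) * wt L := by
  have h0 := one_sub_nonneg i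
  have h1 : (wt (Lp G L v i) : ℝ) ≤
      ∏ u, ((if G.Adj v u ∧ i ∈ L u then (1 - 1 / (q : ℝ)) else 1) * ((L u).card : ℝ)) := by
    unfold wt
    push_cast
    apply prod_le_prod
    · intro u _
      positivity
    · intro u _
      unfold Lp
      by_cases hu : u = v
      · subst hu
        rw [if_pos rfl, if_neg (fun h => G.loopless.irrefl _ h.1), card_singleton, one_mul]
        have := card_pos.2 ⟨i, hi⟩
        exact_mod_cast this
      · rw [if_neg hu]
        by_cases hadj : G.Adj v u
        · rw [if_pos hadj]
          by_cases hiu : i ∈ L u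
          · rw [if_pos ⟨hadj, hiu⟩]
            exact erase_shrink _ hiu
          · rw [if_neg (fun h => hiu h.2), one_mul, erase_eq_of_notMem hiu]
        · rw [if_neg hadj, if_neg (fun h => hadj h.1), one_mul]
  refine h1.trans ?_
  rw [prod_mul_distrib, prod_ite, prod_const_one, mul_one, prod_const]
  unfold ldeg wt
  push_cast
  exact le_refl _

end Pool.Agent.H521_col.Lab
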