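import Pool.Agent.H521_col.Lab

/-!
Colourings chosen from labels: the matching bound and the smoothness bound.
-/

set_option linter.unusedSectionVars false

namespace Pool.Agent.H521_col.Lab

open Finset
open scoped Classical

variable {V : Type*} [Fintype V] [DecidableEq V] {q : ℕ}

/-- the factor gained at a bad edge -/
noncomputable def gam (q : ℕ) : ℝ := 1 - 1 / (q : ℝ) ^ 2

theorem gam_nonneg {q : ℕ} (hq : 0 < q) : 0 ≤ gam q := by
  unfold gam
  have h1 : (1 : ℝ) ≤ q := by exact_mod_cast hq
  have h2 : (1 : ℝ) ≤ (q : ℝ) ^ 2 := one_le_pow₀ h1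
  have : 1 / (q : ℝ) ^ 2 ≤ 1 := by
    rw [div_le_one (by linarith)]
    exact h2
  linarith

theorem pairs_le (A B : Finset (Fin q)) {i : Fin q} (hA : i ∈ A) (hB : i ∈ B) :
    (((A ×ˢ B).filter (fun p => p.1 ≠ p.2)).card : ℝ) ≤ gam q * (A.card * B.card) := by
  have h1 : ((A ×ˢ B).filter (fun p => p.1 ≠ p.2)).card + 1 ≤ (A ×ˢ B).card := by
    have h2 : (A ×ˢ B).filter (fun p => p.1 ≠ p.2) ⊆ (A ×ˢ B).erase (i, i) := by
      intro p hp
      rw [mem_filter] at hp
      rw [mem_erase]
      refine ⟨?_, hp.1⟩
      rintro rfl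
      exact hp.2 rfl
    have h3 : (i, i) ∈ A ×ˢ B := mem_product.2 ⟨hA, hB⟩
    have h4 := card_le_card h2
    have h5 := card_erase_add_one h3
    omega
  rw [card_product] at h1
  have h2 : (((A ×ˢ B).filter (fun p => p.1 ≠ p.2)).card : ℝ) + 1 ≤ A.card * B.card := by
    exact_mod_cast h1
  have hq : (0 : ℝ) < (q : ℝ) ^ 2 := by
    have := i.pos
    positivity
  have h3 : (A.card : ℝ) * B.card ≤ (q : ℝ) ^ 2 := by
    have a1 : (A.card : ℝ) ≤ q := by exact_mod_cast card_fin_le A
    have a2 : (B.card : ℝ) ≤ q := by exact_mod_cast card_fin_le B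
    calc (A.card : ℝ) * B.card ≤ q * q := mul_le_mul a1 a2 (by positivity) (by positivity)
      _ = (q : ℝ) ^ 2 := by ring
  have h4 : (A.card : ℝ) * B.card / (q : ℝ) ^ 2 ≤ 1 := by
    rw [div_le_one hq]
    exact h3
  unfold gam
  have h5 : (1 - 1 / (q : ℝ) ^ 2) * (A.card * B.card) =
      A.card * B.card - A.card * B.card / (q : ℝ) ^ 2 := by ring
  rw [h5]
  linarith

theorem two_split {G : SimpleGraph V} {L : V → Finset (Fin q)} {u v : V} (huv : G.Adj u v)
    {i : Fin q} (hu : i ∈ L u) (hv : i ∈ L v) {X : ℝ} (hX : 0 ≤ X)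
    (h : ∀ a ∈ L u, ∀ b ∈ L v, a ≠ b →
      (cnt G (Function.update (Function.update L u {a}) v {b}) : ℝ) ≤ X) :
    (cnt G L : ℝ) ≤ gam q * ((L u).card * (L v).card) * X := by
  have h1 : (cnt G L : ℝ) ≤ ∑ a ∈ L u, ∑ b ∈ L v,
      (cnt G (Function.update (Function.update L u {a}) v {b}) : ℝ) := by
    have h2 : cnt G L ≤ ∑ a ∈ L u, ∑ b ∈ L v,
        cnt G (Function.update (Function.update L u {a}) v {b}) := by
      refine (cnt_split G L u).trans (sum_le_sum fun a _ => ?_)
      have h3 := cnt_split G (Function.update L u {a}) v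
      rwa [Function.update_of_ne huv.ne.symm] at h3
    exact_mod_cast h2
  have h2 : ∑ a ∈ L u, ∑ b ∈ L v,
      (cnt G (Function.update (Function.update L u {a}) v {b}) : ℝ) ≤
      ∑ a ∈ L u, ∑ b ∈ L v, (if a ≠ b then X else 0) := by
    apply sum_le_sum
    intro a ha
    apply sum_le_sum
    intro b hb
    by_cases hab : a = b
    · rw [if_neg (fun h => h hab)]
      have : cnt G (Function.update (Function.update L u {a}) v {b}) = 0 := by
        rw [cnt, card_eq_zero, filter_eq_empty_iff]
        intro c hc hc2
        rw [Fintype.mem_piFinset] at hc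
        have c1 := hc u
        have c2 := hc v
        rw [Function.update_of_ne huv.ne, Function.update_self, mem_singleton] at c1
        rw [Function.update_self, mem_singleton] at c2
        exact hc2 u v huv (by rw [c1, c2, hab])
      rw [this]
      simp
    · rw [if_pos hab]
      exact h a ha b hb hab
  have h3 : ∑ a ∈ L u, ∑ b ∈ L v, (if a ≠ b then X else 0) =
      (((L u ×ˢ L v).filter (fun p => p.1 ≠ p.2)).card : ℝ) * X := by
    rw [← sum_product', ← sum_filter, sum_const, nsmul_eq_mul]
  rw [h3] at h2
  exact h1.trans (h2.trans (mul_le_mul_of_nonneg_right (pairs_le _ _ hu hv) hX))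

theorem wt_two {L : V → Finset (Fin q)} {u v : V} (huv : u ≠ v) (a b : Fin q) :
    ((L u).card * (L v).card) * wt (Function.update (Function.update L u {a}) v {b}) = wt L := by
  unfold wt
  have hv : v ∈ univ.erase u := mem_erase.2 ⟨huv.symm, mem_univ v⟩
  rw [← mul_prod_erase univ (fun x => (L x).card) (mem_univ u),
    ← mul_prod_erase (univ.erase u) (fun x => (L x).card) hv,
    ← mul_prod_erase univ
      (fun x => (Function.update (Function.update L u {a}) v {b} x).card) (mem_univ u),
    ← mul_prod_erase (univ.erase u)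
      (fun x => (Function.update (Function.update L u {a}) v {b} x).card) hv]
  rw [Function.update_of_ne huv, Function.update_self, Function.update_self, card_singleton,
    card_singleton]
  have h1 : ∏ x ∈ (univ.erase u).erase v,
      (Function.update (Function.update L u {a}) v {b} x).card =
      ∏ x ∈ (univ.erase u).erase v, (L x).card := by
    apply prod_congr rfl
    intro x hx
    rw [Function.update_of_ne (ne_of_mem_erase hx),
      Function.update_of_ne (ne_of_mem_erase (mem_of_mem_erase hx))]
  rw [h1]
  ring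

theorem bad_erase {G : SimpleGraph V} {L : V → Finset (Fin q)} {W : Finset V} {δ : ℕ} {u v : V}
    (hδ : ∀ v ∈ W, (W.filter (fun u => G.Adj v u ∧ ¬ Disjoint (L v) (L u))).card ≤ δ)
    (hu : u ∈ W) (hv : v ∈ W) :
    bad G L W ≤ bad G L ((W.erase u).erase v) + 4 * δ := by
  set N := fun x => W.filter (fun y => G.Adj x y ∧ ¬ Disjoint (L x) (L y)) with hN
  have hsub : (W ×ˢ W).filter (fun p => G.Adj p.1 p.2 ∧ ¬ Disjoint (L p.1) (L p.2)) ⊆
      (((W.erase u).erase v) ×ˢ ((W.erase u).erase v)).filter
        (fun p => G.Adj p.1 p.2 ∧ ¬ Disjoint (L p.1) (L p.2)) ∪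
      (((N u).image (fun x => (u, x)) ∪ (N v).image (fun x => (v, x))) ∪
        ((N u).image (fun x => (x, u)) ∪ (N v).image (fun x => (x, v)))) := by
    rintro ⟨x, y⟩ hp
    rw [mem_filter, mem_product] at hp
    obtain ⟨⟨hx, hy⟩, hadj, hdis⟩ := hp
    simp only at hx hy hadj hdis
    simp only [mem_union, mem_image, mem_filter, mem_product, mem_erase, hN, Prod.mk.injEq]
    by_cases hxu : x = u
    · right; left; left
      exact ⟨y, ⟨hy, hxu ▸ hadj, hxu ▸ hdis⟩, hxu.symm, rfl⟩
    · by_cases hxv : x = v
      · right; left; right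
        exact ⟨y, ⟨hy, hxv ▸ hadj, hxv ▸ hdis⟩, hxv.symm, rfl⟩
      · by_cases hyu : y = u
        · right; right; left
          refine ⟨x, ⟨hx, hyu ▸ hadj.symm, fun h => hdis ?_⟩, rfl, hyu.symm⟩
          rw [hyu]
          exact h.symm
        · by_cases hyv : y = v
          · right; right; right
            refine ⟨x, ⟨hx, hyv ▸ hadj.symm, fun h => hdis ?_⟩, rfl, hyv.symm⟩
            rw [hyv]
            exact h.symm
          · left
            exact ⟨⟨⟨hxv, hxu, hx⟩, ⟨hyv, hyu, hy⟩⟩, hadj, hdis⟩
  have h1 := card_le_card hsub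
  have h2 := hδ u hu
  have h3 := hδ v hv
  have c1 : ((N u).image (fun x => (u, x))).card ≤ δ := card_image_le.trans h2
  have c2 : ((N v).image (fun x => (v, x))).card ≤ δ := card_image_le.trans h3
  have c3 : ((N u).image (fun x => (x, u))).card ≤ δ := card_image_le.trans h2
  have c4 : ((N v).image (fun x => (x, v))).card ≤ δ := card_image_le.trans h3
  have u1 := card_union_le (((W.erase u).erase v) ×ˢ ((W.erase u).erase v) |>.filter
        (fun p => G.Adj p.1 p.2 ∧ ¬ Disjoint (L p.1) (L p.2)))
    (((N u).image (fun x => (u, x)) ∪ (N v).image (fun x => (v, x))) ∪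
        ((N u).image (fun x => (x, u)) ∪ (N v).image (fun x => (x, v))))
  have u2 := card_union_le ((N u).image (fun x => (u, x)) ∪ (N v).image (fun x => (v, x)))
    ((N u).image (fun x => (x, u)) ∪ (N v).image (fun x => (x, v)))
  have u3 := card_union_le ((N u).image (fun x => (u, x))) ((N v).image (fun x => (v, x)))
  have u4 := card_union_le ((N u).image (fun x => (x, u))) ((N v).image (fun x => (x, v)))
  unfold bad
  omega

theorem bad_congr {G : SimpleGraph V} {L L' : V → Finset (Fin q)} {W : Finset V}
    (h : ∀ v ∈ W, L' v = L v) : bad G L' W = bad G L W := by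
  unfold bad
  congr 1
  apply filter_congr
  rintro ⟨x, y⟩ hp
  rw [mem_product] at hp
  simp only at hp ⊢
  rw [h x hp.1, h y hp.2]

/-- the matching bound -/
theorem match_bound (hq : 0 < q) (G : SimpleGraph V) (δ : ℕ) : ∀ (t : ℕ) (W : Finset V)
    (L : V → Finset (Fin q)),
    (∀ v ∈ W, (W.filter (fun u => G.Adj v u ∧ ¬ Disjoint (L v) (L u))).card ≤ δ) →
    4 * δ * t < bad G L W → (cnt G L : ℝ) ≤ gam q ^ (t + 1) * wt L := by
  intro t
  induction t with
  | zero =>
    intro W L _ hbad
    rw [mul_zero] at hbad
    obtain ⟨⟨u, v⟩, hp⟩ := card_pos.1 hbad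
    rw [mem_filter, mem_product] at hp
    obtain ⟨_, hadj, hdis⟩ := hp
    rw [not_disjoint_iff] at hdis
    obtain ⟨i, hiu, hiv⟩ := hdis
    simp only at hadj hiu hiv
    have h1 : ∀ a ∈ L u, ∀ b ∈ L v, a ≠ b →
        (cnt G (Function.update (Function.update L u {a}) v {b}) : ℝ) ≤
        wt (Function.update (Function.update L u {i}) v {i}) := by
      intro a _ b _ _
      have h2 := cnt_le_wt G (Function.update (Function.update L u {a}) v {b})
      have h3 := wt_two (L := L) hadj.ne a b
      have h4 := wt_two (L := L) hadj.ne i i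
      have h5 : 0 < (L u).card * (L v).card := Nat.mul_pos (card_pos.2 ⟨i, hiu⟩) (card_pos.2 ⟨i, hiv⟩)
      have h6 := Nat.eq_of_mul_eq_mul_left h5 (h3.trans h4.symm)
      rw [h6] at h2
      exact_mod_cast h2
    have h2 := two_split hadj hiu hiv (by positivity) h1
    have h3 := wt_two (L := L) hadj.ne i i
    rw [zero_add, pow_one]
    calc (cnt G L : ℝ) ≤ gam q * ((L u).card * (L v).card) *
          wt (Function.update (Function.update L u {i}) v {i}) := h2
      _ = gam q * (((L u).card * (L v).card *
          wt (Function.update (Function.update L u {i}) v {i}) : ℕ) : ℝ) := by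
          push_cast
          ring
      _ = gam q * wt L := by rw [h3]
  | succ t ih =>
    intro W L hδ hbad
    have hpos : 0 < bad G L W := lt_of_le_of_lt (Nat.zero_le _) hbad
    obtain ⟨⟨u, v⟩, hp⟩ := card_pos.1 hpos
    rw [mem_filter, mem_product] at hp
    obtain ⟨⟨huW, hvW⟩, hadj, hdis⟩ := hp
    rw [not_disjoint_iff] at hdis
    obtain ⟨i, hiu, hiv⟩ := hdis
    simp only at hadj hiu hiv huW hvW
    have hbe := bad_erase hδ huW hvW
    have h1 : ∀ a ∈ L u, ∀ b ∈ L v, a ≠ b →
        (cnt G (Function.update (Function.update L u {a}) v {b}) : ℝ) ≤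
        gam q ^ (t + 1) * wt (Function.update (Function.update L u {i}) v {i}) := by
      intro a _ b _ _
      have hagree : ∀ x ∈ (W.erase u).erase v,
          Function.update (Function.update L u {a}) v {b} x = L x := by
        intro x hx
        rw [Function.update_of_ne (ne_of_mem_erase hx),
          Function.update_of_ne (ne_of_mem_erase (mem_of_mem_erase hx))]
      have h2 := ih ((W.erase u).erase v) (Function.update (Function.update L u {a}) v {b}) (by
        intro x hx
        refine le_trans (card_le_card ?_) (hδ x (mem_of_mem_erase (mem_of_mem_erase hx)))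
        intro y hy
        rw [mem_filter] at hy ⊢
        rw [hagree x hx, hagree y hy.1] at hy
        exact ⟨mem_of_mem_erase (mem_of_mem_erase hy.1), hy.2⟩) (by
        rw [bad_congr hagree]
        have : 4 * δ * (t + 1) = 4 * δ * t + 4 * δ := by ring
        omega)
      have h3 := wt_two (L := L) hadj.ne a b
      have h4 := wt_two (L := L) hadj.ne i i
      have h5 : 0 < (L u).card * (L v).card := Nat.mul_pos (card_pos.2 ⟨i, hiu⟩) (card_pos.2 ⟨i, hiv⟩)
      have h6 := Nat.eq_of_mul_eq_mul_left h5 (h3.trans h4.symm)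
      rw [h6] at h2
      exact h2
    have hg := gam_nonneg hq
    have h2 := two_split hadj hiu hiv (by positivity) h1
    have h3 := wt_two (L := L) hadj.ne i i
    calc (cnt G L : ℝ) ≤ gam q * ((L u).card * (L v).card) *
          (gam q ^ (t + 1) * wt (Function.update (Function.update L u {i}) v {i})) := h2
      _ = gam q ^ (t + 1 + 1) * (((L u).card * (L v).card *
          wt (Function.update (Function.update L u {i}) v {i}) : ℕ) : ℝ) := by
          push_cast
          ring
      _ = gam q ^ (t + 1 + 1) * wt L := by rw [h3]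

/-- the smoothness bound -/
theorem smooth (hq : 2 ≤ q) {M : ℕ} {F0 : ℝ} (h1 : 1 ≤ F0)
    (hF : ∀ L : V → Finset (Fin q), M ≤ dis L → (wt L : ℝ) ≤ F0)
    {L : V → Finset (Fin q)} (hpos : ∀ v, (L v).Nonempty) (r : ℕ)
    (h : M ≤ dis L + 2 * (r * r)) :
    (wt L : ℝ) ≤ ((q : ℝ) ^ (2 ^ (q + 1))) ^ r * F0 := by
  have hq1 : (1 : ℝ) ≤ q := by
    have : 1 ≤ q := by omega
    exact_mod_cast this
  by_cases hcase : ∃ A : Finset (Fin q), 2 ≤ A.card ∧
      2 * r ≤ (univ.filter (fun v => L v = A)).card
  · obtain ⟨A, hA2, hAn⟩ := hcase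
    obtain ⟨i, hi, j, hj, hij⟩ := one_lt_card.1 hA2
    obtain ⟨S, hS, hSc⟩ := exists_subset_card_eq hAn
    obtain ⟨S1, hS1, hS1c⟩ := exists_subset_card_eq (s := S) (n := r) (by omega)
    set S2 := S \ S1 with hS2
    have hS2c : S2.card = r := by
      rw [hS2, card_sdiff_of_subset hS1]
      omega
    have hS1A : ∀ v ∈ S1, L v = A := fun v hv => (mem_filter.1 (hS (hS1 hv))).2
    have hS2A : ∀ v ∈ S2, L v = A := fun v hv => (mem_filter.1 (hS (mem_sdiff.1 hv).1)).2
    have hd : ∀ v ∈ S2, v ∉ S1 := fun v hv => (mem_sdiff.1 hv).2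
    set L' : V → Finset (Fin q) := fun v => if v ∈ S1 then {i} else if v ∈ S2 then {j} else L v
      with hL'
    have hsub : ∀ v, L' v ⊆ L v := by
      intro v
      rw [hL']
      simp only
      split_ifs with a1 a2
      · rw [hS1A v a1]
        exact singleton_subset_iff.2 hi
      · rw [hS2A v a2]
        exact singleton_subset_iff.2 hj
      · exact Subset.refl _
    have hdis : dis L + 2 * (r * r) ≤ dis L' := by
      have e1 : (univ : Finset (V × V)).filter (fun p => Disjoint (L p.1) (L p.2)) ∪
          (S1 ×ˢ S2 ∪ S2 ×ˢ S1) ⊆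
          (univ : Finset (V × V)).filter (fun p => Disjoint (L' p.1) (L' p.2)) := by
        rintro ⟨x, y⟩ hp
        rw [mem_filter]
        refine ⟨mem_univ _, ?_⟩
        rw [mem_union, mem_union, mem_filter, mem_product, mem_product] at hp
        simp only at hp ⊢
        rcases hp with hp | hp | hp
        · exact hp.2.mono (hsub x) (hsub y)
        · have a1 : L' x = {i} := by
            rw [hL']
            simp only
            rw [if_pos hp.1]
          have a2 : L' y = {j} := by
            rw [hL']
            simp only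
            rw [if_neg (hd y hp.2), if_pos hp.2]
          rw [a1, a2, disjoint_singleton]
          exact hij
        · have a1 : L' y = {i} := by
            rw [hL']
            simp only
            rw [if_pos hp.2]
          have a2 : L' x = {j} := by
            rw [hL']
            simp only
            rw [if_neg (hd x hp.1), if_pos hp.1]
          rw [a1, a2, disjoint_singleton]
          exact hij.symm
      have e2 := card_le_card e1
      have hAne : A.Nonempty := ⟨i, hi⟩
      have hnd : ¬ Disjoint A A := by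
        rw [disjoint_self]
        exact hAne.ne_empty
      rw [card_union_of_disjoint, card_union_of_disjoint, card_product, card_product, hS1c, hS2c]
        at e2
      · unfold dis
        omega
      · rw [disjoint_left]
        rintro ⟨x, y⟩ hp hp'
        rw [mem_product] at hp hp'
        exact hd x hp'.1 hp.1
      · rw [disjoint_left]
        rintro ⟨x, y⟩ hp hp'
        rw [mem_filter] at hp
        rw [mem_union, mem_product, mem_product] at hp'
        simp only at hp hp'
        rcases hp' with hp' | hp'
        · rw [hS1A x hp'.1, hS2A y hp'.2] at hp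
          exact hnd hp.2
        · rw [hS2A x hp'.1, hS1A y hp'.2] at hp
          exact hnd hp.2
    have hwt' := hF L' (h.trans hdis)
    have hwt : (wt L : ℝ) ≤ (q : ℝ) ^ (2 * r) * wt L' := by
      have e1 : (wt L : ℝ) ≤ ∏ v, ((if v ∈ S then (q : ℝ) else 1) * ((L' v).card : ℝ)) := by
        unfold wt
        push_cast
        apply prod_le_prod
        · intro v _
          positivity
        · intro v _
          by_cases hv : v ∈ S
          · rw [if_pos hv]
            have a1 : (L' v).card = 1 := by
              rw [hL']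
              simp only
              by_cases hv1 : v ∈ S1
              · rw [if_pos hv1, card_singleton]
              · rw [if_neg hv1, if_pos (mem_sdiff.2 ⟨hv, hv1⟩), card_singleton]
            rw [a1]
            have a2 : ((L v).card : ℝ) ≤ q := by exact_mod_cast card_fin_le (L v)
            simpa using a2
          · rw [if_neg hv, one_mul]
            have a1 : L' v = L v := by
              rw [hL']
              simp only
              rw [if_neg (fun h => hv (hS1 h)), if_neg (fun h => hv (mem_sdiff.1 h).1)]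
            rw [a1]
      refine e1.trans ?_
      rw [prod_mul_distrib, prod_ite, prod_const_one, mul_one, prod_const, filter_mem_eq_inter,
        univ_inter, hSc]
      unfold wt
      push_cast
      exact le_refl _
    have hp : (q : ℝ) ^ (2 * r) ≤ ((q : ℝ) ^ (2 ^ (q + 1))) ^ r := by
      rw [← pow_mul]
      apply pow_le_pow_right₀ hq1
      apply Nat.mul_le_mul_right
      calc 2 = 2 ^ 1 := rfl
        _ ≤ 2 ^ (q + 1) := Nat.pow_le_pow_right (by norm_num) (by omega)
    calc (wt L : ℝ) ≤ (q : ℝ) ^ (2 * r) * wt L' := hwt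
      _ ≤ (q : ℝ) ^ (2 * r) * F0 := mul_le_mul_of_nonneg_left hwt' (by positivity)
      _ ≤ _ := mul_le_mul_of_nonneg_right hp (by linarith)
  · push Not at hcase
    have hcount : (univ.filter (fun v => 2 ≤ (L v).card)).card ≤ 2 ^ (q + 1) * r := by
      have e1 : univ.filter (fun v => 2 ≤ (L v).card) ⊆
          ((univ : Finset (Finset (Fin q))).filter (fun A => 2 ≤ A.card)).biUnion
            (fun A => univ.filter (fun v => L v = A)) := by
        intro v hv
        rw [mem_filter] at hv
        rw [mem_biUnion]
        exact ⟨L v, mem_filter.2 ⟨mem_univ _, hv.2⟩, mem_filter.2 ⟨mem_univ _, rfl⟩⟩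
      refine (card_le_card e1).trans (card_biUnion_le.trans ?_)
      have e2 : ∑ A ∈ (univ : Finset (Finset (Fin q))).filter (fun A => 2 ≤ A.card),
          (univ.filter (fun v => L v = A)).card ≤
          ((univ : Finset (Finset (Fin q))).filter (fun A => 2 ≤ A.card)).card • (2 * r) := by
        apply sum_le_card_nsmul
        intro A hA
        exact (hcase A (mem_filter.1 hA).2).le
      refine e2.trans ?_
      have e3 : ((univ : Finset (Finset (Fin q))).filter (fun A => 2 ≤ A.card)).card ≤ 2 ^ q := by
        refine (card_filter_le _ _).trans ?_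
        rw [card_univ, Fintype.card_finset, Fintype.card_fin]
      rw [smul_eq_mul]
      calc _ ≤ 2 ^ q * (2 * r) := Nat.mul_le_mul_right _ e3
        _ = 2 ^ (q + 1) * r := by ring
    have hwt : (wt L : ℝ) ≤ (q : ℝ) ^ (univ.filter (fun v => 2 ≤ (L v).card)).card := by
      have e1 : (wt L : ℝ) ≤ ∏ v : V, (if 2 ≤ (L v).card then (q : ℝ) else 1) := by
        unfold wt
        push_cast
        apply prod_le_prod
        · intro v _
          positivity
        · intro v _
          split_ifs with hv
          · exact_mod_cast card_fin_le (L v)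
          · have : (L v).card ≤ 1 := by omega
            exact_mod_cast this
      refine e1.trans ?_
      rw [prod_ite, prod_const_one, mul_one, prod_const]
    calc (wt L : ℝ) ≤ (q : ℝ) ^ (univ.filter (fun v => 2 ≤ (L v).card)).card := hwt
      _ ≤ (q : ℝ) ^ (2 ^ (q + 1) * r) := pow_le_pow_right₀ hq1 hcount
      _ = ((q : ℝ) ^ (2 ^ (q + 1))) ^ r * 1 := by rw [mul_one, pow_mul]
      _ ≤ _ := mul_le_mul_of_nonneg_left h1 (by positivity)

end Pool.Agent.H521_col.Lab
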