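import Pool.Agent.H521_col.Lab2

/-!
Colourings chosen from labels: the recursion.
-/

set_option linter.unusedSectionVars false

namespace Pool.Agent.H521_col.Lab

open Finset
open scoped Classical

variable {V : Type*} [Fintype V] [DecidableEq V] {q : ℕ}

/-- the factor lost when a colour is erased -/
noncomputable def bet (q : ℕ) : ℝ := 1 - 1 / (q : ℝ)

theorem bet_pos {q : ℕ} (hq : 2 ≤ q) : 0 < bet q := by
  unfold bet
  have h1 : (2 : ℝ) ≤ q := by exact_mod_cast hq
  have : 1 / (q : ℝ) ≤ 1 / 2 := one_div_le_one_div_of_le (by norm_num) h1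
  linarith

theorem bet_lt_one {q : ℕ} (hq : 2 ≤ q) : bet q < 1 := by
  unfold bet
  have h1 : (2 : ℝ) ≤ q := by exact_mod_cast hq
  have : 0 < 1 / (q : ℝ) := by positivity
  linarith

theorem gam_lt_one {q : ℕ} (hq : 2 ≤ q) : gam q < 1 := by
  unfold gam
  have h1 : (2 : ℝ) ≤ q := by exact_mod_cast hq
  have : 0 < 1 / (q : ℝ) ^ 2 := by positivity
  linarith

/-- the constants at the scales -/
def TT (K0 k : ℕ) : ℕ → ℕ
  | 0 => K0
  | j + 1 => 2 ^ ((j + 1) * k) * TT K0 k j

theorem TT_succ (K0 k j : ℕ) : TT K0 k (j + 1) = 2 ^ ((j + 1) * k) * TT K0 k j := rfl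

theorem TT_le (K0 k j : ℕ) : TT K0 k j ≤ K0 * 2 ^ (k * (j * j)) := by
  induction j with
  | zero => simp [TT]
  | succ j ih =>
    unfold TT
    calc 2 ^ ((j + 1) * k) * TT K0 k j ≤ 2 ^ ((j + 1) * k) * (K0 * 2 ^ (k * (j * j))) :=
          Nat.mul_le_mul_left _ ih
      _ = K0 * 2 ^ ((j + 1) * k + k * (j * j)) := by ring
      _ ≤ K0 * 2 ^ (k * ((j + 1) * (j + 1))) := by
          apply Nat.mul_le_mul_left
          apply Nat.pow_le_pow_right (by norm_num)
          nlinarith [Nat.zero_le (k * j)]

theorem TT_ge (K0 k j : ℕ) : K0 ≤ TT K0 k j := by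
  induction j with
  | zero => simp [TT]
  | succ j ih =>
    unfold TT
    calc K0 = 1 * K0 := (one_mul _).symm
      _ ≤ _ := Nat.mul_le_mul Nat.one_le_two_pow ih

/-- ordered pairs of adjacent vertices -/
noncomputable def ord (G : SimpleGraph V) : ℕ :=
  ((univ : Finset (V × V)).filter (fun p => G.Adj p.1 p.2)).card

theorem ord_le (G : SimpleGraph V) (L : V → Finset (Fin q)) : ord G ≤ dis L + bad G L univ := by
  unfold ord dis bad
  rw [univ_product_univ]
  refine (card_le_card ?_).trans (card_union_le _ _)
  intro p hp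
  rw [mem_filter] at hp
  rw [mem_union, mem_filter, mem_filter]
  by_cases h : Disjoint (L p.1) (L p.2)
  · exact Or.inl ⟨mem_univ _, h⟩
  · exact Or.inr ⟨mem_univ _, hp.2, h⟩

theorem bad_deg (G : SimpleGraph V) (L : V → Finset (Fin q)) {Δ : ℕ}
    (h : ∀ v, ∀ i ∈ L v, ldeg G L v i ≤ Δ) (v : V) :
    ((univ : Finset V).filter (fun u => G.Adj v u ∧ ¬ Disjoint (L v) (L u))).card ≤ q * Δ := by
  have h1 : (univ : Finset V).filter (fun u => G.Adj v u ∧ ¬ Disjoint (L v) (L u)) ⊆
      (L v).biUnion (fun i => univ.filter (fun u => G.Adj v u ∧ i ∈ L u)) := by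
    intro u hu
    rw [mem_filter, not_disjoint_iff] at hu
    obtain ⟨_, hadj, i, hi, hiu⟩ := hu
    rw [mem_biUnion]
    exact ⟨i, hi, mem_filter.2 ⟨mem_univ _, hadj, hiu⟩⟩
  refine (card_le_card h1).trans (card_biUnion_le.trans ?_)
  calc ∑ i ∈ L v, (univ.filter (fun u => G.Adj v u ∧ i ∈ L u)).card ≤ (L v).card • Δ :=
        sum_le_card_nsmul _ _ _ (fun i hi => h v i hi)
    _ ≤ q * Δ := Nat.mul_le_mul_right _ (card_fin_le _)

/-- the constants -/
structure Consts (q κ k1 k K0 : ℕ) : Prop where
  hq : 2 ≤ q
  hκ : 1 ≤ κ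
  hk1 : 1 ≤ k1
  hk : k = 32 * q * k1 * (κ * κ)
  hA : bet q ^ κ * (q : ℝ) ^ (2 ^ (q + 1)) ≤ 1
  hg : gam q ^ k1 ≤ bet q
  hK : 1 ≤ bet q ^ (4 * κ) * K0

theorem exists_consts (q : ℕ) (hq : 2 ≤ q) : ∃ κ k1 k K0, Consts q κ k1 k K0 := by
  have b0 := bet_pos hq
  have b1 := bet_lt_one hq
  have g1 := gam_lt_one hq
  have g0 := gam_nonneg (q := q) (by omega)
  have hA : (0 : ℝ) < (q : ℝ) ^ (2 ^ (q + 1)) := by
    have : (0 : ℝ) < q := by
      have : 0 < q := by omega
      exact_mod_cast this
    positivity
  obtain ⟨κ, hκ⟩ := exists_pow_lt_of_lt_one (one_div_pos.2 hA) b1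
  obtain ⟨k1, hk1⟩ := exists_pow_lt_of_lt_one b0 g1
  obtain ⟨K0, hK0⟩ := exists_nat_ge (1 / (bet q ^ (4 * (κ + 1))))
  refine ⟨κ + 1, k1 + 1, 32 * q * (k1 + 1) * ((κ + 1) * (κ + 1)), K0, hq, by omega, by omega,
    rfl, ?_, ?_, ?_⟩
  · have h1 : bet q ^ (κ + 1) ≤ bet q ^ κ := pow_le_pow_of_le_one b0.le b1.le (by omega)
    calc bet q ^ (κ + 1) * (q : ℝ) ^ (2 ^ (q + 1)) ≤ (1 / (q : ℝ) ^ (2 ^ (q + 1))) *
          (q : ℝ) ^ (2 ^ (q + 1)) := mul_le_mul_of_nonneg_right (h1.trans hκ.le) hA.le
      _ = 1 := by rw [one_div, inv_mul_cancel₀ hA.ne']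
  · have h1 : gam q ^ (k1 + 1) ≤ gam q ^ k1 := pow_le_pow_of_le_one g0 g1.le (by omega)
    exact h1.trans hk1.le
  · have h1 : (0 : ℝ) < bet q ^ (4 * (κ + 1)) := by positivity
    rw [div_le_iff₀ h1] at hK0
    linarith [mul_comm (bet q ^ (4 * (κ + 1))) (K0 : ℝ)]

theorem main_rec {κ k1 k K0 : ℕ} (C : Consts q κ k1 k K0) (G : SimpleGraph V) {M : ℕ} {F0 : ℝ}
    (hM : M ≤ ord G) (h1 : 1 ≤ F0)
    (hF : ∀ L : V → Finset (Fin q), M ≤ dis L → (wt L : ℝ) ≤ F0) (j : ℕ) :
    ∀ y : ℕ, y < 2 ^ j → ∀ L : V → Finset (Fin q), bet q ^ y * wt L ≤ F0 →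
      (cnt G L : ℝ) ≤ TT K0 k j * F0 := by
  have hq := C.hq
  have hκ := C.hκ
  have b0 := bet_pos hq
  have b1 := bet_lt_one hq
  have g1 := gam_lt_one hq
  have g0 := gam_nonneg (q := q) (by omega)
  have hK1 : 1 ≤ K0 := by
    by_contra hcon
    have : K0 = 0 := by omega
    have h2 := C.hK
    rw [this] at h2
    norm_num at h2
  have hTone : ∀ j, (1 : ℝ) ≤ TT K0 k j := by
    intro j
    have := hK1.trans (TT_ge K0 k j)
    exact_mod_cast this
  have hle1 : ∀ j, F0 ≤ TT K0 k j * F0 := by
    intro j
    have := hTone j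
    nlinarith
  have hk2 : 2 ≤ k := by
    rw [C.hk]
    have h2 := C.hk1
    have h3 : 1 ≤ κ * κ := Nat.mul_pos hκ hκ
    have h4 : 1 ≤ q * k1 := Nat.mul_pos (by omega) h2
    have h5 : 1 ≤ q * k1 * (κ * κ) := Nat.mul_pos h4 h3
    have h6 : 32 * q * k1 * (κ * κ) = 32 * (q * k1 * (κ * κ)) := by ring
    omega
  induction j with
  | zero =>
    intro y hy L hL
    have hy0 : y = 0 := by omega
    subst hy0
    rw [pow_zero, one_mul] at hL
    have h2 : (cnt G L : ℝ) ≤ wt L := by exact_mod_cast cnt_le_wt G L
    exact h2.trans (hL.trans (hle1 0))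
  | succ j ihj =>
    obtain ⟨D0, hD0⟩ : ∃ D0, D0 = 2 ^ j / k := ⟨_, rfl⟩
    have hDa : k * D0 ≤ 2 ^ j := by
      rw [hD0]
      exact Nat.mul_div_le _ _
    have hDb : 2 ^ j < k * (D0 + 1) := by
      rw [hD0]
      exact Nat.lt_mul_div_succ _ (by omega)
    have hDc : D0 < 2 ^ j := by
      rw [hD0]
      exact Nat.div_lt_self (by positivity) (by omega)
    -- the inner claim
    have key : ∀ s : ℕ, ∀ y : ℕ, y < 2 ^ (j + 1) → y < 2 ^ j + s * (D0 + 1) →
        ∀ L : V → Finset (Fin q), bet q ^ y * wt L ≤ F0 →
        (cnt G L : ℝ) ≤ ((y : ℝ) + 1) ^ s * (TT K0 k j * F0) := by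
      intro s
      induction s with
      | zero =>
        intro y _ hy L hL
        rw [pow_zero, one_mul]
        exact ihj y (by omega) L hL
      | succ s ihs =>
        intro y
        induction y with
        | zero =>
          intro _ _ L hL
          have := ihj 0 (by positivity) L hL
          simpa using this
        | succ y ihy =>
          intro hy1 hy2 L hL
          have hTF : 0 ≤ (TT K0 k j : ℝ) * F0 := by
            have := hTone j
            nlinarith
          have hbase : (cnt G L : ℝ) ≤ TT K0 k j * F0 →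
              (cnt G L : ℝ) ≤ (((y + 1 : ℕ) : ℝ) + 1) ^ (s + 1) * (TT K0 k j * F0) := by
            intro h
            have h3 : (1 : ℝ) ≤ (((y + 1 : ℕ) : ℝ) + 1) ^ (s + 1) := by
              apply one_le_pow₀
              push_cast
              have : (0 : ℝ) ≤ y := by positivity
              linarith
            calc (cnt G L : ℝ) ≤ 1 * (TT K0 k j * F0) := by rw [one_mul]; exact h
              _ ≤ _ := mul_le_mul_of_nonneg_right h3 hTF
          by_cases hsmall : y + 1 < 2 ^ j
          · exact hbase (ihj (y + 1) hsmall L hL)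
          push Not at hsmall
          have hDle : D0 ≤ y := by omega
          by_cases htest : ∃ v, ∃ i ∈ L v, D0 + 1 ≤ ldeg G L v i
          · obtain ⟨v, i, hi, hdeg⟩ := htest
            have e1 := cnt_test G L v i
            have e2 := ihy (by omega) (by omega) (Lm L v i) (by
              have h3 := wt_Lm (L := L) hi
              calc bet q ^ y * (wt (Lm L v i) : ℝ) ≤ bet q ^ y * (bet q * wt L) :=
                    mul_le_mul_of_nonneg_left h3 (by positivity)
                _ = bet q ^ (y + 1) * wt L := by ring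
                _ ≤ F0 := hL)
            have e3 := ihs (y + 1 - (D0 + 1)) (by omega) (by
              have : (s + 1) * (D0 + 1) = s * (D0 + 1) + (D0 + 1) := by ring
              omega) (Lp G L v i) (by
              have h3 := wt_Lp (G := G) (L := L) hi
              have h4 : bet q ^ (ldeg G L v i) ≤ bet q ^ (D0 + 1) :=
                pow_le_pow_of_le_one b0.le b1.le hdeg
              calc bet q ^ (y + 1 - (D0 + 1)) * (wt (Lp G L v i) : ℝ)
                  ≤ bet q ^ (y + 1 - (D0 + 1)) * (bet q ^ (ldeg G L v i) * wt L) :=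
                    mul_le_mul_of_nonneg_left h3 (by positivity)
                _ ≤ bet q ^ (y + 1 - (D0 + 1)) * (bet q ^ (D0 + 1) * wt L) := by
                    apply mul_le_mul_of_nonneg_left _ (by positivity)
                    exact mul_le_mul_of_nonneg_right h4 (by positivity)
                _ = bet q ^ (y + 1) * wt L := by
                    rw [← mul_assoc, ← pow_add]
                    congr 2
                    omega
                _ ≤ F0 := hL)
            have e4 : (((y + 1 - (D0 + 1) : ℕ) : ℝ) + 1) ^ s ≤ ((y : ℝ) + 1) ^ s := by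
              apply pow_le_pow_left₀ (by positivity)
              have : ((y + 1 - (D0 + 1) : ℕ) : ℝ) ≤ y := by
                exact_mod_cast (show y + 1 - (D0 + 1) ≤ y by omega)
              linarith
            have e5 : (cnt G L : ℝ) ≤ cnt G (Lm L v i) + cnt G (Lp G L v i) := by
              exact_mod_cast e1
            have e6 : ((y : ℝ) + 1) ^ (s + 1) + ((y : ℝ) + 1) ^ s ≤
                (((y + 1 : ℕ) : ℝ) + 1) ^ (s + 1) := by
              push_cast
              have hy0 : (0 : ℝ) ≤ y := by positivity
              calc ((y : ℝ) + 1) ^ (s + 1) + ((y : ℝ) + 1) ^ s = ((y : ℝ) + 1) ^ s * (y + 1 + 1) := by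
                    ring
                _ ≤ ((y : ℝ) + 1 + 1) ^ s * (y + 1 + 1) := by
                    apply mul_le_mul_of_nonneg_right _ (by linarith)
                    apply pow_le_pow_left₀ (by linarith)
                    linarith
                _ = _ := by ring
            calc (cnt G L : ℝ) ≤ cnt G (Lm L v i) + cnt G (Lp G L v i) := e5
              _ ≤ ((y : ℝ) + 1) ^ (s + 1) * (TT K0 k j * F0) +
                  ((y : ℝ) + 1) ^ s * (TT K0 k j * F0) :=
                  add_le_add e2 (e3.trans (mul_le_mul_of_nonneg_right e4 hTF))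
              _ = (((y : ℝ) + 1) ^ (s + 1) + ((y : ℝ) + 1) ^ s) * (TT K0 k j * F0) := by ring
              _ ≤ _ := mul_le_mul_of_nonneg_right e6 hTF
          · push Not at htest
            apply hbase
            -- small `y`
            by_cases hyκ : y + 1 < 4 * κ
            · have h3 : (cnt G L : ℝ) ≤ wt L := by exact_mod_cast cnt_le_wt G L
              have h4 : bet q ^ (4 * κ) ≤ bet q ^ (y + 1) :=
                pow_le_pow_of_le_one b0.le b1.le (by omega)
              have h5 : (wt L : ℝ) ≤ K0 * F0 := by
                calc (wt L : ℝ) = 1 * wt L := (one_mul _).symm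
                  _ ≤ (bet q ^ (4 * κ) * K0) * wt L :=
                      mul_le_mul_of_nonneg_right C.hK (by positivity)
                  _ = K0 * (bet q ^ (4 * κ) * wt L) := by ring
                  _ ≤ K0 * (bet q ^ (y + 1) * wt L) := by
                      apply mul_le_mul_of_nonneg_left _ (by positivity)
                      exact mul_le_mul_of_nonneg_right h4 (by positivity)
                  _ ≤ K0 * F0 := mul_le_mul_of_nonneg_left hL (by positivity)
              have h6 : (K0 : ℝ) ≤ TT K0 k j := by exact_mod_cast TT_ge K0 k j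
              exact h3.trans (h5.trans (mul_le_mul_of_nonneg_right h6 (by linarith)))
            push Not at hyκ
            -- empty labels
            by_cases hpos : 0 < wt L
            swap
            · have h3 : cnt G L = 0 := by
                have := cnt_le_wt G L
                omega
              rw [h3]
              simpa using hTF
            rw [wt_pos_iff] at hpos
            -- the parameter `r`
            obtain ⟨r, hr⟩ : ∃ r, r = (y + 1) / (2 * κ) := ⟨_, rfl⟩
            have hr1 : 2 * κ * r ≤ y + 1 := by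
              rw [hr]
              exact Nat.mul_div_le _ _
            have hr2 : y + 1 ≤ 4 * κ * r := by
              have h3 : y + 1 < 2 * κ * (r + 1) := by
                rw [hr]
                exact Nat.lt_mul_div_succ _ (by omega)
              have h4 : 2 * κ * (r + 1) = 2 * κ * r + 2 * κ := by ring
              have h5 : 4 * κ * r = 2 * (2 * κ * r) := by ring
              omega
            by_cases hbad : bad G L univ ≤ 2 * (r * r)
            · have h3 := ord_le G L
              have h4 := smooth hq h1 hF hpos r (by omega)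
              have h5 : bet q ^ ((y + 1) / 2) * wt L ≤ F0 := by
                have h6 : bet q ^ ((y + 1) / 2) ≤ bet q ^ (κ * r) := by
                  apply pow_le_pow_of_le_one b0.le b1.le
                  have : 2 * κ * r = 2 * (κ * r) := by ring
                  omega
                calc bet q ^ ((y + 1) / 2) * (wt L : ℝ) ≤ bet q ^ (κ * r) * wt L :=
                      mul_le_mul_of_nonneg_right h6 (by positivity)
                  _ ≤ bet q ^ (κ * r) * (((q : ℝ) ^ (2 ^ (q + 1))) ^ r * F0) :=
                      mul_le_mul_of_nonneg_left h4 (by positivity)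
                  _ = (bet q ^ κ * (q : ℝ) ^ (2 ^ (q + 1))) ^ r * F0 := by
                      rw [mul_pow, ← pow_mul]
                      ring
                  _ ≤ 1 * F0 := by
                      apply mul_le_mul_of_nonneg_right _ (by linarith)
                      apply pow_le_one₀ _ C.hA
                      positivity
                  _ = F0 := one_mul _
              apply ihj ((y + 1) / 2) _ L h5
              rw [pow_succ] at hy1
              omega
            · push Not at hbad
              have hΔ : ∀ v, ∀ i ∈ L v, ldeg G L v i ≤ D0 := by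
                intro v i hi
                have := htest v i hi
                omega
              have h3 := match_bound (q := q) (by omega) G (q * (D0)) (k1 * (y + 1)) univ L
                (fun v _ => bad_deg G L hΔ v) (by
                  refine lt_of_le_of_lt ?_ hbad
                  apply Nat.le_of_mul_le_mul_left _ (show 0 < k by omega)
                  have h4 : k * D0 ≤ y + 1 := hDa.trans hsmall
                  calc k * (4 * (q * (D0)) * (k1 * (y + 1)))
                      = 4 * q * k1 * ((k * (D0)) * (y + 1)) := by ring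
                    _ ≤ 4 * q * k1 * ((y + 1) * (y + 1)) := by
                        apply Nat.mul_le_mul_left
                        exact Nat.mul_le_mul_right _ h4
                    _ ≤ 4 * q * k1 * ((4 * κ * r) * (4 * κ * r)) := by
                        apply Nat.mul_le_mul_left
                        exact Nat.mul_le_mul hr2 hr2
                    _ = k * (2 * (r * r)) := by
                        rw [C.hk]
                        ring)
              have h5 : gam q ^ (k1 * (y + 1) + 1) ≤ bet q ^ (y + 1) := by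
                calc gam q ^ (k1 * (y + 1) + 1) ≤ gam q ^ (k1 * (y + 1)) :=
                      pow_le_pow_of_le_one g0 g1.le (by omega)
                  _ = (gam q ^ k1) ^ (y + 1) := by rw [pow_mul]
                  _ ≤ bet q ^ (y + 1) := pow_le_pow_left₀ (by positivity) C.hg _
              calc (cnt G L : ℝ) ≤ gam q ^ (k1 * (y + 1) + 1) * wt L := h3
                _ ≤ bet q ^ (y + 1) * wt L := mul_le_mul_of_nonneg_right h5 (by positivity)
                _ ≤ F0 := hL
                _ ≤ _ := hle1 j
    intro y hy L hL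
    have h2 := key k y hy (by
      rw [pow_succ] at hy
      omega) L hL
    have hTF : 0 ≤ (TT K0 k j : ℝ) * F0 := by
      have := hTone j
      nlinarith
    have h3 : ((y : ℝ) + 1) ^ k ≤ ((2 : ℝ) ^ (j + 1)) ^ k := by
      apply pow_le_pow_left₀ (by positivity)
      exact_mod_cast hy
    calc (cnt G L : ℝ) ≤ ((y : ℝ) + 1) ^ k * (TT K0 k j * F0) := h2
      _ ≤ ((2 : ℝ) ^ (j + 1)) ^ k * (TT K0 k j * F0) := mul_le_mul_of_nonneg_right h3 hTF
      _ = TT K0 k (j + 1) * F0 := by
          rw [TT_succ]
          push_cast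
          rw [← pow_mul]
          ring

end Pool.Agent.H521_col.Lab
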