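import Pool.Agent.H521_col.Basic

/-!
Passing between induced subgraphs and graphs on `Fin n`, and deleting edges.
-/

set_option linter.unusedSectionVars false

namespace Pool.Agent.H521_col

open Finset
open scoped Classical

variable {V : Type*} [Fintype V] [DecidableEq V]
variable {α : Type*} [Fintype α] [DecidableEq α] [Zero α]

theorem card_coloring_induce (G : SimpleGraph V) (S : Finset V) :
    Nat.card ((G.comap (fun x : S => (x : V))).Coloring α) = (Col α G S).card := by
  have e : (G.comap (fun x : S => (x : V))).Coloring α ≃ {c // c ∈ Col α G S} :=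
    { toFun := fun c => ⟨fun v => if h : v ∈ S then c ⟨v, h⟩ else 0, by
        rw [mem_Col]
        refine ⟨fun w hw => by simp [hw], fun u hu v hv huv => ?_⟩
        simp only [hu, hv, dif_pos]
        exact c.valid huv⟩
      invFun := fun c => SimpleGraph.Coloring.mk (fun x => c.1 x)
        (fun {u v} huv => (mem_Col.1 c.2).2 u u.2 v v.2 huv)
      left_inv := fun c => by
        ext v
        simp
        rfl
      right_inv := fun c => by
        apply Subtype.ext
        funext v
        by_cases h : v ∈ S
        · simp [h]
          rfl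
        · simp [h, (mem_Col.1 c.2).1 v h] }
  rw [Nat.card_congr e, Nat.card_eq_fintype_card, Fintype.card_coe]

theorem card_edges_induce (G : SimpleGraph V) (S : Finset V) :
    2 * Nat.card (G.comap (fun x : S => (x : V))).edgeSet = e2 G S := by
  rw [Nat.card_eq_fintype_card, ← SimpleGraph.edgeFinset_card,
    ← SimpleGraph.sum_degrees_eq_twice_card_edges, e2, ← sum_coe_sort S]
  apply sum_congr rfl
  intro a _
  rw [SimpleGraph.degree, SimpleGraph.neighborFinset_eq_filter, card_filter, dg_eq_sum,
    ← sum_coe_sort S]
  apply sum_congr rfl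
  intro b _
  rfl

theorem card_coloring_univ (G : SimpleGraph V) :
    Nat.card (G.Coloring α) = (Col α G univ).card := by
  have e : G.Coloring α ≃ {c // c ∈ Col α G univ} :=
    { toFun := fun c => ⟨fun v => c v, by
        rw [mem_Col]
        exact ⟨fun w hw => absurd (mem_univ w) hw, fun u _ v _ huv => c.valid huv⟩⟩
      invFun := fun c => SimpleGraph.Coloring.mk c.1
        (fun {u v} huv => (mem_Col.1 c.2).2 u (mem_univ u) v (mem_univ v) huv)
      left_inv := fun c => by ext v; rfl
      right_inv := fun c => by rfl }
  rw [Nat.card_congr e, Nat.card_eq_fintype_card, Fintype.card_coe]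

theorem card_edges_univ (G : SimpleGraph V) :
    2 * Nat.card G.edgeSet = e2 G univ := by
  rw [Nat.card_eq_fintype_card, ← SimpleGraph.edgeFinset_card,
    ← SimpleGraph.sum_degrees_eq_twice_card_edges, e2]
  apply sum_congr rfl
  intro a _
  rw [SimpleGraph.degree, SimpleGraph.neighborFinset_eq_filter, dg, nb]

/-- renaming vertices -/
theorem exists_fin {W : Type*} [Fintype W] (H : SimpleGraph W) (α : Type*) {n : ℕ}
    (hn : Fintype.card W = n) :
    ∃ G : SimpleGraph (Fin n), Nat.card G.edgeSet = Nat.card H.edgeSet ∧
      Nat.card (G.Coloring α) = Nat.card (H.Coloring α) := by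
  have e : Fin n ≃ W := (Fintype.equivFinOfCardEq hn).symm
  refine ⟨H.comap e, ?_, ?_⟩
  · exact Nat.card_congr (SimpleGraph.Iso.comap e H).mapEdgeSet
  · have i := SimpleGraph.Iso.comap e H
    exact Nat.card_congr
      { toFun := fun c => c.comp i.symm.toHom
        invFun := fun c => c.comp i.toHom
        left_inv := fun c => by
          ext v
          simp
        right_inv := fun c => by
          ext v
          simp }

/-- deleting edges does not decrease the number of colourings -/
theorem exists_fewer {W : Type*} [Fintype W] (H : SimpleGraph W) (α : Type*) [Finite α]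
    {m : ℕ} (hm : m ≤ Nat.card H.edgeSet) :
    ∃ G : SimpleGraph W, Nat.card G.edgeSet = m ∧
      Nat.card (H.Coloring α) ≤ Nat.card (G.Coloring α) := by
  rw [Nat.card_eq_fintype_card, ← SimpleGraph.edgeFinset_card] at hm
  obtain ⟨s, hs, hsc⟩ := exists_subset_card_eq hm
  have h1 : (SimpleGraph.fromEdgeSet (s : Set (Sym2 W))) ≤ H := by
    intro u v huv
    rw [SimpleGraph.fromEdgeSet_adj] at huv
    have := hs (mem_coe.1 huv.1)
    rwa [SimpleGraph.mem_edgeFinset, SimpleGraph.mem_edgeSet] at this
  refine ⟨SimpleGraph.fromEdgeSet (s : Set (Sym2 W)), ?_, ?_⟩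
  · have h2 : (SimpleGraph.fromEdgeSet (s : Set (Sym2 W))).edgeSet = (s : Set (Sym2 W)) := by
      rw [SimpleGraph.edgeSet_fromEdgeSet]
      ext x
      constructor
      · intro hx
        exact hx.1
      · intro hx
        refine ⟨hx, ?_⟩
        have := hs (mem_coe.1 hx)
        rw [SimpleGraph.mem_edgeFinset] at this
        exact H.not_isDiag_of_mem_edgeSet this
    rw [h2]
    simp [hsc]
  · have : Finite ((SimpleGraph.fromEdgeSet (s : Set (Sym2 W))).Coloring α) :=
      Finite.of_injective (fun c => (fun v => c v : W → α)) (fun c d h => by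
        ext v
        exact congrFun h v)
    apply Nat.card_le_card_of_injective
      (fun c : H.Coloring α => (SimpleGraph.Coloring.mk (fun v => c v)
        (fun {u v} huv => c.valid (h1 huv)) : (SimpleGraph.fromEdgeSet (s : Set (Sym2 W))).Coloring α))
    intro c d h
    ext v
    exact congrArg (fun f : (SimpleGraph.fromEdgeSet (s : Set (Sym2 W))).Coloring α => f v) h

end Pool.Agent.H521_col
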