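import Pool.Agent.H521_col.Lab3
import Pool.Agent.H521_col.Transfer

/-!
Colourings chosen from labels: translation lemmas.
-/

set_option linter.unusedSectionVars false

namespace Pool.Agent.H521_col.Lab

open Finset
open scoped Classical

variable {V : Type*} [Fintype V] [DecidableEq V] {q : ℕ}

theorem cnt_univ_eq [NeZero q] (G : SimpleGraph V) :
    Nat.card (G.Coloring (Fin q)) = cnt G (fun _ => (univ : Finset (Fin q))) := by
  rw [card_coloring_univ, cnt]
  congr 1
  ext c
  rw [mem_Col, mem_filter, Fintype.mem_piFinset]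
  constructor
  · intro h
    exact ⟨fun v => mem_univ _, fun u v huv => h.2 u (mem_univ u) v (mem_univ v) huv⟩
  · intro h
    exact ⟨fun w hw => absurd (mem_univ w) hw, fun u _ v _ huv => h.2 u v huv⟩

theorem exists_of_cnt {G : SimpleGraph V} {L : V → Finset (Fin q)} (h : cnt G L ≠ 0) :
    ∃ c : V → Fin q, (∀ v, c v ∈ L v) ∧ ∀ u v, G.Adj u v → c u ≠ c v := by
  obtain ⟨c, hc⟩ := card_pos.1 (Nat.pos_of_ne_zero h)
  rw [mem_filter, Fintype.mem_piFinset] at hc
  exact ⟨c, hc⟩

theorem ord_le_dis {G : SimpleGraph V} {c : V → Fin q} (hc : ∀ u v, G.Adj u v → c u ≠ c v) :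
    ord G ≤ dis (fun v => ({c v} : Finset (Fin q))) := by
  unfold ord dis
  apply card_le_card
  intro p hp
  rw [mem_filter] at hp ⊢
  refine ⟨mem_univ _, ?_⟩
  rw [disjoint_singleton]
  exact hc p.1 p.2 hp.2

theorem ord_eq_e2 (G : SimpleGraph V) : ord G = e2 G univ := by
  rw [ord, e2, card_filter, ← univ_product_univ, sum_product]
  apply sum_congr rfl
  intro u _
  rw [dg_eq_sum]

end Pool.Agent.H521_col.Lab
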