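import Pool.Agent.H521_col.StrInt
import Pool.Agent.H521_col.Transfer

/-!
The graphs behind the integer solutions: a complete multipartite graph with extra vertices joined
to some of the parts.
-/

set_option linter.unusedSectionVars false

namespace Pool.Agent.H521_col.Opt

open Finset Pool.Agent.H521_col
open scoped Classical

variable {q : ℕ}

/-- the graph of an integer solution -/
def solG (a : Fin q → ℕ) (J : Finset (Fin q)) (b : ℕ) :
    SimpleGraph ((Σ i : Fin q, Fin (a i)) ⊕ Fin b) where
  Adj x y := match x, y with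
    | Sum.inl u, Sum.inl v => u.1 ≠ v.1
    | Sum.inl u, Sum.inr _ => u.1 ∉ J
    | Sum.inr _, Sum.inl v => v.1 ∉ J
    | Sum.inr _, Sum.inr _ => False
  symm := ⟨by
    rintro (u | u) (v | v) h
    · exact Ne.symm h
    · exact h
    · exact h
    · exact h⟩
  loopless := ⟨by
    rintro (u | u) h
    · exact h rfl
    · exact h⟩

theorem solG_edges (a : Fin q → ℕ) (J : Finset (Fin q)) (b : ℕ) :
    Nat.card (solG a J b).edgeSet = ed a J b := by
  have h1 := card_edges_univ (solG a J b)
  have h2 : ∀ u : (Σ i : Fin q, Fin (a i)), dg (solG a J b) univ (Sum.inl u) + a u.1 =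
      ∑ i, a i + if u.1 ∈ J then 0 else b := by
    intro u
    rw [dg_eq_sum, Fintype.sum_sum_type, Fintype.sum_sigma]
    have e1 : ∀ i : Fin q, ∑ x : Fin (a i), (if (solG a J b).Adj (Sum.inl u) (Sum.inl ⟨i, x⟩)
        then 1 else 0) = if i = u.1 then 0 else a i := by
      intro i
      have e2 : ∀ x : Fin (a i), (if (solG a J b).Adj (Sum.inl u) (Sum.inl ⟨i, x⟩)
          then 1 else 0) = if i = u.1 then 0 else 1 := by
        intro x
        have : (solG a J b).Adj (Sum.inl u) (Sum.inl ⟨i, x⟩) ↔ u.1 ≠ i := Iff.rfl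
        by_cases h : i = u.1
        · rw [if_pos h, if_neg]
          rw [this]
          exact fun h' => h' h.symm
        · rw [if_neg h, if_pos]
          rw [this]
          exact fun h' => h h'.symm
      rw [sum_congr rfl (fun x _ => e2 x)]
      split_ifs <;> simp
    rw [sum_congr rfl (fun i _ => e1 i)]
    have e3 : ∀ y : Fin b, (if (solG a J b).Adj (Sum.inl u) (Sum.inr y) then 1 else 0) =
        if u.1 ∈ J then 0 else 1 := by
      intro y
      have : (solG a J b).Adj (Sum.inl u) (Sum.inr y) ↔ u.1 ∉ J := Iff.rfl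
      by_cases h : u.1 ∈ J
      · rw [if_pos h, if_neg]
        rw [this]
        exact fun h' => h' h
      · rw [if_neg h, if_pos]
        rwa [this]
    rw [sum_congr rfl (fun y _ => e3 y)]
    have e4 : ∑ _y : Fin b, (if u.1 ∈ J then 0 else 1) = if u.1 ∈ J then 0 else b := by
      split_ifs <;> simp
    rw [e4]
    have e5 : ∑ i, (if i = u.1 then 0 else a i) + a u.1 = ∑ i, a i := by
      rw [← sum_erase_add univ a (mem_univ u.1)]
      congr 1
      rw [← sum_erase_add univ _ (mem_univ u.1), if_pos rfl, add_zero]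
      apply sum_congr rfl
      intro i hi
      rw [if_neg (ne_of_mem_erase hi)]
    omega
  have h3 : ∀ y : Fin b, dg (solG a J b) univ (Sum.inr y) = ∑ i ∈ Jᶜ, a i := by
    intro y
    rw [dg_eq_sum, Fintype.sum_sum_type, Fintype.sum_sigma]
    have e1 : ∀ i : Fin q, ∑ x : Fin (a i), (if (solG a J b).Adj (Sum.inr y) (Sum.inl ⟨i, x⟩)
        then 1 else 0) = if i ∈ Jᶜ then a i else 0 := by
      intro i
      have e2 : ∀ x : Fin (a i), (if (solG a J b).Adj (Sum.inr y) (Sum.inl ⟨i, x⟩)
          then 1 else 0) = if i ∈ Jᶜ then 1 else 0 := by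
        intro x
        have : (solG a J b).Adj (Sum.inr y) (Sum.inl ⟨i, x⟩) ↔ i ∉ J := Iff.rfl
        simp only [this, mem_compl]
      rw [sum_congr rfl (fun x _ => e2 x)]
      split_ifs <;> simp
    rw [sum_congr rfl (fun i _ => e1 i)]
    have e3 : ∀ z : Fin b, (if (solG a J b).Adj (Sum.inr y) (Sum.inr z) then 1 else 0) = 0 := by
      intro z
      have : ¬ (solG a J b).Adj (Sum.inr y) (Sum.inr z) := fun h => h
      rw [if_neg this]
    rw [sum_congr rfl (fun z _ => e3 z), sum_const_zero, add_zero, sum_ite_mem, univ_inter]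
  rw [e2, Fintype.sum_sum_type, sum_congr rfl (fun y _ => h3 y)] at h1
  have h4 : ∑ u : (Σ i : Fin q, Fin (a i)), dg (solG a J b) univ (Sum.inl u) + ∑ i, a i ^ 2 =
      (∑ i, a i) ^ 2 + b * ∑ i ∈ Jᶜ, a i := by
    have e1 : ∑ u : (Σ i : Fin q, Fin (a i)), (dg (solG a J b) univ (Sum.inl u) + a u.1) =
        ∑ u : (Σ i : Fin q, Fin (a i)), (∑ i, a i + if u.1 ∈ J then 0 else b) :=
      sum_congr rfl (fun u _ => h2 u)
    rw [sum_add_distrib, Fintype.sum_sigma (fun u : (Σ i : Fin q, Fin (a i)) => a u.1),
      Fintype.sum_sigma (fun u : (Σ i : Fin q, Fin (a i)) =>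
        (∑ i, a i + if u.1 ∈ J then 0 else b))] at e1
    have f1 : ∀ i : Fin q, ∑ y : Fin (a i), a (⟨i, y⟩ : (Σ i : Fin q, Fin (a i))).1 = a i ^ 2 := by
      intro i
      simp [sq]
    have f2 : ∀ i : Fin q, ∑ y : Fin (a i), (∑ i, a i +
        if (⟨i, y⟩ : (Σ i : Fin q, Fin (a i))).1 ∈ J then 0 else b) =
        a i * (∑ i, a i + if i ∈ J then 0 else b) := by
      intro i
      by_cases h : i ∈ J <;> simp [h]
    rw [sum_congr rfl (fun i _ => f1 i), sum_congr rfl (fun i _ => f2 i)] at e1
    rw [e1]
    have e3 : ∀ i, a i * (∑ i, a i + if i ∈ J then 0 else b) =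
        a i * (∑ i, a i) + b * (if i ∈ Jᶜ then a i else 0) := by
      intro i
      by_cases h : i ∈ J
      · rw [if_pos h, if_neg (fun h' => (mem_compl.1 h') h)]
        ring
      · rw [if_neg h, if_pos (mem_compl.2 h)]
        ring
    rw [sum_congr rfl (fun i _ => e3 i), sum_add_distrib, ← sum_mul, ← mul_sum, sum_ite_mem,
      univ_inter]
    ring
  have h5 := two_ed a J b
  simp only [sum_const, card_univ, Fintype.card_fin, smul_eq_mul] at h1
  have h6 : 2 * b * ∑ i ∈ Jᶜ, a i = b * ∑ i ∈ Jᶜ, a i + b * ∑ i ∈ Jᶜ, a i := by ring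
  omega

theorem solG_colorings {s a : Fin q → ℕ} (hs : ∑ i, s i = q) (J : Finset (Fin q)) (b : ℕ) :
    vl s a J b ≤ Nat.card ((solG a J b).Coloring (Fin q)) := by
  have hcard : Fintype.card (Fin q) = Fintype.card (Σ i : Fin q, Fin (s i)) := by
    rw [Fintype.card_sigma]
    simp [hs]
  let e : Fin q ≃ (Σ i : Fin q, Fin (s i)) := Fintype.equivOfCardEq hcard
  let π : Fin q → Fin q := fun c => (e c).1
  have hπ : ∀ K : Finset (Fin q), (univ.filter (fun c => π c ∈ K)).card = ∑ i ∈ K, s i := by
    intro K
    have h1 : (univ.filter (fun c => π c ∈ K)).card =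
        ((univ : Finset (Σ i : Fin q, Fin (s i))).filter (fun x => x.1 ∈ K)).card := by
      apply card_bij (fun c _ => e c)
      · intro c hc
        rw [mem_filter] at hc ⊢
        exact ⟨mem_univ _, hc.2⟩
      · intro c _ c' _ h
        exact e.injective h
      · intro x hx
        refine ⟨e.symm x, ?_, ?_⟩
        · rw [mem_filter] at hx ⊢
          refine ⟨mem_univ _, ?_⟩
          simp only [π, Equiv.apply_symm_apply]
          exact hx.2
        · simp
    rw [h1, card_filter, Fintype.sum_sigma]
    have f1 : ∀ i : Fin q, ∑ y : Fin (s i),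
        (if (⟨i, y⟩ : (Σ i : Fin q, Fin (s i))).1 ∈ K then 1 else 0) = if i ∈ K then s i else 0 := by
      intro i
      by_cases h : i ∈ K <;> simp [h]
    rw [sum_congr rfl (fun i _ => f1 i), sum_ite_mem, univ_inter]
  let al : ((Σ i : Fin q, Fin (a i)) ⊕ Fin b) → Finset (Fin q) := fun x => match x with
    | Sum.inl u => univ.filter (fun c => π c ∈ ({u.1} : Finset (Fin q)))
    | Sum.inr _ => univ.filter (fun c => π c ∈ J)
  have h1 : vl s a J b = (Fintype.piFinset al).card := by
    rw [Fintype.card_piFinset, Fintype.prod_sum_type, Fintype.prod_sigma]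
    unfold vl
    congr 1
    · apply prod_congr rfl
      intro i _
      simp only [al, hπ, sum_singleton]
      simp
    · simp only [al, hπ]
      simp
  rw [h1]
  have hfin : Finite ((solG a J b).Coloring (Fin q)) :=
    Finite.of_injective (fun c => (fun v => c v : ((Σ i : Fin q, Fin (a i)) ⊕ Fin b) → Fin q))
      (fun c d h => by
        ext v
        exact congrArg Fin.val (congrFun h v))
  rw [← Fintype.card_coe, ← Nat.card_eq_fintype_card]
  apply Nat.card_le_card_of_injective
    (fun c : {c // c ∈ Fintype.piFinset al} => (SimpleGraph.Coloring.mk (fun v => c.1 v)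
      (fun {u v} huv => by
        have h2 := Fintype.mem_piFinset.1 c.2 u
        have h3 := Fintype.mem_piFinset.1 c.2 v
        intro h
        rcases u with u | u <;> rcases v with v | v
        · simp only [al, mem_filter, mem_singleton] at h2 h3
          have huv' : u.1 ≠ v.1 := huv
          apply huv'
          rw [← h2.2, ← h3.2, h]
        · simp only [al, mem_filter, mem_singleton] at h2 h3
          have huv' : u.1 ∉ J := huv
          apply huv'
          rw [← h2.2, h]
          exact h3.2
        · simp only [al, mem_filter, mem_singleton] at h2 h3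
          have huv' : v.1 ∉ J := huv
          apply huv'
          rw [← h3.2, ← h]
          exact h2.2
        · exact huv) : (solG a J b).Coloring (Fin q)))
  intro c d h
  apply Subtype.ext
  funext v
  exact congrArg (fun f : (solG a J b).Coloring (Fin q) => f v) h

/-- the lower bound -/
theorem sol_lower {n m : ℕ} {s a : Fin q → ℕ} {J : Finset (Fin q)} {b : ℕ} (hs : ∑ i, s i = q)
    (hab : ∑ i, a i + b = n) (hm : m ≤ ed a J b) :
    ∃ G : SimpleGraph (Fin n), Nat.card G.edgeSet = m ∧
      vl s a J b ≤ Nat.card (G.Coloring (Fin q)) := by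
  have hcard : Fintype.card ((Σ i : Fin q, Fin (a i)) ⊕ Fin b) = n := by
    rw [Fintype.card_sum, Fintype.card_sigma]
    simp [hab]
  rw [← solG_edges] at hm
  obtain ⟨H, hH1, hH2⟩ := exists_fewer (solG a J b) (Fin q) hm
  obtain ⟨G, hG1, hG2⟩ := exists_fin H (Fin q) hcard
  refine ⟨G, by rw [hG1, hH1], ?_⟩
  rw [hG2]
  exact (solG_colorings hs J b).trans hH2

end Pool.Agent.H521_col.Opt
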