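import Pool.Agent.H521_col.Tur
import Pool.Agent.H521_col.Transfer

/-!
The construction in the dense range.
-/

set_option linter.unusedSectionVars false

namespace Pool.Agent.H521_col

open Finset
open scoped Classical Nat

/-- labels: a free vertex has the labels `0, 1`, any other vertex has its residue -/
def lab (q t p : ℕ) : Finset ℕ := if p % q = 0 ∧ p / q < t then {0, 1} else {p % q}

theorem lab_nonempty (q t p : ℕ) : (lab q t p).Nonempty := by
  unfold lab
  split_ifs
  · exact ⟨0, by simp⟩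
  · exact ⟨p % q, by simp⟩

/-- the extremal graph before deleting the vertices `q * i + 1` -/
def extG (N q t : ℕ) : SimpleGraph (Fin N) where
  Adj x y := Disjoint (lab q t x) (lab q t y)
  symm := ⟨fun _ _ h => h.symm⟩
  loopless := ⟨fun x h => by
    rw [disjoint_self] at h
    exact (lab_nonempty q t x).ne_empty h⟩

/-- the vertices that are kept -/
def keep (N q t : ℕ) : Finset (Fin N) :=
  univ.filter (fun p => ¬ ((p : ℕ) % q = 1 ∧ (p : ℕ) / q < t))

/-- free vertices -/
def free (N q t : ℕ) : Finset (Fin N) :=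
  univ.filter (fun p => (p : ℕ) % q = 0 ∧ (p : ℕ) / q < t)

/-- deleted vertices -/
def del (N q t : ℕ) : Finset (Fin N) :=
  univ.filter (fun p => (p : ℕ) % q = 1 ∧ (p : ℕ) / q < t)

/-- rest -/
def rest (N q t : ℕ) : Finset (Fin N) :=
  univ.filter (fun p => ¬ ((p : ℕ) % q = 0 ∧ (p : ℕ) / q < t) ∧
    ¬ ((p : ℕ) % q = 1 ∧ (p : ℕ) / q < t))

theorem card_cls {N q t a : ℕ} (ha : a < q) (h : q * t ≤ N) :
    (univ.filter (fun p : Fin N => (p : ℕ) % q = a ∧ (p : ℕ) / q < t)).card = t := by
  have hlt : ∀ i : Fin t, q * i + a < N := by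
    intro i
    have h1 : q * (i + 1) ≤ q * t := Nat.mul_le_mul_left _ i.2
    rw [mul_add, mul_one] at h1
    omega
  have h2 : (univ.filter (fun p : Fin N => (p : ℕ) % q = a ∧ (p : ℕ) / q < t)) =
      (univ : Finset (Fin t)).image (fun i : Fin t => (⟨q * i + a, hlt i⟩ : Fin N)) := by
    ext p
    simp only [mem_filter, mem_univ, true_and, mem_image]
    constructor
    · rintro ⟨h1, h2⟩
      refine ⟨⟨(p : ℕ) / q, h2⟩, ?_⟩
      apply Fin.ext
      simp only
      have := Nat.div_add_mod (p : ℕ) q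
      rw [h1] at this
      exact this
    · rintro ⟨i, rfl⟩
      simp only
      rw [Nat.mul_add_mod, Nat.mod_eq_of_lt ha, Nat.mul_add_div (by omega), Nat.div_eq_of_lt ha]
      exact ⟨rfl, by simp⟩
  rw [h2, card_image_of_injective, card_univ, Fintype.card_fin]
  intro i j hij
  simp only [Fin.mk.injEq] at hij
  apply Fin.ext
  have h3 : q * (i : ℕ) = q * (j : ℕ) := by omega
  exact Nat.eq_of_mul_eq_mul_left (by omega) h3

theorem keep_eq {N q t : ℕ} : keep N q t = rest N q t ∪ free N q t := by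
  ext p
  simp only [keep, rest, free, mem_union, mem_filter, mem_univ, true_and]
  constructor
  · intro h
    by_cases h0 : (p : ℕ) % q = 0 ∧ (p : ℕ) / q < t
    · exact Or.inr h0
    · exact Or.inl ⟨h0, h⟩
  · rintro (h | h)
    · exact h.2
    · intro h1
      omega

theorem univ_eq {N q t : ℕ} : (univ : Finset (Fin N)) = (rest N q t ∪ free N q t) ∪ del N q t := by
  rw [← keep_eq]
  ext p
  simp only [keep, del, mem_union, mem_filter, mem_univ, true_and]
  tauto

theorem disj1 {N q t : ℕ} : Disjoint (rest N q t) (free N q t) := by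
  rw [disjoint_left]
  intro p hp hp'
  simp only [rest, free, mem_filter, mem_univ, true_and] at hp hp'
  exact hp.1 hp'

theorem disj2 {N q t : ℕ} : Disjoint (rest N q t ∪ free N q t) (del N q t) := by
  rw [← keep_eq, disjoint_left]
  intro p hp hp'
  simp only [keep, del, mem_filter, mem_univ, true_and] at hp hp'
  exact hp hp'

theorem card_keep {n q t : ℕ} (hq : 2 ≤ q) (h : q * t ≤ n + t) :
    (keep (n + t) q t).card = n := by
  have h1 : (univ : Finset (Fin (n + t))).card = (keep (n + t) q t).card + (del (n + t) q t).card := by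
    rw [keep_eq, ← card_union_of_disjoint disj2, ← univ_eq]
  rw [card_univ, Fintype.card_fin, del, card_cls (by omega) h] at h1
  omega

/-- indicator of adjacency -/
def ind (a b : ℕ) : ℕ := if a = b then 0 else 1

theorem extG_adj_ind {N q t : ℕ} (x y : Fin N) :
    (if (extG N q t).Adj x y then 1 else 0 : ℕ) =
      if Disjoint (lab q t x) (lab q t y) then 1 else 0 :=
  if_congr Iff.rfl rfl rfl

theorem lab_rest {N q t : ℕ} {x : Fin N} (hx : x ∈ rest N q t) : lab q t x = {(x : ℕ) % q} := by
  simp only [rest, mem_filter, mem_univ, true_and] at hx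
  rw [lab, if_neg hx.1]

theorem lab_free {N q t : ℕ} {x : Fin N} (hx : x ∈ free N q t) : lab q t x = {0, 1} := by
  simp only [free, mem_filter, mem_univ, true_and] at hx
  rw [lab, if_pos hx]

theorem e2_keep {n q t : ℕ} (hq : 2 ≤ q) (h : q * t ≤ n + t) :
    e2 (extG (n + t) q t) (keep (n + t) q t) + 2 * (n * t) = 2 * tur (n + t) q := by
  set N := n + t with hN
  set R := rest N q t with hR
  set F := free N q t with hF
  set D := del N q t with hD
  have hFc : F.card = t := card_cls (by omega) h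
  have hDc : D.card = t := card_cls (by omega) h
  have hKc : (keep N q t).card = n := card_keep hq h
  have hRc : R.card + t = n := by
    rw [← hKc, keep_eq, card_union_of_disjoint disj1, hFc]
  -- residues
  have hF0 : ∀ x ∈ F, (x : ℕ) % q = 0 := by
    intro x hx
    simp only [hF, free, mem_filter, mem_univ, true_and] at hx
    exact hx.1
  have hD1 : ∀ x ∈ D, (x : ℕ) % q = 1 := by
    intro x hx
    simp only [hD, del, mem_filter, mem_univ, true_and] at hx
    exact hx.1
  -- the Turán count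
  have hT : 2 * tur N q = ∑ x : Fin N, ∑ y : Fin N, ind ((x : ℕ) % q) ((y : ℕ) % q) := by
    rw [two_mul_tur,
      ← Fin.sum_univ_eq_sum_range (fun i => ∑ j ∈ range N, if i % q = j % q then 0 else 1)]
    apply sum_congr rfl
    intro i _
    rw [← Fin.sum_univ_eq_sum_range (fun j => if (i : ℕ) % q = j % q then 0 else 1)]
    rfl
  have hsplit : ∀ f : Fin N → ℕ, ∑ y : Fin N, f y = ∑ y ∈ R, f y + ∑ y ∈ F, f y + ∑ y ∈ D, f y := by
    intro f
    rw [univ_eq (q := q) (t := t), sum_union disj2, sum_union disj1]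
  have hT2 : ∀ x : Fin N, ∑ y : Fin N, ind ((x : ℕ) % q) ((y : ℕ) % q) =
      ∑ y ∈ R, ind ((x : ℕ) % q) ((y : ℕ) % q) + t * ind ((x : ℕ) % q) 0 +
        t * ind ((x : ℕ) % q) 1 := by
    intro x
    rw [hsplit]
    congr 1
    · congr 1
      rw [sum_congr rfl (fun y hy => by rw [hF0 y hy]), sum_const, hFc, smul_eq_mul]
    · rw [sum_congr rfl (fun y hy => by rw [hD1 y hy]), sum_const, hDc, smul_eq_mul]
  have hT3 : 2 * tur N q = ∑ x ∈ R, ∑ y ∈ R, ind ((x : ℕ) % q) ((y : ℕ) % q)
      + 2 * (t * ∑ x ∈ R, (ind ((x : ℕ) % q) 0 + ind ((x : ℕ) % q) 1)) + 2 * (t * t) := by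
    rw [hT, sum_congr rfl (fun x _ => hT2 x), hsplit]
    have a1 : ∑ x ∈ F, (∑ y ∈ R, ind ((x : ℕ) % q) ((y : ℕ) % q) + t * ind ((x : ℕ) % q) 0 +
        t * ind ((x : ℕ) % q) 1) = t * (∑ y ∈ R, ind ((y : ℕ) % q) 0 + t) := by
      rw [sum_congr rfl (fun x hx => by rw [hF0 x hx]), sum_const, hFc, smul_eq_mul]
      congr 1
      rw [sum_congr rfl (fun (y : Fin N) _ => show ind 0 ((y : ℕ) % q) = ind ((y : ℕ) % q) 0 by
        simp [ind, eq_comm])]
      simp [ind]
    have a2 : ∑ x ∈ D, (∑ y ∈ R, ind ((x : ℕ) % q) ((y : ℕ) % q) + t * ind ((x : ℕ) % q) 0 +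
        t * ind ((x : ℕ) % q) 1) = t * (∑ y ∈ R, ind ((y : ℕ) % q) 1 + t) := by
      rw [sum_congr rfl (fun x hx => by rw [hD1 x hx]), sum_const, hDc, smul_eq_mul]
      congr 1
      rw [sum_congr rfl (fun (y : Fin N) _ => show ind 1 ((y : ℕ) % q) = ind ((y : ℕ) % q) 1 by
        simp [ind, eq_comm])]
      simp [ind]
    rw [a1, a2]
    simp only [sum_add_distrib, ← mul_sum]
    ring
  -- the count for the extremal graph
  have hE : e2 (extG N q t) (keep N q t) = ∑ x ∈ R, ∑ y ∈ R, ind ((x : ℕ) % q) ((y : ℕ) % q)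
      + 2 * (t * ∑ x ∈ R, (if (x : ℕ) % q = 0 ∨ (x : ℕ) % q = 1 then 0 else 1)) := by
    rw [e2, keep_eq, sum_union disj1]
    have b1 : ∀ x ∈ R, dg (extG N q t) (R ∪ F) x = ∑ y ∈ R, ind ((x : ℕ) % q) ((y : ℕ) % q) +
        t * (if (x : ℕ) % q = 0 ∨ (x : ℕ) % q = 1 then 0 else 1) := by
      intro x hx
      rw [dg_eq_sum, sum_union disj1]
      congr 1
      · apply sum_congr rfl
        intro y hy
        rw [extG_adj_ind, lab_rest hx, lab_rest hy, ind]
        by_cases hxy : (x : ℕ) % q = (y : ℕ) % q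
        · simp [hxy]
        · simp [hxy]
      · have hc : t * (if (x : ℕ) % q = 0 ∨ (x : ℕ) % q = 1 then 0 else 1) =
            ∑ _y ∈ F, (if (x : ℕ) % q = 0 ∨ (x : ℕ) % q = 1 then 0 else 1) := by
          rw [sum_const, hFc, smul_eq_mul]
        rw [hc]
        apply sum_congr rfl
        intro y hy
        rw [extG_adj_ind, lab_rest hx, lab_free hy]
        by_cases hxy : (x : ℕ) % q = 0 ∨ (x : ℕ) % q = 1
        · simp [hxy]
        · simp [hxy]
    have b2 : ∀ x ∈ F, dg (extG N q t) (R ∪ F) x =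
        ∑ y ∈ R, (if (y : ℕ) % q = 0 ∨ (y : ℕ) % q = 1 then 0 else 1) := by
      intro x hx
      rw [dg_eq_sum, sum_union disj1]
      have : ∑ y ∈ F, (if (extG N q t).Adj x y then 1 else 0 : ℕ) = 0 := by
        apply sum_eq_zero
        intro y hy
        rw [extG_adj_ind, lab_free hx, lab_free hy]
        simp
      rw [this, add_zero]
      apply sum_congr rfl
      intro y hy
      rw [extG_adj_ind, lab_free hx, lab_rest hy]
      by_cases hxy : (y : ℕ) % q = 0 ∨ (y : ℕ) % q = 1
      · rcases hxy with h | h <;> simp [h]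
      · push Not at hxy
        have h1 := hxy.1
        have h2 := hxy.2
        simp [h1, h2]
    rw [sum_congr rfl b1, sum_congr rfl b2, sum_const, hFc, smul_eq_mul, sum_add_distrib, ← mul_sum]
    ring
  have hB : ∑ x ∈ R, (ind ((x : ℕ) % q) 0 + ind ((x : ℕ) % q) 1) =
      R.card + ∑ x ∈ R, (if (x : ℕ) % q = 0 ∨ (x : ℕ) % q = 1 then 0 else 1) := by
    rw [card_eq_sum_ones, ← sum_add_distrib]
    apply sum_congr rfl
    intro x _
    unfold ind
    split_ifs <;> omega
  rw [hE, hT3, hB, ← hRc]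
  ring

/-- the colouring of the extremal graph given by a permutation of the colours and a choice for
every free vertex -/
noncomputable def extCol {N q t : ℕ} [NeZero q] (hq : 2 ≤ q) (x : Equiv.Perm (Fin q) × (Fin t → Bool)) :
    Fin N → Fin q := fun p =>
  if p ∈ keep N q t then
    if hf : (p : ℕ) % q = 0 ∧ (p : ℕ) / q < t then
      (if x.2 ⟨(p : ℕ) / q, hf.2⟩ then x.1 ⟨1, by omega⟩ else x.1 ⟨0, by omega⟩)
    else x.1 ⟨(p : ℕ) % q, Nat.mod_lt _ (by omega)⟩
  else 0

theorem extCol_spec {N q t : ℕ} [NeZero q] (hq : 2 ≤ q) (x : Equiv.Perm (Fin q) × (Fin t → Bool))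
    {p : Fin N} (hp : p ∈ keep N q t) :
    ∃ (a : ℕ) (ha : a < q), a ∈ lab q t p ∧ extCol hq x p = x.1 ⟨a, ha⟩ := by
  unfold extCol lab
  rw [if_pos hp]
  by_cases hf : (p : ℕ) % q = 0 ∧ (p : ℕ) / q < t
  · rw [dif_pos hf, if_pos hf]
    by_cases hb : x.2 ⟨(p : ℕ) / q, hf.2⟩ = true
    · exact ⟨1, by omega, by simp, by rw [if_pos hb]⟩
    · exact ⟨0, by omega, by simp, by rw [if_neg hb]⟩
  · rw [dif_neg hf, if_neg hf]
    exact ⟨(p : ℕ) % q, Nat.mod_lt _ (by omega), by simp, rfl⟩

theorem col_extG {n q t : ℕ} [NeZero q] (hq : 2 ≤ q) (h : q * t + q ≤ n + t) :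
    q ! * 2 ^ t ≤ (Col (Fin q) (extG (n + t) q t) (keep (n + t) q t)).card := by
  have hcard : Fintype.card (Equiv.Perm (Fin q) × (Fin t → Bool)) = q ! * 2 ^ t := by
    rw [Fintype.card_prod, Fintype.card_perm, Fintype.card_fin, Fintype.card_fun,
      Fintype.card_bool, Fintype.card_fin]
  rw [← hcard, ← card_univ]
  apply card_le_card_of_injOn (fun x => extCol (N := n + t) hq x)
  · intro x _
    rw [mem_coe, mem_Col]
    constructor
    · intro w hw
      simp only [extCol, if_neg hw]
    · intro u hu v hv huv heq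
      obtain ⟨a, ha, ha1, ha2⟩ := extCol_spec hq x hu
      obtain ⟨b, hb, hb1, hb2⟩ := extCol_spec hq x hv
      simp only at heq
      rw [ha2, hb2] at heq
      have hab := x.1.injective heq
      simp only [Fin.mk.injEq] at hab
      subst hab
      exact (disjoint_left.1 (show Disjoint (lab q t u) (lab q t v) from huv)) ha1 hb1
  · intro x _ y _ hxy
    simp only at hxy
    have hπ : ∀ i : Fin q, x.1 i = y.1 i := by
      intro i
      have hlt : q * t + i < n + t := by
        have := i.2
        omega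
      have hmod : (q * t + (i : ℕ)) % q = i := by
        rw [Nat.mul_add_mod, Nat.mod_eq_of_lt i.2]
      have hdiv : (q * t + (i : ℕ)) / q = t := by
        rw [Nat.mul_add_div (by omega), Nat.div_eq_of_lt i.2, add_zero]
      have hk : (⟨q * t + i, hlt⟩ : Fin (n + t)) ∈ keep (n + t) q t := by
        simp only [keep, mem_filter, mem_univ, true_and, hdiv]
        omega
      have h1 := congrFun hxy ⟨q * t + i, hlt⟩
      have hnf : ¬ ((q * t + (i : ℕ)) % q = 0 ∧ (q * t + (i : ℕ)) / q < t) := by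
        rw [hdiv]
        omega
      unfold extCol at h1
      simp only [if_pos hk] at h1
      rw [dif_neg hnf, dif_neg hnf] at h1
      simp only [hmod] at h1
      exact h1
    have hπ' : x.1 = y.1 := Equiv.ext hπ
    apply Prod.ext hπ'
    funext j
    have hlt : q * j < n + t := by
      have h1 : q * (j + 1) ≤ q * t := Nat.mul_le_mul_left _ j.2
      rw [mul_add, mul_one] at h1
      omega
    have hmod : (q * (j : ℕ)) % q = 0 := Nat.mul_mod_right q j
    have hdiv : (q * (j : ℕ)) / q = j := Nat.mul_div_cancel_left _ (by omega)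
    have hk : (⟨q * j, hlt⟩ : Fin (n + t)) ∈ keep (n + t) q t := by
      simp only [keep, mem_filter, mem_univ, true_and, hmod]
      omega
    have hf : (q * (j : ℕ)) % q = 0 ∧ (q * (j : ℕ)) / q < t := by
      rw [hdiv]
      exact ⟨hmod, j.2⟩
    have h1 := congrFun hxy ⟨q * j, hlt⟩
    unfold extCol at h1
    simp only [if_pos hk] at h1
    rw [dif_pos hf, dif_pos hf] at h1
    simp only [hdiv, Fin.eta] at h1
    rw [hπ'] at h1
    have hne : y.1 ⟨1, by omega⟩ ≠ y.1 ⟨0, by omega⟩ := by
      intro h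
      have := y.1.injective h
      simp at this
    by_cases hx : x.2 j = true
    · by_cases hy : y.2 j = true
      · rw [hx, hy]
      · rw [if_pos hx, if_neg hy] at h1
        exact absurd h1 hne
    · by_cases hy : y.2 j = true
      · rw [if_neg hx, if_pos hy] at h1
        exact absurd h1.symm hne
      · rw [Bool.not_eq_true] at hx hy
        rw [hx, hy]

end Pool.Agent.H521_col
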