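import Pool.Agent.H521_col.Final
import Pool.Agent.H521_col.Transfer

/-!
Three colours: the complete bipartite graph minus a star, plus isolated vertices.
-/

set_option linter.unusedSectionVars false

namespace Pool.Agent.H521_col

open Finset
open scoped Classical

variable {V : Type*} [Fintype V] [DecidableEq V]

/-- complete bipartite graph with sides `A`, `B`, minus the edges between `y ∈ B` and `E ⊆ A` -/
def starG (A B E : Finset V) (y : V) : SimpleGraph V where
  Adj u v := u ≠ v ∧ ((u ∈ A ∧ v ∈ B ∧ ¬ (v = y ∧ u ∈ E)) ∨ (v ∈ A ∧ u ∈ B ∧ ¬ (u = y ∧ v ∈ E)))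
  symm := ⟨fun _ _ h => ⟨h.1.symm, h.2.symm⟩⟩
  loopless := ⟨fun _ h => h.1 rfl⟩

variable {A B E : Finset V} {y : V}

theorem starG_adj {u v : V} : (starG A B E y).Adj u v ↔
    u ≠ v ∧ ((u ∈ A ∧ v ∈ B ∧ ¬ (v = y ∧ u ∈ E)) ∨ (v ∈ A ∧ u ∈ B ∧ ¬ (u = y ∧ v ∈ E))) := Iff.rfl

theorem starG_indA (h : Disjoint A B) : Ind (starG A B E y) A := by
  intro u hu v hv huv
  rw [starG_adj] at huv
  rcases huv.2 with h1 | h1
  · exact disjoint_left.1 h hv h1.2.1
  · exact disjoint_left.1 h hu h1.2.1

theorem starG_indB (h : Disjoint A B) : Ind (starG A B E y) B := by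
  intro u hu v hv huv
  rw [starG_adj] at huv
  rcases huv.2 with h1 | h1
  · exact disjoint_left.1 h h1.1 hu
  · exact disjoint_left.1 h h1.1 hv

theorem starG_dg (h : Disjoint A B) (hy : y ∈ B) {u : V} (hu : u ∈ A) :
    dg (starG A B E y) B u + (if u ∈ E then 1 else 0) = B.card := by
  have h1 : nb (starG A B E y) B u = if u ∈ E then B.erase y else B := by
    ext v
    rw [mem_nb, starG_adj]
    split_ifs with huE
    · rw [mem_erase]
      constructor
      · rintro ⟨hv, _, h1 | h1⟩
        · refine ⟨fun h2 => h1.2.2 ⟨h2, huE⟩, hv⟩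
        · exact absurd h1.2.1 (fun h3 => disjoint_left.1 h hu h3)
      · rintro ⟨hvy, hv⟩
        refine ⟨hv, ?_, Or.inl ⟨hu, hv, fun h2 => hvy h2.1⟩⟩
        rintro rfl
        exact disjoint_left.1 h hu hv
    · constructor
      · exact fun h1 => h1.1
      · intro hv
        refine ⟨hv, ?_, Or.inl ⟨hu, hv, fun h2 => huE h2.2⟩⟩
        rintro rfl
        exact disjoint_left.1 h hu hv
  rw [dg, h1]
  split_ifs with huE
  · rw [card_erase_of_mem hy]
    have := card_pos.2 ⟨y, hy⟩
    omega
  · rfl

theorem starG_e2 (h : Disjoint A B) (hy : y ∈ B) (hE : E ⊆ A) :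
    e2 (starG A B E y) (A ∪ B) + 2 * E.card = 2 * (A.card * B.card) := by
  rw [e2_union h, (starG_indA h).e2_zero, (starG_indB h).e2_zero]
  have h1 : ∑ u ∈ A, (dg (starG A B E y) B u + (if u ∈ E then 1 else 0)) = A.card * B.card := by
    rw [sum_congr rfl (fun u hu => starG_dg h hy hu), sum_const, smul_eq_mul]
  have h2 : ∑ u ∈ A, (if u ∈ E then 1 else 0) = E.card := by
    rw [← card_filter]
    congr 1
    ext u
    rw [mem_filter]
    exact ⟨fun h => h.2, fun h => ⟨hE h, h⟩⟩
  rw [sum_add_distrib, h2] at h1
  omega

theorem fin3_a (x : Fin 3) : x + 1 ≠ x ∧ x + 2 ≠ x ∧ x + 1 ≠ x + 2 := by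
  revert x
  decide

theorem fin3_b (x z : Fin 3) (h : x ≠ z) : -(x + z) ≠ x ∧ -(x + z) ≠ z := by
  revert x z
  decide

/-- properness from the sides -/
theorem starG_col {c : V → Fin 3} (h0 : ∀ v, v ∉ A ∪ B → c v = 0)
    (h1 : ∀ u ∈ A, ∀ v ∈ B, ¬ (v = y ∧ u ∈ E) → c u ≠ c v) :
    c ∈ Col (Fin 3) (starG A B E y) (A ∪ B) := by
  rw [mem_Col]
  refine ⟨h0, ?_⟩
  intro u _ v _ huv
  rw [starG_adj] at huv
  rcases huv.2 with h | h
  · exact h1 u h.1 v h.2.1 h.2.2
  · exact (h1 v h.1 u h.2.1 h.2.2).symm

/-- `B` monochromatic -/
def g1 (A B : Finset V) (p : Fin 3 × Finset V) : V → Fin 3 := fun v =>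
  if v ∈ A then (if v ∈ p.2 then p.1 + 1 else p.1 + 2) else if v ∈ B then p.1 else 0

/-- `A` monochromatic -/
def g2 (A B : Finset V) (p : Fin 3 × Finset V) : V → Fin 3 := fun v =>
  if v ∈ A then p.1 else if v ∈ B then (if v ∈ p.2 then p.1 + 1 else p.1 + 2) else 0

/-- neither -/
def g3 (A B : Finset V) (y : V) (p : (Fin 3 × Fin 3) × Finset V) : V → Fin 3 := fun v =>
  if v ∈ A then (if v ∈ p.2 then p.1.1 else p.1.2) else
    if v ∈ B then (if v = y then p.1.1 else -(p.1.1 + p.1.2)) else 0

theorem starG_count (h : Disjoint A B) (hy : y ∈ B) (hE : E ⊆ A) (hA : E.card < A.card)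
    (hB : 2 ≤ B.card ∨ E = ∅) :
    3 * 2 ^ A.card + 3 * 2 ^ B.card + 6 * 2 ^ E.card ≤
      (Col (Fin 3) (starG A B E y) (A ∪ B)).card + 12 := by
  set X := Col (Fin 3) (starG A B E y) (A ∪ B) with hX
  have hAne : A.Nonempty := by
    rw [← card_pos]
    omega
  obtain ⟨x0, hx0⟩ := hAne
  have hBA : ∀ v ∈ B, v ∉ A := fun v hv hv' => disjoint_left.1 h hv' hv
  have hBne : B.Nonempty := ⟨y, hy⟩
  -- the three families
  set F1 := X.filter (fun c => MonoOn B c) with hF1
  set F2 := X.filter (fun c => MonoOn A c ∧ ¬ MonoOn B c) with hF2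
  set F3 := X.filter (fun c => ¬ MonoOn A c ∧ ¬ MonoOn B c) with hF3
  have c1 : 3 * 2 ^ A.card ≤ F1.card := by
    have e1 : ((univ : Finset (Fin 3)) ×ˢ A.powerset).card = 3 * 2 ^ A.card := by
      rw [card_product, card_powerset, card_univ, Fintype.card_fin]
    rw [← e1]
    apply card_le_card_of_injOn (g1 A B)
    · intro p hp
      rw [mem_coe, hF1, mem_filter]
      constructor
      · apply starG_col
        · intro v hv
          rw [mem_union, not_or] at hv
          simp only [g1, if_neg hv.1, if_neg hv.2]
        · intro u hu v hv _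
          simp only [g1, if_pos hu, if_neg (hBA v hv), if_pos hv]
          have := fin3_a p.1
          split_ifs
          · exact this.1
          · exact this.2.1
      · intro u hu v hv
        simp only [g1, if_neg (hBA v hv), if_pos hv, if_neg (hBA u hu), if_pos hu]
    · rintro ⟨p, s⟩ hp ⟨p', s'⟩ hp' heq
      rw [mem_coe, mem_product, mem_powerset] at hp hp'
      have h1 := congrFun heq y
      simp only [g1, if_neg (hBA y hy), if_pos hy] at h1
      subst h1
      have h2 : s = s' := by
        ext v
        have ha := fin3_a p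
        constructor
        · intro hv
          have h3 := congrFun heq v
          have hvA : v ∈ A := hp.2 hv
          by_contra hv'
          simp only [g1, if_pos hvA, if_pos hv, if_neg hv'] at h3
          exact ha.2.2 h3
        · intro hv
          have h3 := congrFun heq v
          have hvA : v ∈ A := hp'.2 hv
          by_contra hv'
          simp only [g1, if_pos hvA, if_pos hv, if_neg hv'] at h3
          exact ha.2.2 h3.symm
      rw [h2]
  have c2 : 3 * 2 ^ B.card ≤ F2.card + 6 := by
    have e1 : ((univ : Finset (Fin 3)) ×ˢ ((B.powerset.erase ∅).erase B)).card + 6 =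
        3 * 2 ^ B.card := by
      have hmem : B ∈ B.powerset.erase ∅ := by
        rw [mem_erase, mem_powerset]
        exact ⟨hBne.ne_empty, Subset.refl _⟩
      rw [card_product, card_erase_of_mem hmem, card_erase_of_mem (empty_mem_powerset B),
        card_powerset, card_univ, Fintype.card_fin]
      have := two_le_two_pow (n := B.card) (card_pos.2 hBne)
      omega
    rw [← e1]
    apply Nat.add_le_add_right
    apply card_le_card_of_injOn (g2 A B)
    · rintro ⟨p, s⟩ hp
      rw [mem_coe, mem_product, mem_erase, mem_erase, mem_powerset] at hp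
      rw [mem_coe, hF2, mem_filter]
      have ha := fin3_a p
      refine ⟨?_, ?_, ?_⟩
      · apply starG_col
        · intro v hv
          rw [mem_union, not_or] at hv
          simp only [g2, if_neg hv.1, if_neg hv.2]
        · intro u hu v hv _
          simp only [g2, if_pos hu, if_neg (hBA v hv), if_pos hv]
          split_ifs
          · exact ha.1.symm
          · exact ha.2.1.symm
      · intro u hu v hv
        simp only [g2, if_pos hu, if_pos hv]
      · intro hm
        obtain ⟨v, hv⟩ := nonempty_iff_ne_empty.2 hp.2.2.1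
        have hvB : v ∈ B := hp.2.2.2 hv
        have : ∃ w ∈ B, w ∉ s := by
          by_contra hcon
          push Not at hcon
          exact hp.2.1 (Subset.antisymm hp.2.2.2 hcon)
        obtain ⟨w, hw, hws⟩ := this
        have h3 := hm v hvB w hw
        simp only [g2, if_neg (hBA v hvB), if_pos hvB, if_pos hv, if_neg (hBA w hw), if_pos hw,
          if_neg hws] at h3
        exact ha.2.2 h3
    · rintro ⟨p, s⟩ hp ⟨p', s'⟩ hp' heq
      rw [mem_coe, mem_product, mem_erase, mem_erase, mem_powerset] at hp hp'
      have h1 := congrFun heq x0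
      simp only [g2, if_pos hx0] at h1
      subst h1
      have h2 : s = s' := by
        ext v
        have ha := fin3_a p
        constructor
        · intro hv
          have h3 := congrFun heq v
          have hvB : v ∈ B := hp.2.2.2 hv
          by_contra hv'
          simp only [g2, if_neg (hBA v hvB), if_pos hvB, if_pos hv, if_neg hv'] at h3
          exact ha.2.2 h3
        · intro hv
          have h3 := congrFun heq v
          have hvB : v ∈ B := hp'.2.2.2 hv
          by_contra hv'
          simp only [g2, if_neg (hBA v hvB), if_pos hvB, if_pos hv, if_neg hv'] at h3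
          exact ha.2.2 h3.symm
      rw [h2]
  have c3 : 6 * 2 ^ E.card ≤ F3.card + 6 := by
    rcases hB with hB | hB
    · have h6 : ((univ : Finset (Fin 3)).offDiag).card = 6 := by decide
      have e1 : ((univ : Finset (Fin 3)).offDiag ×ˢ (E.powerset.erase ∅)).card + 6 =
          6 * 2 ^ E.card := by
        rw [card_product, card_erase_of_mem (empty_mem_powerset E), card_powerset, h6]
        have := one_le_two_pow' E.card
        omega
      rw [← e1]
      apply Nat.add_le_add_right
      -- a vertex of `A` outside `E` and a vertex of `B` different from `y`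
      obtain ⟨x1, hx1, hx1E⟩ : ∃ x ∈ A, x ∉ E := by
        by_contra hcon
        push Not at hcon
        have := card_le_card (show A ⊆ E from hcon)
        omega
      obtain ⟨y1, hy1, hy1y⟩ : ∃ v ∈ B, v ≠ y := by
        by_contra hcon
        push Not at hcon
        have := card_le_card (show B ⊆ {y} from fun v hv => mem_singleton.2 (hcon v hv))
        rw [card_singleton] at this
        omega
      apply card_le_card_of_injOn (g3 A B y)
      · rintro ⟨⟨p, q⟩, s⟩ hp
        rw [mem_coe, mem_product, mem_offDiag, mem_erase, mem_powerset] at hp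
        rw [mem_coe, hF3, mem_filter]
        simp only at hp
        have hpq : p ≠ q := hp.1.2.2
        have hb := fin3_b p q hpq
        obtain ⟨v, hv⟩ := nonempty_iff_ne_empty.2 hp.2.1
        have hvE : v ∈ E := hp.2.2 hv
        have hvA : v ∈ A := hE hvE
        have hx1s : x1 ∉ s := fun h => hx1E (hp.2.2 h)
        refine ⟨?_, ?_, ?_⟩
        · apply starG_col
          · intro v hv
            rw [mem_union, not_or] at hv
            simp only [g3, if_neg hv.1, if_neg hv.2]
          · intro u hu v hv huv
            simp only [g3, if_pos hu, if_neg (hBA v hv), if_pos hv]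
            by_cases hus : u ∈ s
            · rw [if_pos hus]
              have hvy : v ≠ y := fun h => huv ⟨h, hp.2.2 hus⟩
              rw [if_neg hvy]
              exact hb.1.symm
            · rw [if_neg hus]
              split_ifs
              · exact hpq.symm
              · exact hb.2.symm
        · intro hm
          have h3 := hm v hvA x1 hx1
          simp only [g3, if_pos hvA, if_pos hx1, if_pos hv, if_neg hx1s] at h3
          exact hpq h3
        · intro hm
          have h3 := hm y hy y1 hy1
          simp only [g3, if_neg (hBA y hy), if_pos hy, if_neg (hBA y1 hy1), if_pos hy1,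
            if_neg hy1y, if_true] at h3
          exact hb.1 h3.symm
      · rintro ⟨⟨p, q⟩, s⟩ hp ⟨⟨p', q'⟩, s'⟩ hp' heq
        rw [mem_coe, mem_product, mem_offDiag, mem_erase, mem_powerset] at hp hp'
        simp only at hp hp'
        have hx1s : x1 ∉ s := fun h => hx1E (hp.2.2 h)
        have hx1s' : x1 ∉ s' := fun h => hx1E (hp'.2.2 h)
        have h1 := congrFun heq y
        have h2 := congrFun heq x1
        simp only [g3, if_neg (hBA y hy), if_pos hy, if_true] at h1
        simp only [g3, if_pos hx1, if_neg hx1s, if_neg hx1s'] at h2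
        subst h1
        subst h2
        have hpq : p ≠ q := hp.1.2.2
        have h3 : s = s' := by
          ext v
          constructor
          · intro hv
            have h3 := congrFun heq v
            have hvA : v ∈ A := hE (hp.2.2 hv)
            by_contra hv'
            simp only [g3, if_pos hvA, if_pos hv, if_neg hv'] at h3
            exact hpq h3
          · intro hv
            have h3 := congrFun heq v
            have hvA : v ∈ A := hE (hp'.2.2 hv)
            by_contra hv'
            simp only [g3, if_pos hvA, if_pos hv, if_neg hv'] at h3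
            exact hpq h3.symm
        rw [h3]
    · rw [hB, card_empty]
      omega
  -- the families are disjoint
  have d1 : F1.card + (X.filter (fun c => ¬ MonoOn B c)).card = X.card :=
    card_filter_add_card_filter_not (s := X) (fun c => MonoOn B c)
  have d2 := card_filter_add_card_filter_not (s := X.filter (fun c => ¬ MonoOn B c))
    (fun c => MonoOn A c)
  have d3 : (X.filter (fun c => ¬ MonoOn B c)).filter (fun c => MonoOn A c) = F2 := by
    ext c
    simp only [hF2, mem_filter]
    tauto
  have d4 : (X.filter (fun c => ¬ MonoOn B c)).filter (fun c => ¬ MonoOn A c) = F3 := by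
    ext c
    simp only [hF3, mem_filter]
    tauto
  rw [d3, d4] at d2
  omega

/-- adding an isolated vertex -/
theorem col_isolated {G : SimpleGraph V} {S : Finset V} {w : V} (hw : w ∉ S)
    (hiso : ∀ u ∈ S, ¬ G.Adj w u) :
    3 * (Col (Fin 3) G S).card ≤ (Col (Fin 3) G (insert w S)).card := by
  have e1 : ((univ : Finset (Fin 3)) ×ˢ Col (Fin 3) G S).card = 3 * (Col (Fin 3) G S).card := by
    rw [card_product, card_univ, Fintype.card_fin]
  rw [← e1]
  apply card_le_card_of_injOn (fun p => Function.update p.2 w p.1)
  · rintro ⟨x, c⟩ hp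
    rw [mem_coe, mem_product] at hp
    have hc := mem_Col.1 hp.2
    rw [mem_coe, mem_Col]
    constructor
    · intro v hv
      rw [mem_insert, not_or] at hv
      simp only [Function.update_of_ne hv.1]
      exact hc.1 v hv.2
    · intro u hu v hv huv
      rcases mem_insert.1 hu with hu' | hu'
      · rcases mem_insert.1 hv with hv' | hv'
        · rw [hu', hv'] at huv
          exact absurd huv (G.loopless.irrefl _)
        · rw [hu'] at huv
          exact absurd huv (hiso v hv')
      · rcases mem_insert.1 hv with hv' | hv'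
        · rw [hv'] at huv
          exact absurd huv.symm (hiso u hu')
        · have huw : u ≠ w := fun h => hw (h ▸ hu')
          have hvw : v ≠ w := fun h => hw (h ▸ hv')
          simp only [Function.update_of_ne huw, Function.update_of_ne hvw]
          exact hc.2 u hu' v hv' huv
  · rintro ⟨x, c⟩ hp ⟨x', c'⟩ hp' heq
    rw [mem_coe, mem_product] at hp hp'
    have hc := mem_Col.1 hp.2
    have hc' := mem_Col.1 hp'.2
    have h1 := congrFun heq w
    simp only [Function.update_self] at h1
    apply Prod.ext h1
    funext v
    by_cases hv : v = w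
    · have e2' : c w = 0 := hc.1 w hw
      have e3 : c' w = 0 := hc'.1 w hw
      simp only
      rw [hv, e2', e3]
    · have h2 := congrFun heq v
      simp only [Function.update_of_ne hv] at h2
      exact h2

theorem col_isolated_many {G : SimpleGraph V} {S : Finset V} (R : Finset V) (hR : Disjoint S R)
    (hiso : ∀ w ∈ R, ∀ u, ¬ G.Adj w u) :
    3 ^ R.card * (Col (Fin 3) G S).card ≤ (Col (Fin 3) G (S ∪ R)).card := by
  induction R using Finset.induction_on with
  | empty => simp
  | insert w R hw ih =>
    rw [disjoint_insert_right] at hR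
    have h1 := ih hR.2 (fun v hv => hiso v (mem_insert_of_mem hv))
    have hw' : w ∉ S ∪ R := by
      rw [mem_union, not_or]
      exact ⟨hR.1, hw⟩
    have h2 := col_isolated hw' (fun u _ => hiso w (mem_insert_self w R) u)
    rw [union_insert, card_insert_of_notMem hw, pow_succ]
    calc 3 ^ R.card * 3 * (Col (Fin 3) G S).card
        = 3 * (3 ^ R.card * (Col (Fin 3) G S).card) := by ring
      _ ≤ 3 * (Col (Fin 3) G (S ∪ R)).card := Nat.mul_le_mul_left _ h1
      _ ≤ _ := h2

theorem e2_isolated {G : SimpleGraph V} {S R : Finset V} (hR : Disjoint S R)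
    (hiso : ∀ w ∈ R, ∀ u, ¬ G.Adj w u) : e2 G (S ∪ R) = e2 G S := by
  rw [e2_union hR]
  have h1 : ∀ T : Finset V, ∀ w ∈ R, dg G T w = 0 := by
    intro T w hw
    rw [dg, card_eq_zero]
    ext u
    rw [mem_nb]
    simp only [notMem_empty, iff_false]
    rintro ⟨_, h⟩
    exact hiso w hw u h
  have h2 : e2 G R = 0 := sum_eq_zero (h1 R)
  have h3 : ∑ x ∈ S, dg G R x = 0 := by
    rw [double_count]
    exact sum_eq_zero (h1 S)
  rw [h2, h3, mul_zero, add_zero, add_zero]

end Pool.Agent.H521_col
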