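import Pool.Agent.H521_col.Final
import Pool.Agent.H521_col.Transfer

/-!
Connected graphs, three colours: the main theorem.
-/

set_option linter.unusedSectionVars false

namespace Pool.Agent.H521_col

open Finset
open scoped Classical

variable {V : Type*} [Fintype V] [DecidableEq V]
variable {G : SimpleGraph V} {S : Finset V} {a b k : ℕ}

theorem Ctx.final (C : Ctx G S a b k) (hkab : k + b = a) (hmax : ∀ v ∈ S, dg G S v + 1 ≤ a)
    {u v : V} (hu : u ∈ S) (hv : v ∈ S) (huv : G.Adj u v) (hub : b ≤ dg G S u)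
    (hvb : b ≤ dg G S v) : P G S + 12 ≤ val a b k := by
  have hn := C.hn
  have he := C.he
  have hb := C.hb
  by_cases hI3 : ∃ x ∈ S, 2 * b ≤ dg G S x + 2
  · obtain ⟨x, hx, hxd⟩ := hI3
    exact C.i3 hx (by omega) (hmax x hx)
  push Not at hI3
  set W := S.filter (fun x => b + 1 ≤ dg G S x) with hW
  have hWS : W ⊆ S := filter_subset _ _
  by_cases hWi : Ind G W
  swap
  · unfold Ind at hWi
    push Not at hWi
    obtain ⟨x, hx, y, hy, hxy⟩ := hWi
    rw [hW, mem_filter] at hx hy
    exact C.edge hx.1 hy.1 hxy hx.2 hy.2 (hmax x hx.1)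
  by_cases hnon : ∃ w ∈ W, ∃ z ∈ S, dg G S z = b ∧ ¬ G.Adj z w
  · obtain ⟨w, hw, z, hz, hzb, hzw⟩ := hnon
    rw [hW, mem_filter] at hw
    have h1 := hI3 w hw.1
    exact C.i6 hkab hw.1 hz (by
      rintro rfl
      omega) hzw hw.2 (hmax w hw.1) hzb (by omega)
  push Not at hnon
  -- a vertex of degree `b`
  have hz0 : ∃ z ∈ S, dg G S z = b := by
    by_contra hcon
    push Not at hcon
    have h1 : u ∈ W := by
      rw [hW, mem_filter]
      have := hcon u hu
      exact ⟨hu, by omega⟩
    have h2 : v ∈ W := by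
      rw [hW, mem_filter]
      have := hcon v hv
      exact ⟨hv, by omega⟩
    exact hWi u h1 v h2 huv
  obtain ⟨z0, hz0, hz0b⟩ := hz0
  have hWsub : ∀ z ∈ S, dg G S z = b → W ⊆ nb G S z := by
    intro z hz hzb w hw
    rw [mem_nb]
    exact ⟨hWS hw, hnon w hw z hz hzb⟩
  have hsum : e2 G S = ∑ x ∈ W, dg G S x + ∑ x ∈ S \ W, dg G S x := by
    rw [e2, add_comm]
    exact (sum_sdiff hWS).symm
  have hcardWR := card_sdiff_add_card_eq_card hWS
  have hle : ∀ x ∈ S \ W, dg G S x ≤ b := by
    intro x hx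
    rw [mem_sdiff, hW, mem_filter, not_and, not_le] at hx
    have := hx.2 hx.1
    omega
  have hWb : b ≤ W.card := by
    by_contra hlt
    push Not at hlt
    have h1 : ∑ x ∈ W, dg G S x ≤ W.card * (a - 1) := by
      rw [← smul_eq_mul]
      apply sum_le_card_nsmul
      intro x hx
      have := hmax x (hWS hx)
      omega
    have h2 : ∑ x ∈ W, dg G S x ≤ W.card * (2 * b - 3) := by
      rw [← smul_eq_mul]
      apply sum_le_card_nsmul
      intro x hx
      have := hI3 x (hWS hx)
      omega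
    have h3 : ∑ x ∈ S \ W, dg G S x ≤ (S \ W).card * b := by
      rw [← smul_eq_mul]
      exact sum_le_card_nsmul _ _ _ hle
    have hz3 := hI3 z0 hz0
    have hz4 := hmax z0 hz0
    generalize ∑ x ∈ W, dg G S x = s1 at *
    generalize ∑ x ∈ S \ W, dg G S x = s2 at *
    generalize (S \ W).card = r at *
    generalize W.card = w at *
    obtain ⟨β, rfl⟩ : ∃ β, b = β + 3 := ⟨b - 3, by omega⟩
    obtain ⟨A, hA⟩ : ∃ A, a = β + 4 + A := ⟨a - (β + 4), by omega⟩
    obtain ⟨x, hx⟩ : ∃ x, β + 2 = w + x := ⟨β + 2 - w, by omega⟩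
    have hr : r = β + 5 + A + x := by omega
    have e1 : a - 1 = β + 3 + A := by omega
    have e2' : 2 * (β + 3) - 3 = 2 * β + 3 := by omega
    rw [e1] at h1
    rw [e2'] at h2
    have hk1 : k = A + 1 := by omega
    rw [hr] at h3
    have hw : w = β + 2 - x := by omega
    -- e2 = 2ab - 2k
    have he' : 2 * ((β + 4 + A) * (β + 3)) = s1 + s2 + 2 * (A + 1) := by
      rw [← hsum, ← hk1, ← hA]
      exact he
    have hb1 : w * (β + 3 + A) + x * (β + 3 + A) = (β + 2) * (β + 3 + A) := by
      rw [hx]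
      ring
    have hb2 : w * (2 * β + 3) + x * (2 * β + 3) = (β + 2) * (2 * β + 3) := by
      rw [hx]
      ring
    -- first estimate
    have hA1 : β + 1 ≤ A := by
      by_contra hcon
      push Not at hcon
      nlinarith [Nat.zero_le (x * A), Nat.zero_le (x * β)]
    nlinarith [Nat.zero_le (x * A), Nat.zero_le (x * β), Nat.mul_le_mul_left β hA1]
  have hWeq : ∀ z ∈ S, dg G S z = b → nb G S z = W := by
    intro z hz hzb
    symm
    apply eq_of_subset_of_card_le (hWsub z hz hzb)
    rw [← dg, hzb]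
    exact hWb
  have hWc : W.card = b := by
    rw [← hWeq z0 hz0 hz0b, ← dg, hz0b]
  have hRc : (S \ W).card = a := by omega
  have hcompl := hWi.e2_compl hWS
  by_cases hRi : Ind G (S \ W)
  · have h1 := direct_bound' C.conn hWS (by rw [← card_pos]; omega) (by rw [← card_pos]; omega)
      hWi hRi (k := k) (by
        rw [hWc, hRc, ← he]
        ring)
    rw [hWc, hRc] at h1
    unfold val
    omega
  unfold Ind at hRi
  push Not at hRi
  obtain ⟨x, hx, y, hy, hxy⟩ := hRi
  -- the vertices of degree `b`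
  set B := (S \ W).filter (fun z => dg G S z = b) with hB
  have hBsub : B ⊆ S \ W := filter_subset _ _
  have hWBS : W ∪ B ⊆ S := union_subset hWS (hBsub.trans sdiff_subset)
  have hdisWB : Disjoint W B := by
    rw [disjoint_left]
    intro z hz hz'
    exact (mem_sdiff.1 (hBsub hz')).2 hz
  have hLB : S \ (W ∪ B) = (S \ W) \ B := by
    ext z
    simp only [mem_sdiff, mem_union, not_or]
    tauto
  have hBL : ((S \ W) \ B).card + B.card = a := by
    rw [card_sdiff_add_card_eq_card hBsub, hRc]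
  have hsumR : ∑ z ∈ S \ W, dg G S z + ((S \ W) \ B).card ≤ a * b := by
    have h1 : ∑ z ∈ S \ W, dg G S z = ∑ z ∈ (S \ W) \ B, dg G S z + ∑ z ∈ B, dg G S z :=
      (sum_sdiff hBsub).symm
    have h2 : ∑ z ∈ B, dg G S z ≤ B.card * b := by
      rw [← smul_eq_mul]
      exact sum_le_card_nsmul _ _ _ (fun z hz => hle z (hBsub hz))
    have h3 : ∑ z ∈ (S \ W) \ B, dg G S z ≤ ((S \ W) \ B).card * (b - 1) := by
      rw [← smul_eq_mul]
      apply sum_le_card_nsmul
      intro z hz
      rw [mem_sdiff, hB, mem_filter, not_and] at hz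
      have h4 := hz.2 hz.1
      have h5 := hle z hz.1
      omega
    rw [← hBL]
    obtain ⟨β, rfl⟩ : ∃ β, b = β + 1 := ⟨b - 1, by omega⟩
    rw [Nat.add_sub_cancel] at h3
    generalize ((S \ W) \ B).card = l at *
    generalize B.card = m at *
    have : (l + m) * (β + 1) = l * β + l + m * (β + 1) := by ring
    omega
  have hadjBW : ∀ z ∈ B, ∀ w ∈ W, G.Adj z w := by
    intro z hz w hw
    rw [hB, mem_filter, mem_sdiff] at hz
    exact hnon w hw z hz.1.1 hz.2
  have hnbB : ∀ z ∈ B, nb G S z = W := by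
    intro z hz
    rw [hB, mem_filter, mem_sdiff] at hz
    exact hWeq z hz.1.1 hz.2
  have hz0B : z0 ∈ B := by
    rw [hB, mem_filter, mem_sdiff, hW, mem_filter, not_and, not_le]
    exact ⟨⟨hz0, fun _ => by omega⟩, hz0b⟩
  have hz0W : z0 ∉ W := fun h => disjoint_left.1 hdisWB h hz0B
  have hWne : W.Nonempty := by
    rw [← card_pos]
    omega
  -- ends of edges outside `W` are outside `B`
  have hnotB : ∀ p ∈ S \ W, ∀ q ∈ S \ W, G.Adj p q → p ∈ S \ (W ∪ B) := by
    intro p hp q hq hpq
    rw [hLB, mem_sdiff]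
    refine ⟨hp, ?_⟩
    intro hpB
    have h1 : q ∈ nb G S p := mem_nb.2 ⟨(mem_sdiff.1 hq).1, hpq⟩
    rw [hnbB p hpB] at h1
    exact (mem_sdiff.1 hq).2 h1
  have hxL := hnotB x hx y hy hxy
  have hyL := hnotB y hy x hx hxy.symm
  have hnm := nonmono_bound C.conn hWne hWi hWBS hz0B hz0W hadjBW
  rw [hWc] at hnm
  have hPsplit : ((Col (Fin 3) G S).filter (fun c => MonoOn W c)).card +
      ((Col (Fin 3) G S).filter (fun c => ¬ MonoOn W c)).card = P G S := by
    rw [P]
    exact card_filter_add_card_filter_not _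
  have hlL : (S \ (W ∪ B)).card = ((S \ W) \ B).card := by rw [hLB]
  have hBL' : B.card + (S \ (W ∪ B)).card = a := by omega
  have h4 := four_le_two_pow hb
  -- the number of edges outside `W` is positive
  have hpair : ∀ p ∈ S \ W, ∀ q ∈ S \ W, p ≠ q → dg G (S \ W) p + dg G (S \ W) q ≤
      e2 G (S \ W) := by
    intro p hp q hq hpq
    rw [← sum_pair (f := fun z => dg G (S \ W) z) hpq]
    apply sum_le_sum_of_subset
    intro z hz
    rw [mem_insert, mem_singleton] at hz
    rcases hz with rfl | rfl <;> assumption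
  by_cases hcase : ∃ p ∈ S \ (W ∪ B), ∃ q ∈ S \ (W ∪ B), G.Adj p q ∧
      (∃ w ∈ W, G.Adj p w) ∧ (∃ w ∈ W, G.Adj q w)
  · obtain ⟨p, hp, q, hq, hpq, ⟨w1, hw1, hpw⟩, ⟨w2, hw2, hqw⟩⟩ := hcase
    have h1 := mono_case1 C.conn hWne hWBS hadjBW hp hq hpq hw1 hw2 hpw hqw
    rw [hBL'] at h1
    have h2 : 2 ≤ e2 G (S \ W) := by
      have a1 := hpair x hx y hy hxy.ne
      have a2 : 1 ≤ dg G (S \ W) x := card_pos.2 ⟨y, mem_nb.2 ⟨hy, hxy⟩⟩
      have a3 : 1 ≤ dg G (S \ W) y := card_pos.2 ⟨x, mem_nb.2 ⟨hx, hxy.symm⟩⟩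
      omega
    have h3 : b + (S \ (W ∪ B)).card + 1 ≤ a := by omega
    have h5 : 2 ^ (b + (S \ (W ∪ B)).card) * 2 ≤ 2 ^ a := by
      calc 2 ^ (b + (S \ (W ∪ B)).card) * 2 = 2 ^ (b + (S \ (W ∪ B)).card + 1) := by ring
        _ ≤ 2 ^ a := Nat.pow_le_pow_right (by norm_num) h3
    unfold val
    omega
  · push Not at hcase
    -- a vertex not adjacent to `W` next to a vertex adjacent to `W`
    set A := (S \ (W ∪ B)).filter (fun p => ∃ w ∈ W, G.Adj p w) with hA
    have hAsub : A ⊆ S \ (W ∪ B) := filter_subset _ _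
    have hTS : (W ∪ B) ∪ A ⊆ S := union_subset hWBS (hAsub.trans sdiff_subset)
    have hne : (W ∪ B) ∪ A ≠ S := by
      intro heq
      have hxA : x ∈ A := by
        have : x ∈ (W ∪ B) ∪ A := by
          rw [heq]
          exact (mem_sdiff.1 hx).1
        rcases mem_union.1 this with h | h
        · exact absurd h (mem_sdiff.1 hxL).2
        · exact h
      have hyA : y ∈ A := by
        have : y ∈ (W ∪ B) ∪ A := by
          rw [heq]
          exact (mem_sdiff.1 hy).1
        rcases mem_union.1 this with h | h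
        · exact absurd h (mem_sdiff.1 hyL).2
        · exact h
      obtain ⟨w2, hw2, hyw⟩ := (mem_filter.1 hyA).2
      exact hcase x hxL y hyL hxy (mem_filter.1 hxA).2 w2 hw2 hyw
    obtain ⟨y', hy', x', hx', hyx⟩ := C.conn.2 _ hTS
      (hWne.mono (subset_union_left.trans subset_union_left)) hne
    rw [mem_sdiff, mem_union, not_or] at hx'
    have hx'L : x' ∈ S \ (W ∪ B) := mem_sdiff.2 ⟨hx'.1, hx'.2.1⟩
    have hx'W : ∀ w ∈ W, ¬ G.Adj x' w := by
      intro w hw h
      exact hx'.2.2 (mem_filter.2 ⟨hx'L, w, hw, h⟩)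
    have hx'R : x' ∈ S \ W :=
      mem_sdiff.2 ⟨hx'.1, fun h => hx'.2.1 (mem_union_left _ h)⟩
    have hy'A : y' ∈ A := by
      rcases mem_union.1 hy' with h | h
      · rcases mem_union.1 h with h | h
        · exact absurd hyx.symm (hx'W y' h)
        · exfalso
          have h1 : x' ∈ nb G S y' := mem_nb.2 ⟨hx'.1, hyx⟩
          rw [hnbB y' h] at h1
          exact (mem_sdiff.1 hx'R).2 h1
      · exact h
    have hy'L := hAsub hy'A
    obtain ⟨w1, hw1, hyw⟩ := (mem_filter.1 hy'A).2
    have hNsub : nb G S x' ⊆ S \ (W ∪ B) := by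
      intro q hq
      rw [mem_nb] at hq
      have hqW : q ∉ W := fun h => hx'W q h hq.2
      exact hnotB q (mem_sdiff.2 ⟨hq.1, hqW⟩) x' hx'R hq.2.symm
    have hN2 : 2 ≤ (nb G S x').card := by
      by_contra hlt
      push Not at hlt
      have hy'N : y' ∈ nb G S x' := mem_nb.2 ⟨(mem_sdiff.1 hy'L).1, hyx.symm⟩
      have hN1 : nb G S x' = {y'} := by
        symm
        apply eq_of_subset_of_card_le (singleton_subset_iff.2 hy'N)
        rw [card_singleton]
        omega
      have hy'S := (mem_sdiff.1 hy'L).1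
      have hcc := C.nocut y' hy'S
      have hx'E : x' ∈ S.erase y' := mem_erase.2 ⟨hyx.ne.symm, hx'.1⟩
      obtain ⟨p, hp, q, hq, hpq⟩ := hcc.2 {x'} (singleton_subset_iff.2 hx'E)
        (singleton_nonempty x') (by
          intro heq
          have h1 : (S.erase y').card = 1 := by rw [← heq, card_singleton]
          rw [card_erase_of_mem hy'S] at h1
          omega)
      rw [mem_singleton] at hp
      subst hp
      rw [mem_sdiff, mem_erase] at hq
      have h1 : q ∈ nb G S p := mem_nb.2 ⟨hq.1.2, hpq⟩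
      rw [hN1, mem_singleton] at h1
      exact hq.1.1 h1
    have h1 := mono_case2 C.conn hWne hWBS hadjBW hx'L (C.nocut x' hx'.1) hy'L hyx.symm hw1 hyw
      hNsub hN2
    rw [hBL'] at h1
    -- four ends of edges outside `W`
    have h2 : 4 ≤ e2 G (S \ W) := by
      have hN' : nb G (S \ W) x' = nb G S x' := by
        ext q
        rw [mem_nb, mem_nb, mem_sdiff]
        constructor
        · rintro ⟨⟨h1, _⟩, h2⟩
          exact ⟨h1, h2⟩
        · rintro ⟨h1, h2⟩
          exact ⟨⟨h1, fun h => hx'W q h h2⟩, h2⟩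
      have a1 : 2 ≤ dg G (S \ W) x' := by rw [dg, hN']; exact hN2
      have a2 : (nb G (S \ W) x').card ≤ ∑ z ∈ nb G (S \ W) x', dg G (S \ W) z := by
        rw [card_eq_sum_ones]
        apply sum_le_sum
        intro z hz
        rw [mem_nb] at hz
        exact card_pos.2 ⟨x', mem_nb.2 ⟨hx'R, hz.2.symm⟩⟩
      have a3 : x' ∉ nb G (S \ W) x' := fun h => G.loopless.irrefl _ (mem_nb.1 h).2
      have a4 : ∑ z ∈ insert x' (nb G (S \ W) x'), dg G (S \ W) z ≤ e2 G (S \ W) := by
        apply sum_le_sum_of_subset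
        intro z hz
        rcases mem_insert.1 hz with rfl | hz
        · exact hx'R
        · exact (mem_nb.1 hz).1
      rw [sum_insert a3] at a4
      rw [dg] at a1
      have a5 : dg G (S \ W) x' = (nb G (S \ W) x').card := rfl
      omega
    have h3 : b + (S \ (W ∪ B)).card + 2 ≤ a := by omega
    have h5 : 2 ^ (b + (S \ (W ∪ B)).card) * 4 ≤ 2 ^ a := by
      calc 2 ^ (b + (S \ (W ∪ B)).card) * 4 = 2 ^ (b + (S \ (W ∪ B)).card + 2) := by ring
        _ ≤ 2 ^ a := Nat.pow_le_pow_right (by norm_num) h3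
    unfold val
    omega

/-- triangle-free, no cut vertex, exact parameters -/
theorem Ctx.main (C : Ctx G S a b k) : P G S + 12 ≤ val a b k := by
  have hk := C.hk
  by_cases h1 : ∃ v ∈ S, a ≤ dg G S v
  · exact C.high h1
  push Not at h1
  by_cases h2 : ∃ v ∈ S, b ≤ dg G S v ∧ dg G S v + k + 1 ≤ a
  · obtain ⟨v, hv, hv1, hv2⟩ := h2
    exact C.del hv hv1 hv2
  push Not at h2
  have hmax : ∀ v ∈ S, dg G S v + 1 ≤ a := fun v hv => h1 v hv
  obtain ⟨u, hu, v, hv, huv, hu1, hv1⟩ := C.exists_edge hmax (fun v hv hvb => by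
    have := h2 v hv hvb
    omega)
  have hu2 := h2 u hu hu1
  have hv2 := h2 v hv hv1
  rcases Nat.eq_or_lt_of_le hk with h3 | h3
  · exact C.final h3 hmax hu hv huv hu1 hv1
  · exact C.edge hu hv huv (by omega) (by omega) (hmax u hu)

/-- the main theorem for connected graphs -/
theorem connected_main (N : ℕ) : IHyp V N := by
  induction N with
  | zero =>
    intro G S hS
    omega
  | succ N ih =>
    intro G S hS hc a b k hb hn hk he
    rcases Nat.lt_or_ge S.card N with hlt | hge
    · exact ih G S hlt hc a b k hb hn hk he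
    have hcard : S.card = N := by omega
    have ih' : IHyp V S.card := by
      rw [hcard]
      exact ih
    rcases Nat.eq_or_lt_of_le hb with hb1 | hb2
    · exact b_one hc hb1.symm hn
    by_cases hcut : ∃ z ∈ S, ¬ Conn G (S.erase z)
    · obtain ⟨z, hz, hcut⟩ := hcut
      exact cut_case ih' hc hz hcut hb2 hn hk he
    push Not at hcut
    by_cases htf : TF G S
    swap
    · exact tri_case ih' hcut hb2 hn hk he htf
    -- canonical parameters
    have hmant := htf.mantel
    obtain ⟨e, hee⟩ : ∃ e, e2 G S = 2 * e := ⟨_, (card_edges_induce G S).symm⟩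
    have he1 := hc.two_le_e2 (by omega)
    obtain ⟨a', b', k', hb', hn', hk', he'⟩ := canonical (n := S.card) (e := e) (by omega)
      (by omega)
    have hval : val a' b' k' ≤ val a b k := val_mono (by omega) hk hk' (by omega)
    refine le_trans ?_ hval
    rcases Nat.eq_or_lt_of_le hb' with hb1 | hb2'
    · exact b_one hc hb1.symm hn'
    · exact Ctx.main ⟨ih', hc, hcut, htf, hb2', hn', hk', by omega⟩

end Pool.Agent.H521_col
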