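import Pool.Agent.H521_col.Conv

/-!
Every labelling is, up to a constant factor, dominated by a partition with one union of parts.
-/

set_option linter.unusedSectionVars false

namespace Pool.Agent.H521_col.Opt

open Finset
open scoped Classical

variable {q : ℕ}

/-- the weight function -/
noncomputable def gg (ε : ℝ) (k : ℕ) : ℝ := Real.log k + ε * (k : ℝ) ^ 2

theorem gg_strictMono {ε : ℝ} (hε : 0 < ε) : StrictMono (gg ε) := by
  intro k l hkl
  unfold gg
  have h1 : Real.log k ≤ Real.log l := by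
    rcases Nat.eq_zero_or_pos k with rfl | hk
    · rw [Nat.cast_zero, Real.log_zero]
      apply Real.log_nonneg
      have : 1 ≤ l := by omega
      exact_mod_cast this
    · apply Real.log_le_log
      · exact_mod_cast hk
      · exact_mod_cast hkl.le
  have h2 : (k : ℝ) ^ 2 < (l : ℝ) ^ 2 := by
    have : k ^ 2 < l ^ 2 := Nat.pow_lt_pow_left hkl (by norm_num)
    exact_mod_cast this
  have h3 : ε * (k : ℝ) ^ 2 < ε * (l : ℝ) ^ 2 := mul_lt_mul_of_pos_left h2 hε
  linarith

theorem gg_uncross {ε : ℝ} (hε : 0 < ε) : ∀ c y s b : ℕ, 1 ≤ c → s * b ≤ c * y → s < b → b < y →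
    gg ε s + gg ε b < gg ε c + gg ε y := by
  intro c y s b hc hle hsb hby
  have hc0 : (0 : ℝ) < c := by exact_mod_cast hc
  have hy0 : (0 : ℝ) < y := by
    have : 0 < y := by omega
    exact_mod_cast this
  have hb0 : (0 : ℝ) < b := by
    have : 0 < b := by omega
    exact_mod_cast this
  have hlogc : 0 ≤ Real.log c := Real.log_nonneg (by exact_mod_cast hc)
  -- logarithms
  have h1 : Real.log s + Real.log b ≤ Real.log c + Real.log y := by
    rcases Nat.eq_zero_or_pos s with rfl | hs
    · rw [Nat.cast_zero, Real.log_zero]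
      have : Real.log b ≤ Real.log y := Real.log_le_log hb0 (by exact_mod_cast hby.le)
      linarith
    · have hs0 : (0 : ℝ) < s := by exact_mod_cast hs
      rw [← Real.log_mul hs0.ne' hb0.ne', ← Real.log_mul hc0.ne' hy0.ne']
      apply Real.log_le_log (by positivity)
      exact_mod_cast hle
  -- squares
  have h2 : (s : ℝ) ^ 2 + (b : ℝ) ^ 2 < (c : ℝ) ^ 2 + (y : ℝ) ^ 2 := by
    have hle' : (s : ℝ) * b ≤ c * y := by exact_mod_cast hle
    have hs' : (0 : ℝ) ≤ s := Nat.cast_nonneg s
    have hsy : (s : ℝ) < y := by exact_mod_cast (hsb.trans hby)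
    have hby' : (b : ℝ) < y := by exact_mod_cast hby
    have e1 : 0 < ((y : ℝ) ^ 2 - b ^ 2) * ((y : ℝ) ^ 2 - s ^ 2) := by
      apply mul_pos
      · nlinarith
      · nlinarith
    have e2 : ((s : ℝ) * b) ^ 2 ≤ (c * y) ^ 2 := pow_le_pow_left₀ (by positivity) hle' 2
    have e3 : (y : ℝ) ^ 2 * ((s : ℝ) ^ 2 + (b : ℝ) ^ 2) < (y : ℝ) ^ 2 * ((c : ℝ) ^ 2 + (y : ℝ) ^ 2) := by
      nlinarith [e1, e2]
    exact lt_of_mul_lt_mul_left e3 (by positivity)
  unfold gg
  have h3 := mul_lt_mul_of_pos_left h2 hε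
  linarith

theorem gg_cross {ε : ℝ} (hε : 0 < ε) (hq : 1 ≤ q) (hεq : ε ≤ 1 / (8 * (q : ℝ) ^ 4)) :
    ∀ s l u : ℕ, 1 ≤ s → 1 ≤ l → s + l < u → u ≤ q →
      gg ε s + gg ε u < gg ε (s + l) + gg ε (u - l) := by
  intro s l u hs hl hsl hu
  have hq0 : (1 : ℝ) ≤ q := by exact_mod_cast hq
  have hs0 : (0 : ℝ) < s := by exact_mod_cast hs
  have hu0 : (0 : ℝ) < u := by
    have : 0 < u := by omega
    exact_mod_cast this
  obtain ⟨r, rfl⟩ : ∃ r, u = s + l + r + 1 := ⟨u - s - l - 1, by omega⟩
  have e0 : s + l + r + 1 - l = s + r + 1 := by omega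
  rw [e0]
  set u : ℕ := s + l + r + 1 with hudef
  have hl0 : (1 : ℝ) ≤ l := by exact_mod_cast hl
  have hr0 : (0 : ℝ) ≤ r := Nat.cast_nonneg r
  have huR : (u : ℝ) = s + l + r + 1 := by
    rw [hudef]
    push_cast
    ring
  have huq : (u : ℝ) ≤ q := by exact_mod_cast hu
  have hsq : (s : ℝ) ≤ q := by
    have : s ≤ q := by omega
    exact_mod_cast this
  -- logarithms
  have h1 : Real.log s + Real.log u + 1 / (2 * (q : ℝ) ^ 2) ≤
      Real.log ((s + l : ℕ) : ℝ) + Real.log ((s + r + 1 : ℕ) : ℝ) := by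
    push_cast
    have p1 : (0 : ℝ) < (s : ℝ) + l := by linarith
    have p2 : (0 : ℝ) < (s : ℝ) + r + 1 := by linarith
    rw [← Real.log_mul hs0.ne' hu0.ne', ← Real.log_mul p1.ne' p2.ne']
    have hsu : (0 : ℝ) < s * u := by positivity
    have e1 : (s : ℝ) * u + 1 ≤ (s + l) * (s + r + 1) := by
      rw [huR]
      nlinarith
    have e2 : Real.log ((s : ℝ) * u + 1) ≤ Real.log (((s : ℝ) + l) * (s + r + 1)) :=
      Real.log_le_log (by positivity) e1
    have e3 : Real.log ((s : ℝ) * u / (s * u + 1)) ≤ (s : ℝ) * u / (s * u + 1) - 1 :=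
      Real.log_le_sub_one_of_pos (by positivity)
    rw [Real.log_div hsu.ne' (by positivity)] at e3
    have e4 : (s : ℝ) * u / (s * u + 1) - 1 = - (1 / (s * u + 1)) := by
      field_simp
      ring
    rw [e4] at e3
    have e5 : 1 / (2 * (q : ℝ) ^ 2) ≤ 1 / ((s : ℝ) * u + 1) := by
      apply one_div_le_one_div_of_le (by positivity)
      have : (s : ℝ) * u ≤ q * q := mul_le_mul hsq huq hu0.le (by linarith)
      nlinarith
    linarith
  have h2 : ε * ((s : ℝ) ^ 2 + (u : ℝ) ^ 2) ≤ 1 / (4 * (q : ℝ) ^ 2) := by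
    have e1 : (s : ℝ) ^ 2 + (u : ℝ) ^ 2 ≤ 2 * (q : ℝ) ^ 2 := by
      have g1 : (s : ℝ) ^ 2 ≤ (q : ℝ) ^ 2 := pow_le_pow_left₀ hs0.le hsq 2
      have g2 : (u : ℝ) ^ 2 ≤ (q : ℝ) ^ 2 := pow_le_pow_left₀ hu0.le huq 2
      linarith
    calc ε * ((s : ℝ) ^ 2 + (u : ℝ) ^ 2) ≤ 1 / (8 * (q : ℝ) ^ 4) * (2 * (q : ℝ) ^ 2) := by
          apply mul_le_mul hεq e1 (by positivity) (by positivity)
      _ = 1 / (4 * (q : ℝ) ^ 2) := by
          field_simp
          ring
  have h3 : 1 / (4 * (q : ℝ) ^ 2) < 1 / (2 * (q : ℝ) ^ 2) := by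
    apply one_div_lt_one_div_of_lt (by positivity)
    nlinarith
  unfold gg
  have h4 : 0 ≤ ε * ((s + l : ℕ) : ℝ) ^ 2 := by positivity
  have h5 : 0 ≤ ε * ((s + r + 1 : ℕ) : ℝ) ^ 2 := by positivity
  nlinarith [h1, h2, h3, h4, h5]

theorem part_card_le {P : Finset (Finset (Fin q))} (hne : ∀ A ∈ P, A.Nonempty)
    (hdis : ∀ A ∈ P, ∀ B ∈ P, A ≠ B → Disjoint A B) : P.card ≤ q := by
  have h1 : (P.biUnion id).card = ∑ A ∈ P, A.card := card_biUnion (fun A hA B hB h =>
    hdis A hA B hB h)
  have h2 : P.card ≤ ∑ A ∈ P, A.card := by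
    rw [card_eq_sum_ones]
    exact sum_le_sum (fun A hA => card_pos.2 (hne A hA))
  have h3 : (P.biUnion id).card ≤ q := by
    have := card_le_univ (P.biUnion id)
    simpa using this
  omega

theorem lab_to_struct {V : Type*} [Fintype V] [DecidableEq V] (hq : 1 ≤ q) {n m : ℕ}
    (hV : Fintype.card V = n) (L : V → Finset (Fin q)) (hL : ∀ v, (L v).Nonempty)
    (hm : 2 * m ≤ ((univ : Finset (V × V)).filter (fun p => Disjoint (L p.1) (L p.2))).card)
    {t : Fin q → ℕ} (ht : ∑ i, t i = n) (htm : m ≤ pe t) :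
    ∃ (s a : Fin q → ℕ) (J : Finset (Fin q)) (b : ℕ), (b = 0 ∨ J.card = 2) ∧
      ∑ i, s i = q ∧ ∑ i, a i + b = n ∧ m ≤ ed a J b ∧
      ∏ v, (L v).card ≤ (3 * q ^ (q + 1) * (q ^ 4) ^ ((q + 1) ^ 2)) * vl s a J b := by
  have hCpos : 1 ≤ 3 * q ^ (q + 1) * (q ^ 4) ^ ((q + 1) ^ 2) := by
    have : 0 < 3 * q ^ (q + 1) * (q ^ 4) ^ ((q + 1) ^ 2) := by positivity
    exact this
  rcases Nat.eq_zero_or_pos n with rfl | hn
  · -- no vertices
    have hVe : IsEmpty V := Fintype.card_eq_zero_iff.1 hV
    have hm0 : m = 0 := by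
      have h1 : ∀ i, t i = 0 := by
        intro i
        have := (sum_eq_zero_iff.1 ht) i (mem_univ i)
        exact this
      have h2 : pe t = 0 := by
        unfold pe
        apply sum_eq_zero
        intro i _
        apply sum_eq_zero
        intro l _
        rw [h1 i]
        simp
      omega
    refine ⟨fun _ => 1, fun _ => 0, ∅, 0, Or.inl rfl, by simp, by simp, by omega, ?_⟩
    unfold vl
    simpa using hCpos
  -- the weights
  have hq0 : (0 : ℝ) < q := by exact_mod_cast hq
  have hn0 : (0 : ℝ) < n := by exact_mod_cast hn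
  have hlogq : 0 ≤ Real.log q := Real.log_nonneg (by exact_mod_cast hq)
  set ε : ℝ := 1 / (8 * (q : ℝ) ^ 4 * n) with hε
  have hεpos : 0 < ε := by positivity
  have hq1 : (1 : ℝ) ≤ q := by exact_mod_cast hq
  have hn1 : (1 : ℝ) ≤ n := by exact_mod_cast hn
  have hεq : ε ≤ 1 / (8 * (q : ℝ) ^ 4) := by
    rw [hε]
    apply one_div_le_one_div_of_le (by positivity)
    have : 0 ≤ 8 * (q : ℝ) ^ 4 := by positivity
    nlinarith
  set w : Finset (Fin q) → ℝ := fun A => gg ε A.card with hw
  set x0 : Finset (Fin q) → ℝ := fun A => ∑ v, if L v = A then 1 else 0 with hx0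
  have hsum0 : ∀ F : Finset (Fin q) → ℝ, ∑ A, x0 A * F A = ∑ v, F (L v) := by
    intro F
    simp only [x0, sum_mul]
    rw [sum_comm]
    apply sum_congr rfl
    intro v _
    simp
  have hfeas : x0 ∈ Feas (q := q) (n : ℝ) (2 * m : ℕ) := by
    refine ⟨?_, ?_, ?_, ?_⟩
    · intro A
      apply sum_nonneg
      intro v _
      split_ifs <;> norm_num
    · apply sum_eq_zero
      intro v _
      rw [if_neg (hL v).ne_empty]
    · have := hsum0 (fun _ => 1)
      simp only [mul_one] at this
      rw [this]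
      simp [hV]
    · have h1 : Bf x0 x0 = (((univ : Finset (V × V)).filter
          (fun p => Disjoint (L p.1) (L p.2))).card : ℝ) := by
        rw [Bf_eq, hsum0 (fun A => dd x0 A)]
        have h2 : ∀ A, dd x0 A = ∑ v, if Disjoint A (L v) then 1 else 0 := by
          intro A
          have h3 := hsum0 (fun B => if Disjoint A B then 1 else 0)
          rw [← h3]
          unfold dd
          apply sum_congr rfl
          intro B _
          split_ifs <;> simp
        simp only [h2]
        rw [card_filter, ← univ_product_univ, sum_product]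
        push_cast
        rfl
      rw [h1]
      exact_mod_cast hm
  obtain ⟨x, hx⟩ := exists_isMin w ⟨x0, hfeas⟩
  have hval0 : ((∏ v, (L v).card : ℕ) : ℝ) ≤ Real.exp (Val w x0) := by
    have h1 : Val w x0 = ∑ v, gg ε (L v).card := hsum0 w
    have h2 : ∑ v, Real.log (L v).card ≤ Val w x0 := by
      rw [h1]
      apply sum_le_sum
      intro v _
      unfold gg
      have : 0 ≤ ε * ((L v).card : ℝ) ^ 2 := by positivity
      linarith
    calc ((∏ v, (L v).card : ℕ) : ℝ) = Real.exp (∑ v, Real.log (L v).card) := by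
          rw [Real.exp_sum, Nat.cast_prod]
          apply prod_congr rfl
          intro v _
          rw [Real.exp_log]
          exact_mod_cast card_pos.2 (hL v)
      _ ≤ _ := Real.exp_le_exp.2 h2
  have hval1 : Val w x0 ≤ Val w x := hx.1.2 x0 hfeas
  have hxnn := hx.1.1.1
  have hxsum := hx.1.1.2.2.1
  have hxB := hx.1.1.2.2.2
  have hval2 : Val w x ≤ ∑ A ∈ supp x, x A * Real.log A.card + 1 := by
    have h1 : Val w x = ∑ A, x A * Real.log A.card + ∑ A, x A * (ε * (A.card : ℝ) ^ 2) := by
      unfold Val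
      rw [← sum_add_distrib]
      apply sum_congr rfl
      intro A _
      simp only [w]
      unfold gg
      ring
    have h2 : ∑ A, x A * Real.log A.card = ∑ A ∈ supp x, x A * Real.log A.card := by
      rw [← sum_subset (subset_univ (supp x))]
      intro A _ hA
      rw [mem_supp, not_not] at hA
      rw [hA, zero_mul]
    have h3 : ∑ A, x A * (ε * (A.card : ℝ) ^ 2) ≤ ∑ A, x A * (ε * (q : ℝ) ^ 2) := by
      apply sum_le_sum
      intro A _
      apply mul_le_mul_of_nonneg_left _ (hxnn A)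
      apply mul_le_mul_of_nonneg_left _ hεpos.le
      apply pow_le_pow_left₀ (Nat.cast_nonneg _)
      have h4 := card_le_univ A
      rw [Fintype.card_fin] at h4
      exact_mod_cast h4
    rw [← sum_mul, hxsum] at h3
    have h4 : (n : ℝ) * (ε * (q : ℝ) ^ 2) ≤ 1 := by
      have g1 : (n : ℝ) * (ε * (q : ℝ) ^ 2) = 1 / (8 * (q : ℝ) ^ 2) := by
        rw [hε]
        field_simp
      rw [g1, div_le_one (by positivity)]
      nlinarith
    rw [h1, h2]
    linarith
  -- structure
  obtain ⟨P, hPne, hPdis, hPuniv, hcase⟩ := structure_thm2 (gg_strictMono hεpos) hx hn0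
    (gg_uncross hεpos) (gg_cross hεpos hq hεq)
  have hPcard := part_card_le hPne hPdis
  have hScard : (supp x).card ≤ q + 1 := by
    rcases hcase with h | ⟨B, hB, h, _, _, _, _⟩
    · rw [h]
      omega
    · rw [h]
      have := card_insert_le B P
      omega
  -- rounding
  have hxS : ∑ A ∈ supp x, x A = n := by
    rw [← hxsum]
    apply sum_subset (subset_univ (supp x))
    intro A _ hA
    rwa [mem_supp, not_not] at hA
  obtain ⟨z, hz1, hz0, hz2, hz3⟩ := rounding (supp x) x (dd x) (fun A _ => hxnn A) n hxS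
  set zr : Finset (Fin q) → ℝ := fun A => (z A : ℝ) with hzr
  have hBz : (2 * m : ℝ) - ((q : ℝ) + 1) ^ 2 ≤ Bf zr zr := by
    set y : Finset (Fin q) → ℝ := fun A => zr A - x A with hy
    have h1 : zr = x + (1 : ℝ) • y := by
      funext A
      simp [hy]
    have h2 := Bf_line x y 1
    rw [← h1] at h2
    have hyS : ∀ A, A ∉ supp x → y A = 0 := by
      intro A hA
      have h3 : x A = 0 := by rwa [mem_supp, not_not] at hA
      simp [hy, hzr, hz0 A hA, h3]
    have h3 : 0 ≤ ∑ A, y A * dd x A := by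
      have h4 : ∑ A, y A * dd x A = ∑ A ∈ supp x, y A * dd x A := by
        symm
        apply sum_subset (subset_univ (supp x))
        intro A _ hA
        rw [hyS A hA, zero_mul]
      rw [h4]
      have h5 : ∑ A ∈ supp x, y A * dd x A =
          ∑ A ∈ supp x, (z A : ℝ) * dd x A - ∑ A ∈ supp x, x A * dd x A := by
        rw [← sum_sub_distrib]
        apply sum_congr rfl
        intro A _
        simp only [y, zr]
        ring
      rw [h5]
      linarith
    have hyabs : ∀ A, |y A| ≤ if A ∈ supp x then 1 else 0 := by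
      intro A
      by_cases hA : A ∈ supp x
      · rw [if_pos hA]
        exact hz1 A hA
      · rw [if_neg hA, hyS A hA, abs_zero]
    have h4 : -((q : ℝ) + 1) ^ 2 ≤ Bf y y := by
      have h5 : |Bf y y| ≤ ((supp x).card : ℝ) ^ 2 := by
        unfold Bf
        calc |∑ A, ∑ B, if Disjoint A B then y A * y B else 0|
            ≤ ∑ A, ∑ B, |if Disjoint A B then y A * y B else 0| := by
              refine (abs_sum_le_sum_abs _ _).trans (sum_le_sum (fun A _ => ?_))
              exact abs_sum_le_sum_abs _ _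
          _ ≤ ∑ A, ∑ B, (if A ∈ supp x then (1 : ℝ) else 0) * (if B ∈ supp x then 1 else 0) := by
              apply sum_le_sum
              intro A _
              apply sum_le_sum
              intro B _
              have g1 := hyabs A
              have g2 := hyabs B
              have g3 : |y A * y B| ≤ (if A ∈ supp x then (1 : ℝ) else 0) *
                  (if B ∈ supp x then 1 else 0) := by
                rw [abs_mul]
                exact mul_le_mul g1 g2 (abs_nonneg _) ((abs_nonneg _).trans g1)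
              split_ifs at g3 ⊢ <;> first | exact g3 | norm_num
          _ = ((supp x).card : ℝ) ^ 2 := by
              rw [← sum_mul_sum]
              simp [sq]
      have h6 : ((supp x).card : ℝ) ^ 2 ≤ ((q : ℝ) + 1) ^ 2 := by
        apply pow_le_pow_left₀ (Nat.cast_nonneg _)
        exact_mod_cast hScard
      have h7 := neg_abs_le (Bf y y)
      linarith
    have h5 : ((2 * m : ℕ) : ℝ) ≤ Bf x x := hxB
    push_cast at h5
    rw [h2]
    nlinarith
  -- the union and its multiplicity
  obtain ⟨Q, hQP, hQne, b, hbQ, hzfun, hzsum, hzlog⟩ : ∃ Q ⊆ P, Q.Nonempty ∧ ∃ b : ℕ,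
      (b = 0 ∨ Q.card = 2) ∧
      zr = (fun A => if A ∈ P then (z A : ℝ) else 0) + (b : ℝ) • un (Q.biUnion id) ∧
      ∑ A ∈ P, z A + b = n ∧
      ∑ A ∈ supp x, (z A : ℝ) * Real.log A.card =
        ∑ A ∈ P, (z A : ℝ) * Real.log A.card + b * Real.log (Q.biUnion id).card := by
    rcases hcase with h | ⟨B, hB, h, Q, hQP, hQ2, hBQ⟩
    · have hPn : P.Nonempty := by
        by_contra hcon
        rw [not_nonempty_iff_eq_empty] at hcon
        rw [h, hcon, sum_empty] at hxS
        linarith
      refine ⟨P, Subset.refl P, hPn, 0, Or.inl rfl, ?_, ?_, ?_⟩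
      · funext A
        simp only [Nat.cast_zero, zero_smul, add_zero, zr]
        by_cases hA : A ∈ P
        · rw [if_pos hA]
        · rw [if_neg hA, hz0 A (h ▸ hA), Nat.cast_zero]
      · rw [← h]
        omega
      · rw [h]
        simp
    · have hBs : B ∈ supp x := by
        rw [h]
        exact mem_insert_self B P
      have hQn : Q.Nonempty := by
        by_contra hcon
        rw [not_nonempty_iff_eq_empty] at hcon
        rw [hcon, biUnion_empty] at hBQ
        exact (supp_nonempty hx hBs).ne_empty hBQ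
      refine ⟨Q, hQP, hQn, z B, Or.inr hQ2, ?_, ?_, ?_⟩
      · funext A
        rw [← hBQ]
        simp only [Pi.add_apply, Pi.smul_apply, smul_eq_mul, zr]
        by_cases hAB : A = B
        · subst hAB
          rw [if_neg hB, un_self]
          ring
        · rw [un_ne hAB]
          by_cases hA : A ∈ P
          · rw [if_pos hA]
            ring
          · rw [if_neg hA, hz0 A]
            · simp
            · rw [h, mem_insert, not_or]
              exact ⟨hAB, hA⟩
      · rw [← hz2, h, sum_insert hB]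
        ring
      · rw [h, sum_insert hB, ← hBQ]
        ring
  obtain ⟨s, a, J, hJQ, hs, ha, hed, hvl⟩ := conv hPne hPdis hPuniv z hQP b
  have hBf := Bf_part hPne hPdis hQP hQne (fun A => (z A : ℝ)) (b : ℝ)
  rw [← hzfun] at hBf
  have hed2 : Bf zr zr = 2 * (ed a J b : ℝ) := by
    rw [hBf]
    have h1 : ((2 * ed a J b + ∑ A ∈ P, z A ^ 2 : ℕ) : ℝ) =
        (((∑ A ∈ P, z A) ^ 2 + 2 * b * ∑ A ∈ P, (if A ∈ Q then 0 else z A) : ℕ) : ℝ) := by
      rw [hed]
    push_cast at h1
    linarith
  have hmK : m ≤ ed a J b + (q + 1) ^ 2 := by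
    rw [hed2] at hBz
    have h1 : (2 * m : ℝ) ≤ 2 * (ed a J b : ℝ) + ((q : ℝ) + 1) ^ 2 := by linarith
    have h2 : 2 * m ≤ 2 * ed a J b + (q + 1) ^ 2 := by exact_mod_cast h1
    omega
  -- the value
  have hBpos : 0 < (Q.biUnion id).card := by
    obtain ⟨A, hA⟩ := hQne
    obtain ⟨i, hi⟩ := hPne A (hQP hA)
    exact card_pos.2 ⟨i, mem_biUnion.2 ⟨A, hA, hi⟩⟩
  have hvlpos : 0 < vl s a J b := by
    rw [hvl]
    apply Nat.mul_pos
    · apply prod_pos
      intro A hA
      exact pow_pos (card_pos.2 (hPne A hA)) _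
    · exact pow_pos hBpos _
  have hlogvl : Real.log (vl s a J b) =
      ∑ A ∈ P, (z A : ℝ) * Real.log A.card + b * Real.log (Q.biUnion id).card := by
    rw [hvl]
    push_cast
    rw [Real.log_mul, Real.log_prod, Real.log_pow]
    · congr 1
      apply sum_congr rfl
      intro A _
      rw [Real.log_pow]
    · intro A hA
      have : (0 : ℝ) < A.card := by exact_mod_cast card_pos.2 (hPne A hA)
      positivity
    · apply ne_of_gt
      apply prod_pos
      intro A hA
      have : (0 : ℝ) < A.card := by exact_mod_cast card_pos.2 (hPne A hA)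
      positivity
    · have : (0 : ℝ) < (Q.biUnion id).card := by exact_mod_cast hBpos
      positivity
  have hval3 : ∑ A ∈ supp x, x A * Real.log A.card ≤
      Real.log (vl s a J b) + (q + 1) * Real.log q := by
    rw [hlogvl, ← hzlog]
    have h1 : ∀ A ∈ supp x, x A * Real.log A.card ≤ (z A : ℝ) * Real.log A.card + Real.log q := by
      intro A hA
      have h2 := abs_le.1 (hz1 A hA)
      have h3 : 0 ≤ Real.log A.card := Real.log_natCast_nonneg _
      have h4 : Real.log A.card ≤ Real.log q := by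
        apply Real.log_le_log
        · exact_mod_cast card_pos.2 (supp_nonempty hx hA)
        · have h5 := card_le_univ A
          rw [Fintype.card_fin] at h5
          exact_mod_cast h5
      have h5 : x A ≤ z A + 1 := by linarith [h2.1]
      calc x A * Real.log A.card ≤ ((z A : ℝ) + 1) * Real.log A.card :=
            mul_le_mul_of_nonneg_right h5 h3
        _ ≤ _ := by linarith
    refine (sum_le_sum h1).trans ?_
    rw [sum_add_distrib, sum_const, nsmul_eq_mul]
    have h2 : ((supp x).card : ℝ) * Real.log q ≤ ((q : ℝ) + 1) * Real.log q := by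
      apply mul_le_mul_of_nonneg_right _ hlogq
      exact_mod_cast hScard
    linarith
  have hfinal : ((∏ v, (L v).card : ℕ) : ℝ) ≤ ((3 * q ^ (q + 1) * vl s a J b : ℕ) : ℝ) := by
    have hvl0 : (0 : ℝ) < vl s a J b := by exact_mod_cast hvlpos
    calc ((∏ v, (L v).card : ℕ) : ℝ) ≤ Real.exp (Val w x0) := hval0
      _ ≤ Real.exp (Real.log (vl s a J b) + (q + 1) * Real.log q + 1) := by
          apply Real.exp_le_exp.2
          linarith
      _ = vl s a J b * (q : ℝ) ^ (q + 1) * Real.exp 1 := by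
          rw [Real.exp_add, Real.exp_add, Real.exp_log hvl0]
          congr 2
          have : ((q : ℝ) + 1) * Real.log q = ((q + 1 : ℕ) : ℝ) * Real.log q := by push_cast; ring
          rw [this, Real.exp_nat_mul, Real.exp_log hq0]
      _ ≤ vl s a J b * (q : ℝ) ^ (q + 1) * 3 := by
          apply mul_le_mul_of_nonneg_left _ (by positivity)
          have := Real.exp_one_lt_d9
          linarith
      _ = _ := by
          push_cast
          ring
  have hfinal' : ∏ v, (L v).card ≤ 3 * q ^ (q + 1) * vl s a J b := by exact_mod_cast hfinal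
  obtain ⟨s', a', J', b', k0, k1, k2, k3, k4⟩ := smooth_many hq ht htm ((q + 1) ^ 2) s a J b
    (by rw [hJQ]; exact hbQ) hs (by rw [ha]; exact hzsum) hvlpos hmK
  refine ⟨s', a', J', b', k0, k1, k2, k3, ?_⟩
  calc ∏ v, (L v).card ≤ 3 * q ^ (q + 1) * vl s a J b := hfinal'
    _ ≤ 3 * q ^ (q + 1) * ((q ^ 4) ^ ((q + 1) ^ 2) * vl s' a' J' b') := Nat.mul_le_mul_left _ k4
    _ = _ := by ring

end Pool.Agent.H521_col.Opt
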