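import Pool.Agent.H521_col.Conn

/-!
Identification of two vertices.
-/

set_option linter.unusedSectionVars false

namespace Pool.Agent.H521_col

open Finset
open scoped Classical

variable {V : Type*} [Fintype V] [DecidableEq V]

/-- the vertex `x` receives the neighbours of `y` -/
def merge (G : SimpleGraph V) (x y : V) : SimpleGraph V where
  Adj u w := u ≠ w ∧ (G.Adj u w ∨ (u = x ∧ G.Adj y w) ∨ (w = x ∧ G.Adj y u))
  symm := ⟨fun u w h => ⟨h.1.symm, by
    rcases h.2 with h | h | h
    · exact Or.inl h.symm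
    · exact Or.inr (Or.inr h)
    · exact Or.inr (Or.inl h)⟩⟩
  loopless := ⟨fun _ h => h.1 rfl⟩

theorem merge_adj {G : SimpleGraph V} {x y u w : V} :
    (merge G x y).Adj u w ↔
      u ≠ w ∧ (G.Adj u w ∨ (u = x ∧ G.Adj y w) ∨ (w = x ∧ G.Adj y u)) := Iff.rfl

theorem conn_merge {G : SimpleGraph V} {S : Finset V} (h : Conn G S) {x y : V} (hx : x ∈ S)
    (hy : y ∈ S) (hxy : x ≠ y) : Conn (merge G x y) (S.erase y) := by
  refine ⟨⟨x, mem_erase.2 ⟨hxy, hx⟩⟩, ?_⟩
  intro T hT hTne hTS
  have hyT : y ∉ T := fun hyT => notMem_erase y S (hT hyT)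
  have hTS' : T ⊆ S := hT.trans (erase_subset y S)
  by_cases hxT : x ∈ T
  · obtain ⟨u, hu, w, hw, huw⟩ := h.2 (insert y T) (insert_subset hy hTS') (insert_nonempty y T) (by
      intro heq
      apply hTS
      rw [← heq, erase_insert hyT])
    rw [mem_sdiff, mem_insert, not_or] at hw
    have hw' : w ∈ S.erase y \ T := by
      rw [mem_sdiff, mem_erase]
      exact ⟨⟨hw.2.1, hw.1⟩, hw.2.2⟩
    rcases mem_insert.1 hu with rfl | hu
    · refine ⟨x, hxT, w, hw', ?_, Or.inr (Or.inl ⟨rfl, huw⟩)⟩
      rintro rfl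
      exact hw.2.2 hxT
    · exact ⟨u, hu, w, hw', huw.ne, Or.inl huw⟩
  · obtain ⟨u, hu, w, hw, huw⟩ := h.2 T hTS' hTne (by
      rintro rfl
      exact hyT hy)
    rw [mem_sdiff] at hw
    by_cases hwy : w = y
    · subst hwy
      have hux : u ≠ x := by
        rintro rfl
        exact hxT hu
      exact ⟨u, hu, x, mem_sdiff.2 ⟨mem_erase.2 ⟨hxy, hx⟩, hxT⟩, hux,
        Or.inr (Or.inr ⟨rfl, huw.symm⟩)⟩
    · exact ⟨u, hu, w, mem_sdiff.2 ⟨mem_erase.2 ⟨hwy, hw.1⟩, hw.2⟩, huw.ne, Or.inl huw⟩

theorem e2_congr {G H : SimpleGraph V} {S : Finset V}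
    (h : ∀ u ∈ S, ∀ w ∈ S, G.Adj u w ↔ H.Adj u w) : e2 G S = e2 H S := by
  unfold e2 dg nb
  apply sum_congr rfl
  intro u hu
  congr 1
  apply filter_congr
  intro w hw
  exact h u hu w hw

theorem e2_merge {G : SimpleGraph V} {S : Finset V} {x y : V} (hx : x ∈ S)
    (hy : y ∈ S) (hxy : x ≠ y) (hadj : ¬ G.Adj x y) :
    e2 G S = e2 (merge G x y) (S.erase y) + 2 * (nb G S x ∩ nb G S y).card := by
  have hx' : x ∈ S.erase y := mem_erase.2 ⟨hxy, hx⟩
  rw [e2_erase (G := G) hy, e2_erase (G := G) hx', e2_erase (G := merge G x y) hx']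
  have h1 : e2 G ((S.erase y).erase x) = e2 (merge G x y) ((S.erase y).erase x) := by
    apply e2_congr
    intro u hu w hw
    rw [merge_adj]
    have hux := ne_of_mem_erase hu
    have hwx := ne_of_mem_erase hw
    constructor
    · intro h
      exact ⟨h.ne, Or.inl h⟩
    · rintro ⟨_, h | h | h⟩
      · exact h
      · exact absurd h.1 hux
      · exact absurd h.1 hwx
  have h2 : nb (merge G x y) (S.erase y) x = nb G S x ∪ nb G S y := by
    ext w
    rw [mem_union, mem_nb, mem_nb, mem_nb, merge_adj, mem_erase]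
    constructor
    · rintro ⟨⟨h1, h2⟩, h3, h | h | h⟩
      · exact Or.inl ⟨h2, h⟩
      · exact Or.inr ⟨h2, h.2⟩
      · exact absurd h.1.symm h3
    · rintro (⟨h1, h⟩ | ⟨h1, h⟩)
      · refine ⟨⟨?_, h1⟩, h.ne, Or.inl h⟩
        rintro rfl
        exact hadj h
      · refine ⟨⟨h.ne.symm, h1⟩, ?_, Or.inr (Or.inl ⟨rfl, h⟩)⟩
        rintro rfl
        exact hadj h.symm
  have h3 : dg G (S.erase y) x = dg G S x := by
    rw [dg_erase (G := G) (v := x) hy, if_neg hadj, add_zero]
  have h4 : dg (merge G x y) (S.erase y) x + (nb G S x ∩ nb G S y).card =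
      dg G S x + dg G S y := by
    rw [dg, h2, card_union_add_card_inter, dg, dg]
  rw [h1, h3]
  omega

/-- a colouring that agrees on the two merged vertices gives a colouring of the merged graph -/
theorem merge_col {G : SimpleGraph V} {S : Finset V} {x y : V} (hx : x ∈ S)
    (hy : y ∈ S) {c : V → Fin 3} (hc : ∀ u ∈ S, ∀ v ∈ S, G.Adj u v → c u ≠ c v)
    (heq : c x = c y) : res (S.erase y) c ∈ Col (Fin 3) (merge G x y) (S.erase y) := by
  rw [mem_Col]
  refine ⟨fun w hw => res_apply_of_notMem hw, ?_⟩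
  intro u hu v hv huv
  rw [res_apply_of_mem hu, res_apply_of_mem hv]
  have hu' := mem_of_mem_erase hu
  have hv' := mem_of_mem_erase hv
  rw [merge_adj] at huv
  rcases huv.2 with h | ⟨rfl, h⟩ | ⟨rfl, h⟩
  · exact hc u hu' v hv' h
  · rw [heq]
    exact hc y hy v hv' h
  · rw [heq]
    exact (hc y hy u hu' h).symm

theorem fin3_shift (a b d : Fin 3) : a + d = b + d ↔ a = b := by
  revert a b d
  decide

theorem fin3_eq (a b : Fin 3) : b + (a - b) = a := by
  revert a b
  decide

theorem fin3_eq' (a a' b b' : Fin 3) (h : a = a') (h' : a - b = a' - b') : b = b' := by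
  revert a a' b b'
  decide

/-- merging two vertices of different components -/
theorem disc_merge {G : SimpleGraph V} {S T : Finset V} (hT : T ⊆ S)
    (hno : ∀ u ∈ T, ∀ w ∈ S \ T, ¬ G.Adj u w) {x y : V} (hx : x ∈ T) (hy : y ∈ S \ T) :
    P G S ≤ 3 * P (merge G x y) (S.erase y) := by
  have hyS := (mem_sdiff.1 hy).1
  have hyT := (mem_sdiff.1 hy).2
  have h1 : P G S ≤ (Col (Fin 3) (merge G x y) (S.erase y) ×ˢ (univ : Finset (Fin 3))).card := by
    apply card_le_card_of_injOn
      (fun c => (res (S.erase y) (fun w => if w ∈ S \ T then c w + (c x - c y) else c w),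
        c x - c y))
    · intro c hc
      rw [mem_coe] at hc
      simp only [coe_product, Set.mem_prod, mem_coe, mem_univ, and_true]
      apply merge_col (hT hx) hyS
      · intro u hu v hv huv
        have h2 := (mem_Col.1 hc).2 u hu v hv huv
        by_cases huT : u ∈ T
        · have hvT : v ∈ T := by
            by_contra hvT
            exact hno u huT v (mem_sdiff.2 ⟨hv, hvT⟩) huv
          rw [if_neg (fun h => (mem_sdiff.1 h).2 huT), if_neg (fun h => (mem_sdiff.1 h).2 hvT)]
          exact h2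
        · have hvT : v ∉ T := fun hvT => hno v hvT u (mem_sdiff.2 ⟨hu, huT⟩) huv.symm
          rw [if_pos (mem_sdiff.2 ⟨hu, huT⟩), if_pos (mem_sdiff.2 ⟨hv, hvT⟩)]
          intro h
          exact h2 ((fin3_shift _ _ _).1 h)
      · rw [if_neg (fun h => (mem_sdiff.1 h).2 hx), if_pos hy, fin3_eq]
    · intro c hc c' hc' hcc
      rw [mem_coe] at hc hc'
      simp only [Prod.mk.injEq] at hcc
      obtain ⟨h3, h4⟩ := hcc
      rw [res_eq_iff] at h3
      have hxy : x ≠ y := by
        rintro rfl
        exact hyT hx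
      have hT' : ∀ w ∈ T, c w = c' w := by
        intro w hw
        have hwy : w ≠ y := by
          rintro rfl
          exact hyT hw
        have := h3 w (mem_erase.2 ⟨hwy, hT hw⟩)
        rwa [if_neg (fun h => (mem_sdiff.1 h).2 hw), if_neg (fun h => (mem_sdiff.1 h).2 hw)] at this
      rw [← res_eq_self hc, ← res_eq_self hc', res_eq_iff]
      intro w hw
      by_cases hwT : w ∈ T
      · exact hT' w hwT
      · by_cases hwy : w = y
        · subst hwy
          exact fin3_eq' _ _ _ _ (hT' x hx) h4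
        · have h5 := h3 w (mem_erase.2 ⟨hwy, hw⟩)
          rw [if_pos (mem_sdiff.2 ⟨hw, hwT⟩), if_pos (mem_sdiff.2 ⟨hw, hwT⟩), h4] at h5
          exact (fin3_shift _ _ _).1 h5
  rw [card_product, card_univ, Fintype.card_fin] at h1
  rw [mul_comm]
  exact h1

theorem fin3_refl_inj (a b z : Fin 3) : -(a + z) = -(b + z) ↔ a = b := by
  revert a b z
  decide

theorem fin3_refl_self (z : Fin 3) : -(z + z) = z := by
  revert z
  decide

theorem fin3_refl_swap (a b z : Fin 3) (h1 : a ≠ b) (h2 : a ≠ z) (h3 : b ≠ z) :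
    -(b + z) = a := by
  revert a b z
  decide

/-- merging two neighbours of a cut vertex -/
theorem cut_merge {G : SimpleGraph V} {S T : Finset V} {z : V} (hz : z ∈ S) (hT : T ⊆ S.erase z)
    (hno : ∀ u ∈ T, ∀ w ∈ S.erase z \ T, ¬ G.Adj u w) {x y : V} (hx : x ∈ T)
    (hy : y ∈ S.erase z \ T) (hxz : G.Adj x z) (hyz : G.Adj y z) :
    P G S ≤ 2 * P (merge G x y) (S.erase y) := by
  have hyS : y ∈ S := mem_of_mem_erase (mem_sdiff.1 hy).1
  have hyT := (mem_sdiff.1 hy).2
  have hxS : x ∈ S := mem_of_mem_erase (hT hx)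
  have hxy : x ≠ y := by
    rintro rfl
    exact hyT hx
  have hyz' : y ≠ z := hyz.ne
  set R := S.erase z \ T with hR
  have hzR : z ∉ R := fun h => notMem_erase z S (mem_sdiff.1 h).1
  have hdis : ∀ u ∈ T, u ∉ R := fun u hu h => (mem_sdiff.1 h).2 hu
  have h1 : P G S ≤ (Col (Fin 3) (merge G x y) (S.erase y) ×ˢ (univ : Finset Bool)).card := by
    apply card_le_card_of_injOn
      (fun c => (res (S.erase y) (fun w => if c x = c y then c w else
          (if w ∈ R then -(c w + c z) else c w)), decide (c x = c y)))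
    · intro c hc
      rw [mem_coe] at hc
      simp only [coe_product, Set.mem_prod, mem_coe, mem_univ, and_true]
      have hc2 := (mem_Col.1 hc).2
      by_cases hcase : c x = c y
      · apply merge_col hxS hyS
        · intro u hu v hv huv
          rw [if_pos hcase, if_pos hcase]
          exact hc2 u hu v hv huv
        · rw [if_pos hcase, if_pos hcase]
          exact hcase
      · apply merge_col hxS hyS
        · intro u hu v hv huv
          have h2 := hc2 u hu v hv huv
          rw [if_neg hcase, if_neg hcase]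
          by_cases huR : u ∈ R
          · rw [if_pos huR]
            by_cases hvR : v ∈ R
            · rw [if_pos hvR]
              intro h
              exact h2 ((fin3_refl_inj _ _ _).1 h)
            · rw [if_neg hvR]
              have hvz : v = z := by
                by_contra hvz
                have hvT : v ∈ T := by
                  by_contra hvT
                  exact hvR (mem_sdiff.2 ⟨mem_erase.2 ⟨hvz, hv⟩, hvT⟩)
                exact hno v hvT u huR huv.symm
              subst hvz
              intro h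
              apply h2
              have h3 := fin3_refl_self (c v)
              rw [← (fin3_refl_inj (c u) (c v) (c v)), h, h3]
          · rw [if_neg huR]
            by_cases hvR : v ∈ R
            · rw [if_pos hvR]
              have huz : u = z := by
                by_contra huz
                have huT : u ∈ T := by
                  by_contra huT
                  exact huR (mem_sdiff.2 ⟨mem_erase.2 ⟨huz, hu⟩, huT⟩)
                exact hno u huT v hvR huv
              subst huz
              intro h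
              apply h2
              have h3 := fin3_refl_self (c u)
              rw [← (fin3_refl_inj (c u) (c v) (c u)), ← h, h3]
            · rw [if_neg hvR]
              exact h2
        · rw [if_neg hcase, if_neg hcase, if_neg (hdis x hx), if_pos hy]
          exact (fin3_refl_swap _ _ _ hcase (hc2 x hxS z hz hxz) (hc2 y hyS z hz hyz)).symm
    · intro c hc c' hc' hcc
      rw [mem_coe] at hc hc'
      have hc2 := (mem_Col.1 hc).2
      have hc2' := (mem_Col.1 hc').2
      simp only [Prod.mk.injEq, decide_eq_decide] at hcc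
      obtain ⟨h3, h4⟩ := hcc
      rw [res_eq_iff] at h3
      have hxE : x ∈ S.erase y := mem_erase.2 ⟨hxy, hxS⟩
      have hzE : z ∈ S.erase y := mem_erase.2 ⟨hyz'.symm, hz⟩
      rw [← res_eq_self hc, ← res_eq_self hc', res_eq_iff]
      by_cases hcase : c x = c y
      · have hcase' := h4.1 hcase
        simp only [if_pos hcase, if_pos hcase'] at h3
        intro w hw
        by_cases hwy : w = y
        · subst hwy
          rw [← hcase, ← hcase', h3 x hxE]
        · exact h3 w (mem_erase.2 ⟨hwy, hw⟩)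
      · have hcase' : ¬ c' x = c' y := fun h => hcase (h4.2 h)
        simp only [if_neg hcase, if_neg hcase'] at h3
        have hcz : c z = c' z := by
          have := h3 z hzE
          rwa [if_neg hzR, if_neg hzR] at this
        have hcx : c x = c' x := by
          have := h3 x hxE
          rwa [if_neg (hdis x hx), if_neg (hdis x hx)] at this
        intro w hw
        by_cases hwy : w = y
        · subst hwy
          have h5 := fin3_refl_swap _ _ _ hcase (hc2 x hxS z hz hxz) (hc2 w hyS z hz hyz)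
          have h6 := fin3_refl_swap _ _ _ hcase' (hc2' x hxS z hz hxz) (hc2' w hyS z hz hyz)
          rw [← hcx, ← h5, ← hcz] at h6
          exact ((fin3_refl_inj _ _ _).1 h6).symm
        · have h5 := h3 w (mem_erase.2 ⟨hwy, hw⟩)
          by_cases hwR : w ∈ R
          · rw [if_pos hwR, if_pos hwR, hcz] at h5
            exact (fin3_refl_inj _ _ _).1 h5
          · rwa [if_neg hwR, if_neg hwR] at h5
  rw [card_product, card_univ, Fintype.card_bool] at h1
  rw [mul_comm]
  exact h1

/-- the cut vertex reduction -/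
theorem cut_reduce {G : SimpleGraph V} {S : Finset V} (h : Conn G S) {z : V} (hz : z ∈ S)
    (h2 : 2 ≤ S.card) (hcut : ¬ Conn G (S.erase z)) :
    ∃ (G' : SimpleGraph V) (S' : Finset V), Conn G' S' ∧ S'.card + 1 = S.card ∧
      e2 G S ≤ e2 G' S' + 2 ∧ P G S ≤ 2 * P G' S' := by
  have hne : (S.erase z).Nonempty := by
    rw [← card_pos, card_erase_of_mem hz]
    omega
  have h3 : ∃ T ⊆ S.erase z, T.Nonempty ∧ T ≠ S.erase z ∧
      ∀ u ∈ T, ∀ w ∈ S.erase z \ T, ¬ G.Adj u w := by
    by_contra hcon
    apply hcut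
    refine ⟨hne, ?_⟩
    intro T hT hTne hTS
    by_contra hcon2
    apply hcon
    refine ⟨T, hT, hTne, hTS, ?_⟩
    intro u hu w hw huw
    exact hcon2 ⟨u, hu, w, hw, huw⟩
  obtain ⟨T, hT, hTne, hTS, hno⟩ := h3
  have hzT : z ∉ T := fun h => notMem_erase z S (hT h)
  have hTS' : T ⊆ S := hT.trans (erase_subset z S)
  -- a neighbour of `z` in `T`
  obtain ⟨x, hx, w, hw, hxw⟩ := h.2 T hTS' hTne (by
    rintro rfl
    exact hzT hz)
  have hwz : w = z := by
    by_contra hwz
    rw [mem_sdiff] at hw
    exact hno x hx w (mem_sdiff.2 ⟨mem_erase.2 ⟨hwz, hw.1⟩, hw.2⟩) hxw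
  subst hwz
  -- a neighbour of `z` outside `T`
  have hRne : (S.erase w \ T).Nonempty := by
    rw [sdiff_nonempty]
    intro hsub
    exact hTS (Subset.antisymm hT hsub)
  obtain ⟨y, hy, v, hv, hyv⟩ := h.2 (S.erase w \ T) (sdiff_subset.trans (erase_subset w S)) hRne (by
    intro heq
    have := heq ▸ hz
    exact notMem_erase w S (mem_sdiff.1 this).1)
  have hvz : v = w := by
    by_contra hvz
    rw [mem_sdiff] at hv
    have hvT : v ∈ T := by
      by_contra hvT
      exact hv.2 (mem_sdiff.2 ⟨mem_erase.2 ⟨hvz, hv.1⟩, hvT⟩)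
    exact hno v hvT y hy hyv.symm
  subst hvz
  have hyS : y ∈ S := mem_of_mem_erase (mem_sdiff.1 hy).1
  have hyT := (mem_sdiff.1 hy).2
  have hxS : x ∈ S := hTS' hx
  have hxy : x ≠ y := by
    rintro rfl
    exact hyT hx
  have hxyadj : ¬ G.Adj x y := hno x hx y hy
  refine ⟨merge G x y, S.erase y, conn_merge h hxS hyS hxy, ?_, ?_, ?_⟩
  · rw [card_erase_of_mem hyS]
    omega
  · rw [e2_merge hxS hyS hxy hxyadj]
    have h4 : nb G S x ∩ nb G S y ⊆ {v} := by
      intro u hu
      rw [mem_inter, mem_nb, mem_nb] at hu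
      rw [mem_singleton]
      by_contra huv
      have huE : u ∈ S.erase v := mem_erase.2 ⟨huv, hu.1.1⟩
      by_cases huT : u ∈ T
      · exact hno u huT y hy hu.2.2.symm
      · exact hno x hx u (mem_sdiff.2 ⟨huE, huT⟩) hu.1.2
    have h5 := card_le_card h4
    rw [card_singleton] at h5
    omega
  · exact cut_merge hz hT hno hx hy hxw hyv

/-- the reduction for disconnected graphs -/
theorem disc_reduce {G : SimpleGraph V} {S : Finset V} (hS : S.Nonempty) (h : ¬ Conn G S) :
    ∃ (G' : SimpleGraph V) (S' : Finset V), S'.card + 1 = S.card ∧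
      e2 G S = e2 G' S' ∧ P G S ≤ 3 * P G' S' := by
  have h3 : ∃ T ⊆ S, T.Nonempty ∧ T ≠ S ∧ ∀ u ∈ T, ∀ w ∈ S \ T, ¬ G.Adj u w := by
    by_contra hcon
    apply h
    refine ⟨hS, ?_⟩
    intro T hT hTne hTS
    by_contra hcon2
    apply hcon
    refine ⟨T, hT, hTne, hTS, ?_⟩
    intro u hu w hw huw
    exact hcon2 ⟨u, hu, w, hw, huw⟩
  obtain ⟨T, hT, ⟨x, hx⟩, hTS, hno⟩ := h3
  have hRne : (S \ T).Nonempty := by
    rw [sdiff_nonempty]
    intro hsub
    exact hTS (Subset.antisymm hT hsub)
  obtain ⟨y, hy⟩ := hRne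
  have hyS : y ∈ S := (mem_sdiff.1 hy).1
  have hyT := (mem_sdiff.1 hy).2
  have hxy : x ≠ y := by
    rintro rfl
    exact hyT hx
  refine ⟨merge G x y, S.erase y, ?_, ?_, disc_merge hT hno hx hy⟩
  · rw [card_erase_of_mem hyS]
    have := card_pos.2 ⟨y, hyS⟩
    omega
  · rw [e2_merge (hT hx) hyS hxy (hno x hx y hy)]
    have h4 : nb G S x ∩ nb G S y = ∅ := by
      ext u
      rw [mem_inter, mem_nb, mem_nb]
      simp only [notMem_empty, iff_false]
      rintro ⟨h1, h2⟩
      by_cases huT : u ∈ T
      · exact hno u huT y hy h2.2.symm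
      · exact hno x hx u (mem_sdiff.2 ⟨h1.1, huT⟩) h1.2
    rw [h4, card_empty, mul_zero, add_zero]

end Pool.Agent.H521_col
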