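import Mathlib

/-!
The real optimisation problem on labels: existence of optimal solutions and the two moves.
-/

set_option linter.unusedSectionVars false

namespace Pool.Agent.H521_col.Opt

open Finset
open scoped Classical

variable {q : ℕ}

/-- the bilinear form of disjointness -/
noncomputable def Bf (x y : Finset (Fin q) → ℝ) : ℝ :=
  ∑ A, ∑ B, if Disjoint A B then x A * y B else 0

/-- total weight of the sets disjoint from `A` -/
noncomputable def dd (x : Finset (Fin q) → ℝ) (A : Finset (Fin q)) : ℝ :=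
  ∑ B, if Disjoint A B then x B else 0

/-- the unit vector at `A` -/
noncomputable def un (A : Finset (Fin q)) : Finset (Fin q) → ℝ := fun B => if B = A then 1 else 0

theorem Bf_eq (x y : Finset (Fin q) → ℝ) : Bf x y = ∑ A, x A * dd y A := by
  unfold Bf dd
  apply sum_congr rfl
  intro A _
  rw [mul_sum]
  apply sum_congr rfl
  intro B _
  split_ifs <;> simp

theorem Bf_symm (x y : Finset (Fin q) → ℝ) : Bf x y = Bf y x := by
  unfold Bf
  rw [sum_comm]
  apply sum_congr rfl
  intro A _
  apply sum_congr rfl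
  intro B _
  by_cases h : Disjoint A B
  · rw [if_pos h, if_pos h.symm, mul_comm]
  · rw [if_neg h, if_neg (fun h' => h h'.symm)]

theorem Bf_add_left (x y z : Finset (Fin q) → ℝ) : Bf (x + y) z = Bf x z + Bf y z := by
  rw [Bf_eq, Bf_eq, Bf_eq, ← sum_add_distrib]
  apply sum_congr rfl
  intro A _
  simp only [Pi.add_apply]
  ring

theorem Bf_smul_left (t : ℝ) (x z : Finset (Fin q) → ℝ) : Bf (t • x) z = t * Bf x z := by
  rw [Bf_eq, Bf_eq, mul_sum]
  apply sum_congr rfl
  intro A _
  simp only [Pi.smul_apply, smul_eq_mul]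
  ring

theorem Bf_add_right (x y z : Finset (Fin q) → ℝ) : Bf z (x + y) = Bf z x + Bf z y := by
  rw [Bf_symm, Bf_add_left, Bf_symm x, Bf_symm y]

theorem Bf_smul_right (t : ℝ) (x z : Finset (Fin q) → ℝ) : Bf z (t • x) = t * Bf z x := by
  rw [Bf_symm, Bf_smul_left, Bf_symm x]

theorem sum_un (A : Finset (Fin q)) (g : Finset (Fin q) → ℝ) : ∑ B, un A B * g B = g A := by
  unfold un
  simp

theorem sum_un_one (A : Finset (Fin q)) : ∑ B, un A B = 1 := by
  unfold un
  simp

theorem Bf_un (A B : Finset (Fin q)) : Bf (un A) (un B) = if Disjoint A B then 1 else 0 := by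
  rw [Bf_eq, sum_un, dd]
  unfold un
  by_cases h : Disjoint A B
  · rw [if_pos h, sum_eq_single B]
    · rw [if_pos h, if_pos rfl]
    · intro C _ hC
      simp [hC]
    · intro h'
      exact absurd (mem_univ B) h'
  · rw [if_neg h]
    apply sum_eq_zero
    intro C _
    by_cases hC : C = B
    · subst hC
      rw [if_neg h]
    · simp [hC]

/-- feasible real weights -/
def Feas (n M : ℝ) : Set (Finset (Fin q) → ℝ) :=
  {x | (∀ A, 0 ≤ x A) ∧ x ∅ = 0 ∧ ∑ A, x A = n ∧ M ≤ Bf x x}

/-- the value of real weights -/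
noncomputable def Val (w : Finset (Fin q) → ℝ) (x : Finset (Fin q) → ℝ) : ℝ := ∑ A, x A * w A

theorem continuous_Bf : Continuous (fun x : Finset (Fin q) → ℝ => Bf x x) := by
  unfold Bf
  apply continuous_finsetSum
  intro A _
  apply continuous_finsetSum
  intro B _
  split_ifs
  · exact (continuous_apply A).mul (continuous_apply B)
  · exact continuous_const

theorem isCompact_Feas (n M : ℝ) : IsCompact (Feas (q := q) n M) := by
  have h1 : IsCompact (Set.pi Set.univ (fun _ : Finset (Fin q) => Set.Icc (0 : ℝ) n)) :=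
    isCompact_univ_pi (fun _ => isCompact_Icc)
  apply h1.of_isClosed_subset
  · have e : Feas (q := q) n M = (⋂ A, {x | 0 ≤ x A}) ∩ ({x | x ∅ = 0} ∩
        ({x | ∑ A, x A = n} ∩ {x | M ≤ Bf x x})) := by
      ext x
      simp [Feas]
    rw [e]
    apply IsClosed.inter
    · apply isClosed_iInter
      intro A
      exact isClosed_le continuous_const (continuous_apply A)
    · apply IsClosed.inter
      · exact isClosed_eq (continuous_apply _) continuous_const
      · apply IsClosed.inter
        · exact isClosed_eq (continuous_finsetSum _ (fun A _ => continuous_apply A))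
            continuous_const
        · exact isClosed_le continuous_const continuous_Bf
  · intro x hx A _
    obtain ⟨h1, _, h3, _⟩ := hx
    refine ⟨h1 A, ?_⟩
    rw [← h3]
    exact single_le_sum (fun B _ => h1 B) (mem_univ A)

/-- optimal weights -/
def IsOpt (w : Finset (Fin q) → ℝ) (n M : ℝ) (x : Finset (Fin q) → ℝ) : Prop :=
  x ∈ Feas n M ∧ ∀ y ∈ Feas n M, Val w y ≤ Val w x

/-- the support -/
noncomputable def supp (x : Finset (Fin q) → ℝ) : Finset (Finset (Fin q)) :=
  univ.filter (fun A => x A ≠ 0)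

theorem mem_supp {x : Finset (Fin q) → ℝ} {A : Finset (Fin q)} : A ∈ supp x ↔ x A ≠ 0 := by
  simp [supp]

/-- optimal weights of minimal support -/
def IsMin (w : Finset (Fin q) → ℝ) (n M : ℝ) (x : Finset (Fin q) → ℝ) : Prop :=
  IsOpt w n M x ∧ ∀ y, IsOpt w n M y → (supp x).card ≤ (supp y).card

theorem exists_isMin (w : Finset (Fin q) → ℝ) {n M : ℝ} (h : (Feas (q := q) n M).Nonempty) :
    ∃ x, IsMin w n M x := by
  have hc : Continuous (Val w) := by
    unfold Val
    apply continuous_finsetSum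
    intro A _
    exact (continuous_apply A).mul continuous_const
  obtain ⟨x0, hx0, hmax⟩ := (isCompact_Feas n M).exists_isMaxOn h hc.continuousOn
  have hne : ∃ k, ∃ x, IsOpt w n M x ∧ (supp x).card = k :=
    ⟨_, x0, ⟨hx0, fun y hy => hmax hy⟩, rfl⟩
  obtain ⟨x, hx, hk⟩ := Nat.find_spec hne
  refine ⟨x, hx, fun y hy => ?_⟩
  rw [hk]
  exact Nat.find_min' hne ⟨y, hy, rfl⟩

theorem Bf_line (x y : Finset (Fin q) → ℝ) (t : ℝ) :
    Bf (x + t • y) (x + t • y) = Bf x x + 2 * t * (∑ A, y A * dd x A) + t ^ 2 * Bf y y := by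
  rw [Bf_add_left, Bf_add_right, Bf_add_right, Bf_smul_left, Bf_smul_left, Bf_smul_right,
    Bf_smul_right, Bf_symm x y, Bf_eq y x]
  ring

theorem Val_line (w x y : Finset (Fin q) → ℝ) (t : ℝ) :
    Val w (x + t • y) = Val w x + t * ∑ A, y A * w A := by
  unfold Val
  rw [mul_sum, ← sum_add_distrib]
  apply sum_congr rfl
  intro A _
  simp only [Pi.add_apply, Pi.smul_apply, smul_eq_mul]
  ring

theorem feas_line {n M : ℝ} {x y : Finset (Fin q) → ℝ} (hx : x ∈ Feas n M) {t : ℝ} (ht : 0 ≤ t)
    (h0 : y ∅ = 0) (h1 : ∑ A, y A = 0) (h2 : 0 ≤ ∑ A, y A * dd x A) (h3 : 0 ≤ Bf y y)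
    (h4 : ∀ A, 0 ≤ x A + t * y A) : x + t • y ∈ Feas n M := by
  obtain ⟨g1, g2, g3, g4⟩ := hx
  refine ⟨?_, ?_, ?_, ?_⟩
  · intro A
    exact h4 A
  · simp [g2, h0]
  · simp only [Pi.add_apply, Pi.smul_apply, smul_eq_mul]
    rw [sum_add_distrib, ← mul_sum, h1, g3]
    ring
  · rw [Bf_line]
    have e1 : 0 ≤ 2 * t * (∑ A, y A * dd x A) := by positivity
    have e2 : 0 ≤ t ^ 2 * Bf y y := by positivity
    linarith

/-- no improving direction -/
theorem no_improve {w : Finset (Fin q) → ℝ} {n M : ℝ} {x y : Finset (Fin q) → ℝ}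
    (hx : IsOpt w n M x) (h : ∀ A, x A = 0 → 0 ≤ y A)
    (h0 : y ∅ = 0) (h1 : ∑ A, y A = 0) (h2 : 0 ≤ ∑ A, y A * dd x A) (h3 : 0 ≤ Bf y y) :
    ∑ A, y A * w A ≤ 0 := by
  by_contra hcon
  push Not at hcon
  have hev : ∀ᶠ t in nhdsWithin (0 : ℝ) (Set.Ioi 0), ∀ A, 0 ≤ x A + t * y A := by
    rw [Filter.eventually_all]
    intro A
    rcases eq_or_lt_of_le (hx.1.1 A) with hA | hA
    · have h5 := h A hA.symm
      filter_upwards [self_mem_nhdsWithin] with t ht
      have ht' : 0 < t := ht
      rw [← hA]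
      positivity
    · have h5 : Filter.Tendsto (fun t : ℝ => x A + t * y A) (nhds 0) (nhds (x A + 0 * y A)) := by
        apply Continuous.tendsto
        fun_prop
      rw [zero_mul, add_zero] at h5
      have h6 : ∀ᶠ t in nhdsWithin (0 : ℝ) (Set.Ioi 0), 0 < x A + t * y A :=
        (h5.mono_left nhdsWithin_le_nhds).eventually (lt_mem_nhds hA)
      filter_upwards [h6] with t ht
      exact ht.le
  obtain ⟨t, ht1, ht2⟩ := (hev.and self_mem_nhdsWithin).exists
  have ht2' : 0 < t := ht2
  have h5 := hx.2 _ (feas_line hx.1 ht2'.le h0 h1 h2 h3 ht1)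
  rw [Val_line] at h5
  have h6 : 0 < t * ∑ A, y A * w A := mul_pos ht2' hcon
  linarith

/-- no direction that reduces the support -/
theorem no_reduce {w : Finset (Fin q) → ℝ} {n M : ℝ} {x y : Finset (Fin q) → ℝ}
    (hx : IsMin w n M x) (h : ∀ A, x A = 0 → y A = 0)
    (h1 : ∑ A, y A = 0) (h2 : 0 ≤ ∑ A, y A * dd x A) (h3 : 0 ≤ Bf y y)
    (h4 : 0 ≤ ∑ A, y A * w A) : y = 0 := by
  by_contra hy
  have hneg : ∃ A, y A < 0 := by
    by_contra hcon
    push Not at hcon
    have := (sum_eq_zero_iff_of_nonneg (fun A _ => hcon A)).1 h1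
    apply hy
    funext A
    exact this A (mem_univ A)
  obtain ⟨A0, hA0⟩ := hneg
  obtain ⟨A1, hA1, hmin⟩ := exists_min_image (univ.filter (fun A => y A < 0))
    (fun A => x A / (- y A)) ⟨A0, mem_filter.2 ⟨mem_univ _, hA0⟩⟩
  rw [mem_filter] at hA1
  have hxA1 : 0 < x A1 := by
    rcases eq_or_lt_of_le (hx.1.1.1 A1) with h5 | h5
    · have := h A1 h5.symm
      linarith [hA1.2]
    · exact h5
  set t := x A1 / (- y A1) with ht
  have htpos : 0 < t := div_pos hxA1 (by linarith [hA1.2])
  have hnn : ∀ A, 0 ≤ x A + t * y A := by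
    intro A
    rcases lt_or_ge (y A) 0 with h5 | h5
    · have h6 := hmin A (mem_filter.2 ⟨mem_univ _, h5⟩)
      have h7 : t * (- y A) ≤ x A := by
        rw [← le_div_iff₀ (by linarith)]
        exact h6
      linarith
    · have := hx.1.1.1 A
      positivity
  have h0 : y ∅ = 0 := h ∅ hx.1.1.2.1
  have hf := feas_line hx.1.1 htpos.le h0 h1 h2 h3 hnn
  have hopt : IsOpt w n M (x + t • y) := by
    refine ⟨hf, fun z hz => (hx.1.2 z hz).trans ?_⟩
    rw [Val_line]
    have : 0 ≤ t * ∑ A, y A * w A := by positivity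
    linarith
  have hle := hx.2 _ hopt
  have hlt : (supp (x + t • y)).card < (supp x).card := by
    apply card_lt_card
    rw [ssubset_iff_of_subset]
    · refine ⟨A1, mem_supp.2 hxA1.ne', ?_⟩
      rw [mem_supp, not_not]
      simp only [Pi.add_apply, Pi.smul_apply, smul_eq_mul]
      rw [ht]
      have : y A1 ≠ 0 := hA1.2.ne
      field_simp
      ring
    · intro A hA
      rw [mem_supp] at hA ⊢
      intro h5
      apply hA
      simp only [Pi.add_apply, Pi.smul_apply, smul_eq_mul]
      rw [h5, h A h5]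
      ring
  omega

/-- no direction that reduces the support, in either orientation -/
theorem no_reduce' {w : Finset (Fin q) → ℝ} {n M : ℝ} {x y : Finset (Fin q) → ℝ}
    (hx : IsMin w n M x) (h : ∀ A, x A = 0 → y A = 0)
    (h1 : ∑ A, y A = 0) (h2 : ∑ A, y A * dd x A = 0) (h3 : 0 ≤ Bf y y) : y = 0 := by
  rcases le_total 0 (∑ A, y A * w A) with h4 | h4
  · exact no_reduce hx h h1 h2.ge h3 h4
  · have h5 : (-1 : ℝ) • y = 0 := by
      apply no_reduce hx
      · intro A hA
        simp [h A hA]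
      · simp only [Pi.smul_apply, smul_eq_mul]
        rw [← mul_sum, h1, mul_zero]
      · simp only [Pi.smul_apply, smul_eq_mul]
        have : ∑ A, -1 * y A * dd x A = -1 * ∑ A, y A * dd x A := by
          rw [mul_sum]
          apply sum_congr rfl
          intro A _
          ring
        rw [this, h2, mul_zero]
      · rw [Bf_smul_left, Bf_smul_right]
        linarith
      · simp only [Pi.smul_apply, smul_eq_mul]
        have : ∑ A, -1 * y A * w A = -1 * ∑ A, y A * w A := by
          rw [mul_sum]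
          apply sum_congr rfl
          intro A _
          ring
        rw [this]
        linarith
    simpa using h5

end Pool.Agent.H521_col.Opt
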