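import Pool.Agent.H521_col.Opt1

/-!
The structure of optimal weights: the labels form a partition, up to one union of parts.
-/

set_option linter.unusedSectionVars false

namespace Pool.Agent.H521_col.Opt

open Finset
open scoped Classical

variable {q : ℕ}

/-- combination of four unit vectors -/
noncomputable def comb (a b c d : ℝ) (A B C D : Finset (Fin q)) : Finset (Fin q) → ℝ :=
  a • un A + b • un B + c • un C + d • un D

/-- disjointness indicator -/
noncomputable def dl (A B : Finset (Fin q)) : ℝ := if Disjoint A B then 1 else 0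

theorem sum_comb (a b c d : ℝ) (A B C D : Finset (Fin q)) (g : Finset (Fin q) → ℝ) :
    ∑ X, comb a b c d A B C D X * g X = a * g A + b * g B + c * g C + d * g D := by
  unfold comb
  simp only [Pi.add_apply, Pi.smul_apply, smul_eq_mul, add_mul, sum_add_distrib, mul_assoc,
    ← mul_sum, sum_un]

theorem sum_comb_one (a b c d : ℝ) (A B C D : Finset (Fin q)) :
    ∑ X, comb a b c d A B C D X = a + b + c + d := by
  have := sum_comb a b c d A B C D (fun _ => 1)
  simpa using this

theorem dl_comm (A B : Finset (Fin q)) : dl A B = dl B A := by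
  unfold dl
  by_cases h : Disjoint A B
  · rw [if_pos h, if_pos h.symm]
  · rw [if_neg h, if_neg (fun h' => h h'.symm)]

theorem dl_nonneg (A B : Finset (Fin q)) : 0 ≤ dl A B := by
  unfold dl
  split_ifs <;> norm_num

theorem dl_le_one (A B : Finset (Fin q)) : dl A B ≤ 1 := by
  unfold dl
  split_ifs <;> norm_num

theorem dl_pos {A B : Finset (Fin q)} (h : Disjoint A B) : dl A B = 1 := if_pos h

theorem dl_neg {A B : Finset (Fin q)} (h : ¬ Disjoint A B) : dl A B = 0 := if_neg h

theorem dl_self {A : Finset (Fin q)} (h : A.Nonempty) : dl A A = 0 := by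
  apply dl_neg
  rw [disjoint_self]
  exact h.ne_empty

theorem Bf_comb (a b c d : ℝ) {A B C D : Finset (Fin q)} (hA : A.Nonempty) (hB : B.Nonempty)
    (hC : C.Nonempty) (hD : D.Nonempty) :
    Bf (comb a b c d A B C D) (comb a b c d A B C D) =
      2 * (a * b * dl A B + a * c * dl A C + a * d * dl A D + b * c * dl B C + b * d * dl B D +
        c * d * dl C D) := by
  have hun : ∀ A B : Finset (Fin q), Bf (un A) (un B) = dl A B := fun A B => Bf_un A B
  unfold comb
  simp only [Bf_add_left, Bf_add_right, Bf_smul_left, Bf_smul_right, hun, dl_self hA, dl_self hB,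
    dl_self hC, dl_self hD, dl_comm B A, dl_comm C A, dl_comm D A, dl_comm C B, dl_comm D B,
    dl_comm D C]
  ring

theorem comb_apply (a b c d : ℝ) (A B C D X : Finset (Fin q)) :
    comb a b c d A B C D X = a * un A X + b * un B X + c * un C X + d * un D X := by
  unfold comb
  simp

theorem un_self (A : Finset (Fin q)) : un A A = 1 := if_pos rfl

theorem un_ne {A X : Finset (Fin q)} (h : X ≠ A) : un A X = 0 := if_neg h

theorem un_nonneg (A X : Finset (Fin q)) : 0 ≤ un A X := by
  unfold un
  split_ifs <;> norm_num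

theorem supp_nonempty {w : Finset (Fin q) → ℝ} {n M : ℝ} {x : Finset (Fin q) → ℝ}
    (hx : IsMin w n M x) {A : Finset (Fin q)} (hA : A ∈ supp x) : A.Nonempty := by
  rw [nonempty_iff_ne_empty]
  rintro rfl
  exact (mem_supp.1 hA) hx.1.1.2.1

section struct

variable {g : ℕ → ℝ} (hg : StrictMono g) {n M : ℝ} {x : Finset (Fin q) → ℝ}
  (hx : IsMin (fun A : Finset (Fin q) => g A.card) n M x)

include hg hx

/-- among two intersecting labels the larger one has the smaller degree -/
theorem pair_lt {A B : Finset (Fin q)} (hA : A ∈ supp x) (hB : B ∈ supp x) (hAB : A ≠ B)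
    (hint : ¬ Disjoint A B) (hcard : A.card ≤ B.card) : dd x B < dd x A := by
  by_contra hcon
  push Not at hcon
  have h1 := no_reduce hx (y := comb 1 (-1) 0 0 B A A A) ?_ ?_ ?_ ?_ ?_
  · have h2 := congrFun h1 B
    rw [comb_apply, un_self, un_ne hAB.symm] at h2
    norm_num at h2
  · intro X hX
    have hXA : X ≠ A := by
      rintro rfl
      exact (mem_supp.1 hA) hX
    have hXB : X ≠ B := by
      rintro rfl
      exact (mem_supp.1 hB) hX
    rw [comb_apply, un_ne hXA, un_ne hXB]
    ring
  · rw [sum_comb_one]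
    ring
  · rw [sum_comb]
    linarith
  · have a1 := supp_nonempty hx hA
    have a2 := supp_nonempty hx hB
    rw [Bf_comb _ _ _ _ a2 a1 a1 a1, dl_comm B A, dl_neg hint]
    ring_nf
    exact le_refl _
  · rw [sum_comb]
    have := hg.monotone hcard
    linarith

theorem card_ne {A B : Finset (Fin q)} (hA : A ∈ supp x) (hB : B ∈ supp x) (hAB : A ≠ B)
    (hint : ¬ Disjoint A B) : A.card ≠ B.card := by
  intro h
  have h1 := pair_lt hg hx hA hB hAB hint h.le
  have h2 := pair_lt hg hx hB hA hAB.symm (fun h' => hint h'.symm) h.ge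
  linarith

/-- no three pairwise intersecting labels -/
theorem no_triangle {A B C : Finset (Fin q)} (hA : A ∈ supp x) (hB : B ∈ supp x)
    (hC : C ∈ supp x) (hAB : A ≠ B) (hAC : A ≠ C) (hBC : B ≠ C)
    (h1 : ¬ Disjoint A B) (h2 : ¬ Disjoint A C) (h3 : ¬ Disjoint B C) : False := by
  have a1 := supp_nonempty hx hA
  have a2 := supp_nonempty hx hB
  have a3 := supp_nonempty hx hC
  have h4 := no_reduce' hx (y := comb (dd x B - dd x C) (dd x C - dd x A) (dd x A - dd x B) 0
    A B C C) ?_ ?_ ?_ ?_
  · have h5 := congrFun h4 A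
    rw [comb_apply, un_self, un_ne hAB, un_ne hAC] at h5
    have h6 : dd x B = dd x C := by
      simp at h5
      linarith
    rcases le_total B.card C.card with h7 | h7
    · have := pair_lt hg hx hB hC hBC h3 h7
      linarith
    · have := pair_lt hg hx hC hB hBC.symm (fun h' => h3 h'.symm) h7
      linarith
  · intro X hX
    have hXA : X ≠ A := by
      rintro rfl
      exact (mem_supp.1 hA) hX
    have hXB : X ≠ B := by
      rintro rfl
      exact (mem_supp.1 hB) hX
    have hXC : X ≠ C := by
      rintro rfl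
      exact (mem_supp.1 hC) hX
    rw [comb_apply, un_ne hXA, un_ne hXB, un_ne hXC]
    ring
  · rw [sum_comb_one]
    ring
  · rw [sum_comb]
    ring
  · rw [Bf_comb _ _ _ _ a1 a2 a3 a3, dl_neg h1, dl_neg h2, dl_neg h3]
    ring_nf
    exact le_refl _

/-- no path with a middle degree in the middle -/
theorem no_path {A B C : Finset (Fin q)} (hA : A ∈ supp x) (hB : B ∈ supp x)
    (hC : C ∈ supp x) (hAB : A ≠ B) (hBC : B ≠ C)
    (h1 : ¬ Disjoint A B) (h2 : ¬ Disjoint A C) (h3 : Disjoint B C)
    (h4 : dd x B < dd x A) (h5 : dd x A < dd x C) : False := by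
  have a1 := supp_nonempty hx hA
  have a2 := supp_nonempty hx hB
  have a3 := supp_nonempty hx hC
  have h6 := no_reduce' hx (y := comb ((dd x C - dd x A) + (dd x A - dd x B))
    (-(dd x C - dd x A)) (-(dd x A - dd x B)) 0 A B C C) ?_ ?_ ?_ ?_
  · have h7 := congrFun h6 B
    rw [comb_apply, un_self, un_ne hAB.symm, un_ne hBC] at h7
    simp at h7
    linarith
  · intro X hX
    have hXA : X ≠ A := by
      rintro rfl
      exact (mem_supp.1 hA) hX
    have hXB : X ≠ B := by
      rintro rfl
      exact (mem_supp.1 hB) hX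
    have hXC : X ≠ C := by
      rintro rfl
      exact (mem_supp.1 hC) hX
    rw [comb_apply, un_ne hXA, un_ne hXB, un_ne hXC]
    ring
  · rw [sum_comb_one]
    ring
  · rw [sum_comb]
    ring
  · rw [Bf_comb _ _ _ _ a1 a2 a3 a3, dl_neg h1, dl_neg h2, dl_pos h3]
    have e1 : 0 < dd x C - dd x A := by linarith
    have e2 : 0 < dd x A - dd x B := by linarith
    have e3 : 0 < (dd x C - dd x A) * (dd x A - dd x B) := mul_pos e1 e2
    nlinarith [e3]

/-- two intersecting pairs are linked -/
theorem linked {A B C D : Finset (Fin q)} (hA : A ∈ supp x) (hB : B ∈ supp x)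
    (hC : C ∈ supp x) (hD : D ∈ supp x) (h1 : ¬ Disjoint A B) (h2 : ¬ Disjoint C D)
    (h3 : dd x B < dd x A) (h4 : dd x D < dd x C) (h5 : Disjoint A D) (h6 : Disjoint B C) :
    False := by
  have a1 := supp_nonempty hx hA
  have a2 := supp_nonempty hx hB
  have a3 := supp_nonempty hx hC
  have a4 := supp_nonempty hx hD
  have hAB : A ≠ B := by
    rintro rfl
    exact lt_irrefl _ h3
  have hAD : A ≠ D := by
    rintro rfl
    rw [disjoint_self] at h5
    exact a1.ne_empty h5
  have hAC : A ≠ C := by
    rintro rfl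
    exact h1 h6.symm
  have h7 := no_reduce' hx (y := comb (dd x C - dd x D) (-(dd x C - dd x D))
    (-(dd x A - dd x B)) (dd x A - dd x B) A B C D) ?_ ?_ ?_ ?_
  · have h8 := congrFun h7 A
    rw [comb_apply, un_self, un_ne hAB, un_ne hAC, un_ne hAD] at h8
    simp at h8
    linarith
  · intro X hX
    have hXA : X ≠ A := by
      rintro rfl
      exact (mem_supp.1 hA) hX
    have hXB : X ≠ B := by
      rintro rfl
      exact (mem_supp.1 hB) hX
    have hXC : X ≠ C := by
      rintro rfl
      exact (mem_supp.1 hC) hX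
    have hXD : X ≠ D := by
      rintro rfl
      exact (mem_supp.1 hD) hX
    rw [comb_apply, un_ne hXA, un_ne hXB, un_ne hXC, un_ne hXD]
    ring
  · rw [sum_comb_one]
    ring
  · rw [sum_comb]
    ring
  · rw [Bf_comb _ _ _ _ a1 a2 a3 a4, dl_neg h1, dl_neg h2, dl_pos h5, dl_pos h6]
    have e1 : 0 < dd x C - dd x D := by linarith
    have e2 : 0 < dd x A - dd x B := by linarith
    have e3 : 0 < (dd x C - dd x D) * (dd x A - dd x B) := mul_pos e1 e2
    have e4 := dl_le_one A C
    have e5 := dl_le_one B D
    have e6 : (dd x C - dd x D) * (dd x A - dd x B) * (2 - dl A C - dl B D) ≥ 0 := by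
      apply mul_nonneg e3.le
      linarith
    nlinarith [e6]

/-- every colour outside a label lies in a label disjoint from it -/
theorem enlarge {A : Finset (Fin q)} (hA : A ∈ supp x) {i : Fin q} (hi : i ∉ A) :
    ∃ Z ∈ supp x, i ∈ Z ∧ Disjoint A Z := by
  by_contra hcon
  push Not at hcon
  have a1 := supp_nonempty hx hA
  have a2 : (insert i A).Nonempty := ⟨i, mem_insert_self i A⟩
  have hdd : dd x A ≤ dd x (insert i A) := by
    unfold dd
    apply sum_le_sum
    intro B _
    by_cases h1 : Disjoint A B
    · rw [if_pos h1]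
      by_cases hB : B ∈ supp x
      · have h2 : i ∉ B := fun h => hcon B hB h h1
        rw [if_pos]
        rw [disjoint_insert_left]
        exact ⟨h2, h1⟩
      · rw [mem_supp, not_not] at hB
        rw [hB]
        split_ifs <;> exact le_refl _
    · rw [if_neg h1]
      split_ifs
      · exact hx.1.1.1 B
      · exact le_refl _
  have hne : A ≠ insert i A := by
    intro h
    exact hi (h ▸ mem_insert_self i A)
  have h1 := no_improve hx.1 (y := comb 1 (-1) 0 0 (insert i A) A A A) ?_ ?_ ?_ ?_ ?_
  · rw [sum_comb] at h1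
    have h2 : A.card < (insert i A).card := by
      rw [card_insert_of_notMem hi]
      omega
    have h3 := hg h2
    linarith
  · intro X hX
    have hXA : X ≠ A := by
      rintro rfl
      exact (mem_supp.1 hA) hX
    rw [comb_apply, un_ne hXA]
    have := un_nonneg (insert i A) X
    linarith
  · rw [comb_apply, un_ne a1.ne_empty.symm, un_ne a2.ne_empty.symm]
    ring
  · rw [sum_comb_one]
    ring
  · rw [sum_comb]
    linarith
  · rw [Bf_comb _ _ _ _ a2 a1 a1 a1]
    have h3 : ¬ Disjoint (insert i A) A := by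
      rw [disjoint_insert_left]
      rintro ⟨_, h⟩
      rw [disjoint_self] at h
      exact a1.ne_empty h
    rw [dl_neg h3]
    ring_nf
    exact le_refl _

end struct

end Pool.Agent.H521_col.Opt
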