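import Pool.Agent.H521_col.Opt2

/-!
The structure theorem for optimal weights of minimal support.
-/

set_option linter.unusedSectionVars false

namespace Pool.Agent.H521_col.Opt

open Finset
open scoped Classical

variable {q : ℕ}

/-- the labels in the support meeting `B` -/
noncomputable def nbrs (x : Finset (Fin q) → ℝ) (B : Finset (Fin q)) : Finset (Finset (Fin q)) :=
  (supp x).filter (fun A => A ≠ B ∧ ¬ Disjoint A B)

theorem mem_nbrs {x : Finset (Fin q) → ℝ} {A B : Finset (Fin q)} :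
    A ∈ nbrs x B ↔ A ∈ supp x ∧ A ≠ B ∧ ¬ Disjoint A B := by
  simp [nbrs]

/-- labels that meet a smaller label -/
def Big (x : Finset (Fin q) → ℝ) (B : Finset (Fin q)) : Prop :=
  B ∈ supp x ∧ ∃ A ∈ supp x, A ≠ B ∧ ¬ Disjoint A B ∧ A.card < B.card

section struct

variable {g : ℕ → ℝ} (hg : StrictMono g) {n M : ℝ} {x : Finset (Fin q) → ℝ}
  (hx : IsMin (fun A : Finset (Fin q) => g A.card) n M x)

include hg hx

theorem big_nbr {B C : Finset (Fin q)} (hB : Big x B) (hC : C ∈ supp x) (hCB : C ≠ B)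
    (hint : ¬ Disjoint C B) : C.card < B.card := by
  obtain ⟨hBs, A, hA, hAB, hABint, hcard⟩ := hB
  by_contra hcon
  push Not at hcon
  have hCA : C ≠ A := by
    rintro rfl
    omega
  have h1 : Disjoint C A := by
    by_contra h
    exact no_triangle hg hx hC hA hBs hCA hCB hAB h hint hABint
  have h2 := pair_lt hg hx hA hBs hAB hABint hcard.le
  have h3 := pair_lt hg hx hBs hC hCB.symm (fun h => hint h.symm) hcon
  exact no_path hg hx hBs hC hA hCB.symm hCA (fun h => hint h.symm) (fun h => hABint h.symm) h1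
    h3 h2

theorem big_big {B C : Finset (Fin q)} (hB : Big x B) (hC : Big x C) (h : B ≠ C) :
    Disjoint B C := by
  by_contra hint
  have h1 := big_nbr hg hx hB hC.1 h.symm (fun h' => hint h'.symm)
  have h2 := big_nbr hg hx hC hB.1 h hint
  omega

theorem small_nbr {A C : Finset (Fin q)} (hA : A ∈ supp x) (hAb : ¬ Big x A) (hC : C ∈ supp x)
    (hCA : C ≠ A) (hint : ¬ Disjoint A C) : Big x C := by
  have h1 := card_ne hg hx hA hC hCA.symm hint
  have h2 : ¬ C.card < A.card := by
    intro h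
    exact hAb ⟨hA, C, hC, hCA, fun h' => hint h'.symm, h⟩
  exact ⟨hC, A, hA, hCA.symm, hint, by omega⟩

theorem small_disjoint {A C : Finset (Fin q)} (hA : A ∈ supp x) (hAb : ¬ Big x A)
    (hC : C ∈ supp x) (hCb : ¬ Big x C) (hAC : A ≠ C) : Disjoint A C := by
  by_contra h
  exact hCb (small_nbr hg hx hA hAb hC hAC.symm h)

/-- the neighbourhoods of the big labels form a chain -/
theorem chain {B : Finset (Fin q)} (hB : Big x B)
    (hmin : ∀ C, Big x C → (nbrs x B).card ≤ (nbrs x C).card) {S : Finset (Fin q)}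
    (hS : S ∈ nbrs x B) {C : Finset (Fin q)} (hC : Big x C) : ¬ Disjoint S C := by
  have hS' := mem_nbrs.1 hS
  by_cases hCB : C = B
  · subst hCB
    exact hS'.2.2
  intro hdis
  have hex : ∃ S' ∈ nbrs x C, S' ∉ nbrs x B := by
    by_contra hcon
    push Not at hcon
    have h1 : nbrs x C ⊆ (nbrs x B).erase S := by
      intro Z hZ
      rw [mem_erase]
      refine ⟨?_, hcon Z hZ⟩
      rintro rfl
      exact (mem_nbrs.1 hZ).2.2 hdis
    have h2 := card_le_card h1
    rw [card_erase_of_mem hS] at h2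
    have h3 := hmin C hC
    have h4 : 0 < (nbrs x B).card := card_pos.2 ⟨S, hS⟩
    omega
  obtain ⟨S', hS'C, hS'B⟩ := hex
  have h1 := mem_nbrs.1 hS'C
  have hBC := big_big hg hx hB hC (fun h => hCB h.symm)
  have hne : S' ≠ B := by
    rintro rfl
    exact h1.2.2 hBC
  have h2 : Disjoint S' B := by
    by_contra h
    exact hS'B (mem_nbrs.2 ⟨h1.1, hne, h⟩)
  have c1 := big_nbr hg hx hB hS'.1 hS'.2.1 hS'.2.2
  have c2 := big_nbr hg hx hC h1.1 h1.2.1 h1.2.2
  exact linked hg hx hS'.1 hB.1 h1.1 hC.1 hS'.2.2 h1.2.2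
    (pair_lt hg hx hS'.1 hB.1 hS'.2.1 hS'.2.2 c1.le)
    (pair_lt hg hx h1.1 hC.1 h1.2.1 h1.2.2 c2.le) hdis h2.symm

/-- a big label is covered by the labels meeting it -/
theorem big_subset {B : Finset (Fin q)} (hB : Big x B) : B ⊆ (nbrs x B).biUnion id := by
  intro i hi
  by_contra hcon
  obtain ⟨S, hS, hSB, hint, _⟩ := hB.2
  have hSn : S ∈ nbrs x B := mem_nbrs.2 ⟨hS, hSB, hint⟩
  have hiS : i ∉ S := by
    intro h
    exact hcon (mem_biUnion.2 ⟨S, hSn, h⟩)
  obtain ⟨Z, hZ, hiZ, hdis⟩ := enlarge hg hx hS hiS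
  have hZB : Z ≠ B := by
    rintro rfl
    exact hint hdis
  have hZint : ¬ Disjoint Z B := by
    rw [not_disjoint_iff]
    exact ⟨i, hiZ, hi⟩
  exact hcon (mem_biUnion.2 ⟨Z, mem_nbrs.2 ⟨hZ, hZB, hZint⟩, hiZ⟩)

/-- there is at most one big label -/
theorem big_unique (hun : ∀ c y s b : ℕ, 1 ≤ c → s * b ≤ c * y → s < b → b < y →
      g s + g b < g c + g y)
    {B : Finset (Fin q)} (hB : Big x B)
    (hmin : ∀ C, Big x C → (nbrs x B).card ≤ (nbrs x C).card)
    {B' : Finset (Fin q)} (hB' : Big x B') : B' = B := by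
  by_contra hne
  set Q := nbrs x B with hQ
  set Y := Q.biUnion id with hY
  have hBY : B ⊆ Y := big_subset hg hx hB
  have hQd : ∀ S ∈ Q, ∀ S' ∈ Q, S ≠ S' → Disjoint S S' := by
    intro S hS S' hS' h
    by_contra hint
    have h1 := mem_nbrs.1 hS
    have h2 := mem_nbrs.1 hS'
    exact no_triangle hg hx h1.1 h2.1 hB.1 h h1.2.1 h2.2.1 hint h1.2.2 h2.2.2
  have hcardY : Y.card = ∑ S ∈ Q, S.card := by
    rw [hY, card_biUnion]
    · rfl
    · intro S hS S' hS' h
      exact hQd S hS S' hS' h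
  have hcardB : B.card = ∑ S ∈ Q, (S ∩ B).card := by
    have h1 : B = Q.biUnion (fun S => S ∩ B) := by
      ext i
      rw [mem_biUnion]
      constructor
      · intro hi
        have h2 := hBY hi
        rw [hY, mem_biUnion] at h2
        obtain ⟨S, hS, hiS⟩ := h2
        exact ⟨S, hS, mem_inter.2 ⟨hiS, hi⟩⟩
      · rintro ⟨S, _, hi⟩
        exact (mem_inter.1 hi).2
    conv_lhs => rw [h1]
    rw [card_biUnion]
    intro S hS S' hS' h
    exact (hQd S hS S' hS' h).mono inter_subset_left inter_subset_left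
  have hQne : Q.Nonempty := by
    obtain ⟨S, hS, hSB, hint, _⟩ := hB.2
    exact ⟨S, mem_nbrs.2 ⟨hS, hSB, hint⟩⟩
  obtain ⟨S, hS, hle⟩ : ∃ S ∈ Q, S.card * B.card ≤ (S ∩ B).card * Y.card := by
    apply exists_le_of_sum_le hQne
    rw [← sum_mul, ← sum_mul, ← hcardY, ← hcardB, mul_comm]
  have hSm := mem_nbrs.1 hS
  have hchain : ∀ S ∈ Q, ∀ C, Big x C → ¬ Disjoint S C := fun S hS C hC =>
    chain hg hx hB hmin hS hC
  have hBB' : Disjoint B B' := big_big hg hx hB hB' (fun h => hne h.symm)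
  have hSB' := hchain S hS B' hB'
  obtain ⟨i, hiS, hiB'⟩ := not_disjoint_iff.1 hSB'
  have hiB : i ∉ B := fun h => (disjoint_left.1 hBB' h) hiB'
  have hiY : i ∈ Y := mem_biUnion.2 ⟨S, hS, hiS⟩
  have hcBY : B.card < Y.card := card_lt_card (ssubset_iff_of_subset hBY |>.2 ⟨i, hiY, hiB⟩)
  have hcSB : S.card < B.card := big_nbr hg hx hB hSm.1 hSm.2.1 hSm.2.2
  obtain ⟨j, hjS, hjB⟩ := not_disjoint_iff.1 hSm.2.2
  have hjC : j ∈ S ∩ B := mem_inter.2 ⟨hjS, hjB⟩
  have nC : (S ∩ B).Nonempty := ⟨j, hjC⟩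
  have nY : Y.Nonempty := ⟨i, hiY⟩
  have nS : S.Nonempty := ⟨j, hjS⟩
  have nB : B.Nonempty := ⟨j, hjB⟩
  have hjY : j ∈ Y := hBY hjB
  have hgain := hun (S ∩ B).card Y.card S.card B.card (card_pos.2 nC) hle hcSB hcBY
  have h1 := no_improve hx.1 (y := comb 1 1 (-1) (-1) (S ∩ B) Y S B) ?_ ?_ ?_ ?_ ?_
  · rw [sum_comb] at h1
    linarith
  · intro X hX
    have hXS : X ≠ S := by
      rintro rfl
      exact (mem_supp.1 hSm.1) hX
    have hXB : X ≠ B := by
      rintro rfl
      exact (mem_supp.1 hB.1) hX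
    rw [comb_apply, un_ne hXS, un_ne hXB]
    have e1 := un_nonneg (S ∩ B) X
    have e2 := un_nonneg Y X
    linarith
  · rw [comb_apply, un_ne nC.ne_empty.symm, un_ne nY.ne_empty.symm, un_ne nS.ne_empty.symm,
      un_ne nB.ne_empty.symm]
    ring
  · rw [sum_comb_one]
    ring
  · rw [sum_comb]
    have hkey : dd x S + dd x B ≤ dd x (S ∩ B) + dd x Y := by
      unfold dd
      rw [← sum_add_distrib, ← sum_add_distrib]
      apply sum_le_sum
      intro Z _
      have hZ0 := hx.1.1.1 Z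
      by_cases hZ : Z ∈ supp x
      · by_cases hSZ : Disjoint S Z
        · have hCZ : Disjoint (S ∩ B) Z := hSZ.mono_left inter_subset_left
          rw [if_pos hSZ, if_pos hCZ]
          by_cases hBZ : Disjoint B Z
          · have hYZ : Disjoint Y Z := by
              by_contra hcon
              obtain ⟨k, hkY, hkZ⟩ := not_disjoint_iff.1 hcon
              rw [hY, mem_biUnion] at hkY
              obtain ⟨S1, hS1, hkS1⟩ := hkY
              have hS1m := mem_nbrs.1 hS1
              have hS1Z : S1 ≠ Z := by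
                rintro rfl
                exact hS1m.2.2 hBZ.symm
              have hint : ¬ Disjoint S1 Z := not_disjoint_iff.2 ⟨k, hkS1, hkZ⟩
              have hS1b : ¬ Big x S1 := by
                intro hb
                exact hS1m.2.2 (big_big hg hx hb hB hS1m.2.1)
              have hZb := small_nbr hg hx hS1m.1 hS1b hZ hS1Z.symm hint
              exact hchain S hS Z hZb hSZ
            rw [if_pos hBZ, if_pos hYZ]
          · rw [if_neg hBZ]
            split_ifs <;> linarith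
        · rw [if_neg hSZ]
          by_cases hBZ : Disjoint B Z
          · have hCZ : Disjoint (S ∩ B) Z := hBZ.mono_left inter_subset_right
            rw [if_pos hBZ, if_pos hCZ]
            split_ifs <;> linarith
          · rw [if_neg hBZ]
            split_ifs <;> linarith
      · rw [mem_supp, not_not] at hZ
        rw [hZ]
        simp
    linarith
  · rw [Bf_comb _ _ _ _ nC nY nS nB]
    have d1 : ¬ Disjoint (S ∩ B) Y := not_disjoint_iff.2 ⟨j, hjC, hjY⟩
    have d2 : ¬ Disjoint (S ∩ B) S := not_disjoint_iff.2 ⟨j, hjC, hjS⟩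
    have d3 : ¬ Disjoint (S ∩ B) B := not_disjoint_iff.2 ⟨j, hjC, hjB⟩
    have d4 : ¬ Disjoint Y S := not_disjoint_iff.2 ⟨j, hjY, hjS⟩
    have d5 : ¬ Disjoint Y B := not_disjoint_iff.2 ⟨j, hjY, hjB⟩
    have d6 : ¬ Disjoint S B := not_disjoint_iff.2 ⟨j, hjS, hjB⟩
    rw [dl_neg d1, dl_neg d2, dl_neg d3, dl_neg d4, dl_neg d5, dl_neg d6]
    ring_nf
    exact le_refl _

/-- the labels of an optimal solution of minimal support form a partition of the colours, up to
one label that is a union of parts -/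
theorem structure_thm (hn : 0 < n) (hun : ∀ c y s b : ℕ, 1 ≤ c → s * b ≤ c * y → s < b → b < y →
      g s + g b < g c + g y) :
    ∃ P : Finset (Finset (Fin q)), (∀ A ∈ P, A.Nonempty) ∧
      (∀ A ∈ P, ∀ B ∈ P, A ≠ B → Disjoint A B) ∧ P.biUnion id = univ ∧
      (supp x = P ∨ ∃ B, B ∉ P ∧ supp x = insert B P ∧ ∃ Q ⊆ P, B = Q.biUnion id) := by
  have hsne : (supp x).Nonempty := by
    by_contra h
    rw [not_nonempty_iff_eq_empty] at h
    have h1 : ∑ A, x A = 0 := by
      apply sum_eq_zero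
      intro A _
      by_contra h2
      have h3 : A ∈ supp x := mem_supp.2 h2
      rw [h] at h3
      exact absurd h3 (notMem_empty A)
    rw [hx.1.1.2.2.1] at h1
    linarith
  have hcover : (supp x).biUnion id = univ := by
    rw [eq_univ_iff_forall]
    intro i
    by_contra hcon
    obtain ⟨A, hA⟩ := hsne
    have hiA : i ∉ A := fun h => hcon (mem_biUnion.2 ⟨A, hA, h⟩)
    obtain ⟨Z, hZ, hiZ, _⟩ := enlarge hg hx hA hiA
    exact hcon (mem_biUnion.2 ⟨Z, hZ, hiZ⟩)
  by_cases hbig : ∃ B, Big x B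
  · -- choose the big label with the fewest neighbours
    have hne : ((supp x).filter (fun B => Big x B)).Nonempty := by
      obtain ⟨B, hB⟩ := hbig
      exact ⟨B, mem_filter.2 ⟨hB.1, hB⟩⟩
    obtain ⟨B, hBm, hmin⟩ := exists_min_image _ (fun B => (nbrs x B).card) hne
    have hB : Big x B := (mem_filter.1 hBm).2
    have hmin' : ∀ C, Big x C → (nbrs x B).card ≤ (nbrs x C).card := fun C hC =>
      hmin C (mem_filter.2 ⟨hC.1, hC⟩)
    have huniq : ∀ C, Big x C → C = B := fun C hC => big_unique hg hx hun hB hmin' hC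
    have hsub : nbrs x B ⊆ (supp x).erase B := by
      intro A hA
      rw [mem_nbrs] at hA
      rw [mem_erase]
      exact ⟨hA.2.1, hA.1⟩
    have hBu : B = (nbrs x B).biUnion id := by
      apply Subset.antisymm (big_subset hg hx hB)
      intro i hi
      rw [mem_biUnion] at hi
      obtain ⟨S, hS, hiS⟩ := hi
      have hSm := mem_nbrs.1 hS
      by_contra hiB
      obtain ⟨Z, hZ, hiZ, hdis⟩ := enlarge hg hx hB.1 hiB
      have hZS : Z ≠ S := by
        rintro rfl
        exact hSm.2.2 hdis.symm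
      have hSb : ¬ Big x S := fun h => hSm.2.1 (huniq S h)
      have hint : ¬ Disjoint S Z := not_disjoint_iff.2 ⟨i, hiS, hiZ⟩
      have hZb := small_nbr hg hx hSm.1 hSb hZ hZS hint
      have := huniq Z hZb
      subst this
      rw [disjoint_self] at hdis
      exact (supp_nonempty hx hZ).ne_empty hdis
    refine ⟨(supp x).erase B, ?_, ?_, ?_, Or.inr ⟨B, notMem_erase B _, ?_, nbrs x B, hsub, hBu⟩⟩
    · intro A hA
      exact supp_nonempty hx (mem_of_mem_erase hA)
    · intro A hA C hC hAC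
      rw [mem_erase] at hA hC
      exact small_disjoint hg hx hA.2 (fun h => hA.1 (huniq A h)) hC.2
        (fun h => hC.1 (huniq C h)) hAC
    · rw [eq_univ_iff_forall]
      intro i
      have h1 : i ∈ (supp x).biUnion id := by rw [hcover]; exact mem_univ i
      rw [mem_biUnion] at h1
      obtain ⟨A, hA, hiA⟩ := h1
      by_cases hAB : A = B
      · subst hAB
        have h2 : i ∈ (nbrs x A).biUnion id := hBu ▸ hiA
        rw [mem_biUnion] at h2
        obtain ⟨S, hS, hiS⟩ := h2
        exact mem_biUnion.2 ⟨S, hsub hS, hiS⟩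
      · exact mem_biUnion.2 ⟨A, mem_erase.2 ⟨hAB, hA⟩, hiA⟩
    · rw [insert_erase hB.1]
  · push Not at hbig
    refine ⟨supp x, fun A hA => supp_nonempty hx hA, ?_, hcover, Or.inl rfl⟩
    intro A hA C hC hAC
    exact small_disjoint hg hx hA (hbig A) hC (hbig C) hAC

end struct

end Pool.Agent.H521_col.Opt
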