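import Pool.Agent.H521_col.Tur

/-!
The upper bound in the dense range.
-/

set_option linter.unusedSectionVars false

namespace Pool.Agent.H521_col

open Finset
open scoped Classical Nat

section join

variable {V : Type*} [Fintype V] [DecidableEq V]

/-- the join of the subgraph of `G` induced on `S` with `t` independent vertices -/
def joinG (G : SimpleGraph V) (S : Finset V) (t : ℕ) : SimpleGraph (S ⊕ Fin t) where
  Adj x y := match x, y with
    | Sum.inl a, Sum.inl b => G.Adj a b
    | Sum.inl _, Sum.inr _ => True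
    | Sum.inr _, Sum.inl _ => True
    | Sum.inr _, Sum.inr _ => False
  symm := ⟨by
    rintro (a | a) (b | b) h
    · exact (show G.Adj _ _ from h).symm
    · trivial
    · trivial
    · exact h⟩
  loopless := ⟨by
    rintro (a | a) h
    · exact G.loopless.irrefl _ h
    · exact h⟩

theorem joinG_cliqueFree {G : SimpleGraph V} {S : Finset V} {q : ℕ} (t : ℕ)
    (h : ∀ K ⊆ S, (∀ u ∈ K, ∀ v ∈ K, u ≠ v → G.Adj u v) → K.card ≠ q) :
    (joinG G S t).CliqueFree (q + 1) := by
  intro s hs
  obtain ⟨hc, hcard⟩ := hs
  have h1 : s.toRight.card ≤ 1 := by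
    rw [card_le_one]
    intro a ha b hb
    by_contra hab
    rw [mem_toRight] at ha hb
    have := hc ha hb (fun h => hab (Sum.inr.inj h))
    exact this
  have h2 := card_toLeft_add_card_toRight (u := s)
  have h3 : q ≤ (s.toLeft.map (Function.Embedding.subtype _)).card := by
    rw [card_map]
    omega
  obtain ⟨K, hK, hKc⟩ := exists_subset_card_eq h3
  refine h K ?_ ?_ hKc
  · intro x hx
    have := hK hx
    rw [mem_map] at this
    obtain ⟨y, _, rfl⟩ := this
    exact y.2
  · intro u hu v hv huv
    have h4 := hK hu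
    have h5 := hK hv
    rw [mem_map] at h4 h5
    obtain ⟨y, hy, rfl⟩ := h4
    obtain ⟨z, hz, rfl⟩ := h5
    rw [mem_toLeft] at hy hz
    have h6 : y ≠ z := by
      rintro rfl
      exact huv rfl
    exact hc hy hz (fun h => h6 (Sum.inl.inj h))

theorem joinG_edges (G : SimpleGraph V) (S : Finset V) (t : ℕ) :
    2 * (joinG G S t).edgeFinset.card = e2 G S + 2 * (S.card * t) := by
  rw [← SimpleGraph.sum_degrees_eq_twice_card_edges, Fintype.sum_sum_type]
  have h1 : ∀ a : S, (joinG G S t).degree (Sum.inl a) = dg G S a + t := by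
    intro a
    rw [SimpleGraph.degree, SimpleGraph.neighborFinset_eq_filter, card_filter,
      Fintype.sum_sum_type]
    congr 1
    · rw [dg_eq_sum, ← sum_coe_sort S]
      apply sum_congr rfl
      intro b _
      rfl
    · have : ∀ x : Fin t, (joinG G S t).Adj (Sum.inl a) (Sum.inr x) := fun x => trivial
      simp [this]
  have h2 : ∀ a : Fin t, (joinG G S t).degree (Sum.inr a) = S.card := by
    intro a
    rw [SimpleGraph.degree, SimpleGraph.neighborFinset_eq_filter, card_filter,
      Fintype.sum_sum_type]
    have h3 : ∀ x : S, (joinG G S t).Adj (Sum.inr a) (Sum.inl x) := fun x => trivial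
    have h4 : ∀ x : Fin t, ¬ (joinG G S t).Adj (Sum.inr a) (Sum.inr x) := fun x h => h
    simp [h3, h4]
  rw [sum_congr rfl (fun a _ => h1 a), sum_congr rfl (fun a _ => h2 a), sum_add_distrib,
    sum_coe_sort S (fun a => dg G S a), e2]
  simp
  ring

/-- Turán's theorem for the join -/
theorem turan_join {G : SimpleGraph V} {S : Finset V} {q : ℕ} (t : ℕ)
    (h : ∀ K ⊆ S, (∀ u ∈ K, ∀ v ∈ K, u ≠ v → G.Adj u v) → K.card ≠ q) :
    e2 G S + 2 * (S.card * t) ≤ 2 * tur (S.card + t) q := by
  rw [← joinG_edges, tur_eq]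
  apply Nat.mul_le_mul_left
  have h1 := (joinG_cliqueFree t h).card_edgeFinset_le
  have h2 := SimpleGraph.card_edgeFinset_turanGraph (n := S.card + t) (r := q)
  have h3 : Fintype.card (S ⊕ Fin t) = S.card + t := by simp
  simp only [h3] at h1
  rw [← h2] at h1
  convert h1

end join

section clique

variable {V : Type*} [Fintype V] [DecidableEq V]
variable {α : Type*} [Fintype α] [DecidableEq α] [Zero α]

theorem pow_ineq {q j : ℕ} (hj : j ≤ q) : (q - j) * 2 ^ j ≤ 2 ^ (q - 1) := by
  rcases Nat.eq_or_lt_of_le hj with rfl | h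
  · simp
  · obtain ⟨d, rfl⟩ : ∃ d, q = j + d + 1 := ⟨q - j - 1, by omega⟩
    have h1 : j + d + 1 - j = d + 1 := by omega
    have h2 : j + d + 1 - 1 = d + j := by omega
    rw [h1, h2, pow_add]
    exact Nat.mul_le_mul_right _ (Nat.succ_le_of_lt Nat.lt_two_pow_self)

/-- adding a vertex when `S` contains a full clique -/
theorem col_insert_le {G : SimpleGraph V} {S : Finset V} {w : V} (k : ℕ)
    (h : ∀ c ∈ Col α G S, (univ.filter (fun a : α => ∀ v ∈ S, G.Adj w v → c v ≠ a)).card ≤ k) :
    (Col α G (insert w S)).card ≤ k * (Col α G S).card := by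
  have h1 : ((Col α G (insert w S)).image (res (insert w S))).card = (Col α G (insert w S)).card := by
    apply card_image_of_injOn
    intro c hc c' hc' h
    rw [res_eq_self hc, res_eq_self hc'] at h
    exact h
  rw [← h1]
  refine le_trans (step k ?_) (Nat.mul_le_mul_left k (card_le_card ?_))
  · intro c hc
    refine le_trans (card_le_card ?_) (h (res S c) (res_mem_Col (subset_insert w S) hc))
    intro a ha
    rw [mem_image] at ha
    obtain ⟨c', hc', rfl⟩ := ha
    rw [mem_filter] at hc' ⊢
    refine ⟨mem_univ _, fun v hv hwv => ?_⟩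
    rw [← hc'.2, res_apply_of_mem hv]
    exact ((mem_Col.1 hc'.1).2 w (mem_insert_self w S) v (mem_insert_of_mem hv) hwv).symm
  · intro c hc
    rw [mem_image] at hc
    obtain ⟨c', hc', rfl⟩ := hc
    exact res_mem_Col (subset_insert w S) hc'

theorem clique_inj {G : SimpleGraph V} {K S : Finset V} (hKS : K ⊆ S)
    (hK : ∀ u ∈ K, ∀ v ∈ K, u ≠ v → G.Adj u v) {c : V → α} (hc : c ∈ Col α G S) :
    Set.InjOn c K := by
  intro u hu v hv huv
  by_contra hne
  exact (mem_Col.1 hc).2 u (hKS hu) v (hKS hv) (hK u hu v hv hne) huv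

theorem col_clique {G : SimpleGraph V} {K : Finset V}
    (hK : ∀ u ∈ K, ∀ v ∈ K, u ≠ v → G.Adj u v) (hcard : K.card = Fintype.card α) :
    (Col α G K).card ≤ (Fintype.card α)! := by
  have h1 : Fintype.card (K ↪ α) = (Fintype.card α)! := by
    rw [Fintype.card_embedding_eq, Fintype.card_coe, hcard, Nat.descFactorial_self]
  rw [← h1, ← Fintype.card_coe]
  apply Fintype.card_le_of_injective
    (fun c => (⟨fun x => c.1 x.1, fun x y hxy => Subtype.ext
      (clique_inj (Subset.refl K) hK c.2 x.2 y.2 hxy)⟩ : K ↪ α))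
  intro c c' hcc
  apply Subtype.ext
  rw [← res_eq_self c.2, ← res_eq_self c'.2, res_eq_iff]
  intro w hw
  have := congrArg (fun f : K ↪ α => f ⟨w, hw⟩) hcc
  exact this

theorem clique_bound {G : SimpleGraph V} {K : Finset V}
    (hK : ∀ u ∈ K, ∀ v ∈ K, u ≠ v → G.Adj u v) (hcard : K.card = Fintype.card α)
    (R : Finset V) (hR : Disjoint K R) :
    (Col α G (K ∪ R)).card * 2 ^ (∑ v ∈ K, dg G (K ∪ R) v) ≤
      (Fintype.card α)! * 2 ^ ((Fintype.card α - 1) * (K ∪ R).card) := by
  induction R using Finset.induction_on with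
  | empty =>
    simp only [union_empty]
    have h1 : ∑ v ∈ K, dg G K v ≤ (Fintype.card α - 1) * K.card := by
      rw [mul_comm, ← smul_eq_mul]
      apply sum_le_card_nsmul
      intro v hv
      rw [dg, ← hcard, ← card_erase_of_mem hv]
      apply card_le_card
      intro w hw
      rw [mem_nb] at hw
      rw [mem_erase]
      exact ⟨fun h => G.loopless.irrefl v (h ▸ hw.2), hw.1⟩
    exact Nat.mul_le_mul (col_clique hK hcard) (Nat.pow_le_pow_right (by norm_num) h1)
  | insert w R hwR ih =>
    rw [disjoint_insert_right] at hR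
    have hw : w ∉ K ∪ R := by
      rw [mem_union]
      rintro (h | h)
      · exact hR.1 h
      · exact hwR h
    have hins : K ∪ insert w R = insert w (K ∪ R) := by
      rw [union_insert]
    rw [hins]
    have ih' := ih hR.2
    set S := K ∪ R with hS
    set j := (K.filter (fun v => G.Adj v w)).card with hj
    have hsum : ∑ v ∈ K, dg G (insert w S) v = ∑ v ∈ K, dg G S v + j := by
      rw [sum_congr rfl (fun v _ => dg_insert (G := G) hw), sum_add_distrib, hj, card_filter]
    have hjle : j ≤ Fintype.card α := by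
      rw [← hcard]
      exact card_filter_le _ _
    have hcol : (Col α G (insert w S)).card ≤ (Fintype.card α - j) * (Col α G S).card := by
      apply col_insert_le
      intro c hc
      have hinj := clique_inj (subset_union_left (s₁ := K) (s₂ := R)) hK hc
      have h2 : ((K.filter (fun v => G.Adj v w)).image c).card = j := by
        apply card_image_of_injOn
        intro x hx y hy hxy
        exact hinj (mem_filter.1 hx).1 (mem_filter.1 hy).1 hxy
      rw [← h2, ← card_compl]
      apply card_le_card
      intro a ha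
      rw [mem_filter] at ha
      rw [mem_compl, mem_image]
      rintro ⟨v, hv, rfl⟩
      rw [mem_filter] at hv
      exact ha.2 v (mem_union_left _ hv.1) hv.2.symm rfl
    rw [hsum, card_insert_of_notMem hw, pow_add, mul_add, mul_one, pow_add]
    calc (Col α G (insert w S)).card * (2 ^ (∑ v ∈ K, dg G S v) * 2 ^ j)
        ≤ ((Fintype.card α - j) * (Col α G S).card) * (2 ^ (∑ v ∈ K, dg G S v) * 2 ^ j) :=
          Nat.mul_le_mul_right _ hcol
      _ = ((Fintype.card α - j) * 2 ^ j) * ((Col α G S).card * 2 ^ (∑ v ∈ K, dg G S v)) := by ring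
      _ ≤ 2 ^ (Fintype.card α - 1) *
          ((Fintype.card α)! * 2 ^ ((Fintype.card α - 1) * S.card)) :=
          Nat.mul_le_mul (pow_ineq hjle) ih'
      _ = _ := by ring

theorem clique_bound' {G : SimpleGraph V} {K S : Finset V} (hKS : K ⊆ S)
    (hK : ∀ u ∈ K, ∀ v ∈ K, u ≠ v → G.Adj u v) (hcard : K.card = Fintype.card α) :
    (Col α G S).card * 2 ^ (∑ v ∈ K, dg G S v) ≤
      (Fintype.card α)! * 2 ^ ((Fintype.card α - 1) * S.card) := by
  have := clique_bound hK hcard (S \ K) disjoint_sdiff
  rwa [union_sdiff_of_subset hKS] at this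

/-- deleting a vertex of a full clique does not decrease the number of colourings -/
theorem col_erase_clique {G : SimpleGraph V} {K S : Finset V} (hKS : K ⊆ S)
    (hK : ∀ u ∈ K, ∀ v ∈ K, u ≠ v → G.Adj u v) (hcard : K.card = Fintype.card α)
    {v : V} (hv : v ∈ K) : (Col α G S).card ≤ (Col α G (S.erase v)).card := by
  have h := col_insert_le (α := α) (G := G) (S := S.erase v) (w := v) 1 ?_
  · rwa [insert_erase (hKS hv), one_mul] at h
  · intro c hc
    have hsub : K.erase v ⊆ S.erase v := erase_subset_erase v hKS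
    have hinj := clique_inj hsub
      (fun u hu w hw => hK u (mem_of_mem_erase hu) w (mem_of_mem_erase hw)) hc
    have h1 : ((K.erase v).image c).card = Fintype.card α - 1 := by
      rw [card_image_of_injOn hinj, card_erase_of_mem hv, hcard]
    have h2 : (univ.filter (fun a : α => ∀ u ∈ S.erase v, G.Adj v u → c u ≠ a)) ⊆
        ((K.erase v).image c)ᶜ := by
      intro a ha
      rw [mem_filter] at ha
      rw [mem_compl, mem_image]
      rintro ⟨u, hu, rfl⟩
      exact ha.2 u (hsub hu) (hK v hv u (mem_of_mem_erase hu) (ne_of_mem_erase hu).symm) rfl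
    refine le_trans (card_le_card h2) ?_
    rw [card_compl, h1]
    omega

/-- the key upper bound in the dense range -/
theorem dense_upper {G : SimpleGraph V} (hq : 0 < Fintype.card α) :
    ∀ (n : ℕ) (S : Finset V), S.card = n → ∀ t : ℕ,
      (Fintype.card α)! * 2 ^ t < 2 * (Col α G S).card →
      e2 G S + 2 * (S.card * t) ≤ 2 * tur (S.card + t) (Fintype.card α) := by
  intro n
  induction n with
  | zero =>
    intro S hS t ht
    by_cases h : ∃ K ⊆ S, (∀ u ∈ K, ∀ v ∈ K, u ≠ v → G.Adj u v) ∧ K.card = Fintype.card α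
    · obtain ⟨K, hKS, _, hKc⟩ := h
      have := card_le_card hKS
      omega
    · push Not at h
      exact turan_join t h
  | succ n ih =>
    intro S hS t ht
    by_cases h : ∃ K ⊆ S, (∀ u ∈ K, ∀ v ∈ K, u ≠ v → G.Adj u v) ∧ K.card = Fintype.card α
    · obtain ⟨K, hKS, hK, hKc⟩ := h
      have h1 := clique_bound' hKS hK hKc
      set q := Fintype.card α with hqdef
      set d := ∑ v ∈ K, dg G S v with hd
      have h2 : q ! * 2 ^ (t + d) < q ! * 2 ^ ((q - 1) * S.card + 1) := by
        calc q ! * 2 ^ (t + d) = (q ! * 2 ^ t) * 2 ^ d := by ring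
          _ < (2 * (Col α G S).card) * 2 ^ d := Nat.mul_lt_mul_of_pos_right ht (by positivity)
          _ = 2 * ((Col α G S).card * 2 ^ d) := by ring
          _ ≤ 2 * (q ! * 2 ^ ((q - 1) * S.card)) := Nat.mul_le_mul_left _ h1
          _ = _ := by ring
      have h3 : t + d < (q - 1) * S.card + 1 := by
        have := Nat.lt_of_mul_lt_mul_left h2
        exact (Nat.pow_lt_pow_iff_right (by norm_num)).1 this
      have h4 : ∃ v ∈ K, q * dg G S v ≤ d := by
        by_contra hcon
        push Not at hcon
        have hKne : K.Nonempty := by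
          rw [← card_pos, hKc]
          exact hq
        have h5 : ∑ v ∈ K, d < ∑ v ∈ K, q * dg G S v := sum_lt_sum_of_nonempty hKne hcon
        have h6 : ∑ v ∈ K, q * dg G S v = q * d := by rw [hd, mul_sum]
        rw [h6, sum_const, smul_eq_mul, hKc] at h5
        exact lt_irrefl _ h5
      obtain ⟨v, hv, hvd⟩ := h4
      have hvS : v ∈ S := hKS hv
      have h6 := col_erase_clique hKS hK hKc hv
      have hSe : (S.erase v).card = n := by
        rw [card_erase_of_mem hvS, hS]
        rfl
      have h7 := ih (S.erase v) hSe t (by omega)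
      rw [e2_erase hvS]
      have h8 := tur_succ hq (n + t)
      rw [hSe] at h7
      rw [hS] at h3 ⊢
      have h9 : n + 1 + t = n + t + 1 := by ring
      rw [h9]
      have h10 : dg G S v + (n + t) / q ≤ n := by
        have h11 : q * (dg G S v + (n + t) / q) < q * (n + 1) := by
          have h12 : q * ((n + t) / q) ≤ n + t := Nat.mul_div_le (n + t) q
          obtain ⟨p, hp⟩ : ∃ p, q = p + 1 := ⟨q - 1, by omega⟩
          have h13 : q - 1 = p := by omega
          rw [h13] at h3
          have h14 : q * (n + 1) = p * (n + 1) + (n + 1) := by rw [hp]; ring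
          rw [mul_add, h14]
          omega
        have := Nat.lt_of_mul_lt_mul_left h11
        omega
      have h15 : (n + 1) * t = n * t + t := by ring
      rw [h15]
      omega
    · push Not at h
      exact turan_join t h

end clique

end Pool.Agent.H521_col
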