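import Pool.Agent.H521_col.Edges
import Pool.Agent.H521_col.Merge
import Pool.Agent.H521_col.Upper

/-!
The inductive steps for three colours.
-/

set_option linter.unusedSectionVars false

namespace Pool.Agent.H521_col

open Finset
open scoped Classical Nat

/-- induction hypothesis -/
def IHyp (V : Type*) [Fintype V] [DecidableEq V] (N : ℕ) : Prop :=
  ∀ (G : SimpleGraph V) (S : Finset V), S.card < N → Conn G S → ∀ a b k : ℕ, 1 ≤ b →
    a + b = S.card → k + b ≤ a → 2 * (a * b) ≤ e2 G S + 2 * k → P G S + 12 ≤ val a b k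

variable {V : Type*} [Fintype V] [DecidableEq V]

theorem tur_two (n : ℕ) : 4 * tur n 2 ≤ n * n := by
  induction n using Nat.twoStepInduction with
  | zero => rw [tur_of_le (by norm_num)]; simp
  | one => rw [tur_of_le (by norm_num)]; simp
  | more n ih1 _ =>
    rw [tur_add]
    have : Nat.choose 2 2 = 1 := rfl
    rw [this]
    nlinarith

/-- more than a quarter of the square of the number of vertices -/
theorem dense3 {G : SimpleGraph V} {S : Finset V} {t : ℕ} (h1 : 2 * t ≤ S.card)
    (h2 : S.card ≤ 2 * (t + 1)) (h3 : S.card * S.card < 2 * e2 G S) :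
    2 * P G S ≤ 6 * 2 ^ t := by
  by_contra hcon
  push Not at hcon
  have h4 := dense_upper (G := G) (α := Fin 3) (by simp) S.card S rfl t (by
    rw [Fintype.card_fin]
    exact hcon)
  rw [Fintype.card_fin, tur_join' h1 h2] at h4
  have h5 := tur_two S.card
  omega

theorem b_one {G : SimpleGraph V} {S : Finset V} (h : Conn G S) {a b k : ℕ} (hb : b = 1)
    (hn : a + b = S.card) : P G S + 12 ≤ val a b k := by
  have h1 := conn_tree h
  have h2 : S.card - 1 = a := by omega
  rw [h2] at h1
  subst hb
  unfold val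
  have := one_le_two_pow' k
  omega

theorem cut_case {G : SimpleGraph V} {S : Finset V} {a b k : ℕ} (ih : IHyp V S.card)
    (h : Conn G S) {z : V} (hz : z ∈ S) (hcut : ¬ Conn G (S.erase z)) (hb : 2 ≤ b)
    (hn : a + b = S.card) (hk : k + b ≤ a) (he : 2 * (a * b) ≤ e2 G S + 2 * k) :
    P G S + 12 ≤ val a b k := by
  obtain ⟨G', S', hc', hcard, he', hP⟩ := cut_reduce h hz (by omega) hcut
  by_cases h1 : b ≤ k + 1
  · have h2 := ih G' S' (by omega) hc' (a - 1) b (k + 1 - b) (by omega) (by omega) (by omega) (by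
      obtain ⟨A, rfl⟩ : ∃ A, a = A + 1 := ⟨a - 1, by omega⟩
      rw [Nat.add_sub_cancel]
      have : 2 * ((A + 1) * b) = 2 * (A * b) + 2 * b := by ring
      omega)
    have h3 := num_cut1 hb h1 hk
    omega
  · by_cases h2 : b + 3 ≤ a
    · have h3 := ih G' S' (by omega) hc' (a - 2) (b + 1) (a - b - 3) (by omega) (by omega)
        (by omega) (by
          obtain ⟨c, rfl⟩ := Nat.exists_eq_add_of_le h2
          have e1 : b + 3 + c - 2 = b + 1 + c := by omega
          have e2 : b + 3 + c - b - 3 = c := by omega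
          rw [e1, e2]
          have e3 : 2 * ((b + 1 + c) * (b + 1)) + 2 * b = 2 * ((b + 3 + c) * b) + 2 * c + 2 := by
            ring
          omega)
      have h4 := num_cut2 (k := k) h2
      omega
    · have h3 : 2 * P G' S' ≤ 6 * 2 ^ ((a + b - 2) / 2) := by
        apply dense3 (by omega) (by omega)
        have h4 : S'.card = a + b - 1 := by omega
        rw [h4]
        obtain ⟨c, rfl⟩ : ∃ c, a = b + c := ⟨a - b, by omega⟩
        obtain ⟨β, rfl⟩ : ∃ β, b = β + 2 := ⟨b - 2, by omega⟩
        have hc : c ≤ 2 := by omega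
        have hkb : k ≤ β := by omega
        have e1 : β + 2 + c + (β + 2) - 1 = 2 * β + c + 3 := by omega
        rw [e1]
        have e3 : (2 * β + c + 3) * (2 * β + c + 3) =
            4 * (β * β) + 4 * (c * β) + 12 * β + c * c + 6 * c + 9 := by ring
        have e4 : 2 * ((β + 2 + c) * (β + 2)) =
            2 * (β * β) + 2 * (c * β) + 8 * β + 4 * c + 8 := by ring
        rw [e3]
        rw [e4] at he
        have hcc : c * c ≤ 2 * c := Nat.mul_le_mul_right c hc
        omega
      have h5 : 2 ^ ((a + b - 2) / 2) ≤ 2 ^ (a - 1) := Nat.pow_le_pow_right (by norm_num) (by omega)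
      have h6 : 2 * 2 ^ (a - 1) = 2 ^ a := by
        obtain ⟨A, rfl⟩ : ∃ A, a = A + 1 := ⟨a - 1, by omega⟩
        rw [Nat.add_sub_cancel]
        ring
      have h7 := four_le_two_pow hb
      unfold val
      omega

theorem tri_case {G : SimpleGraph V} {S : Finset V} {a b k : ℕ} (ih : IHyp V S.card)
    (hnc : ∀ z ∈ S, Conn G (S.erase z)) (hb : 2 ≤ b)
    (hn : a + b = S.card) (hk : k + b ≤ a) (he : 2 * (a * b) ≤ e2 G S + 2 * k)
    (htf : ¬ TF G S) : P G S + 12 ≤ val a b k := by
  unfold TF at htf
  push Not at htf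
  obtain ⟨u, hu, v, hv, w, hw, huv, hvw, huw, _⟩ := htf
  set K : Finset V := {u, v, w} with hKdef
  have hKS : K ⊆ S := by
    intro x hx
    rw [hKdef, mem_insert, mem_insert, mem_singleton] at hx
    rcases hx with rfl | rfl | rfl <;> assumption
  have hK : ∀ x ∈ K, ∀ y ∈ K, x ≠ y → G.Adj x y := by
    intro x hx y hy hxy
    rw [hKdef, mem_insert, mem_insert, mem_singleton] at hx hy
    rcases hx with rfl | rfl | rfl <;> rcases hy with rfl | rfl | rfl <;>
      first
        | exact absurd rfl hxy
        | assumption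
        | (apply G.adj_symm; assumption)
  have hKc : K.card = 3 := by
    rw [hKdef]
    rw [card_insert_of_notMem, card_insert_of_notMem, card_singleton]
    · rw [mem_singleton]
      exact hvw.ne
    · rw [mem_insert, mem_singleton, not_or]
      exact ⟨huv.ne, huw.ne⟩
  have hKc' : K.card = Fintype.card (Fin 3) := by simp [hKc]
  have hKne : K.Nonempty := by
    rw [← card_pos, hKc]
    norm_num
  obtain ⟨x, hx, hmin⟩ := exists_min_image K (fun v => dg G S v) hKne
  by_cases hd : a + 1 ≤ dg G S x
  · have h1 := clique_bound' (α := Fin 3) hKS hK hKc'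
    have h2 : 3 * (a + 1) ≤ ∑ v ∈ K, dg G S v := by
      rw [← hKc, ← smul_eq_mul]
      apply card_nsmul_le_sum
      intro y hy
      exact hd.trans (hmin y hy)
    have h3 : 2 ^ (3 * (a + 1)) ≤ 2 ^ (∑ v ∈ K, dg G S v) := Nat.pow_le_pow_right (by norm_num) h2
    have h4 : P G S * 2 ^ (3 * (a + 1)) ≤ 6 * 2 ^ (2 * S.card) :=
      by
      have h10 : P G S * 2 ^ (∑ v ∈ K, dg G S v) ≤ 6 * 2 ^ (2 * S.card) := by
        rw [Fintype.card_fin] at h1
        exact h1
      exact (Nat.mul_le_mul_left _ h3).trans h10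
    have h5 : 2 ^ (2 * S.card) ≤ 2 ^ (3 * a + b) := Nat.pow_le_pow_right (by norm_num) (by omega)
    have h6 : (8 * P G S) * 2 ^ (3 * a) ≤ (6 * 2 ^ b) * 2 ^ (3 * a) := by
      calc (8 * P G S) * 2 ^ (3 * a) = P G S * 2 ^ (3 * (a + 1)) := by ring
        _ ≤ 6 * 2 ^ (2 * S.card) := h4
        _ ≤ 6 * 2 ^ (3 * a + b) := Nat.mul_le_mul_left _ h5
        _ = (6 * 2 ^ b) * 2 ^ (3 * a) := by ring
    have h7 : 8 * P G S ≤ 6 * 2 ^ b := Nat.le_of_mul_le_mul_right h6 (by positivity)
    have h8 := four_le_two_pow hb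
    have h9 := four_le_two_pow (n := a) (by omega)
    unfold val
    omega
  · push Not at hd
    have hxS := hKS hx
    have h1 : P G S ≤ P G (S.erase x) := col_erase_clique (α := Fin 3) hKS hK hKc' hx
    have h2 := e2_erase (G := G) hxS
    have h3 : (S.erase x).card = S.card - 1 := card_erase_of_mem hxS
    have h4 := ih G (S.erase x) (by omega) (hnc x hxS) a (b - 1) k (by omega) (by omega)
      (by omega) (by
        obtain ⟨β, rfl⟩ : ∃ β, b = β + 1 := ⟨b - 1, by omega⟩
        rw [Nat.add_sub_cancel]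
        have : 2 * (a * (β + 1)) = 2 * (a * β) + 2 * a := by ring
        omega)
    have h5 : val a (b - 1) k ≤ val a b k := by
      unfold val
      have := Nat.pow_le_pow_right (n := 2) (by norm_num) (Nat.sub_le b 1)
      omega
    omega

end Pool.Agent.H521_col
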