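import Mathlib

/-!
Integer solutions given by a partition of the number of colours and one union of parts: adding one
edge costs at most a constant factor.
-/

set_option linter.unusedSectionVars false

namespace Pool.Agent.H521_col.Opt

open Finset
open scoped Classical

variable {q : ℕ}

/-- number of pairs in different parts -/
def pe (a : Fin q → ℕ) : ℕ := ∑ i, ∑ l, if i < l then a i * a l else 0

/-- number of edges -/
def ed (a : Fin q → ℕ) (J : Finset (Fin q)) (b : ℕ) : ℕ := pe a + b * ∑ i ∈ Jᶜ, a i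

/-- number of colourings counted -/
def vl (s a : Fin q → ℕ) (J : Finset (Fin q)) (b : ℕ) : ℕ :=
  (∏ i, s i ^ a i) * (∑ i ∈ J, s i) ^ b

theorem two_pe (a : Fin q → ℕ) : 2 * pe a + ∑ i, a i ^ 2 = (∑ i, a i) ^ 2 := by
  have h1 : (∑ i, a i) ^ 2 = ∑ i, ∑ l, a i * a l := by
    rw [sq, sum_mul_sum]
  have h2 : ∀ i l : Fin q, a i * a l = (if i < l then a i * a l else 0) +
      (if l < i then a l * a i else 0) + (if i = l then a i ^ 2 else 0) := by
    intro i l
    rcases lt_trichotomy i l with h | h | h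
    · rw [if_pos h, if_neg h.not_gt, if_neg h.ne]
      ring
    · subst h
      simp [sq]
    · rw [if_neg h.not_gt, if_pos h, if_neg h.ne']
      ring
  rw [h1, sum_congr rfl (fun i _ => sum_congr rfl (fun l _ => h2 i l))]
  simp only [sum_add_distrib]
  have h3 : ∑ i : Fin q, ∑ l : Fin q, (if l < i then a l * a i else 0) = pe a := by
    rw [sum_comm]
    rfl
  rw [h3]
  have h4 : ∑ i : Fin q, ∑ l : Fin q, (if i = l then a i ^ 2 else 0) = ∑ i, a i ^ 2 := by
    apply sum_congr rfl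
    intro i _
    simp
  rw [h4]
  unfold pe
  ring

theorem two_ed (a : Fin q → ℕ) (J : Finset (Fin q)) (b : ℕ) :
    2 * ed a J b + ∑ i, a i ^ 2 = (∑ i, a i) ^ 2 + 2 * b * ∑ i ∈ Jᶜ, a i := by
  unfold ed
  rw [← two_pe]
  ring

/-- adding `k` to one part -/
def bump (a : Fin q → ℕ) (i : Fin q) (k : ℕ) : Fin q → ℕ := fun l => a l + if l = i then k else 0

theorem sum_bump (a : Fin q → ℕ) (i : Fin q) (k : ℕ) : ∑ l, bump a i k l = ∑ l, a l + k := by
  unfold bump
  rw [sum_add_distrib]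
  simp

theorem sq_bump (a : Fin q → ℕ) (i : Fin q) (k : ℕ) :
    ∑ l, bump a i k l ^ 2 = ∑ l, a l ^ 2 + 2 * k * a i + k ^ 2 := by
  have h1 : ∀ l, bump a i k l ^ 2 = a l ^ 2 + if l = i then 2 * k * a i + k ^ 2 else 0 := by
    intro l
    unfold bump
    by_cases h : l = i
    · subst h
      simp
      ring
    · simp [h]
  rw [sum_congr rfl (fun l _ => h1 l), sum_add_distrib]
  simp
  ring

theorem out_bump {a : Fin q → ℕ} {J : Finset (Fin q)} {i : Fin q} (hi : i ∈ J) (k : ℕ) :
    ∑ l ∈ Jᶜ, bump a i k l = ∑ l ∈ Jᶜ, a l := by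
  apply sum_congr rfl
  intro l hl
  unfold bump
  rw [if_neg]
  · rw [add_zero]
  · rintro rfl
    exact (mem_compl.1 hl) hi

theorem prod_bump (s a : Fin q → ℕ) (i : Fin q) (k : ℕ) :
    ∏ l, s l ^ bump a i k l = (∏ l, s l ^ a l) * s i ^ k := by
  have h1 : ∀ l, s l ^ bump a i k l = s l ^ a l * if l = i then s i ^ k else 1 := by
    intro l
    unfold bump
    by_cases h : l = i
    · subst h
      simp [pow_add]
    · simp [h]
  rw [prod_congr rfl (fun l _ => h1 l), prod_mul_distrib]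
  simp

theorem bump_apply_self (a : Fin q → ℕ) (i : Fin q) (k : ℕ) : bump a i k i = a i + k := by
  simp [bump]

theorem bump_apply_ne (a : Fin q → ℕ) {i l : Fin q} (h : l ≠ i) (k : ℕ) : bump a i k l = a l := by
  simp [bump, h]

theorem exists_bump (a : Fin q → ℕ) (i : Fin q) (k : ℕ) (h : k ≤ a i) :
    ∃ c : Fin q → ℕ, a = bump c i k ∧ c i + k = a i ∧ ∀ l, l ≠ i → c l = a l := by
  refine ⟨Function.update a i (a i - k), ?_, ?_, ?_⟩
  · funext l
    by_cases hl : l = i
    · subst hl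
      simp [bump]
      omega
    · simp [bump, hl]
  · simp
    omega
  · intro l hl
    simp [hl]

theorem le_q {s : Fin q → ℕ} (hs : ∑ i, s i = q) (i : Fin q) : s i ≤ q := by
  calc s i ≤ ∑ i, s i := single_le_sum (fun _ _ => Nat.zero_le _) (mem_univ i)
    _ = q := hs

theorem sumJ_le_q {s : Fin q → ℕ} (hs : ∑ i, s i = q) (J : Finset (Fin q)) :
    ∑ i ∈ J, s i ≤ q := by
  calc ∑ i ∈ J, s i ≤ ∑ i, s i :=
        sum_le_sum_of_subset (subset_univ J)
    _ = q := hs

/-- a balanced vector minimises the sum of squares -/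
theorem balanced_sq {a t : Fin q → ℕ} (hbal : ∀ i l, a i ≤ a l + 1)
    (hsum : ∑ i, a i = ∑ i, t i) : ∑ i, a i ^ 2 ≤ ∑ i, t i ^ 2 := by
  rcases Nat.eq_zero_or_pos q with rfl | hq
  · simp
  have : Nonempty (Fin q) := ⟨⟨0, hq⟩⟩
  obtain ⟨i0, _, hmin⟩ := exists_min_image univ a (univ_nonempty)
  set c := a i0 with hc
  have h1 : ∀ i, (a i : ℤ) ^ 2 = (2 * c + 1) * a i - c * (c + 1) := by
    intro i
    have h2 := hmin i (mem_univ i)
    have h3 := hbal i i0
    have h4 : a i = c ∨ a i = c + 1 := by omega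
    rcases h4 with h4 | h4 <;> rw [h4] <;> push_cast <;> ring
  have h2 : ∀ i, (2 * c + 1) * (t i : ℤ) - c * (c + 1) ≤ (t i : ℤ) ^ 2 := by
    intro i
    have h3 : 0 ≤ ((t i : ℤ) - c) * ((t i : ℤ) - c - 1) := by
      rcases le_or_gt (t i : ℤ) c with h | h
      · exact mul_nonneg_of_nonpos_of_nonpos (by linarith) (by linarith)
      · exact mul_nonneg (by linarith) (by linarith)
    nlinarith [h3]
  have h5 : (∑ i, (a i : ℤ) ^ 2) ≤ ∑ i, (t i : ℤ) ^ 2 := by
    calc (∑ i, (a i : ℤ) ^ 2) = ∑ i, ((2 * c + 1) * (a i : ℤ) - c * (c + 1)) :=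
          sum_congr rfl (fun i _ => h1 i)
      _ = ∑ i, ((2 * c + 1) * (t i : ℤ) - c * (c + 1)) := by
          have h6 : (∑ i, (a i : ℤ)) = ∑ i, (t i : ℤ) := by exact_mod_cast hsum
          rw [sum_sub_distrib, sum_sub_distrib]
          congr 1
          rw [← mul_sum, ← mul_sum, h6]
      _ ≤ _ := sum_le_sum (fun i _ => h2 i)
  exact_mod_cast h5

/-- the case of no vertex with the union label -/
theorem smooth_zero {s a : Fin q → ℕ} (hs : ∑ i, s i = q) (hpos : 0 < ∏ i, s i ^ a i)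
    {t : Fin q → ℕ} (ht : ∑ i, t i = ∑ i, a i) (hlt : pe a + 1 ≤ pe t) :
    ∃ (s' a' : Fin q → ℕ) (J' : Finset (Fin q)) (b' : ℕ), (b' = 0 ∨ J'.card = 2) ∧
      ∑ i, s' i = q ∧ ∑ i, a' i + b' = ∑ i, a i ∧ pe a + 1 ≤ ed a' J' b' ∧
      ∏ i, s i ^ a i ≤ q ^ 3 * vl s' a' J' b' := by
  have hq : 1 ≤ q := by
    rcases Nat.eq_zero_or_pos q with rfl | h
    · simp [pe] at hlt
    · exact h
  have hq3 : q ≤ q ^ 3 := Nat.le_self_pow (by norm_num) q
  have hnotbal : ¬ ∀ i l, a i ≤ a l + 1 := by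
    intro hbal
    have h1 := balanced_sq hbal ht.symm
    have h2 := two_pe a
    have h3 := two_pe t
    rw [ht] at h3
    omega
  by_cases h4a : ∃ i l, 1 ≤ s l ∧ a l + 2 ≤ a i
  · -- move one vertex to a smaller part
    obtain ⟨i, l, hsl, hal⟩ := h4a
    obtain ⟨c, hc, hci, hcl⟩ := exists_bump a i 1 (by omega)
    have hil : l ≠ i := by
      rintro rfl
      omega
    have hcl' := hcl l hil
    refine ⟨s, bump c l 1, ∅, 0, Or.inl rfl, hs, ?_, ?_, ?_⟩
    · rw [hc, sum_bump, sum_bump]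
    · have e1 := two_ed (bump c l 1) ∅ 0
      have e2 := two_pe (bump c i 1)
      rw [sq_bump, sum_bump] at e1 e2
      rw [hc]
      simp only [mul_zero, zero_mul, add_zero] at e1
      have e3 : c l + 1 ≤ c i := by omega
      nlinarith [e1, e2, e3]
    · unfold vl
      rw [pow_zero, mul_one, hc, prod_bump, prod_bump, pow_one, pow_one]
      calc (∏ l, s l ^ c l) * s i ≤ (∏ l, s l ^ c l) * q := Nat.mul_le_mul_left _ (le_q hs i)
        _ ≤ q ^ 3 * ((∏ l, s l ^ c l) * s l) := by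
          have : (∏ l, s l ^ c l) * q = q * ((∏ l, s l ^ c l) * 1) := by ring
          rw [this]
          exact Nat.mul_le_mul hq3 (Nat.mul_le_mul_left _ hsl)
  push Not at h4a
  have hbal : ∀ i l, 1 ≤ s l → a i ≤ a l + 1 := by
    intro i l hl
    have := h4a i l hl
    omega
  -- some part has no colours
  have hl0 : ∃ l0, s l0 = 0 := by
    by_contra hcon
    push Not at hcon
    exact hnotbal (fun i l => hbal i l (Nat.pos_of_ne_zero (hcon l)))
  obtain ⟨l0, hl0⟩ := hl0
  have hal0 : a l0 = 0 := by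
    by_contra h
    have h1 : s l0 ^ a l0 = 0 := by
      rw [hl0, zero_pow h]
    have h2 := prod_eq_zero (f := fun i => s i ^ a i) (mem_univ l0) h1
    omega
  -- some part has two colours
  have hi0 : ∃ i0, 2 ≤ s i0 := by
    by_contra hcon
    push Not at hcon
    have h1 : ∑ i, s i ≤ ∑ i ∈ univ.erase l0, 1 := by
      rw [← add_sum_erase univ s (mem_univ l0), hl0, zero_add]
      apply sum_le_sum
      intro i _
      have := hcon i
      omega
    rw [hs, sum_const, card_erase_of_mem (mem_univ _), card_univ, Fintype.card_fin,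
      smul_eq_mul, mul_one] at h1
    omega
  obtain ⟨i0, hi0⟩ := hi0
  have hne : l0 ≠ i0 := by
    rintro rfl
    omega
  -- splitting a part with at least two vertices and two colours
  have hsplit : ∀ a2 : Fin q → ℕ, ∑ i, a2 i = ∑ i, a i → pe a2 = pe a → a2 l0 = 0 →
      2 ≤ a2 i0 → ∏ i, s i ^ a i ≤ q * ∏ i, s i ^ a2 i →
      ∃ (s' a' : Fin q → ℕ) (J' : Finset (Fin q)) (b' : ℕ), (b' = 0 ∨ J'.card = 2) ∧
      ∑ i, s' i = q ∧ ∑ i, a' i + b' = ∑ i, a i ∧ pe a + 1 ≤ ed a' J' b' ∧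
      ∏ i, s i ^ a i ≤ q ^ 3 * vl s' a' J' b' := by
    intro a2 hsum hpe hl2 hi2 hprod
    obtain ⟨c, hc, hci, hcl⟩ := exists_bump a2 i0 (a2 i0) le_rfl
    have hci0 : c i0 = 0 := by omega
    have hcl0 : c l0 = 0 := by rw [hcl l0 hne, hl2]
    obtain ⟨k, hk⟩ : ∃ k, a2 i0 = k + 2 := ⟨a2 i0 - 2, by omega⟩
    rw [hk] at hc
    obtain ⟨s2, hs2, hs2i, hs2l⟩ := exists_bump s i0 1 (by omega)
    have hs2l0 : s2 l0 = 0 := by rw [hs2l l0 hne, hl0]
    have hJi : i0 ∈ ({i0, l0} : Finset (Fin q)) := by simp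
    have hJl : l0 ∈ ({i0, l0} : Finset (Fin q)) := by simp
    have hout : ∑ l ∈ ({i0, l0} : Finset (Fin q))ᶜ, c l = ∑ l, c l := by
      rw [← sum_add_sum_compl ({i0, l0} : Finset (Fin q)) c, sum_pair hne.symm, hci0, hcl0]
      ring
    refine ⟨bump s2 l0 1, bump (bump c i0 1) l0 1, {i0, l0}, k, Or.inr (card_pair hne.symm),
      ?_, ?_, ?_, ?_⟩
    · rw [sum_bump]
      rw [hs2, sum_bump] at hs
      exact hs
    · rw [sum_bump, sum_bump, ← hsum, hc, sum_bump]
      ring
    · have e1 := two_ed (bump (bump c i0 1) l0 1) {i0, l0} k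
      rw [out_bump hJl, out_bump hJi, hout, sq_bump, sq_bump, sum_bump, sum_bump,
        bump_apply_ne c hne, hci0, hcl0] at e1
      have e2 := two_pe a2
      rw [hc, sq_bump, sum_bump, hci0] at e2
      rw [← hpe, hc]
      nlinarith [e1, e2]
    · have e1 : ∑ i ∈ ({i0, l0} : Finset (Fin q)), bump s2 l0 1 i = s i0 := by
        rw [sum_pair hne.symm, bump_apply_ne s2 hne.symm, bump_apply_self, hs2l0]
        omega
      have e2 : ∏ i, bump s2 l0 1 i ^ bump (bump c i0 1) l0 1 i =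
          (∏ i, s i ^ c i) * s2 i0 := by
        rw [prod_bump, prod_bump, bump_apply_self, hs2l0, bump_apply_ne s2 hne.symm]
        simp only [zero_add, pow_one, mul_one]
        congr 1
        apply prod_congr rfl
        intro i _
        by_cases h1 : i = i0
        · subst h1
          rw [hci0, pow_zero, pow_zero]
        · by_cases h2 : i = l0
          · subst h2
            rw [hcl0, pow_zero, pow_zero]
          · rw [bump_apply_ne s2 h2, hs2l i h1]
      have e3 : ∏ i, s i ^ a2 i = (∏ i, s i ^ c i) * s i0 ^ (k + 2) := by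
        rw [hc, prod_bump]
      unfold vl
      rw [e1, e2]
      have e4 : s i0 ≤ q := le_q hs i0
      have e5 : 1 ≤ s2 i0 := by omega
      calc ∏ i, s i ^ a i ≤ q * ∏ i, s i ^ a2 i := hprod
        _ = q * ((∏ i, s i ^ c i) * s i0 ^ (k + 2)) := by rw [e3]
        _ = (q * (s i0 * s i0)) * ((∏ i, s i ^ c i) * 1 * s i0 ^ k) := by ring
        _ ≤ (q * (q * q)) * ((∏ i, s i ^ c i) * s2 i0 * s i0 ^ k) := by
            apply Nat.mul_le_mul
            · exact Nat.mul_le_mul_left _ (Nat.mul_le_mul e4 e4)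
            · exact Nat.mul_le_mul_right _ (Nat.mul_le_mul_left _ e5)
        _ = _ := by ring
  by_cases ha2 : 2 ≤ a i0
  · exact hsplit a rfl rfl hal0 ha2 (Nat.le_mul_of_pos_left _ hq)
  · -- all parts have at most two vertices
    have hex : ∃ i1, 2 ≤ a i1 := by
      by_contra hcon
      push Not at hcon
      apply hnotbal
      intro i l
      have := hcon i
      omega
    obtain ⟨i1, hi1⟩ := hex
    have h1 := hbal i1 i0 (by omega)
    have ha0 : a i0 = 1 := by omega
    have ha1 : a i1 = 2 := by omega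
    have hi01 : i1 ≠ i0 := by
      rintro rfl
      omega
    have hil0 : i1 ≠ l0 := by
      rintro rfl
      omega
    obtain ⟨c, hc, hci, hcl⟩ := exists_bump a i1 1 (by omega)
    have hc0 : c i0 = 1 := by rw [hcl i0 hi01.symm, ha0]
    have hc1 : c i1 = 1 := by omega
    have hcl0 : c l0 = 0 := by rw [hcl l0 hil0.symm, hal0]
    have hs1 : 1 ≤ s i1 := by
      by_contra h
      have h2 : s i1 = 0 := by omega
      have h3 : s i1 ^ a i1 = 0 := by
        rw [h2, ha1]
        norm_num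
      have h4 := prod_eq_zero (f := fun i => s i ^ a i) (mem_univ i1) h3
      omega
    apply hsplit (bump c i0 1)
    · rw [sum_bump, hc, sum_bump]
    · have e1 := two_pe (bump c i0 1)
      have e2 := two_pe (bump c i1 1)
      rw [sq_bump, sum_bump, hc0] at e1
      rw [sq_bump, sum_bump, hc1] at e2
      rw [hc]
      omega
    · rw [bump_apply_ne c hne, hcl0]
    · rw [bump_apply_self, hc0]
    · rw [hc, prod_bump, prod_bump, pow_one, pow_one]
      calc (∏ l, s l ^ c l) * s i1 ≤ (∏ l, s l ^ c l) * q := Nat.mul_le_mul_left _ (le_q hs i1)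
        _ = q * ((∏ l, s l ^ c l) * 1) := by ring
        _ ≤ q * ((∏ l, s l ^ c l) * s i0) :=
            Nat.mul_le_mul_left _ (Nat.mul_le_mul_left _ (by omega))

end Pool.Agent.H521_col.Opt
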