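import Pool.Agent.H521_col.StrInt

/-!
Integer solutions given by a partition and one union of parts: adding edges.
-/

set_option linter.unusedSectionVars false

namespace Pool.Agent.H521_col.Opt

open Finset
open scoped Classical

variable {q : ℕ}

theorem reduce_zero {s a : Fin q → ℕ} {J : Finset (Fin q)} {b : ℕ} (hs : ∑ i, s i = q)
    (hpos : 0 < vl s a J b) {t : Fin q → ℕ} (ht : ∑ i, t i = ∑ i, a i + b)
    (hlt : ed a J b + 1 ≤ pe t) {a2 : Fin q → ℕ} (h1 : ∑ i, a2 i = ∑ i, a i + b)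
    (h2 : ed a J b ≤ pe a2) (h3 : vl s a J b ≤ q * ∏ i, s i ^ a2 i) :
    ∃ (s' a' : Fin q → ℕ) (J' : Finset (Fin q)) (b' : ℕ), (b' = 0 ∨ J'.card = 2) ∧
      ∑ i, s' i = q ∧ ∑ i, a' i + b' = ∑ i, a i + b ∧ ed a J b + 1 ≤ ed a' J' b' ∧
      vl s a J b ≤ q ^ 4 * vl s' a' J' b' := by
  have hq : 1 ≤ q := by
    rcases Nat.eq_zero_or_pos q with rfl | h
    · simp at h3
      omega
    · exact h
  rcases Nat.lt_or_ge (pe a2) (ed a J b + 1) with h4 | h4
  · have h5 : pe a2 = ed a J b := by omega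
    have hpos2 : 0 < ∏ i, s i ^ a2 i := by
      rcases Nat.eq_zero_or_pos (∏ i, s i ^ a2 i) with h | h
      · rw [h] at h3
        omega
      · exact h
    obtain ⟨s', a', J', b', g0, g1, g2, g3, g4⟩ := smooth_zero hs hpos2 (ht.trans h1.symm)
      (by rw [h5]; exact hlt)
    refine ⟨s', a', J', b', g0, g1, g2.trans h1, by rw [← h5]; exact g3, ?_⟩
    calc vl s a J b ≤ q * ∏ i, s i ^ a2 i := h3
      _ ≤ q * (q ^ 3 * vl s' a' J' b') := Nat.mul_le_mul_left _ g4
      _ = _ := by ring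
  · refine ⟨s, a2, ∅, 0, Or.inl rfl, hs, by rw [add_zero]; exact h1, ?_, ?_⟩
    · have h5 : ed a2 ∅ 0 = pe a2 := by simp [ed]
      rw [h5]
      exact h4
    · unfold vl at h3 ⊢
      rw [pow_zero, mul_one]
      refine h3.trans (Nat.mul_le_mul_right _ ?_)
      exact Nat.le_self_pow (by norm_num) q

theorem smooth_one {s a : Fin q → ℕ} {J : Finset (Fin q)} {b : ℕ} (hJ : b = 0 ∨ J.card = 2)
    (hs : ∑ i, s i = q)
    (hpos : 0 < vl s a J b) {t : Fin q → ℕ} (ht : ∑ i, t i = ∑ i, a i + b)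
    (hlt : ed a J b + 1 ≤ pe t) :
    ∃ (s' a' : Fin q → ℕ) (J' : Finset (Fin q)) (b' : ℕ), (b' = 0 ∨ J'.card = 2) ∧
      ∑ i, s' i = q ∧ ∑ i, a' i + b' = ∑ i, a i + b ∧ ed a J b + 1 ≤ ed a' J' b' ∧
      vl s a J b ≤ q ^ 4 * vl s' a' J' b' := by
  have hq : 1 ≤ q := by
    rcases Nat.eq_zero_or_pos q with rfl | h
    · simp [pe] at hlt
    · exact h
  have hq1 : q ≤ q ^ 4 := Nat.le_self_pow (by norm_num) q
  have hq2 : q * q ≤ q ^ 4 := by
    calc q * q = q ^ 2 := by ring
      _ ≤ q ^ 4 := Nat.pow_le_pow_right hq (by norm_num)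
  rcases Nat.eq_zero_or_pos b with rfl | hb
  · apply reduce_zero hs hpos ht hlt (a2 := a)
    · simp
    · simp [ed]
    · unfold vl
      rw [pow_zero, mul_one]
      exact Nat.le_mul_of_pos_left _ hq
  set σ := ∑ i ∈ J, s i with hσ
  have hσq : σ ≤ q := sumJ_le_q hs J
  have hσpos : 0 < σ := by
    rcases Nat.eq_zero_or_pos σ with h | h
    · unfold vl at hpos
      rw [← hσ, h, zero_pow (by omega), mul_zero] at hpos
      omega
    · exact h
  obtain ⟨i, hiJ, hsi⟩ : ∃ i ∈ J, 1 ≤ s i := by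
    by_contra hcon
    push Not at hcon
    have : σ = 0 := by
      rw [hσ]
      apply sum_eq_zero
      intro i hi
      have := hcon i hi
      omega
    omega
  set R := ∑ l ∈ Jᶜ, a l with hR
  have hsplit : ∑ l ∈ J, a l + R = ∑ l, a l := sum_add_sum_compl J a
  by_cases hone : ∃ l ∈ J, l ≠ i ∧ 1 ≤ s l
  · obtain ⟨l, hlJ, hli, hsl⟩ := hone
    by_cases hA1 : ∃ l' ∈ J, 1 ≤ a l'
    · -- move one vertex from the union to a part
      obtain ⟨l', hl'J, hal'⟩ := hA1
      obtain ⟨i', hi'J, hi'l', hsi'⟩ : ∃ i' ∈ J, i' ≠ l' ∧ 1 ≤ s i' := by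
        by_cases h : i = l'
        · exact ⟨l, hlJ, by rw [← h]; exact hli, hsl⟩
        · exact ⟨i, hiJ, h, hsi⟩
      obtain ⟨k, rfl⟩ : ∃ k, b = k + 1 := ⟨b - 1, by omega⟩
      have h5 : a i' + a l' ≤ ∑ l ∈ J, a l := by
        rw [← sum_pair (f := a) hi'l']
        apply sum_le_sum_of_subset
        intro j hj
        rw [mem_insert, mem_singleton] at hj
        rcases hj with rfl | rfl
        · exact hi'J
        · exact hl'J
      refine ⟨s, bump a i' 1, J, k, Or.inr (hJ.resolve_left (by omega)), hs, ?_, ?_, ?_⟩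
      · rw [sum_bump]
        ring
      · have e1 := two_ed (bump a i' 1) J k
        have e2 := two_ed a J (k + 1)
        rw [out_bump hi'J, sq_bump, sum_bump, ← hR] at e1
        rw [← hR] at e2
        nlinarith [e1, e2, hsplit, h5]
      · unfold vl
        rw [← hσ, prod_bump, pow_one, pow_succ]
        calc (∏ l, s l ^ a l) * (σ ^ k * σ) ≤ (∏ l, s l ^ a l) * (σ ^ k * q) :=
              Nat.mul_le_mul_left _ (Nat.mul_le_mul_left _ hσq)
          _ = q * ((∏ l, s l ^ a l) * 1 * σ ^ k) := by ring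
          _ ≤ q ^ 4 * ((∏ l, s l ^ a l) * s i' * σ ^ k) :=
              Nat.mul_le_mul hq1 (Nat.mul_le_mul_right _ (Nat.mul_le_mul_left _ hsi'))
    · push Not at hA1
      have haJ : ∀ j ∈ J, a j = 0 := by
        intro j hj
        have := hA1 j hj
        omega
      have hRs : R = ∑ l, a l := by
        rw [← hsplit, sum_eq_zero haJ, zero_add]
      have hai : a i = 0 := haJ i hiJ
      have hal : a l = 0 := haJ l hlJ
      rcases Nat.lt_or_ge b 2 with hb2 | hb2
      · have hb1 : b = 1 := by omega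
        subst hb1
        apply reduce_zero hs hpos ht hlt (a2 := bump a i 1)
        · rw [sum_bump]
        · have e1 := two_pe (bump a i 1)
          have e2 := two_ed a J 1
          rw [sq_bump, sum_bump, hai] at e1
          rw [← hR, hRs] at e2
          nlinarith [e1, e2]
        · unfold vl
          rw [← hσ, prod_bump, pow_one, pow_one]
          calc (∏ l, s l ^ a l) * σ ≤ (∏ l, s l ^ a l) * q := Nat.mul_le_mul_left _ hσq
            _ = q * ((∏ l, s l ^ a l) * 1) := by ring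
            _ ≤ q * ((∏ l, s l ^ a l) * s i) :=
                Nat.mul_le_mul_left _ (Nat.mul_le_mul_left _ hsi)
      · obtain ⟨k, rfl⟩ : ∃ k, b = k + 2 := ⟨b - 2, by omega⟩
        refine ⟨s, bump (bump a i 1) l 1, J, k, Or.inr (hJ.resolve_left (by omega)), hs,
          ?_, ?_, ?_⟩
        · rw [sum_bump, sum_bump]
          ring
        · have e1 := two_ed (bump (bump a i 1) l 1) J k
          have e2 := two_ed a J (k + 2)
          rw [out_bump hlJ, out_bump hiJ, sq_bump, sum_bump, sq_bump, sum_bump,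
            bump_apply_ne a hli, hai, hal, ← hR, hRs] at e1
          rw [← hR, hRs] at e2
          nlinarith [e1, e2]
        · unfold vl
          rw [← hσ, prod_bump, prod_bump, pow_one, pow_one, pow_add]
          calc (∏ l, s l ^ a l) * (σ ^ k * σ ^ 2) = (∏ l, s l ^ a l) * (σ ^ k * (σ * σ)) := by ring
            _ ≤ (∏ l, s l ^ a l) * (σ ^ k * (q * q)) :=
                Nat.mul_le_mul_left _ (Nat.mul_le_mul_left _ (Nat.mul_le_mul hσq hσq))
            _ = (q * q) * ((∏ l, s l ^ a l) * 1 * 1 * σ ^ k) := by ring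
            _ ≤ q ^ 4 * ((∏ l, s l ^ a l) * s i * s l * σ ^ k) :=
                Nat.mul_le_mul hq2 (Nat.mul_le_mul_right _
                  (Nat.mul_le_mul (Nat.mul_le_mul_left _ hsi) hsl))
  · -- the union is one part
    push Not at hone
    have hσi : σ = s i := by
      rw [hσ, ← add_sum_erase J s hiJ]
      have : ∑ l ∈ J.erase i, s l = 0 := by
        apply sum_eq_zero
        intro l hl
        rw [mem_erase] at hl
        have := hone l hl.2 hl.1
        omega
      omega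
    have h5 : a i ≤ ∑ l ∈ J, a l := single_le_sum (fun _ _ => Nat.zero_le _) hiJ
    apply reduce_zero hs hpos ht hlt (a2 := bump a i b)
    · rw [sum_bump]
    · have e1 := two_pe (bump a i b)
      have e2 := two_ed a J b
      rw [sq_bump, sum_bump] at e1
      rw [← hR] at e2
      have h6 : a i + R ≤ ∑ l, a l := by omega
      have h7 : b * (a i + R) ≤ b * ∑ l, a l := Nat.mul_le_mul_left _ h6
      nlinarith [e1, e2, h7]
    · unfold vl
      rw [← hσ, prod_bump, hσi]
      exact Nat.le_mul_of_pos_left _ hq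

theorem smooth_many {n M : ℕ} (hq : 1 ≤ q) {t : Fin q → ℕ} (ht : ∑ i, t i = n) (hM : M ≤ pe t) (K : ℕ) :
    ∀ (s a : Fin q → ℕ) (J : Finset (Fin q)) (b : ℕ), (b = 0 ∨ J.card = 2) →
      ∑ i, s i = q → ∑ i, a i + b = n → 0 < vl s a J b → M ≤ ed a J b + K →
      ∃ (s' a' : Fin q → ℕ) (J' : Finset (Fin q)) (b' : ℕ), (b' = 0 ∨ J'.card = 2) ∧
        ∑ i, s' i = q ∧ ∑ i, a' i + b' = n ∧ M ≤ ed a' J' b' ∧
        vl s a J b ≤ (q ^ 4) ^ K * vl s' a' J' b' := by
  induction K with
  | zero =>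
    intro s a J b hJ hs hab _ hed
    exact ⟨s, a, J, b, hJ, hs, hab, by omega, by simp⟩
  | succ K ih =>
    intro s a J b hJ hs hab hpos hed
    rcases Nat.lt_or_ge (ed a J b) M with h | h
    · obtain ⟨s', a', J', b', g0, g1, g2, g3, g4⟩ := smooth_one hJ hs hpos (ht.trans hab.symm)
        (show ed a J b + 1 ≤ pe t by omega)
      have hpos' : 0 < vl s' a' J' b' := by
        rcases Nat.eq_zero_or_pos (vl s' a' J' b') with h1 | h1
        · rw [h1] at g4
          omega
        · exact h1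
      obtain ⟨s2, a2, J2, b2, k0, k1, k2, k3, k4⟩ := ih s' a' J' b' g0 g1 (g2.trans hab) hpos'
        (by omega)
      refine ⟨s2, a2, J2, b2, k0, k1, k2, k3, ?_⟩
      calc vl s a J b ≤ q ^ 4 * vl s' a' J' b' := g4
        _ ≤ q ^ 4 * ((q ^ 4) ^ K * vl s2 a2 J2 b2) := Nat.mul_le_mul_left _ k4
        _ = _ := by ring
    · refine ⟨s, a, J, b, hJ, hs, hab, h, ?_⟩
      apply Nat.le_mul_of_pos_left
      positivity

end Pool.Agent.H521_col.Opt
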