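import Mathlib

/-!
A weighted arithmetic-geometric mean inequality with integer exponents.
-/

set_option linter.unusedSectionVars false

namespace Pool.Agent.H521_col.Sym

open Finset

/-- Given degrees `d v` on a finite set `I`, the product of positive integers `a v ≤ q` over `I` is
bounded by an average, with weights not depending on `a`, of products of two powers with at least
the same total degree. -/
theorem amgm {V : Type*} [DecidableEq V] (I : Finset V) (hI : I.Nonempty) (d : V → ℕ) (q : ℕ)
    (hq : 1 ≤ q) :
    ∃ (T : Finset (V × V)) (lam : V × V → ℝ) (be : V × V → ℕ),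
      (∀ t ∈ T, 0 ≤ lam t) ∧ ∑ t ∈ T, lam t = 1 ∧
      (∀ t ∈ T, t.1 ∈ I ∧ t.2 ∈ I ∧ be t ≤ I.card ∧
        ∑ v ∈ I, d v ≤ (I.card - be t) * d t.1 + be t * d t.2) ∧
      ∀ a : V → ℕ, (∀ v ∈ I, 1 ≤ a v ∧ a v ≤ q) →
        ((∏ v ∈ I, a v : ℕ) : ℝ) ≤
          ∑ t ∈ T, lam t * ((q * (a t.1 ^ (I.card - be t) * a t.2 ^ (be t)) : ℕ) : ℝ) := by
  classical
  set N : ℕ := I.card with hN
  have hNpos : 0 < N := card_pos.2 hI
  have hNr : (0 : ℝ) < N := by exact_mod_cast hNpos
  set D : ℕ := ∑ v ∈ I, d v with hD
  set Low : Finset V := I.filter (fun v => N * d v < D) with hLow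
  set High : Finset V := I.filter (fun v => ¬ N * d v < D) with hHigh
  have hlogq : 0 ≤ Real.log q := Real.log_nonneg (by exact_mod_cast hq)
  -- logs
  have hexp : ∀ a : V → ℕ, (∀ v ∈ I, 1 ≤ a v ∧ a v ≤ q) →
      ((∏ v ∈ I, a v : ℕ) : ℝ) = Real.exp (∑ v ∈ I, Real.log (a v)) := by
    intro a ha
    rw [Real.exp_sum, Nat.cast_prod]
    apply prod_congr rfl
    intro v hv
    rw [Real.exp_log]
    exact_mod_cast (ha v hv).1
  by_cases hlow : Low.Nonempty
  · -- the main case
    let x : V → ℝ := fun v => (D : ℝ) - N * d v
    let y : V → ℝ := fun v => (N : ℝ) * d v - D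
    have hx : ∀ v ∈ Low, 0 < x v := by
      intro v hv
      have h1 := (mem_filter.1 hv).2
      have h2 : ((N * d v : ℕ) : ℝ) < (D : ℝ) := by exact_mod_cast h1
      simp only [x]
      push_cast at h2
      linarith
    have hy : ∀ v ∈ High, 0 ≤ y v := by
      intro v hv
      have h1 := (mem_filter.1 hv).2
      push Not at h1
      have h2 : (D : ℝ) ≤ ((N * d v : ℕ) : ℝ) := by exact_mod_cast h1
      simp only [y]
      push_cast at h2
      linarith
    set W : ℝ := ∑ v ∈ Low, x v with hW
    have hWpos : 0 < W := sum_pos hx hlow
    have hsplit : ∀ g : V → ℝ, ∑ v ∈ I, g v = ∑ v ∈ Low, g v + ∑ v ∈ High, g v := by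
      intro g
      rw [hLow, hHigh, sum_filter_add_sum_filter_not]
    have hWy : ∑ v ∈ High, y v = W := by
      have h1 : ∑ v ∈ I, y v = 0 := by
        simp only [y]
        rw [sum_sub_distrib, sum_const, nsmul_eq_mul, ← mul_sum, ← hN, hD]
        push_cast
        ring
      rw [hsplit y] at h1
      have h2 : ∑ v ∈ Low, y v = - W := by
        rw [hW, ← sum_neg_distrib]
        apply sum_congr rfl
        intro v _
        simp only [x, y]
        ring
      linarith
    have hcardLH : (Low.card : ℝ) + High.card = N := by
      have := hsplit (fun _ => (1 : ℝ))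
      simp only [sum_const, nsmul_eq_mul, mul_one] at this
      linarith
    let lam : V × V → ℝ := fun t => (x t.1 + y t.2) / (N * W)
    let bet : V × V → ℝ := fun t => N * x t.1 / (x t.1 + y t.2)
    let alp : V × V → ℝ := fun t => N * y t.2 / (x t.1 + y t.2)
    let be : V × V → ℕ := fun t => ⌈bet t⌉₊
    have hxy : ∀ t ∈ Low ×ˢ High, 0 < x t.1 + y t.2 := by
      intro t ht
      rw [mem_product] at ht
      have h1 := hx _ ht.1
      have h2 := hy _ ht.2
      linarith
    have hab : ∀ t ∈ Low ×ˢ High, alp t + bet t = N := by
      intro t ht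
      have h1 := hxy t ht
      simp only [alp, bet]
      field_simp
      ring
    have hbet0 : ∀ t ∈ Low ×ˢ High, 0 ≤ bet t := by
      intro t ht
      have h1 := hxy t ht
      rw [mem_product] at ht
      have h2 := hx _ ht.1
      simp only [bet]
      positivity
    have halp0 : ∀ t ∈ Low ×ˢ High, 0 ≤ alp t := by
      intro t ht
      have h1 := hxy t ht
      rw [mem_product] at ht
      have h2 := hy _ ht.2
      simp only [alp]
      positivity
    have hbeN : ∀ t ∈ Low ×ˢ High, be t ≤ N := by
      intro t ht
      have h1 := hab t ht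
      have h2 := halp0 t ht
      apply Nat.ceil_le.2
      linarith
    refine ⟨Low ×ˢ High, lam, be, ?_, ?_, ?_, ?_⟩
    · intro t ht
      have h1 := hxy t ht
      simp only [lam]
      positivity
    · have h1 : ∑ t ∈ Low ×ˢ High, lam t = (∑ t ∈ Low ×ˢ High, (x t.1 + y t.2)) / (N * W) := by
        rw [sum_div]
      rw [h1, sum_product]
      have h2 : ∑ i ∈ Low, ∑ j ∈ High, (x i + y j) = N * W := by
        have h3 : ∀ i ∈ Low, ∑ j ∈ High, (x i + y j) = High.card * x i + W := by
          intro i _
          rw [sum_add_distrib, sum_const, nsmul_eq_mul, hWy]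
        rw [sum_congr rfl h3, sum_add_distrib, ← mul_sum, sum_const, nsmul_eq_mul, ← hW,
          ← hcardLH]
        ring
      simp only
      rw [h2]
      field_simp
    · intro t ht
      have hb := hbeN t ht
      have h1 := hxy t ht
      have ht' := mem_product.1 ht
      refine ⟨(mem_filter.1 ht'.1).1, (mem_filter.1 ht'.2).1, hb, ?_⟩
      have h2 : (D : ℝ) ≤ (((N - be t) * d t.1 + be t * d t.2 : ℕ) : ℝ) := by
        rw [Nat.cast_add, Nat.cast_mul, Nat.cast_mul, Nat.cast_sub hb]
        have h3 : x t.1 + y t.2 = N * ((d t.2 : ℝ) - d t.1) := by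
          simp only [x, y]
          ring
        rw [h3] at h1
        have h4 : 0 < (d t.2 : ℝ) - d t.1 := by
          by_contra h
          push Not at h
          have := mul_nonpos_of_nonneg_of_nonpos hNr.le h
          linarith
        have h5 : bet t * ((d t.2 : ℝ) - d t.1) = x t.1 := by
          simp only [bet]
          rw [h3]
          field_simp
        have h6 : bet t ≤ (be t : ℝ) := Nat.le_ceil _
        have h7 : bet t * ((d t.2 : ℝ) - d t.1) ≤ (be t : ℝ) * ((d t.2 : ℝ) - d t.1) :=
          mul_le_mul_of_nonneg_right h6 h4.le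
        rw [h5] at h7
        simp only [x] at h7
        nlinarith [h7]
      exact_mod_cast h2
    · intro a ha
      rw [hexp a ha]
      set l : V → ℝ := fun v => Real.log (a v) with hl
      have hdec : ∑ v ∈ I, l v = ∑ t ∈ Low ×ˢ High, lam t • (alp t * l t.1 + bet t * l t.2) := by
        have h1 : ∀ t ∈ Low ×ˢ High, lam t • (alp t * l t.1 + bet t * l t.2) =
            (y t.2 / W) * l t.1 + (x t.1 / W) * l t.2 := by
          intro t ht
          have h2 := hxy t ht
          simp only [lam, alp, bet, smul_eq_mul]
          field_simp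
        rw [sum_congr rfl h1, sum_add_distrib, sum_product, sum_product_right, hsplit l]
        congr 1
        · apply sum_congr rfl
          intro i _
          simp only
          rw [← sum_mul, ← sum_div, hWy, div_self hWpos.ne', one_mul]
        · apply sum_congr rfl
          intro j _
          simp only
          rw [← sum_mul, ← sum_div, ← hW, div_self hWpos.ne', one_mul]
      rw [hdec]
      refine (convexOn_exp.map_sum_le ?_ ?_ (fun _ _ => Set.mem_univ _)).trans ?_
      · intro t ht
        have h1 := hxy t ht
        simp only [lam]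
        positivity
      · have h1 : ∑ t ∈ Low ×ˢ High, lam t = (∑ t ∈ Low ×ˢ High, (x t.1 + y t.2)) / (N * W) := by
          rw [sum_div]
        rw [h1, sum_product]
        have h2 : ∑ i ∈ Low, ∑ j ∈ High, (x i + y j) = N * W := by
          have h3 : ∀ i ∈ Low, ∑ j ∈ High, (x i + y j) = High.card * x i + W := by
            intro i _
            rw [sum_add_distrib, sum_const, nsmul_eq_mul, hWy]
          rw [sum_congr rfl h3, sum_add_distrib, ← mul_sum, sum_const, nsmul_eq_mul, ← hW,
            ← hcardLH]
          ring
        simp only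
        rw [h2]
        field_simp
      · apply sum_le_sum
        intro t ht
        rw [smul_eq_mul]
        apply mul_le_mul_of_nonneg_left
        · have ht' := mem_product.1 ht
          have hi := ha t.1 (mem_filter.1 ht'.1).1
          have hj := ha t.2 (mem_filter.1 ht'.2).1
          have hb := hbeN t ht
          have hlb : (((q * (a t.1 ^ (N - be t) * a t.2 ^ (be t)) : ℕ)) : ℝ) =
              Real.exp (Real.log q + ((N - be t : ℕ) * l t.1 + be t * l t.2)) := by
            rw [Real.exp_add, Real.exp_add, Real.exp_log (by exact_mod_cast hq),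
              Real.exp_nat_mul, Real.exp_nat_mul, hl]
            simp only
            rw [Real.exp_log (by exact_mod_cast hi.1), Real.exp_log (by exact_mod_cast hj.1)]
            push_cast
            ring
          rw [hlb]
          apply Real.exp_le_exp.2
          have l1 : 0 ≤ l t.1 := Real.log_nonneg (by exact_mod_cast hi.1)
          have l2 : 0 ≤ l t.2 := Real.log_nonneg (by exact_mod_cast hj.1)
          have l3 : l t.1 ≤ Real.log q := Real.log_le_log (by exact_mod_cast hi.1)
            (by exact_mod_cast hi.2)
          have h6 : bet t ≤ (be t : ℝ) := Nat.le_ceil _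
          have h7 : (be t : ℝ) < bet t + 1 := Nat.ceil_lt_add_one (hbet0 t ht)
          have h8 := hab t ht
          rw [Nat.cast_sub hb]
          have h9 : alp t = N - bet t := by linarith
          rw [h9]
          have h10 : ((be t : ℝ) - bet t) * l t.1 ≤ 1 * Real.log q := by
            apply mul_le_mul
            · linarith
            · exact l3
            · exact l1
            · norm_num
          have h11 : bet t * l t.2 ≤ be t * l t.2 := mul_le_mul_of_nonneg_right h6 l2
          nlinarith [h10, h11]
        · have h1 := hxy t ht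
          simp only [lam]
          positivity
  · -- all degrees are equal
    rw [not_nonempty_iff_eq_empty] at hlow
    have hge : ∀ v ∈ I, D ≤ N * d v := by
      intro v hv
      by_contra h
      push Not at h
      have : v ∈ Low := mem_filter.2 ⟨hv, h⟩
      rw [hlow] at this
      exact absurd this (notMem_empty v)
    refine ⟨I.image (fun v => (v, v)), fun _ => 1 / N, fun _ => 0, ?_, ?_, ?_, ?_⟩
    · intro t _
      positivity
    · rw [sum_image (fun u _ v _ h => (Prod.mk.inj h).1), sum_const, nsmul_eq_mul, ← hN]
      field_simp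
    · intro t ht
      rw [mem_image] at ht
      obtain ⟨v, hv, rfl⟩ := ht
      refine ⟨hv, hv, Nat.zero_le _, ?_⟩
      simpa using hge v hv
    · intro a ha
      rw [hexp a ha, sum_image (fun u _ v _ h => (Prod.mk.inj h).1)]
      set l : V → ℝ := fun v => Real.log (a v) with hl
      have hdec : ∑ v ∈ I, l v = ∑ v ∈ I, (1 / (N : ℝ)) • (N * l v) := by
        apply sum_congr rfl
        intro v _
        rw [smul_eq_mul]
        field_simp
      rw [hdec]
      refine (convexOn_exp.map_sum_le ?_ ?_ (fun _ _ => Set.mem_univ _)).trans ?_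
      · intro v _
        positivity
      · rw [sum_const, nsmul_eq_mul, ← hN]
        field_simp
      · apply sum_le_sum
        intro v hv
        rw [smul_eq_mul]
        apply mul_le_mul_of_nonneg_left _ (by positivity)
        have hi := ha v hv
        rw [Real.exp_nat_mul, hl]
        simp only
        rw [Real.exp_log (by exact_mod_cast hi.1)]
        simp only [Nat.sub_zero, pow_zero, mul_one]
        push_cast
        have h1 : (1 : ℝ) ≤ q := by exact_mod_cast hq
        have h2 : (0 : ℝ) ≤ (a v : ℝ) ^ N := by positivity
        nlinarith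

end Pool.Agent.H521_col.Sym
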