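import Pool.Agent.H521_col.Sym1
import Pool.Agent.H521_col.Transfer

/-!
Symmetrisation inside an independent set.
-/

set_option linter.unusedSectionVars false

namespace Pool.Agent.H521_col.Sym

open Finset Pool.Agent.H521_col
open scoped Classical

variable {V : Type*} [Fintype V] [DecidableEq V]
variable {α : Type*} [Fintype α] [DecidableEq α] [Zero α]

/-- the colours not used by `c` on the neighbours of `v` -/
noncomputable def allow (G : SimpleGraph V) (c : V → α) (v : V) : Finset α :=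
  univ.filter (fun a => ∀ w, G.Adj v w → c w ≠ a)

theorem mem_allow {G : SimpleGraph V} {c : V → α} {v : V} {a : α} :
    a ∈ allow G c v ↔ ∀ w, G.Adj v w → c w ≠ a := by
  simp [allow]

/-- counting colourings by their restriction to the complement of an independent set -/
theorem card_col_split {G : SimpleGraph V} {I : Finset V}
    (hI : ∀ u ∈ I, ∀ v ∈ I, ¬ G.Adj u v) :
    (Col α G univ).card = ∑ c ∈ Col α G Iᶜ, ∏ v ∈ I, (allow G c v).card := by
  rw [card_eq_sum_card_fiberwise (f := res Iᶜ) (t := Col α G Iᶜ)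
    (fun c hc => res_mem_Col (subset_univ _) hc)]
  apply sum_congr rfl
  intro c hc
  have hset : (Col α G univ).filter (fun c' => res Iᶜ c' = c) =
      Fintype.piFinset (fun v => if v ∈ I then allow G c v else {c v}) := by
    ext c'
    rw [mem_filter, Fintype.mem_piFinset]
    constructor
    · rintro ⟨h1, h2⟩ v
      by_cases hv : v ∈ I
      · rw [if_pos hv, mem_allow]
        intro w hw
        have hwI : w ∉ I := fun h => hI v hv w h hw
        rw [← h2, res_apply_of_mem (mem_compl.2 hwI)]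
        exact ((mem_Col.1 h1).2 v (mem_univ v) w (mem_univ w) hw).symm
      · rw [if_neg hv, mem_singleton, ← h2, res_apply_of_mem (mem_compl.2 hv)]
    · intro h
      have hout : ∀ v, v ∉ I → c' v = c v := by
        intro v hv
        have := h v
        rwa [if_neg hv, mem_singleton] at this
      have hin : ∀ v ∈ I, ∀ w, G.Adj v w → c' w ≠ c' v := by
        intro v hv w hw
        have h1 := h v
        rw [if_pos hv, mem_allow] at h1
        have hwI : w ∉ I := fun h => hI v hv w h hw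
        rw [hout w hwI]
        exact h1 w hw
      refine ⟨?_, ?_⟩
      · rw [mem_Col]
        refine ⟨fun w hw => absurd (mem_univ w) hw, ?_⟩
        intro u _ v _ huv
        by_cases hu : u ∈ I
        · exact (hin u hu v huv).symm
        · by_cases hv : v ∈ I
          · exact hin v hv u huv.symm
          · rw [hout u hu, hout v hv]
            exact (mem_Col.1 hc).2 u (mem_compl.2 hu) v (mem_compl.2 hv) huv
      · rw [← res_eq_self hc, res_eq_iff]
        intro w hw
        exact hout w (mem_compl.1 hw)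
  rw [hset, Fintype.card_piFinset]
  have h1 : ∀ v, (if v ∈ I then allow G c v else {c v}).card =
      if v ∈ I then (allow G c v).card else 1 := by
    intro v
    split_ifs <;> simp
  rw [prod_congr rfl (fun v _ => h1 v), prod_ite, prod_const_one, mul_one]
  apply prod_congr _ (fun _ _ => rfl)
  ext v
  simp

/-- edges, split along an independent set -/
theorem e2_split {G : SimpleGraph V} {I : Finset V}
    (hI : ∀ u ∈ I, ∀ v ∈ I, ¬ G.Adj u v) :
    e2 G univ = e2 G Iᶜ + 2 * ∑ v ∈ I, dg G univ v := by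
  have hdg : ∀ v, dg G univ v = dg G Iᶜ v + dg G I v := by
    intro v
    rw [dg_eq_sum, dg_eq_sum, dg_eq_sum, add_comm, sum_add_sum_compl]
  have hdgI : ∀ v ∈ I, dg G univ v = dg G Iᶜ v := by
    intro v hv
    rw [hdg v]
    have : dg G I v = 0 := by
      rw [dg, card_eq_zero, nb, filter_eq_empty_iff]
      intro w hw
      exact hI v hv w hw
    omega
  have h1 : e2 G univ = ∑ v ∈ I, dg G univ v + ∑ v ∈ Iᶜ, dg G univ v := by
    rw [e2, sum_add_sum_compl]
  have h2 : ∑ v ∈ Iᶜ, dg G univ v = e2 G Iᶜ + ∑ v ∈ Iᶜ, dg G I v := by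
    rw [e2, ← sum_add_distrib]
    exact sum_congr rfl (fun v _ => hdg v)
  have h3 : ∑ v ∈ Iᶜ, dg G I v = ∑ v ∈ I, dg G univ v := by
    have h4 : ∑ v ∈ Iᶜ, dg G I v = ∑ v ∈ Iᶜ, ∑ w ∈ I, if G.Adj v w then 1 else 0 :=
      sum_congr rfl (fun v _ => dg_eq_sum)
    rw [h4, sum_comm]
    apply sum_congr rfl
    intro w hw
    rw [sum_adj_eq_dg, hdgI w hw]
  omega

variable {G : SimpleGraph V} {I : Finset V} {φ : V → V}

theorem comap_col (h1 : ∀ v, v ∉ I → φ v = v) :
    Col α (G.comap φ) Iᶜ = Col α G Iᶜ := by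
  ext c
  rw [mem_Col, mem_Col]
  apply and_congr Iff.rfl
  constructor
  · intro h u hu v hv huv
    apply h u hu v hv
    rw [SimpleGraph.comap_adj, h1 u (mem_compl.1 hu), h1 v (mem_compl.1 hv)]
    exact huv
  · intro h u hu v hv huv
    apply h u hu v hv
    rwa [SimpleGraph.comap_adj, h1 u (mem_compl.1 hu), h1 v (mem_compl.1 hv)] at huv

theorem comap_adj_iff (hI : ∀ u ∈ I, ∀ v ∈ I, ¬ G.Adj u v) (h1 : ∀ v, v ∉ I → φ v = v)
    (h2 : ∀ v ∈ I, φ v ∈ I) {v w : V} (hv : v ∈ I) :
    (G.comap φ).Adj v w ↔ G.Adj (φ v) w := by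
  rw [SimpleGraph.comap_adj]
  by_cases hw : w ∈ I
  · constructor
    · intro h
      exact absurd h (hI _ (h2 v hv) _ (h2 w hw))
    · intro h
      exact absurd h (hI _ (h2 v hv) _ hw)
  · rw [h1 w hw]

theorem comap_allow (hI : ∀ u ∈ I, ∀ v ∈ I, ¬ G.Adj u v) (h1 : ∀ v, v ∉ I → φ v = v)
    (h2 : ∀ v ∈ I, φ v ∈ I) (c : V → α) {v : V} (hv : v ∈ I) :
    allow (G.comap φ) c v = allow G c (φ v) := by
  ext a
  rw [mem_allow, mem_allow]
  constructor
  · intro h w hw
    exact h w ((comap_adj_iff hI h1 h2 hv).2 hw)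
  · intro h w hw
    exact h w ((comap_adj_iff hI h1 h2 hv).1 hw)

theorem comap_dg (hI : ∀ u ∈ I, ∀ v ∈ I, ¬ G.Adj u v) (h1 : ∀ v, v ∉ I → φ v = v)
    (h2 : ∀ v ∈ I, φ v ∈ I) {v : V} (hv : v ∈ I) :
    dg (G.comap φ) univ v = dg G univ (φ v) := by
  rw [dg, dg]
  congr 1
  ext w
  rw [mem_nb, mem_nb]
  exact and_congr Iff.rfl (comap_adj_iff hI h1 h2 hv)

theorem comap_indep (hI : ∀ u ∈ I, ∀ v ∈ I, ¬ G.Adj u v) (h2 : ∀ v ∈ I, φ v ∈ I) :
    ∀ u ∈ I, ∀ v ∈ I, ¬ (G.comap φ).Adj u v := by
  intro u hu v hv h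
  rw [SimpleGraph.comap_adj] at h
  exact hI _ (h2 u hu) _ (h2 v hv) h

theorem comap_e2_base (h1 : ∀ v, v ∉ I → φ v = v) : e2 (G.comap φ) Iᶜ = e2 G Iᶜ := by
  rw [e2, e2]
  apply sum_congr rfl
  intro v hv
  rw [dg_eq_sum, dg_eq_sum]
  apply sum_congr rfl
  intro w hw
  rw [SimpleGraph.comap_adj, h1 v (mem_compl.1 hv), h1 w (mem_compl.1 hw)]

/-- symmetrisation inside an independent set: at most two neighbourhoods remain -/
theorem sym_step (α : Type*) [Fintype α] [DecidableEq α] [Zero α] {G : SimpleGraph V}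
    {I : Finset V} (hI : ∀ u ∈ I, ∀ v ∈ I, ¬ G.Adj u v) :
    ∃ φ : V → V, (∀ v, v ∉ I → φ v = v) ∧ (∀ v ∈ I, φ v ∈ I) ∧ (I.image φ).card ≤ 2 ∧
      e2 G univ ≤ e2 (G.comap φ) univ ∧
      (Col α G univ).card ≤ Fintype.card α * (Col α (G.comap φ) univ).card := by
  have hq : 1 ≤ Fintype.card α := Fintype.card_pos_iff.2 ⟨0⟩
  rcases I.eq_empty_or_nonempty with rfl | hIne
  · refine ⟨id, fun _ _ => rfl, fun v hv => hv, by simp, ?_, ?_⟩
    · rw [SimpleGraph.comap_id]
    · rw [SimpleGraph.comap_id]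
      exact Nat.le_mul_of_pos_left _ hq
  obtain ⟨T, lam, be, hlam, hsum, hT, hmain⟩ := amgm I hIne (fun v => dg G univ v)
    (Fintype.card α) hq
  -- the maps
  have hφ : ∀ t ∈ T, ∃ φ : V → V, (∀ v, v ∉ I → φ v = v) ∧ (∀ v ∈ I, φ v = t.1 ∨ φ v = t.2) ∧
      ∀ (M : Type) [CommMonoid M] (g : V → M),
        ∏ v ∈ I, g (φ v) = g t.1 ^ (I.card - be t) * g t.2 ^ (be t) := by
    intro t ht
    obtain ⟨_, _, hbe, _⟩ := hT t ht
    obtain ⟨J, hJ, hJc⟩ := exists_subset_card_eq hbe
    refine ⟨fun v => if v ∈ J then t.2 else if v ∈ I then t.1 else v, ?_, ?_, ?_⟩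
    · intro v hv
      simp only
      rw [if_neg (fun h => hv (hJ h)), if_neg hv]
    · intro v hv
      by_cases h : v ∈ J
      · right
        simp only
        rw [if_pos h]
      · left
        simp only
        rw [if_neg h, if_pos hv]
    · intro M _ g
      rw [← prod_sdiff hJ]
      have e1 : ∀ v ∈ I \ J, g (if v ∈ J then t.2 else if v ∈ I then t.1 else v) = g t.1 := by
        intro v hv
        rw [mem_sdiff] at hv
        rw [if_neg hv.2, if_pos hv.1]
      have e2 : ∀ v ∈ J, g (if v ∈ J then t.2 else if v ∈ I then t.1 else v) = g t.2 := by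
        intro v hv
        rw [if_pos hv]
      rw [prod_congr rfl e1, prod_congr rfl e2, prod_const, prod_const,
        card_sdiff_of_subset hJ, hJc]
  have : Nonempty V := ⟨hIne.choose⟩
  choose! Φ hΦ1 hΦ2 hΦ3 using hφ
  -- the key inequality
  have hkey : ((Col α G univ).card : ℝ) ≤
      ∑ t ∈ T, lam t * ((Fintype.card α * (Col α (G.comap (Φ t)) univ).card : ℕ) : ℝ) := by
    have hc1 : ∀ t ∈ T, (Col α (G.comap (Φ t)) univ).card =
        ∑ c ∈ Col α G Iᶜ, ((allow G c t.1).card ^ (I.card - be t) *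
          (allow G c t.2).card ^ (be t)) := by
      intro t ht
      have hin : ∀ v ∈ I, Φ t v ∈ I := by
        intro v hv
        rcases hΦ2 t ht v hv with h | h <;> rw [h]
        · exact (hT t ht).1
        · exact (hT t ht).2.1
      rw [card_col_split (comap_indep hI hin), comap_col (hΦ1 t ht)]
      apply sum_congr rfl
      intro c _
      rw [← hΦ3 t ht ℕ (fun v => (allow G c v).card)]
      apply prod_congr rfl
      intro v hv
      rw [comap_allow hI (hΦ1 t ht) hin c hv]
    have hc2 : ∀ c ∈ Col α G Iᶜ, ((∏ v ∈ I, (allow G c v).card : ℕ) : ℝ) ≤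
        ∑ t ∈ T, lam t * ((Fintype.card α * ((allow G c t.1).card ^ (I.card - be t) *
          (allow G c t.2).card ^ (be t)) : ℕ) : ℝ) := by
      intro c _
      by_cases hz : ∀ v ∈ I, 1 ≤ (allow G c v).card
      · exact hmain (fun v => (allow G c v).card) (fun v hv => ⟨hz v hv, card_le_univ _⟩)
      · push Not at hz
        obtain ⟨v, hv, hv0⟩ := hz
        have h0 : ∏ v ∈ I, (allow G c v).card = 0 :=
          prod_eq_zero hv (by omega)
        rw [h0, Nat.cast_zero]
        apply sum_nonneg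
        intro t ht
        exact mul_nonneg (hlam t ht) (Nat.cast_nonneg _)
    rw [card_col_split hI, Nat.cast_sum]
    refine (sum_le_sum hc2).trans (le_of_eq ?_)
    rw [sum_comm]
    apply sum_congr rfl
    intro t ht
    rw [hc1 t ht, ← mul_sum, ← Nat.cast_sum, mul_sum]
  -- choose the best map
  have hex : ∃ t ∈ T, (Col α G univ).card ≤
      Fintype.card α * (Col α (G.comap (Φ t)) univ).card := by
    by_contra hcon
    push Not at hcon
    have h1 : ∑ t ∈ T, lam t * ((Fintype.card α * (Col α (G.comap (Φ t)) univ).card : ℕ) : ℝ) <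
        ∑ t ∈ T, lam t * ((Col α G univ).card : ℝ) := by
      apply sum_lt_sum
      · intro t ht
        apply mul_le_mul_of_nonneg_left _ (hlam t ht)
        exact_mod_cast (hcon t ht).le
      · have h2 : ∃ t ∈ T, 0 < lam t := by
          by_contra h
          push Not at h
          have : ∑ t ∈ T, lam t ≤ 0 := sum_nonpos h
          linarith
        obtain ⟨t, ht, hpos⟩ := h2
        refine ⟨t, ht, ?_⟩
        apply mul_lt_mul_of_pos_left _ hpos
        exact_mod_cast hcon t ht
    rw [← sum_mul, hsum, one_mul] at h1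
    linarith
  obtain ⟨t, ht, hle⟩ := hex
  have hin : ∀ v ∈ I, Φ t v ∈ I := by
    intro v hv
    rcases hΦ2 t ht v hv with h | h <;> rw [h]
    · exact (hT t ht).1
    · exact (hT t ht).2.1
  refine ⟨Φ t, hΦ1 t ht, hin, ?_, ?_, hle⟩
  · refine (card_le_card (t := {t.1, t.2}) ?_).trans card_le_two
    intro w hw
    rw [mem_image] at hw
    obtain ⟨v, hv, rfl⟩ := hw
    rw [mem_insert, mem_singleton]
    exact hΦ2 t ht v hv
  · rw [e2_split hI, e2_split (comap_indep hI hin), comap_e2_base (hΦ1 t ht)]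
    have h1 : ∑ v ∈ I, dg (G.comap (Φ t)) univ v = ∑ v ∈ I, dg G univ (Φ t v) :=
      sum_congr rfl (fun v hv => comap_dg hI (hΦ1 t ht) hin hv)
    have h2 : ∑ v ∈ I, dg G univ (Φ t v) =
        (I.card - be t) * dg G univ t.1 + be t * dg G univ t.2 := by
      have := hΦ3 t ht (Multiplicative ℕ) (fun v => Multiplicative.ofAdd (dg G univ v))
      have h3 := congrArg Multiplicative.toAdd this
      simpa using h3
    rw [h1, h2]
    have := (hT t ht).2.2.2
    omega

end Pool.Agent.H521_col.Sym
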