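import Pool.Agent.H521_col.Sym2

/-!
Symmetrisation: at most `2 q` twin classes, up to the factor `q ^ q`; and the resulting bound by
labellings.
-/

set_option linter.unusedSectionVars false

namespace Pool.Agent.H521_col.Sym

open Finset Pool.Agent.H521_col
open scoped Classical

variable {V : Type*} [Fintype V] [DecidableEq V]

theorem sym_all (α : Type*) [Fintype α] [DecidableEq α] [Zero α] {G : SimpleGraph V}
    {c0 : V → α} (hc0 : ∀ u v, G.Adj u v → c0 u ≠ c0 v) (T : Finset α) :
    ∃ φ : V → V, (∀ v, c0 (φ v) = c0 v) ∧ (∀ v, c0 v ∉ T → φ v = v) ∧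
      (∀ x ∈ T, ((univ.filter (fun v => c0 v = x)).image φ).card ≤ 2) ∧
      e2 G univ ≤ e2 (G.comap φ) univ ∧
      (Col α G univ).card ≤ Fintype.card α ^ T.card * (Col α (G.comap φ) univ).card := by
  induction T using Finset.induction_on with
  | empty =>
    refine ⟨id, fun _ => rfl, fun _ _ => rfl, fun x hx => absurd hx (notMem_empty x), ?_, ?_⟩
    · rw [SimpleGraph.comap_id]
    · rw [SimpleGraph.comap_id, card_empty, pow_zero, one_mul]
  | insert x T hx ih =>
    obtain ⟨φ, h1, h2, h3, h4, h5⟩ := ih
    set I : Finset V := univ.filter (fun v => c0 v = x) with hI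
    have hmem : ∀ v, v ∈ I ↔ c0 v = x := by
      intro v
      rw [hI, mem_filter]
      exact ⟨fun h => h.2, fun h => ⟨mem_univ v, h⟩⟩
    have hind : ∀ u ∈ I, ∀ v ∈ I, ¬ (G.comap φ).Adj u v := by
      intro u hu v hv h
      rw [SimpleGraph.comap_adj] at h
      apply hc0 _ _ h
      rw [h1, h1, (hmem u).1 hu, (hmem v).1 hv]
    obtain ⟨ψ, g1, g2, g3, g4, g5⟩ := sym_step α hind
    have hcc : (G.comap φ).comap ψ = G.comap (φ ∘ ψ) := by
      rw [SimpleGraph.comap_comap]
    rw [hcc] at g4 g5
    have hψ : ∀ v, c0 (ψ v) = c0 v := by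
      intro v
      by_cases hv : v ∈ I
      · rw [(hmem _).1 (g2 v hv), (hmem v).1 hv]
      · rw [g1 v hv]
    refine ⟨φ ∘ ψ, ?_, ?_, ?_, h4.trans g4, ?_⟩
    · intro v
      rw [Function.comp_apply, h1, hψ]
    · intro v hv
      rw [mem_insert, not_or] at hv
      rw [Function.comp_apply, g1 v (fun h => hv.1 ((hmem v).1 h)), h2 v hv.2]
    · intro y hy
      rw [← image_image]
      by_cases hyx : y = x
      · subst hyx
        exact card_image_le.trans g3
      · have hyT : y ∈ T := by
          rcases mem_insert.1 hy with h | h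
          · exact absurd h hyx
          · exact h
        have h6 : (univ.filter (fun v => c0 v = y)).image ψ = univ.filter (fun v => c0 v = y) := by
          have h7 : ∀ v ∈ univ.filter (fun v => c0 v = y), ψ v = id v := by
            intro v hv
            rw [mem_filter] at hv
            apply g1
            intro h
            exact hyx (hv.2.symm.trans ((hmem v).1 h))
          rw [image_congr (fun v hv => h7 v hv), image_id]
        rw [h6]
        exact h3 y hyT
    · rw [card_insert_of_notMem hx, pow_succ, mul_assoc]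
      exact h5.trans (Nat.mul_le_mul_left _ g5)

theorem sym_final (α : Type*) [Fintype α] [DecidableEq α] [Zero α] {G : SimpleGraph V}
    {c0 : V → α} (hc0 : ∀ u v, G.Adj u v → c0 u ≠ c0 v) :
    ∃ φ : V → V, (univ.image φ).card ≤ 2 * Fintype.card α ∧
      e2 G univ ≤ e2 (G.comap φ) univ ∧
      (Col α G univ).card ≤
        Fintype.card α ^ Fintype.card α * (Col α (G.comap φ) univ).card := by
  obtain ⟨φ, _, _, h3, h4, h5⟩ := sym_all α hc0 univ
  refine ⟨φ, ?_, h4, ?_⟩
  · have h6 : univ.image φ ⊆ (univ : Finset α).biUnion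
        (fun x => (univ.filter (fun v => c0 v = x)).image φ) := by
      intro w hw
      rw [mem_image] at hw
      obtain ⟨v, _, rfl⟩ := hw
      rw [mem_biUnion]
      exact ⟨c0 v, mem_univ _, mem_image_of_mem _ (mem_filter.2 ⟨mem_univ v, rfl⟩)⟩
    refine (card_le_card h6).trans (card_biUnion_le.trans ?_)
    calc ∑ x : α, ((univ.filter (fun v => c0 v = x)).image φ).card ≤ ∑ _x : α, 2 :=
          sum_le_sum h3
      _ = 2 * Fintype.card α := by
          rw [sum_const, card_univ, smul_eq_mul, mul_comm]
  · rwa [card_univ] at h5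

/-- the label of the twin class of `v` in a colouring `c` -/
noncomputable def lab {α : Type*} [DecidableEq α] (φ : V → V) (c : V → α) (x : V) : Finset α :=
  (univ.filter (fun w => φ w = x)).image c

/-- bound by labellings -/
theorem lab_bound {α : Type*} [Fintype α] [DecidableEq α] [Zero α] {G : SimpleGraph V}
    {φ : V → V} {F : ℕ}
    (hF : ∀ L : V → Finset α, (∀ u v, (G.comap φ).Adj u v → Disjoint (L u) (L v)) →
      ∏ v, (L v).card ≤ F) :
    (Col α (G.comap φ) univ).card ≤
      (2 ^ Fintype.card α) ^ (univ.image φ).card * F := by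
  let f : (V → α) → ({x // x ∈ univ.image φ} → Finset α) := fun c x => lab φ c x.1
  have h1 : ∀ b ∈ (Col α (G.comap φ) univ).image f,
      ((Col α (G.comap φ) univ).filter (fun c => f c = b)).card ≤ F := by
    intro b hb
    rw [mem_image] at hb
    obtain ⟨c, hc, rfl⟩ := hb
    let L : V → Finset α := fun v => lab φ c (φ v)
    have hL : ∀ u v, (G.comap φ).Adj u v → Disjoint (L u) (L v) := by
      intro u v huv
      rw [disjoint_left]
      intro a ha hb
      simp only [L, lab, mem_image, mem_filter, mem_univ, true_and] at ha hb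
      obtain ⟨u', hu', rfl⟩ := ha
      obtain ⟨v', hv', hcc⟩ := hb
      rw [SimpleGraph.comap_adj] at huv
      have hadj : (G.comap φ).Adj u' v' := by
        rw [SimpleGraph.comap_adj, hu', hv']
        exact huv
      exact (mem_Col.1 hc).2 u' (mem_univ _) v' (mem_univ _) hadj hcc.symm
    refine le_trans ?_ (hF L hL)
    rw [← Fintype.card_piFinset]
    apply card_le_card
    intro c' hc'
    rw [mem_filter] at hc'
    rw [Fintype.mem_piFinset]
    intro v
    have h2 := congrFun hc'.2 ⟨φ v, mem_image_of_mem _ (mem_univ v)⟩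
    simp only [f] at h2
    simp only [L]
    rw [← h2]
    exact mem_image_of_mem _ (mem_filter.2 ⟨mem_univ v, rfl⟩)
  have h2 := card_le_mul_card_image (s := Col α (G.comap φ) univ) (f := f) F h1
  refine h2.trans ?_
  rw [mul_comm]
  apply Nat.mul_le_mul_right
  refine (card_le_univ _).trans ?_
  rw [Fintype.card_fun, Fintype.card_finset, Fintype.card_coe]

/-- the number of colourings is at most a constant times the maximum weight of a labelling -/
theorem sym_bound (α : Type*) [Fintype α] [DecidableEq α] [Zero α] {G : SimpleGraph V} {F : ℕ}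
    (hF : ∀ L : V → Finset α,
      e2 G univ ≤ ((univ : Finset (V × V)).filter (fun p => Disjoint (L p.1) (L p.2))).card →
      ∏ v, (L v).card ≤ F) :
    (Col α G univ).card ≤
      Fintype.card α ^ Fintype.card α * 4 ^ (Fintype.card α ^ 2) * F := by
  rcases (Col α G univ).eq_empty_or_nonempty with h0 | ⟨c0, hc0⟩
  · rw [h0, card_empty]
    exact Nat.zero_le _
  have hc0' : ∀ u v, G.Adj u v → c0 u ≠ c0 v := fun u v huv =>
    (mem_Col.1 hc0).2 u (mem_univ u) v (mem_univ v) huv
  obtain ⟨φ, h1, h2, h3⟩ := sym_final α hc0'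
  have h4 : (Col α (G.comap φ) univ).card ≤
      (2 ^ Fintype.card α) ^ (univ.image φ).card * F := by
    apply lab_bound
    intro L hL
    apply hF
    refine h2.trans ?_
    rw [e2]
    have h5 : ∑ v, dg (G.comap φ) univ v =
        ((univ : Finset (V × V)).filter (fun p => (G.comap φ).Adj p.1 p.2)).card := by
      rw [card_filter, ← univ_product_univ, sum_product]
      apply sum_congr rfl
      intro u _
      rw [dg_eq_sum]
      rfl
    rw [h5]
    apply card_le_card
    intro p hp
    rw [mem_filter] at hp ⊢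
    exact ⟨mem_univ _, hL _ _ hp.2⟩
  refine h3.trans ?_
  rw [mul_assoc]
  apply Nat.mul_le_mul_left
  refine h4.trans (Nat.mul_le_mul_right _ ?_)
  calc (2 ^ Fintype.card α) ^ (univ.image φ).card ≤ (2 ^ Fintype.card α) ^ (2 * Fintype.card α) :=
        Nat.pow_le_pow_right (by positivity) h1
    _ = 4 ^ (Fintype.card α ^ 2) := by
        rw [← pow_mul]
        have : (4 : ℕ) = 2 ^ 2 := by norm_num
        rw [this, ← pow_mul]
        congr 1
        ring

end Pool.Agent.H521_col.Sym
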