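import Pool.Agent.H521_col.Basic

/-!
Numbers of edges of Turán graphs.
-/

set_option linter.unusedSectionVars false

namespace Pool.Agent.H521_col

open Finset
open scoped Classical

/-- number of edges of the Turán graph with `N` vertices and `q` classes -/
noncomputable def tur (N q : ℕ) : ℕ := Nat.card (SimpleGraph.turanGraph N q).edgeSet

theorem tur_eq (N q : ℕ) : tur N q = (SimpleGraph.turanGraph N q).edgeFinset.card := by
  rw [tur, Nat.card_eq_fintype_card, SimpleGraph.edgeFinset_card]

theorem tur_add (n r : ℕ) : tur (n + r) r = tur n r + n * (r - 1) + r.choose 2 := by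
  rw [tur_eq, tur_eq]
  convert SimpleGraph.card_edgeFinset_turanGraph_add (n := n) (r := r)

theorem tur_of_le {N q : ℕ} (h : N ≤ q) : tur N q = N.choose 2 := by
  have h2 : SimpleGraph.turanGraph N q = ⊤ := SimpleGraph.turanGraph_eq_top.2 (Or.inr h)
  rw [tur, h2, Nat.card_eq_fintype_card, ← SimpleGraph.edgeFinset_card]
  have := SimpleGraph.card_edgeFinset_top_eq_card_choose_two (V := Fin N)
  rw [Fintype.card_fin] at this
  convert this

theorem tur_succ {q : ℕ} (hq : 0 < q) (M : ℕ) : tur (M + 1) q + M / q = tur M q + M := by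
  induction M using Nat.strong_induction_on with
  | _ M ih =>
    rcases Nat.lt_or_ge M q with h | h
    · rw [tur_of_le (by omega), tur_of_le (by omega), Nat.div_eq_of_lt h]
      have : (M + 1).choose 2 = M.choose 1 + M.choose 2 := Nat.choose_succ_succ M 1
      rw [this, Nat.choose_one_right]
      omega
    · obtain ⟨M', rfl⟩ := Nat.exists_eq_add_of_le' h
      have h1 := ih M' (by omega)
      have h2 : M' + q + 1 = (M' + 1) + q := by ring
      rw [h2, tur_add, tur_add, Nat.add_div_right _ hq]
      obtain ⟨p, rfl⟩ : ∃ p, q = p + 1 := ⟨q - 1, by omega⟩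
      simp only [Nat.add_sub_cancel] at *
      nlinarith [h1]

theorem tur_join (p r : ℕ) (hr : r ≤ p) (t : ℕ) :
    tur ((p + 1) * t + r) (p + 1) = tur (p * t + r) p + (p * t + r) * t := by
  induction t with
  | zero =>
    simp only [mul_zero, zero_add, add_zero]
    rw [tur_of_le (by omega), tur_of_le hr]
  | succ t ih =>
    have h1 : (p + 1) * (t + 1) + r = ((p + 1) * t + r) + (p + 1) := by ring
    have h2 : p * (t + 1) + r = (p * t + r) + p := by ring
    rw [h1, h2, tur_add, tur_add, ih]
    rcases Nat.eq_zero_or_pos p with rfl | hp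
    · simp
      have : r = 0 := by omega
      subst this
      simp
    · obtain ⟨s, rfl⟩ : ∃ s, p = s + 1 := ⟨p - 1, by omega⟩
      have h3 : (s + 1 + 1).choose 2 = (s + 1).choose 1 + (s + 1).choose 2 :=
        Nat.choose_succ_succ (s + 1) 1
      rw [h3, Nat.choose_one_right]
      simp only [Nat.add_sub_cancel]
      ring

theorem tur_join' {p n t : ℕ} (h1 : p * t ≤ n) (h2 : n ≤ p * (t + 1)) :
    tur (n + t) (p + 1) = tur n p + n * t := by
  obtain ⟨r, rfl⟩ := Nat.exists_eq_add_of_le h1
  have hr : r ≤ p := by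
    rw [mul_add, mul_one] at h2
    omega
  have h3 : p * t + r + t = (p + 1) * t + r := by ring
  rw [h3, tur_join p r hr t]

theorem two_mul_tur (N q : ℕ) :
    2 * tur N q = ∑ i ∈ range N, ∑ j ∈ range N, if i % q = j % q then 0 else 1 := by
  rw [tur_eq, ← SimpleGraph.sum_degrees_eq_twice_card_edges]
  rw [← Fin.sum_univ_eq_sum_range (fun i => ∑ j ∈ range N, if i % q = j % q then 0 else 1)]
  apply sum_congr rfl
  intro i _
  rw [← Fin.sum_univ_eq_sum_range (fun j => if (i : ℕ) % q = j % q then 0 else 1)]
  rw [SimpleGraph.degree, SimpleGraph.neighborFinset_eq_filter, card_filter]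
  apply sum_congr rfl
  intro j _
  simp only [SimpleGraph.turanGraph_adj]
  split_ifs <;> simp_all

end Pool.Agent.H521_col
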