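import Mathlib

/-!
A convex maximisation argument: few types in an independent set.
-/

set_option linter.unusedSectionVars false

namespace Pool.Agent.H521_col.Tw

open Finset
open scoped Classical

variable {V : Type*} [Fintype V] [DecidableEq V] {Γ : Type*}

/-- the sum of exponentials -/
noncomputable def PF (C : Finset Γ) (I : Finset V) (l : Γ → V → ℝ) (x : V → ℝ) : ℝ :=
  ∑ c ∈ C, Real.exp (∑ v ∈ I, x v * l c v)

/-- feasible vectors: nonnegative, with given block sums and given total degree -/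
def Fe (I : Finset V) (d s : V → ℕ) : Set (V → ℝ) :=
  {x | (∀ v, 0 ≤ x v) ∧ (∀ v, v ∉ I → x v = 0) ∧
    (∀ t, ∑ v ∈ I.filter (fun v => s v = t), x v = (I.filter (fun v => s v = t)).card) ∧
    ∑ v ∈ I, x v * d v = ∑ v ∈ I, (d v : ℝ)}

theorem fe_le {I : Finset V} {d s : V → ℕ} {x : V → ℝ} (hx : x ∈ Fe I d s) (v : V) :
    x v ≤ I.card := by
  obtain ⟨h1, h2, h3, _⟩ := hx
  by_cases hv : v ∈ I
  · have h4 := h3 (s v)
    have h5 : x v ≤ ∑ w ∈ I.filter (fun w => s w = s v), x w :=
      single_le_sum (fun w _ => h1 w) (mem_filter.2 ⟨hv, rfl⟩)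
    have h6 : ((I.filter (fun w => s w = s v)).card : ℝ) ≤ I.card := by
      exact_mod_cast card_filter_le _ _
    linarith
  · rw [h2 v hv]
    exact Nat.cast_nonneg _

theorem isCompact_Fe (I : Finset V) (d s : V → ℕ) : IsCompact (Fe I d s) := by
  have h1 : IsCompact (Set.pi Set.univ (fun _ : V => Set.Icc (0 : ℝ) I.card)) :=
    isCompact_univ_pi (fun _ => isCompact_Icc)
  apply h1.of_isClosed_subset
  · have e : Fe I d s = (⋂ v, {x : V → ℝ | 0 ≤ x v}) ∩ ((⋂ v, {x : V → ℝ | v ∉ I → x v = 0}) ∩
        ((⋂ t, {x : V → ℝ | ∑ v ∈ I.filter (fun v => s v = t), x v =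
          (I.filter (fun v => s v = t)).card}) ∩
          {x : V → ℝ | ∑ v ∈ I, x v * d v = ∑ v ∈ I, (d v : ℝ)})) := by
      ext x
      simp only [Fe, Set.mem_inter_iff, Set.mem_iInter, Set.mem_ofPred_eq]
    rw [e]
    apply IsClosed.inter
    · apply isClosed_iInter
      intro v
      exact isClosed_le continuous_const (continuous_apply v)
    · apply IsClosed.inter
      · apply isClosed_iInter
        intro v
        by_cases hv : v ∈ I
        · have : {x : V → ℝ | v ∉ I → x v = 0} = Set.univ := by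
            ext x
            simp [hv]
          rw [this]
          exact isClosed_univ
        · have : {x : V → ℝ | v ∉ I → x v = 0} = {x : V → ℝ | x v = 0} := by
            ext x
            simp [hv]
          rw [this]
          exact isClosed_eq (continuous_apply v) continuous_const
      · apply IsClosed.inter
        · apply isClosed_iInter
          intro t
          exact isClosed_eq (continuous_finsetSum _ (fun v _ => continuous_apply v))
            continuous_const
        · exact isClosed_eq (continuous_finsetSum _ (fun v _ =>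
            (continuous_apply v).mul continuous_const)) continuous_const
  · intro x hx v _
    exact ⟨hx.1 v, fe_le hx v⟩

theorem continuous_PF (C : Finset Γ) (I : Finset V) (l : Γ → V → ℝ) :
    Continuous (PF C I l) := by
  unfold PF
  apply continuous_finsetSum
  intro c _
  apply Real.continuous_exp.comp
  apply continuous_finsetSum
  intro v _
  exact (continuous_apply v).mul continuous_const

/-- convexity along a segment -/
theorem PF_convex (C : Finset Γ) (I : Finset V) (l : Γ → V → ℝ) (x y : V → ℝ) {a b : ℝ}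
    (ha : 0 ≤ a) (hb : 0 ≤ b) (hab : a + b = 1) :
    PF C I l (a • x + b • y) ≤ a * PF C I l x + b * PF C I l y := by
  unfold PF
  rw [mul_sum, mul_sum, ← sum_add_distrib]
  apply sum_le_sum
  intro c _
  have h1 : ∑ v ∈ I, (a • x + b • y) v * l c v =
      a • (∑ v ∈ I, x v * l c v) + b • (∑ v ∈ I, y v * l c v) := by
    simp only [Pi.add_apply, Pi.smul_apply, smul_eq_mul]
    rw [mul_sum, mul_sum, ← sum_add_distrib]
    apply sum_congr rfl
    intro v _
    ring
  rw [h1]
  exact convexOn_exp.2 (Set.mem_univ _) (Set.mem_univ _) ha hb hab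

/-- support -/
noncomputable def sup (x : V → ℝ) : Finset V := univ.filter (fun v => x v ≠ 0)

theorem mem_sup {x : V → ℝ} {v : V} : v ∈ sup x ↔ x v ≠ 0 := by simp [sup]

/-- a maximiser -/
def IsMx (C : Finset Γ) (I : Finset V) (l : Γ → V → ℝ) (d s : V → ℕ) (x : V → ℝ) : Prop :=
  x ∈ Fe I d s ∧ ∀ y ∈ Fe I d s, PF C I l y ≤ PF C I l x

theorem exists_min_supp (C : Finset Γ) (I : Finset V) (l : Γ → V → ℝ) (d s : V → ℕ) :
    ∃ x, IsMx C I l d s x ∧ ∀ y, IsMx C I l d s y → (sup x).card ≤ (sup y).card := by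
  have hne : (Fe I d s).Nonempty := by
    refine ⟨fun v => if v ∈ I then 1 else 0, ?_, ?_, ?_, ?_⟩
    · intro v
      simp only
      split_ifs <;> norm_num
    · intro v hv
      simp [hv]
    · intro t
      have h1 : ∀ v ∈ I.filter (fun v => s v = t), (if v ∈ I then (1 : ℝ) else 0) = 1 := by
        intro v hv
        rw [if_pos (mem_filter.1 hv).1]
      rw [sum_congr rfl h1]
      simp
    · apply sum_congr rfl
      intro v hv
      simp only [if_pos hv, one_mul]
  obtain ⟨x0, hx0, hmax⟩ := (isCompact_Fe I d s).exists_isMaxOn hne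
    (continuous_PF C I l).continuousOn
  have hex : ∃ k, ∃ x, IsMx C I l d s x ∧ (sup x).card = k :=
    ⟨_, x0, ⟨hx0, fun y hy => hmax hy⟩, rfl⟩
  obtain ⟨x, hx, hk⟩ := Nat.find_spec hex
  refine ⟨x, hx, fun y hy => ?_⟩
  rw [hk]
  exact Nat.find_min' hex ⟨y, hy, rfl⟩

theorem fe_move {I : Finset V} {d s : V → ℕ} {x y : V → ℝ} (hx : x ∈ Fe I d s)
    (h0 : ∀ v, x v = 0 → y v = 0)
    (h1 : ∀ t, ∑ v ∈ I.filter (fun v => s v = t), y v = 0)
    (h2 : ∑ v ∈ I, y v * d v = 0) {t : ℝ} (ht : ∀ v, 0 ≤ x v + t * y v) :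
    x + t • y ∈ Fe I d s := by
  obtain ⟨g1, g2, g3, g4⟩ := hx
  refine ⟨fun v => ht v, ?_, ?_, ?_⟩
  · intro v hv
    simp [g2 v hv, h0 v (g2 v hv)]
  · intro r
    simp only [Pi.add_apply, Pi.smul_apply, smul_eq_mul]
    rw [sum_add_distrib, ← mul_sum, h1, mul_zero, add_zero]
    exact g3 r
  · simp only [Pi.add_apply, Pi.smul_apply, smul_eq_mul]
    have : ∀ v ∈ I, (x v + t * y v) * d v = x v * d v + t * (y v * d v) := by
      intro v _
      ring
    rw [sum_congr rfl this, sum_add_distrib, ← mul_sum, h2, mul_zero, add_zero]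
    exact g4

/-- no nonzero direction within the support of a maximiser of minimal support -/
theorem no_dir {C : Finset Γ} {I : Finset V} {l : Γ → V → ℝ} {d s : V → ℕ} {x : V → ℝ}
    (hx : IsMx C I l d s x) (hmin : ∀ y, IsMx C I l d s y → (sup x).card ≤ (sup y).card)
    {y : V → ℝ} (h0 : ∀ v, x v = 0 → y v = 0)
    (h1 : ∀ t, ∑ v ∈ I.filter (fun v => s v = t), y v = 0)
    (h2 : ∑ v ∈ I, y v * d v = 0) : y = 0 := by
  by_contra hy
  -- a one-sided step
  have hstep : ∀ z : V → ℝ, (∀ v, x v = 0 → z v = 0) → (∃ v, z v < 0) →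
      ∃ t : ℝ, 0 < t ∧ (∀ v, 0 ≤ x v + t * z v) ∧ ∃ v, x v ≠ 0 ∧ x v + t * z v = 0 := by
    intro z hz ⟨v0, hv0⟩
    obtain ⟨v1, hv1, hm⟩ := exists_min_image (univ.filter (fun v => z v < 0))
      (fun v => x v / (- z v)) ⟨v0, mem_filter.2 ⟨mem_univ _, hv0⟩⟩
    rw [mem_filter] at hv1
    have hxv1 : 0 < x v1 := by
      rcases eq_or_lt_of_le (hx.1.1 v1) with h5 | h5
      · have := hz v1 h5.symm
        linarith [hv1.2]
      · exact h5
    refine ⟨x v1 / (- z v1), div_pos hxv1 (by linarith [hv1.2]), ?_, v1, hxv1.ne', ?_⟩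
    · intro v
      rcases lt_or_ge (z v) 0 with h5 | h5
      · have h6 := hm v (mem_filter.2 ⟨mem_univ _, h5⟩)
        have h7 : x v1 / (- z v1) * (- z v) ≤ x v := by
          rw [← le_div_iff₀ (by linarith)]
          exact h6
        linarith
      · have e1 := hx.1.1 v
        have e2 : 0 ≤ x v1 / (- z v1) := div_nonneg hxv1.le (by linarith [hv1.2])
        positivity
    · have : z v1 ≠ 0 := hv1.2.ne
      field_simp
      ring
  -- y takes both signs
  have hI : ∀ v, y v ≠ 0 → v ∈ I := by
    intro v hv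
    by_contra h
    exact hv (h0 v (hx.1.2.1 v h))
  obtain ⟨w, hw⟩ : ∃ w, y w ≠ 0 := by
    by_contra h
    push Not at h
    exact hy (funext h)
  have hneg : ∃ v, y v < 0 := by
    by_contra h
    push Not at h
    have h3 := (sum_eq_zero_iff_of_nonneg (fun v _ => h v)).1 (h1 (s w)) w
      (mem_filter.2 ⟨hI w hw, rfl⟩)
    exact hw h3
  have hpos : ∃ v, (-y) v < 0 := by
    by_contra h
    push Not at h
    have h3 : ∑ v ∈ I.filter (fun v => s v = s w), (-y) v = 0 := by
      simp only [Pi.neg_apply]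
      rw [sum_neg_distrib, h1, neg_zero]
    have h4 := (sum_eq_zero_iff_of_nonneg (fun v _ => h v)).1 h3 w
      (mem_filter.2 ⟨hI w hw, rfl⟩)
    simp at h4
    exact hw h4
  obtain ⟨t, ht, ht1, v1, hv1, hv1'⟩ := hstep y h0 hneg
  obtain ⟨r, hr, hr1, _⟩ := hstep (-y) (fun v hv => by simp [h0 v hv]) hpos
  have hf1 : x + t • y ∈ Fe I d s := fe_move hx.1 h0 h1 h2 ht1
  have hf2 : x + (-r) • y ∈ Fe I d s := by
    apply fe_move hx.1 h0 h1 h2
    intro v
    have := hr1 v
    simp only [Pi.neg_apply] at this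
    linarith
  have hc := PF_convex C I l (x + t • y) (x + (-r) • y) (a := r / (t + r)) (b := t / (t + r))
    (by positivity) (by positivity) (by field_simp; ring)
  have hmid : (r / (t + r)) • (x + t • y) + (t / (t + r)) • (x + (-r) • y) = x := by
    funext v
    simp only [Pi.add_apply, Pi.smul_apply, smul_eq_mul]
    field_simp
    ring
  rw [hmid] at hc
  have m1 := hx.2 _ hf1
  have m2 := hx.2 _ hf2
  have hge : PF C I l x ≤ PF C I l (x + t • y) := by
    by_contra hlt
    push Not at hlt
    have e1 : r / (t + r) * PF C I l (x + t • y) < r / (t + r) * PF C I l x :=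
      mul_lt_mul_of_pos_left hlt (by positivity)
    have e2 : t / (t + r) * PF C I l (x + (-r) • y) ≤ t / (t + r) * PF C I l x :=
      mul_le_mul_of_nonneg_left m2 (by positivity)
    have e3 : r / (t + r) * PF C I l x + t / (t + r) * PF C I l x = PF C I l x := by
      rw [← add_mul]
      have : r / (t + r) + t / (t + r) = 1 := by
        field_simp
        ring
      rw [this, one_mul]
    linarith
  have hmx : IsMx C I l d s (x + t • y) := ⟨hf1, fun z hz => (hx.2 z hz).trans hge⟩
  have hle := hmin _ hmx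
  have hlt : (sup (x + t • y)).card < (sup x).card := by
    apply card_lt_card
    rw [ssubset_iff_of_subset]
    · refine ⟨v1, mem_sup.2 hv1, ?_⟩
      rw [mem_sup, not_not]
      simpa using hv1'
    · intro v hv
      rw [mem_sup] at hv ⊢
      intro h5
      apply hv
      simp [h5, h0 v h5]
  omega

end Pool.Agent.H521_col.Tw
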