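import Pool.Agent.H521_col.Tw1

/-!
Uniqueness of the exceptional pair, rounding, size of the support.
-/

set_option linter.unusedSectionVars false

namespace Pool.Agent.H521_col.Tw

open Finset
open scoped Classical

variable {V : Type*} [Fintype V] [DecidableEq V] {Γ : Type*}

/-- difference of two unit vectors -/
noncomputable def dif (a b : V) : V → ℝ :=
  fun v => (if v = a then 1 else 0) - (if v = b then 1 else 0)

theorem sum_dif (J : Finset V) (a b : V) (g : V → ℝ) :
    ∑ v ∈ J, dif a b v * g v = (if a ∈ J then g a else 0) - (if b ∈ J then g b else 0) := by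
  unfold dif
  have h1 : ∀ v ∈ J, ((if v = a then (1 : ℝ) else 0) - (if v = b then 1 else 0)) * g v =
      (if v = a then g v else 0) - (if v = b then g v else 0) := by
    intro v _
    split_ifs <;> ring
  rw [sum_congr rfl h1, sum_sub_distrib, sum_ite_eq', sum_ite_eq']

theorem sum_dif_block {I : Finset V} {s : V → ℕ} {a b : V} (ha : a ∈ I) (hb : b ∈ I)
    (hs : s a = s b) (t : ℕ) : ∑ v ∈ I.filter (fun v => s v = t), dif a b v = 0 := by
  have h1 : ∀ v ∈ I.filter (fun v => s v = t), dif a b v = dif a b v * 1 :=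
    fun v _ => (mul_one _).symm
  rw [sum_congr rfl h1, sum_dif]
  simp only [mem_filter, ha, hb, hs, true_and]
  ring

theorem sum_dif_d {I : Finset V} {a b : V} (ha : a ∈ I) (hb : b ∈ I) (g : V → ℝ) :
    ∑ v ∈ I, dif a b v * g v = g a - g b := by
  rw [sum_dif, if_pos ha, if_pos hb]

variable {C : Finset Γ} {I : Finset V} {l : Γ → V → ℝ} {d s : V → ℕ} {x : V → ℝ}

theorem sup_mem_I (hx : IsMx C I l d s x) {v : V} (hv : x v ≠ 0) : v ∈ I := by
  by_contra h
  exact hv (hx.1.2.1 v h)

theorem pair_deg (hx : IsMx C I l d s x) (hmin : ∀ y, IsMx C I l d s y → (sup x).card ≤ (sup y).card)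
    {a b : V} (ha : x a ≠ 0) (hb : x b ≠ 0) (hab : a ≠ b) (hs : s a = s b) : d a ≠ d b := by
  intro hd
  have haI := sup_mem_I hx ha
  have hbI := sup_mem_I hx hb
  have h := no_dir hx hmin (y := dif a b) ?_ (sum_dif_block haI hbI hs) ?_
  · have h2 := congrFun h a
    simp [dif, hab] at h2
  · intro v hv
    have h1 : v ≠ a := fun h => ha (h ▸ hv)
    have h2 : v ≠ b := fun h => hb (h ▸ hv)
    simp [dif, h1, h2]
  · rw [sum_dif_d haI hbI, hd, sub_self]

theorem pair_unique (hx : IsMx C I l d s x)
    (hmin : ∀ y, IsMx C I l d s y → (sup x).card ≤ (sup y).card)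
    {a b c e : V} (ha : x a ≠ 0) (hb : x b ≠ 0) (hab : a ≠ b) (hs : s a = s b)
    (hc : x c ≠ 0) (he : x e ≠ 0) (hce : c ≠ e) (hs' : s c = s e) :
    (c = a ∧ e = b) ∨ (c = b ∧ e = a) := by
  have haI := sup_mem_I hx ha
  have hbI := sup_mem_I hx hb
  have hcI := sup_mem_I hx hc
  have heI := sup_mem_I hx he
  have d1 := pair_deg hx hmin ha hb hab hs
  have d2 := pair_deg hx hmin hc he hce hs'
  have d1' : ((d a : ℝ) - d b) ≠ 0 := by
    intro h
    apply d1
    exact_mod_cast sub_eq_zero.1 h
  have d2' : ((d c : ℝ) - d e) ≠ 0 := by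
    intro h
    apply d2
    exact_mod_cast sub_eq_zero.1 h
  have h := no_dir hx hmin
    (y := ((d c : ℝ) - d e) • dif a b + (-((d a : ℝ) - d b)) • dif c e) ?_ ?_ ?_
  · have ea := congrFun h a
    have eb := congrFun h b
    simp only [Pi.add_apply, Pi.smul_apply, smul_eq_mul, Pi.zero_apply, dif, if_true,
      if_neg hab, if_neg hab.symm] at ea eb
    by_cases h1 : a = c
    · subst h1
      by_cases h2 : b = e
      · left
        exact ⟨rfl, h2.symm⟩
      · rw [if_neg hab.symm, if_neg h2] at eb
        exfalso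
        apply d2'
        linarith
    · by_cases h2 : a = e
      · subst h2
        by_cases h3 : b = c
        · right
          exact ⟨h3.symm, rfl⟩
        · rw [if_neg hab.symm, if_neg h3] at eb
          exfalso
          apply d2'
          linarith
      · rw [if_neg h1, if_neg h2] at ea
        exfalso
        apply d2'
        linarith
  · intro v hv
    have h1 : v ≠ a := fun h => ha (h ▸ hv)
    have h2 : v ≠ b := fun h => hb (h ▸ hv)
    have h3 : v ≠ c := fun h => hc (h ▸ hv)
    have h4 : v ≠ e := fun h => he (h ▸ hv)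
    simp [dif, h1, h2, h3, h4]
  · intro t
    simp only [Pi.add_apply, Pi.smul_apply, smul_eq_mul]
    rw [sum_add_distrib, ← mul_sum, ← mul_sum, sum_dif_block haI hbI hs,
      sum_dif_block hcI heI hs']
    ring
  · simp only [Pi.add_apply, Pi.smul_apply, smul_eq_mul, add_mul, mul_assoc]
    rw [sum_add_distrib, ← mul_sum, ← mul_sum, sum_dif_d haI hbI, sum_dif_d hcI heI]
    ring

/-- a support element alone in its block -/
theorem alone_val (hx : IsMx C I l d s x) {v : V} (hv : x v ≠ 0)
    (h : ∀ w, x w ≠ 0 → s w = s v → w = v) :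
    x v = (I.filter (fun w => s w = s v)).card := by
  rw [← hx.1.2.2.1 (s v)]
  rw [sum_eq_single v]
  · intro w hw hne
    by_contra h0
    exact hne (h w h0 (mem_filter.1 hw).2)
  · intro h0
    exact (h0 (mem_filter.2 ⟨sup_mem_I hx hv, rfl⟩)).elim

theorem pair_val (hx : IsMx C I l d s x) {i j : V} (hi : x i ≠ 0) (hj : x j ≠ 0) (hij : i ≠ j)
    (hs : s i = s j) (h : ∀ w, x w ≠ 0 → s w = s j → w = i ∨ w = j) :
    x i + x j = (I.filter (fun w => s w = s j)).card := by
  rw [← hx.1.2.2.1 (s j), ← sum_pair hij]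
  apply sum_subset
  · intro w hw
    rw [mem_insert, mem_singleton] at hw
    rcases hw with rfl | rfl
    · exact mem_filter.2 ⟨sup_mem_I hx hi, hs⟩
    · exact mem_filter.2 ⟨sup_mem_I hx hj, rfl⟩
  · intro w hw hne
    by_contra h0
    apply hne
    rw [mem_insert, mem_singleton]
    exact h w h0 (mem_filter.1 hw).2

/-- rounding a maximiser of minimal support -/
theorem round_exists (hx : IsMx C I l d s x)
    (hmin : ∀ y, IsMx C I l d s y → (sup x).card ≤ (sup y).card) {g : ℕ}
    (hg : ∀ v ∈ I, ∀ w ∈ I, s v = s w → d v ≤ d w + g) :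
    ∃ z : V → ℕ, (∀ v, z v ≠ 0 → x v ≠ 0) ∧
      (∀ t, ∑ v ∈ I.filter (fun v => s v = t), z v = (I.filter (fun v => s v = t)).card) ∧
      PF C I l x ≤ PF C I l (fun v => (z v : ℝ)) ∧
      ∑ v ∈ I, d v ≤ ∑ v ∈ I, z v * d v + g := by
  by_cases hpair : ∃ i j, x i ≠ 0 ∧ x j ≠ 0 ∧ i ≠ j ∧ s i = s j
  · -- there is a pair; order it by degree
    obtain ⟨i, j, hi, hj, hij, hs, hd⟩ :
        ∃ i j, x i ≠ 0 ∧ x j ≠ 0 ∧ i ≠ j ∧ s i = s j ∧ d i < d j := by
      obtain ⟨i, j, hi, hj, hij, hs⟩ := hpair
      rcases lt_or_gt_of_ne (pair_deg hx hmin hi hj hij hs) with h | h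
      · exact ⟨i, j, hi, hj, hij, hs, h⟩
      · exact ⟨j, i, hj, hi, hij.symm, hs.symm, h⟩
    have hiI := sup_mem_I hx hi
    have hjI := sup_mem_I hx hj
    have hB := pair_val hx hi hj hij hs (by
      intro w hw hsw
      by_contra hcon
      push Not at hcon
      rcases pair_unique hx hmin hi hj hij hs hw hj hcon.2 hsw with ⟨h1, _⟩ | ⟨h1, _⟩
      · exact hcon.1 h1
      · exact hcon.2 h1)
    have hxi : 0 < x i := lt_of_le_of_ne (hx.1.1 i) (Ne.symm hi)
    have hxj : 0 < x j := lt_of_le_of_ne (hx.1.1 j) (Ne.symm hj)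
    set B := (I.filter (fun w => s w = s j)).card with hBdef
    set u := ⌊x j⌋₊ with hu
    have hu1 : (u : ℝ) ≤ x j := Nat.floor_le hxj.le
    have hu2 : x j < u + 1 := Nat.lt_floor_add_one _
    have huB : u + 1 ≤ B := by
      have : (u : ℝ) < B := by linarith
      exact_mod_cast this
    -- integrality of the rounded vectors
    have hint : ∀ w : ℕ, w ≤ B → ∀ v, ∃ m : ℕ,
        (m : ℝ) = x v + ((w : ℝ) - x j) * dif j i v ∧ (m ≠ 0 → x v ≠ 0) := by
      intro w hw v
      by_cases hvj : v = j
      · subst hvj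
        refine ⟨w, ?_, fun _ => hj⟩
        simp [dif, hij.symm]
      · by_cases hvi : v = i
        · subst hvi
          refine ⟨B - w, ?_, fun _ => hi⟩
          rw [Nat.cast_sub hw, ← hB]
          simp [dif, hij]
          ring
        · by_cases hv0 : x v = 0
          · refine ⟨0, ?_, fun h => absurd rfl h⟩
            simp [dif, hvj, hvi, hv0]
          · have h1 := alone_val hx hv0 (by
              intro w' hw' hsw
              by_contra hcon
              rcases pair_unique hx hmin hi hj hij hs hw' hv0 hcon hsw with ⟨_, h2⟩ | ⟨_, h2⟩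
              · exact hvj h2
              · exact hvi h2)
            refine ⟨(I.filter (fun w => s w = s v)).card, ?_, fun _ => hv0⟩
            rw [← h1]
            simp [dif, hvj, hvi]
    -- the two roundings
    have hfin : ∀ w : ℕ, w ≤ B → x j - 1 ≤ w →
        PF C I l x ≤ PF C I l (x + ((w : ℝ) - x j) • dif j i) →
        ∃ z : V → ℕ, (∀ v, z v ≠ 0 → x v ≠ 0) ∧
          (∀ t, ∑ v ∈ I.filter (fun v => s v = t), z v =
            (I.filter (fun v => s v = t)).card) ∧
          PF C I l x ≤ PF C I l (fun v => (z v : ℝ)) ∧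
          ∑ v ∈ I, d v ≤ ∑ v ∈ I, z v * d v + g := by
      intro w hw hw2 hP
      choose z hz1 hz2 using hint w hw
      have hzf : (fun v => (z v : ℝ)) = x + ((w : ℝ) - x j) • dif j i := by
        funext v
        rw [hz1 v]
        simp
      refine ⟨z, hz2, ?_, ?_, ?_⟩
      · intro t
        have h1 : ((∑ v ∈ I.filter (fun v => s v = t), z v : ℕ) : ℝ) =
            (I.filter (fun v => s v = t)).card := by
          rw [Nat.cast_sum, sum_congr rfl (fun v _ => hz1 v), sum_add_distrib, ← mul_sum,
            sum_dif_block hjI hiI hs.symm, mul_zero, add_zero]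
          exact hx.1.2.2.1 t
        exact_mod_cast h1
      · rw [hzf]
        exact hP
      · have h1 : ((∑ v ∈ I, z v * d v : ℕ) : ℝ) =
            ∑ v ∈ I, (d v : ℝ) + ((w : ℝ) - x j) * (d j - d i) := by
          rw [Nat.cast_sum, ← hx.1.2.2.2, ← sum_dif_d hjI hiI (fun v => (d v : ℝ)), mul_sum,
            ← sum_add_distrib]
          apply sum_congr rfl
          intro v _
          rw [Nat.cast_mul, hz1 v]
          ring
        have h2 : (d j : ℝ) ≤ d i + g := by
          exact_mod_cast hg j hjI i hiI hs.symm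
        have h3 : (d i : ℝ) < d j := by exact_mod_cast hd
        have h4 : ((∑ v ∈ I, d v : ℕ) : ℝ) ≤ ((∑ v ∈ I, z v * d v + g : ℕ) : ℝ) := by
          rw [Nat.cast_add, h1, Nat.cast_sum]
          have h5 : -(g : ℝ) ≤ ((w : ℝ) - x j) * (d j - d i) := by
            have h6 : -1 ≤ (w : ℝ) - x j := by linarith
            have h7 : (-1) * ((d j : ℝ) - d i) ≤ ((w : ℝ) - x j) * (d j - d i) :=
              mul_le_mul_of_nonneg_right h6 (by linarith)
            linarith
          linarith
        exact_mod_cast h4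
    -- one of the two is at least as good
    have hcx := PF_convex C I l (x + ((u : ℝ) - x j) • dif j i)
      (x + (((u + 1 : ℕ) : ℝ) - x j) • dif j i) (a := 1 - (x j - u)) (b := x j - u)
      (by linarith) (by linarith) (by ring)
    have hmid : (1 - (x j - u)) • (x + ((u : ℝ) - x j) • dif j i) +
        (x j - u) • (x + (((u + 1 : ℕ) : ℝ) - x j) • dif j i) = x := by
      funext v
      simp only [Pi.add_apply, Pi.smul_apply, smul_eq_mul]
      push_cast
      ring
    rw [hmid] at hcx
    rcases le_or_gt (PF C I l x) (PF C I l (x + ((u : ℝ) - x j) • dif j i)) with h1 | h1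
    · exact hfin u (by omega) (by linarith) h1
    · apply hfin (u + 1) huB (by push_cast; linarith)
      by_contra h2
      push Not at h2
      have h3 : (1 - (x j - u)) * PF C I l (x + ((u : ℝ) - x j) • dif j i) <
          (1 - (x j - u)) * PF C I l x := mul_lt_mul_of_pos_left h1 (by linarith)
      have h4 : (x j - u) * PF C I l (x + (((u + 1 : ℕ) : ℝ) - x j) • dif j i) ≤
          (x j - u) * PF C I l x := mul_le_mul_of_nonneg_left h2.le (by linarith)
      linarith
  · -- no pair: already integral
    push Not at hpair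
    have hal : ∀ v, x v ≠ 0 → x v = (I.filter (fun w => s w = s v)).card := by
      intro v hv
      apply alone_val hx hv
      intro w hw hsw
      by_contra hne
      exact hpair w v hw hv hne hsw
    have hint : ∀ v, ∃ m : ℕ, (m : ℝ) = x v := by
      intro v
      by_cases hv : x v = 0
      · exact ⟨0, by rw [hv, Nat.cast_zero]⟩
      · exact ⟨_, (hal v hv).symm⟩
    choose z hz using hint
    have hzf : (fun v => (z v : ℝ)) = x := funext hz
    refine ⟨z, ?_, ?_, ?_, ?_⟩
    · intro v hv h0
      apply hv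
      have := hz v
      rw [h0] at this
      exact_mod_cast this
    · intro t
      have h1 : ((∑ v ∈ I.filter (fun v => s v = t), z v : ℕ) : ℝ) =
          (I.filter (fun v => s v = t)).card := by
        rw [Nat.cast_sum, sum_congr rfl (fun v _ => hz v)]
        exact hx.1.2.2.1 t
      exact_mod_cast h1
    · rw [hzf]
    · have h1 : ((∑ v ∈ I, z v * d v : ℕ) : ℝ) = ((∑ v ∈ I, d v : ℕ) : ℝ) := by
        rw [Nat.cast_sum, Nat.cast_sum, ← hx.1.2.2.2]
        apply sum_congr rfl
        intro v _
        rw [Nat.cast_mul, hz v]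
      have h2 : ∑ v ∈ I, z v * d v = ∑ v ∈ I, d v := by exact_mod_cast h1
      omega

/-- the support has at most one element more than the number of blocks -/
theorem supp_card (hx : IsMx C I l d s x)
    (hmin : ∀ y, IsMx C I l d s y → (sup x).card ≤ (sup y).card) :
    (sup x).card ≤ (I.image s).card + 1 := by
  by_cases hpair : ∃ i j, x i ≠ 0 ∧ x j ≠ 0 ∧ i ≠ j ∧ s i = s j
  · obtain ⟨i, j, hi, hj, hij, hs⟩ := hpair
    have h1 : ((sup x).erase i).card ≤ (I.image s).card := by
      apply card_le_card_of_injOn s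
      · intro v hv
        rw [mem_coe, mem_erase, mem_sup] at hv
        exact mem_coe.2 (mem_image_of_mem _ (sup_mem_I hx hv.2))
      · intro v hv w hw hvw
        rw [mem_coe, mem_erase, mem_sup] at hv hw
        by_contra hne
        rcases pair_unique hx hmin hi hj hij hs hv.2 hw.2 hne hvw with ⟨h2, _⟩ | ⟨_, h2⟩
        · exact hv.1 h2
        · exact hw.1 h2
    have h2 := card_erase_add_one (mem_sup.2 hi)
    omega
  · push Not at hpair
    have h1 : (sup x).card ≤ (I.image s).card := by
      apply card_le_card_of_injOn s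
      · intro v hv
        rw [mem_coe, mem_sup] at hv
        exact mem_coe.2 (mem_image_of_mem _ (sup_mem_I hx hv))
      · intro v hv w hw hvw
        rw [mem_coe, mem_sup] at hv hw
        by_contra hne
        exact hpair v w hv hw hne hvw
    omega

end Pool.Agent.H521_col.Tw
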