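import Pool.Agent.H521_col.Tw2

/-!
Separated starts and the telescoping shift.
-/

set_option linter.unusedSectionVars false

namespace Pool.Agent.H521_col.Tw

open Finset
open scoped Classical

/-- separated starts of blocks of diameter `g` -/
def Good (D : Finset ℕ) (g : ℕ) (S : Finset ℕ) : Prop :=
  S ⊆ D ∧ (∀ s ∈ S, ∀ s' ∈ S, s < s' → s + g < s') ∧ (∀ d ∈ D, ∃ s ∈ S, s ≤ d ∧ d ≤ s + g)

theorem greedy (g : ℕ) (N : ℕ) : ∀ D : Finset ℕ, D.card ≤ N → ∃ S, Good D g S := by
  induction N with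
  | zero =>
    intro D hD
    have : D = ∅ := card_eq_zero.1 (Nat.le_zero.1 hD)
    subst this
    exact ⟨∅, Subset.refl _, by simp, by simp⟩
  | succ N ih =>
    intro D hD
    rcases D.eq_empty_or_nonempty with rfl | hne
    · exact ⟨∅, Subset.refl _, by simp, by simp⟩
    set m := D.min' hne with hm
    have hmD : m ∈ D := D.min'_mem hne
    have hmin : ∀ d ∈ D, m ≤ d := fun d hd => D.min'_le d hd
    have hlt : (D.filter (fun d => m + g < d)).card < D.card := by
      apply card_lt_card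
      rw [filter_ssubset]
      exact ⟨m, hmD, by omega⟩
    obtain ⟨S, h1, h2, h3⟩ := ih (D.filter (fun d => m + g < d)) (by omega)
    refine ⟨insert m S, ?_, ?_, ?_⟩
    · intro s hs
      rcases mem_insert.1 hs with rfl | h
      · exact hmD
      · exact (mem_filter.1 (h1 h)).1
    · intro s hs s' hs' hlt
      rcases mem_insert.1 hs with h | h
      · rcases mem_insert.1 hs' with h' | h'
        · omega
        · have := (mem_filter.1 (h1 h')).2
          omega
      · rcases mem_insert.1 hs' with h' | h'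
        · have := hmin s (mem_filter.1 (h1 h)).1
          omega
        · exact h2 s h s' h' hlt
    · intro d hd
      by_cases hdg : m + g < d
      · obtain ⟨s, hs, h4⟩ := h3 d (mem_filter.2 ⟨hd, hdg⟩)
        exact ⟨s, mem_insert_of_mem hs, h4⟩
      · exact ⟨m, mem_insert_self _ _, hmin d hd, by omega⟩

/-- comparison of the starts for `g` and `g + 1` -/
theorem good_card {D : Finset ℕ} {g : ℕ} {S S' : Finset ℕ} (hS : Good D (g + 1) S)
    (hS' : Good D g S') : S'.card ≤ 2 * S.card := by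
  have h1 : ∀ d ∈ S', ∃ s ∈ S, s ≤ d ∧ d ≤ s + (g + 1) := fun d hd => hS.2.2 d (hS'.1 hd)
  choose! f hf1 hf2 using h1
  apply card_le_mul_card_image_of_maps_to (f := f) (t := S) hf1
  intro s _
  by_contra hcon
  push Not at hcon
  rw [two_lt_card] at hcon
  obtain ⟨a, ha, b, hb, c, hc, hab, hac, hbc⟩ := hcon
  rw [mem_filter] at ha hb hc
  have e1 := hf2 a ha.1
  have e2 := hf2 b hb.1
  have e3 := hf2 c hc.1
  rw [ha.2] at e1
  rw [hb.2] at e2
  rw [hc.2] at e3
  have f1 := hS'.2.1 a ha.1 b hb.1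
  have f2 := hS'.2.1 b hb.1 a ha.1
  have f3 := hS'.2.1 a ha.1 c hc.1
  have f4 := hS'.2.1 c hc.1 a ha.1
  have f5 := hS'.2.1 b hb.1 c hc.1
  have f6 := hS'.2.1 c hc.1 b hb.1
  omega

/-- a good threshold -/
theorem exists_threshold (D : Finset ℕ) (k : ℕ) :
    ∃ g S, Good D g S ∧ S.card ≤ 2 * k + 2 ∧ (g = 0 ∨ k + 2 ≤ S.card) := by
  have hex : ∃ g, ∃ S, Good D g S ∧ S.card ≤ 2 * k + 2 := by
    refine ⟨D.sup id, ?_⟩
    obtain ⟨S, hS⟩ := greedy (D.sup id) D.card D le_rfl
    refine ⟨S, hS, ?_⟩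
    have : S.card ≤ 1 := by
      rw [card_le_one]
      intro a ha b hb
      by_contra hne
      have h1 : a ≤ D.sup id := le_sup (f := id) (hS.1 ha)
      have h2 : b ≤ D.sup id := le_sup (f := id) (hS.1 hb)
      rcases lt_or_gt_of_ne hne with h | h
      · have := hS.2.1 a ha b hb h
        omega
      · have := hS.2.1 b hb a ha h
        omega
    omega
  obtain ⟨S, hS, hc⟩ := Nat.find_spec hex
  refine ⟨Nat.find hex, S, hS, hc, ?_⟩
  by_contra hcon
  push Not at hcon
  obtain ⟨g, hg⟩ : ∃ g, Nat.find hex = g + 1 := ⟨Nat.find hex - 1, by omega⟩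
  obtain ⟨S', hS'⟩ := greedy g D.card D le_rfl
  have h1 : ¬ ∃ S, Good D g S ∧ S.card ≤ 2 * k + 2 := Nat.find_min hex (by omega)
  have h2 : 2 * k + 2 < S'.card := by
    by_contra h
    exact h1 ⟨S', hS', by omega⟩
  rw [hg] at hS
  have h3 := good_card hS hS'
  omega

variable {V : Type*} [Fintype V] [DecidableEq V] {Γ : Type*}

theorem exp_shift (C : Finset Γ) (I : Finset V) (l : Γ → V → ℝ) (z : V → ℝ) {a b : V}
    (ha : a ∈ I) (hb : b ∈ I) :
    PF C I l (z + dif b a) = ∑ c ∈ C, Real.exp (∑ v ∈ I, z v * l c v) *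
      Real.exp (l c b - l c a) := by
  unfold PF
  apply sum_congr rfl
  intro c _
  rw [← Real.exp_add]
  congr 1
  simp only [Pi.add_apply, add_mul]
  rw [sum_add_distrib, sum_dif_d hb ha]

/-- telescoping: one of the shifts is nearly free -/
theorem shift {C : Finset Γ} {I : Finset V} {l : Γ → V → ℝ} {L : ℝ}
    (hl : ∀ c ∈ C, ∀ v ∈ I, 0 ≤ l c v ∧ l c v ≤ L) (z : V → ℝ) {k : ℕ} (hk : 1 ≤ k)
    (r : ℕ → V) (hr : ∀ j, j < k + 2 → r j ∈ I) :
    ∃ j, j < k ∧ Real.exp (-(2 * L) / k) * PF C I l z ≤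
      PF C I l (z + dif (r (j + 2)) (r j)) := by
  by_contra hcon
  push Not at hcon
  have hk0 : (0 : ℝ) < k := by exact_mod_cast hk
  have h1 : ∑ j ∈ range k, PF C I l (z + dif (r (j + 2)) (r j)) <
      ∑ _j ∈ range k, Real.exp (-(2 * L) / k) * PF C I l z := by
    apply sum_lt_sum_of_nonempty
    · rw [nonempty_range_iff]
      omega
    · intro j hj
      exact hcon j (mem_range.1 hj)
  rw [sum_const, card_range, nsmul_eq_mul] at h1
  have h2 : ∀ j ∈ range k, PF C I l (z + dif (r (j + 2)) (r j)) =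
      ∑ c ∈ C, Real.exp (∑ v ∈ I, z v * l c v) * Real.exp (l c (r (j + 2)) - l c (r j)) := by
    intro j hj
    rw [mem_range] at hj
    exact exp_shift C I l z (hr j (by omega)) (hr (j + 2) (by omega))
  rw [sum_congr rfl h2, sum_comm] at h1
  have h3 : (k : ℝ) * (Real.exp (-(2 * L) / k) * PF C I l z) =
      ∑ c ∈ C, Real.exp (∑ v ∈ I, z v * l c v) * (k * Real.exp (-(2 * L) / k)) := by
    unfold PF
    rw [mul_sum, mul_sum]
    apply sum_congr rfl
    intro c _
    ring
  rw [h3] at h1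
  apply absurd h1
  rw [not_lt]
  apply sum_le_sum
  intro c hc
  rw [← mul_sum]
  apply mul_le_mul_of_nonneg_left _ (Real.exp_pos _).le
  -- the tangent line
  have h4 : ∀ j ∈ range k, Real.exp (-(2 * L) / k) *
      (1 + (l c (r (j + 2)) - l c (r j)) + 2 * L / k) ≤
      Real.exp (l c (r (j + 2)) - l c (r j)) := by
    intro j _
    have e1 : Real.exp (l c (r (j + 2)) - l c (r j)) = Real.exp (-(2 * L) / k) *
        Real.exp ((l c (r (j + 2)) - l c (r j)) + 2 * L / k) := by
      rw [← Real.exp_add]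
      congr 1
      ring
    rw [e1]
    apply mul_le_mul_of_nonneg_left _ (Real.exp_pos _).le
    have := Real.add_one_le_exp ((l c (r (j + 2)) - l c (r j)) + 2 * L / k)
    linarith
  refine le_trans ?_ (sum_le_sum h4)
  rw [← mul_sum, mul_comm]
  apply mul_le_mul_of_nonneg_left _ (Real.exp_pos _).le
  have h5 : ∑ j ∈ range k, (1 + (l c (r (j + 2)) - l c (r j)) + 2 * L / k) =
      k + (∑ j ∈ range k, (l c (r (j + 2)) - l c (r j))) + 2 * L := by
    rw [sum_add_distrib, sum_add_distrib, sum_const, sum_const, card_range, nsmul_eq_mul,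
      nsmul_eq_mul]
    field_simp
  have h6 : ∑ j ∈ range k, (l c (r (j + 2)) - l c (r j)) =
      (l c (r (k + 1)) - l c (r 1)) + (l c (r k) - l c (r 0)) := by
    have e1 : ∀ j ∈ range k, l c (r (j + 2)) - l c (r j) =
        (l c (r (j + 1 + 1)) - l c (r (j + 1))) + (l c (r (j + 1)) - l c (r j)) := by
      intro j _
      ring
    rw [sum_congr rfl e1, sum_add_distrib,
      sum_range_sub (fun j => l c (r (j + 1))), sum_range_sub (fun j => l c (r j))]
  rw [h5, h6]
  have g1 := (hl c hc _ (hr (k + 1) (by omega))).1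
  have g2 := (hl c hc _ (hr 1 (by omega))).2
  have g3 := (hl c hc _ (hr k (by omega))).1
  have g4 := (hl c hc _ (hr 0 (by omega))).2
  linarith

end Pool.Agent.H521_col.Tw
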