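import Pool.Agent.H521_col.Tw3
import Pool.Agent.H521_col.Sym3

/-!
From multiplicities to maps; few twin classes.
-/

set_option linter.unusedSectionVars false

namespace Pool.Agent.H521_col.Tw

open Finset Pool.Agent.H521_col Pool.Agent.H521_col.Sym
open scoped Classical

variable {V : Type*} [Fintype V] [DecidableEq V]

/-- a map with given fibres -/
theorem exists_fibres (I : Finset V) (z : V → ℕ) (hz : ∑ v ∈ I, z v = I.card) :
    ∃ φ : V → V, (∀ v, v ∉ I → φ v = v) ∧ (∀ v ∈ I, φ v ∈ I ∧ z (φ v) ≠ 0) ∧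
      ∀ (M : Type) [CommMonoid M] (g : V → M),
        ∏ v ∈ I, g (φ v) = ∏ v ∈ I, g v ^ z v := by
  have hc : I.card = (I.sigma (fun v => range (z v))).card := by
    rw [card_sigma, ← hz]
    simp
  let e := equivOfCardEq hc
  refine ⟨fun v => if h : v ∈ I then (e ⟨v, h⟩).1.1 else v, ?_, ?_, ?_⟩
  · intro v hv
    simp only
    rw [dif_neg hv]
  · intro v hv
    simp only
    rw [dif_pos hv]
    have h1 := (e ⟨v, hv⟩).2
    rw [mem_sigma, mem_range] at h1
    exact ⟨h1.1, by omega⟩
  · intro M _ g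
    have h1 : ∏ v ∈ I, g (if h : v ∈ I then (e ⟨v, h⟩).1.1 else v) =
        ∏ v : {v // v ∈ I}, g (e v).1.1 := by
      rw [← prod_coe_sort I]
      apply prod_congr rfl
      intro v _
      rw [dif_pos v.2]
    rw [h1, Equiv.prod_comp e (fun p => g p.1.1),
      prod_coe_sort (I.sigma (fun v => range (z v))) (fun p => g p.1), prod_sigma]
    apply prod_congr rfl
    intro v _
    simp only
    rw [prod_const, card_range]

variable {α : Type*} [Fintype α] [DecidableEq α] [Zero α]

/-- the colourings outside `I` which leave a colour for every vertex of `I` -/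
noncomputable def CC (G : SimpleGraph V) (I : Finset V) : Finset (V → α) :=
  (Col α G Iᶜ).filter (fun c => ∀ v ∈ I, 1 ≤ (allow G c v).card)

/-- logarithms of the numbers of available colours -/
noncomputable def ll (G : SimpleGraph V) (c : V → α) (v : V) : ℝ :=
  Real.log ((allow G c v).card : ℝ)

theorem PF_eq (G : SimpleGraph V) (I : Finset V) (z : V → ℕ) :
    PF (CC (α := α) G I) I (ll G) (fun v => (z v : ℝ)) =
      ((∑ c ∈ CC (α := α) G I, ∏ v ∈ I, (allow G c v).card ^ z v : ℕ) : ℝ) := by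
  unfold PF
  rw [Nat.cast_sum]
  apply sum_congr rfl
  intro c hc
  rw [Real.exp_sum, Nat.cast_prod]
  apply prod_congr rfl
  intro v hv
  have h1 : 1 ≤ (allow G c v).card := (mem_filter.1 hc).2 v hv
  have h2 : (0 : ℝ) < ((allow G c v).card : ℝ) := by exact_mod_cast h1
  unfold ll
  rw [mul_comm, Real.exp_mul, Real.exp_log h2, Real.rpow_natCast, Nat.cast_pow]

theorem PF_le_col {G : SimpleGraph V} {I : Finset V}
    (hI : ∀ u ∈ I, ∀ v ∈ I, ¬ G.Adj u v) {z : V → ℕ} {φ : V → V}
    (h1 : ∀ v, v ∉ I → φ v = v) (h2 : ∀ v ∈ I, φ v ∈ I)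
    (h3 : ∀ (M : Type) [CommMonoid M] (g : V → M),
        ∏ v ∈ I, g (φ v) = ∏ v ∈ I, g v ^ z v) :
    PF (CC (α := α) G I) I (ll G) (fun v => (z v : ℝ)) ≤
      ((Col α (G.comap φ) univ).card : ℝ) := by
  rw [PF_eq]
  have h4 : ∑ c ∈ CC (α := α) G I, ∏ v ∈ I, (allow G c v).card ^ z v ≤
      (Col α (G.comap φ) univ).card := by
    rw [card_col_split (comap_indep hI h2), comap_col h1]
    have h5 : ∀ c ∈ Col α G Iᶜ, ∏ v ∈ I, (allow (G.comap φ) c v).card =
        ∏ v ∈ I, (allow G c v).card ^ z v := by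
      intro c _
      rw [← h3 ℕ (fun v => (allow G c v).card)]
      apply prod_congr rfl
      intro v hv
      rw [comap_allow hI h1 h2 c hv]
    rw [sum_congr rfl h5]
    apply sum_le_sum_of_subset
    exact filter_subset _ _
  exact_mod_cast h4

theorem col_eq_PF {G : SimpleGraph V} {I : Finset V}
    (hI : ∀ u ∈ I, ∀ v ∈ I, ¬ G.Adj u v) :
    ((Col α G univ).card : ℝ) =
      PF (CC (α := α) G I) I (ll G) (fun v => if v ∈ I then 1 else 0) := by
  have h0 : PF (CC (α := α) G I) I (ll G) (fun v => if v ∈ I then 1 else 0) =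
      PF (CC (α := α) G I) I (ll G) (fun v => (((if v ∈ I then 1 else 0 : ℕ)) : ℝ)) := by
    congr 1
    funext v
    split_ifs <;> simp
  rw [h0, PF_eq, card_col_split hI]
  have h1 : ∀ c ∈ CC (α := α) G I, ∏ v ∈ I, (allow G c v).card ^ (if v ∈ I then 1 else 0) =
      ∏ v ∈ I, (allow G c v).card := by
    intro c _
    apply prod_congr rfl
    intro v hv
    rw [if_pos hv, pow_one]
  rw [sum_congr rfl h1]
  have h2 : ∑ c ∈ Col α G Iᶜ, ∏ v ∈ I, (allow G c v).card =
      ∑ c ∈ CC (α := α) G I, ∏ v ∈ I, (allow G c v).card := by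
    unfold CC
    rw [sum_filter_of_ne]
    intro c _ hne v hv
    by_contra h
    apply hne
    exact prod_eq_zero hv (by omega)
  rw [h2]

theorem comap_e2 {G : SimpleGraph V} {I : Finset V}
    (hI : ∀ u ∈ I, ∀ v ∈ I, ¬ G.Adj u v) {z : V → ℕ} {φ : V → V}
    (h1 : ∀ v, v ∉ I → φ v = v) (h2 : ∀ v ∈ I, φ v ∈ I)
    (h3 : ∀ (M : Type) [CommMonoid M] (g : V → M),
        ∏ v ∈ I, g (φ v) = ∏ v ∈ I, g v ^ z v)
    (h4 : ∑ v ∈ I, dg G univ v ≤ ∑ v ∈ I, z v * dg G univ v) :
    e2 G univ ≤ e2 (G.comap φ) univ := by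
  rw [e2_split hI, e2_split (comap_indep hI h2), comap_e2_base h1]
  have g1 : ∑ v ∈ I, dg (G.comap φ) univ v = ∑ v ∈ I, dg G univ (φ v) :=
    sum_congr rfl (fun v hv => comap_dg hI h1 h2 hv)
  have g2 : ∑ v ∈ I, dg G univ (φ v) = ∑ v ∈ I, z v * dg G univ v := by
    have := h3 (Multiplicative ℕ) (fun v => Multiplicative.ofAdd (dg G univ v))
    have h3 := congrArg Multiplicative.toAdd this
    simpa using h3
  omega

/-- one independent set: at most `2 k + 3` neighbourhoods, up to the factor `q ^ (2 / k)` -/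
theorem tw_step (α : Type*) [Fintype α] [DecidableEq α] [Zero α] {G : SimpleGraph V}
    {I : Finset V} (hI : ∀ u ∈ I, ∀ v ∈ I, ¬ G.Adj u v) {k : ℕ} (hk : 1 ≤ k) :
    ∃ φ : V → V, (∀ v, v ∉ I → φ v = v) ∧ (∀ v ∈ I, φ v ∈ I) ∧
      (I.image φ).card ≤ 2 * k + 3 ∧ e2 G univ ≤ e2 (G.comap φ) univ ∧
      (Col α G univ).card ^ k ≤ Fintype.card α ^ 2 * (Col α (G.comap φ) univ).card ^ k := by
  have hq : 1 ≤ Fintype.card α := Fintype.card_pos_iff.2 ⟨0⟩
  set d : V → ℕ := fun v => dg G univ v with hd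
  obtain ⟨g, S, hS, hSc, hgS⟩ := exists_threshold (I.image d) k
  -- blocks
  have hcov : ∀ v ∈ I, ∃ s ∈ S, s ≤ d v ∧ d v ≤ s + g :=
    fun v hv => hS.2.2 (d v) (mem_image_of_mem _ hv)
  choose! s hs1 hs2 using hcov
  have hdiam : ∀ v ∈ I, ∀ w ∈ I, s v = s w → d v ≤ d w + g := by
    intro v hv w hw h
    have e1 := hs2 v hv
    have e2 := hs2 w hw
    omega
  have hstart : ∀ t ∈ S, ∃ v ∈ I, s v = t ∧ d v = t := by
    intro t ht
    obtain ⟨v, hv, hvt⟩ := mem_image.1 (hS.1 ht)
    refine ⟨v, hv, ?_, hvt⟩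
    have e1 := hs2 v hv
    rw [hvt] at e1
    rcases eq_or_lt_of_le e1.1 with h | h
    · exact h
    · have := hS.2.1 (s v) (hs1 v hv) t ht h
      omega
  -- the maximiser and its rounding
  obtain ⟨x, hx, hmin⟩ := exists_min_supp (CC (α := α) G I) I (ll G) d s
  obtain ⟨z, hz1, hz2, hz3, hz4⟩ := round_exists hx hmin hdiam
  have hone : (Col α G univ).card ≤ PF (CC (α := α) G I) I (ll G) x := by
    rw [col_eq_PF (α := α) hI]
    apply hx.2
    refine ⟨?_, ?_, ?_, ?_⟩
    · intro v
      simp only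
      split_ifs <;> norm_num
    · intro v hv
      simp [hv]
    · intro t
      have h1 : ∀ v ∈ I.filter (fun v => s v = t), (if v ∈ I then (1 : ℝ) else 0) = 1 := by
        intro v hv
        rw [if_pos (mem_filter.1 hv).1]
      rw [sum_congr rfl h1]
      simp
    · apply sum_congr rfl
      intro v hv
      simp only [if_pos hv, one_mul]
  have hsupp : (I.filter (fun v => z v ≠ 0)).card ≤ 2 * k + 3 := by
    have h1 : I.filter (fun v => z v ≠ 0) ⊆ sup x := by
      intro v hv
      rw [mem_sup]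
      exact hz1 v (mem_filter.1 hv).2
    have h2 := card_le_card h1
    have h3 := supp_card hx hmin
    have h4 : (I.image s).card ≤ S.card := by
      apply card_le_card
      intro t ht
      obtain ⟨v, hv, rfl⟩ := mem_image.1 ht
      exact hs1 v hv
    omega
  have hsum : ∑ v ∈ I, z v = I.card := by
    have h1 : ∀ v ∈ I, s v ∈ I.image s := fun v hv => mem_image_of_mem _ hv
    rw [← sum_fiberwise_of_maps_to h1, sum_congr rfl (fun t _ => hz2 t),
      ← card_eq_sum_card_fiberwise (fun v hv => mem_coe.2 (h1 v (mem_coe.1 hv)))]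
  -- finish from multiplicities
  have hfin : ∀ z' : V → ℕ, (∀ v, z' v ≠ 0 → z v ≠ 0) → ∑ v ∈ I, z' v = I.card →
      ∑ v ∈ I, d v ≤ ∑ v ∈ I, z' v * d v →
      Real.exp (-(2 * Real.log (Fintype.card α)) / k) *
        PF (CC (α := α) G I) I (ll G) (fun v => (z v : ℝ)) ≤
        PF (CC (α := α) G I) I (ll G) (fun v => (z' v : ℝ)) →
      ∃ φ : V → V, (∀ v, v ∉ I → φ v = v) ∧ (∀ v ∈ I, φ v ∈ I) ∧
      (I.image φ).card ≤ 2 * k + 3 ∧ e2 G univ ≤ e2 (G.comap φ) univ ∧
      (Col α G univ).card ^ k ≤ Fintype.card α ^ 2 * (Col α (G.comap φ) univ).card ^ k := by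
    intro z' hz' hsum' hdeg hP
    obtain ⟨φ, f1, f2, f3⟩ := exists_fibres I z' hsum'
    refine ⟨φ, f1, fun v hv => (f2 v hv).1, ?_, ?_, ?_⟩
    · refine (card_le_card ?_).trans hsupp
      intro w hw
      obtain ⟨v, hv, rfl⟩ := mem_image.1 hw
      exact mem_filter.2 ⟨(f2 v hv).1, hz' _ (f2 v hv).2⟩
    · exact comap_e2 hI f1 (fun v hv => (f2 v hv).1) f3 hdeg
    · have h1 := PF_le_col (α := α) hI f1 (fun v hv => (f2 v hv).1) f3
      have h2 : Real.exp (-(2 * Real.log (Fintype.card α)) / k) *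
          ((Col α G univ).card : ℝ) ≤ ((Col α (G.comap φ) univ).card : ℝ) := by
        refine le_trans ?_ h1
        refine le_trans ?_ hP
        apply mul_le_mul_of_nonneg_left _ (Real.exp_pos _).le
        exact hone.trans hz3
      have hk0 : (k : ℝ) ≠ 0 := by
        have : 0 < k := hk
        positivity
      have h3 := pow_le_pow_left₀ (by positivity) h2 k
      rw [mul_pow, ← Real.exp_nat_mul] at h3
      have hq0 : (0 : ℝ) < Fintype.card α := by exact_mod_cast hq
      have h4 : Real.exp ((k : ℝ) * (-(2 * Real.log (Fintype.card α)) / k)) =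
          ((Fintype.card α : ℝ) ^ 2)⁻¹ := by
        have e1 : (k : ℝ) * (-(2 * Real.log (Fintype.card α)) / k) =
            -(2 * Real.log (Fintype.card α)) := by
          field_simp
        rw [e1, Real.exp_neg]
        congr 1
        have e2 : 2 * Real.log (Fintype.card α) = ((2 : ℕ) : ℝ) * Real.log (Fintype.card α) := by
          norm_num
        rw [e2, Real.exp_nat_mul, Real.exp_log hq0]
      rw [h4] at h3
      have h5 : ((Col α G univ).card : ℝ) ^ k ≤
          (Fintype.card α : ℝ) ^ 2 * ((Col α (G.comap φ) univ).card : ℝ) ^ k := by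
        have e3 : (0 : ℝ) < (Fintype.card α : ℝ) ^ 2 := by positivity
        have e4 := mul_le_mul_of_nonneg_left h3 e3.le
        rwa [← mul_assoc, mul_inv_cancel₀ e3.ne', one_mul] at e4
      exact_mod_cast h5
  have hexp1 : Real.exp (-(2 * Real.log (Fintype.card α)) / k) ≤ 1 := by
    rw [Real.exp_le_one_iff]
    have h1 : 0 ≤ Real.log (Fintype.card α) := Real.log_nonneg (by exact_mod_cast hq)
    rw [neg_div]
    have h2 : 0 ≤ 2 * Real.log (Fintype.card α) / k := by positivity
    linarith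
  rcases hgS with hg0 | hgS
  · -- no degree is lost
    apply hfin z (fun v hv => hv) hsum (by omega)
    have h1 : 0 ≤ PF (CC (α := α) G I) I (ll G) (fun v => (z v : ℝ)) := by
      unfold PF
      positivity
    nlinarith
  · -- representatives of the blocks
    have hrep : ∀ t ∈ S, ∃ v, v ∈ I ∧ s v = t ∧ 1 ≤ z v := by
      intro t ht
      obtain ⟨v0, hv0, hsv0, _⟩ := hstart t ht
      have h1 : 0 < ∑ v ∈ I.filter (fun v => s v = t), z v := by
        rw [hz2 t]
        exact card_pos.2 ⟨v0, mem_filter.2 ⟨hv0, hsv0⟩⟩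
      obtain ⟨v, hv, hzv⟩ := exists_ne_zero_of_sum_ne_zero h1.ne'
      rw [mem_filter] at hv
      exact ⟨v, hv.1, hv.2, by omega⟩
    have hSne : S.Nonempty := card_pos.1 (by omega)
    obtain ⟨v00, _, _, _⟩ := hrep _ hSne.choose_spec
    have : Nonempty V := ⟨v00⟩
    choose! rp hr1 hr2 hr3 using hrep
    let f : ℕ → ℕ := fun j => if h : j < S.card then S.orderEmbOfFin rfl ⟨j, h⟩ else 0
    have hf1 : ∀ j, j < k + 2 → f j ∈ S := by
      intro j hj
      simp only [f]
      rw [dif_pos (by omega : j < S.card)]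
      exact orderEmbOfFin_mem _ _ _
    have hf2 : ∀ j, j + 1 < k + 2 → f j < f (j + 1) := by
      intro j hj
      simp only [f]
      rw [dif_pos (by omega : j < S.card), dif_pos (by omega : j + 1 < S.card)]
      apply (S.orderEmbOfFin rfl).strictMono
      simp [Fin.lt_def]
    have hll : ∀ c ∈ CC (α := α) G I, ∀ v ∈ I, 0 ≤ ll G c v ∧
        ll G c v ≤ Real.log (Fintype.card α) := by
      intro c hc v hv
      have h1 : 1 ≤ (allow G c v).card := (mem_filter.1 hc).2 v hv
      unfold ll
      constructor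
      · exact Real.log_nonneg (by exact_mod_cast h1)
      · apply Real.log_le_log (by exact_mod_cast h1)
        exact_mod_cast card_le_univ _
    obtain ⟨j, hj, hsh⟩ := shift hll (fun v => (z v : ℝ)) hk (fun j => rp (f j))
      (fun j hj => hr1 _ (hf1 j hj))
    set a := rp (f j) with ha
    set b := rp (f (j + 2)) with hb
    have haI : a ∈ I := hr1 _ (hf1 j (by omega))
    have hbI : b ∈ I := hr1 _ (hf1 (j + 2) (by omega))
    have hza : 1 ≤ z a := hr3 _ (hf1 j (by omega))
    have hzb : 1 ≤ z b := hr3 _ (hf1 (j + 2) (by omega))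
    have hsa : s a = f j := hr2 _ (hf1 j (by omega))
    have hsb : s b = f (j + 2) := hr2 _ (hf1 (j + 2) (by omega))
    have hgain : d a + g ≤ d b := by
      have e1 := hS.2.1 _ (hf1 j (by omega)) _ (hf1 (j + 1) (by omega)) (hf2 j (by omega))
      have e2 := hS.2.1 _ (hf1 (j + 1) (by omega)) _ (hf1 (j + 2) (by omega))
        (hf2 (j + 1) (by omega))
      have e3 := hs2 a haI
      have e4 := hs2 b hbI
      omega
    have hab : a ≠ b := by
      intro h
      have e1 := hf2 j (by omega)
      have e2 := hf2 (j + 1) (by omega)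
      rw [h] at hsa
      have e3 : f j = f (j + 2) := hsa.symm.trans hsb
      have e4 : f (j + 1) < f (j + 2) := e2
      omega
    -- the shifted multiplicities
    let z' : V → ℕ := fun v => if v = a then z v - 1 else if v = b then z v + 1 else z v
    have hz' : ∀ v, (z' v : ℝ) = z v + dif b a v := by
      intro v
      simp only [z', dif]
      by_cases h1 : v = a
      · subst h1
        rw [if_pos rfl, if_neg hab, if_pos rfl, Nat.cast_sub hza]
        push_cast
        ring
      · rw [if_neg h1]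
        by_cases h2 : v = b
        · subst h2
          simp [h1]
        · simp [h1, h2]
    apply hfin z'
    · intro v hv
      simp only [z'] at hv
      by_cases h1 : v = a
      · subst h1
        omega
      · rw [if_neg h1] at hv
        by_cases h2 : v = b
        · subst h2
          omega
        · rwa [if_neg h2] at hv
    · have h1 : ((∑ v ∈ I, z' v : ℕ) : ℝ) = ((I.card : ℕ) : ℝ) := by
        rw [Nat.cast_sum, sum_congr rfl (fun v _ => hz' v), sum_add_distrib, ← Nat.cast_sum, hsum]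
        have h2 := sum_dif_d hbI haI (fun _ => (1 : ℝ))
        simp only [mul_one, sub_self] at h2
        rw [h2, add_zero]
      exact_mod_cast h1
    · have h1 : ((∑ v ∈ I, z' v * d v : ℕ) : ℝ) =
          ((∑ v ∈ I, z v * d v : ℕ) : ℝ) + (d b - d a) := by
        rw [Nat.cast_sum, Nat.cast_sum, ← sum_dif_d hbI haI (fun v => (d v : ℝ)),
          ← sum_add_distrib]
        apply sum_congr rfl
        intro v _
        rw [Nat.cast_mul, hz' v, Nat.cast_mul]
        ring
      have h2 : ((∑ v ∈ I, z' v * d v + d a : ℕ) : ℝ) =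
          ((∑ v ∈ I, z v * d v + d b : ℕ) : ℝ) := by
        rw [Nat.cast_add, h1, Nat.cast_add]
        ring
      have h3 : ∑ v ∈ I, z' v * d v + d a = ∑ v ∈ I, z v * d v + d b := by exact_mod_cast h2
      omega
    · have h1 : (fun v => (z' v : ℝ)) = (fun v => (z v : ℝ)) + dif b a := by
        funext v
        exact hz' v
      rw [h1]
      exact hsh

/-- iterating over the colour classes -/
theorem tw_all (α : Type*) [Fintype α] [DecidableEq α] [Zero α] {G : SimpleGraph V}
    {c0 : V → α} (hc0 : ∀ u v, G.Adj u v → c0 u ≠ c0 v) {k : ℕ} (hk : 1 ≤ k) (T : Finset α) :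
    ∃ φ : V → V, (∀ v, c0 (φ v) = c0 v) ∧ (∀ v, c0 v ∉ T → φ v = v) ∧
      (∀ x ∈ T, ((univ.filter (fun v => c0 v = x)).image φ).card ≤ 2 * k + 3) ∧
      e2 G univ ≤ e2 (G.comap φ) univ ∧
      (Col α G univ).card ^ k ≤
        (Fintype.card α ^ 2) ^ T.card * (Col α (G.comap φ) univ).card ^ k := by
  induction T using Finset.induction_on with
  | empty =>
    refine ⟨id, fun _ => rfl, fun _ _ => rfl, fun x hx => absurd hx (notMem_empty x), ?_, ?_⟩
    · rw [SimpleGraph.comap_id]
    · rw [SimpleGraph.comap_id, card_empty, pow_zero, one_mul]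
  | insert x T hx ih =>
    obtain ⟨φ, h1, h2, h3, h4, h5⟩ := ih
    set I : Finset V := univ.filter (fun v => c0 v = x) with hI
    have hmem : ∀ v, v ∈ I ↔ c0 v = x := by
      intro v
      rw [hI, mem_filter]
      exact ⟨fun h => h.2, fun h => ⟨mem_univ v, h⟩⟩
    have hind : ∀ u ∈ I, ∀ v ∈ I, ¬ (G.comap φ).Adj u v := by
      intro u hu v hv h
      rw [SimpleGraph.comap_adj] at h
      apply hc0 _ _ h
      rw [h1, h1, (hmem u).1 hu, (hmem v).1 hv]
    obtain ⟨ψ, g1, g2, g3, g4, g5⟩ := tw_step α hind hk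
    have hcc : (G.comap φ).comap ψ = G.comap (φ ∘ ψ) := by
      rw [SimpleGraph.comap_comap]
    rw [hcc] at g4 g5
    have hψ : ∀ v, c0 (ψ v) = c0 v := by
      intro v
      by_cases hv : v ∈ I
      · rw [(hmem _).1 (g2 v hv), (hmem v).1 hv]
      · rw [g1 v hv]
    refine ⟨φ ∘ ψ, ?_, ?_, ?_, h4.trans g4, ?_⟩
    · intro v
      rw [Function.comp_apply, h1, hψ]
    · intro v hv
      rw [mem_insert, not_or] at hv
      rw [Function.comp_apply, g1 v (fun h => hv.1 ((hmem v).1 h)), h2 v hv.2]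
    · intro y hy
      rw [← image_image]
      by_cases hyx : y = x
      · subst hyx
        exact card_image_le.trans g3
      · have hyT : y ∈ T := by
          rcases mem_insert.1 hy with h | h
          · exact absurd h hyx
          · exact h
        have h6 : (univ.filter (fun v => c0 v = y)).image ψ = univ.filter (fun v => c0 v = y) := by
          have h7 : ∀ v ∈ univ.filter (fun v => c0 v = y), ψ v = id v := by
            intro v hv
            rw [mem_filter] at hv
            apply g1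
            intro h
            exact hyx (hv.2.symm.trans ((hmem v).1 h))
          rw [image_congr (fun v hv => h7 v hv), image_id]
        rw [h6]
        exact h3 y hyT
    · rw [card_insert_of_notMem hx, pow_succ, mul_assoc]
      exact h5.trans (Nat.mul_le_mul_left _ g5)

theorem tw_final (α : Type*) [Fintype α] [DecidableEq α] [Zero α] {G : SimpleGraph V}
    {c0 : V → α} (hc0 : ∀ u v, G.Adj u v → c0 u ≠ c0 v) {k : ℕ} (hk : 1 ≤ k) :
    ∃ φ : V → V, (univ.image φ).card ≤ (2 * k + 3) * Fintype.card α ∧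
      e2 G univ ≤ e2 (G.comap φ) univ ∧
      (Col α G univ).card ^ k ≤
        Fintype.card α ^ (2 * Fintype.card α) * (Col α (G.comap φ) univ).card ^ k := by
  obtain ⟨φ, _, _, h3, h4, h5⟩ := tw_all α hc0 hk univ
  refine ⟨φ, ?_, h4, ?_⟩
  · have h6 : univ.image φ ⊆ (univ : Finset α).biUnion
        (fun x => (univ.filter (fun v => c0 v = x)).image φ) := by
      intro w hw
      rw [mem_image] at hw
      obtain ⟨v, _, rfl⟩ := hw
      rw [mem_biUnion]
      exact ⟨c0 v, mem_univ _, mem_image_of_mem _ (mem_filter.2 ⟨mem_univ v, rfl⟩)⟩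
    refine (card_le_card h6).trans (card_biUnion_le.trans ?_)
    calc ∑ x : α, ((univ.filter (fun v => c0 v = x)).image φ).card ≤ ∑ _x : α, (2 * k + 3) :=
          sum_le_sum h3
      _ = (2 * k + 3) * Fintype.card α := by
          rw [sum_const, card_univ, smul_eq_mul, mul_comm]
  · rwa [card_univ, ← pow_mul] at h5

end Pool.Agent.H521_col.Tw
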